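import Mathlib

/-!
Definitions for the classification of the irreducible Askey-Wilson modules of polynomial type.
A module for the Askey-Wilson algebra is a vector space with two operators `A`, `B` (`B` is the
generator A-star) that satisfy the two Askey-Wilson relations.
-/

namespace Pool.Agent.P.MP_af5c07_al

open Polynomial Module

variable {K : Type*} [Field K]

/-- The eight scalars; a final `s` stands for the star. -/
structure Par (K : Type*) where
  β : K
  γ : K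
  γs : K
  ρ : K
  ρs : K
  ω : K
  η : K
  ηs : K

section modules

variable {V : Type*} [AddCommGroup V] [Module K V] {V' : Type*} [AddCommGroup V'] [Module K V']

/-- The first Askey-Wilson relation. -/
def AW1 (p : Par K) (A B : End K V) : Prop :=
  A * A * B - p.β • (A * B * A) + B * A * A - p.γ • (A * B + B * A) - p.ρ • B
    = p.γs • (A * A) + p.ω • A + p.η • (1 : End K V)

/-- The second Askey-Wilson relation. -/
def AW2 (p : Par K) (A B : End K V) : Prop :=
  B * B * A - p.β • (B * A * B) + A * B * B - p.γs • (B * A + A * B) - p.ρs • A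
    = p.γ • (B * B) + p.ω • B + p.ηs • (1 : End K V)

/-- Irreducible: nonzero, and without proper nonzero invariant subspace. -/
def Irr (A B : End K V) : Prop :=
  Nontrivial V ∧
    ∀ W : Submodule K V, (∀ w ∈ W, A w ∈ W) → (∀ w ∈ W, B w ∈ W) → W = ⊥ ∨ W = ⊤

/-- Polynomial type: in some basis indexed by the naturals below `N` (finite or infinite), `A` is
irreducible tridiagonal and `B` is diagonal. -/
def PolyType (A B : End K V) : Prop :=
  ∃ (N : ℕ∞) (b : Basis {i : ℕ // (i : ℕ∞) < N} K V), ∀ i j,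
    (i.1 + 1 < j.1 ∨ j.1 + 1 < i.1 → b.repr (A (b j)) i = 0) ∧
    (i.1 + 1 = j.1 ∨ j.1 + 1 = i.1 → b.repr (A (b j)) i ≠ 0) ∧
    (i ≠ j → b.repr (B (b j)) i = 0)

/-- Isomorphism of modules. -/
def Iso (A B : End K V) (A' B' : End K V') : Prop :=
  ∃ e : V ≃ₗ[K] V', (∀ w, e (A w) = A' (e w)) ∧ ∀ w, e (B w) = B' (e w)

end modules

/-- Data: a dimension `N` and three sequences. -/
structure Data (K : Type*) where
  N : ℕ∞
  t : ℤ → K
  a : ℤ → K
  x : ℤ → K

/-- The indices `0 ≤ i < N`. -/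
def Data.In (D : Data K) (i : ℤ) : Prop := 0 ≤ i ∧ (i.toNat : ℕ∞) < D.N

/-- The last index `N - 1` (for finite `N`). -/
def Data.d (D : Data K) : ℤ := (D.N.toNat : ℤ) - 1

/-- In some basis `v i`, `0 ≤ i < N`, one has `A (v j) = v (j+1) + a j v j + x j v (j-1)` and
`B (v j) = t j v j`. -/
def Realizes {V : Type*} [AddCommGroup V] [Module K V] (D : Data K) (A B : End K V) : Prop :=
  ∃ b : Basis {i : ℤ // D.In i} K V, ∀ i j,
    b.repr (A (b j)) i = (if i.1 = j.1 + 1 then 1 else if i.1 = j.1 then D.a j.1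
      else if i.1 + 1 = j.1 then D.x j.1 else 0) ∧
    b.repr (B (b j)) i = if i.1 = j.1 then D.t j.1 else 0

def Par.Q (p : Par K) (s u : K) : K := s ^ 2 - p.β * s * u + u ^ 2 - p.γs * (s + u) - p.ρs

def Par.G (p : Par K) (s : K) : K := p.γ * s ^ 2 + p.ω * s + p.ηs

def Par.R (p : Par K) (s a : K) : K :=
  a ^ 2 * (p.γs - (2 - p.β) * s) + a * (p.ω + 2 * p.γ * s) + p.η + p.ρ * s

def Par.Z (p : Par K) (s u m : K) : K :=
  (m - p.γ * s) * (m - p.γ * s - p.ω) - p.η * (s + u) - p.ρ * s * u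

/-- The Casimir value. -/
def zeta (p : Par K) (D : Data K) : K := p.Z (D.t 0) (D.t (-1)) (D.a 0 * (D.t 0 - D.t 1))

/-- The closed formulas for `a i` and `x (i+1)`, with the two supplementary equations at the places
where a denominator vanishes. -/
def SolAt (p : Par K) (D : Data K) (i : ℤ) : Prop :=
  D.a i * (D.t i - D.t (i - 1)) * (D.t i - D.t (i + 1)) = p.G (D.t i) ∧
  D.x (i + 1) * (D.t i - D.t (i + 2)) * (D.t (i - 1) - D.t (i + 1))
    = p.Z (D.t i) (D.t (i + 1)) (D.a i * (D.t i - D.t (i - 1))) - zeta p D ∧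
  (D.In (i + 1) → D.t i = D.t (i + 1) →
    (D.a i + D.a (i + 1)) * (D.t i - D.t (i - 1)) = 2 * p.γ * D.t i + p.ω) ∧
  (D.t (i - 1) = D.t (i + 1) →
    (D.x i + D.x (i + 1)) * (D.t i - D.t (i + 2)) = p.R (D.t i) (D.a i))

/-- The data that solve the Askey-Wilson relations. -/
def Sol (p : Par K) (D : Data K) : Prop :=
  (∀ i, D.x i ≠ 0 ↔ D.In (i - 1) ∧ D.In i) ∧
  ((D.N = 1 ∧ D.a 0 * p.Q (D.t 0) (D.t 0) = p.G (D.t 0) ∧ p.R (D.t 0) (D.a 0) = 0) ∨
   (2 ≤ D.N ∧ (∀ i, D.t (i + 1) + D.t (i - 1) = p.β * D.t i + p.γs) ∧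
     p.Q (D.t 0) (D.t 1) = 0 ∧ ∀ i, D.In i → SolAt p D i))

/-- The monic orthogonal polynomials of the three-term recurrence. -/
noncomputable def Data.pol (D : Data K) : ℕ → K[X]
  | 0 => 1
  | 1 => X - C (D.a 0)
  | n + 2 => (X - C (D.a (n + 1))) * D.pol (n + 1) - C (D.x (n + 1)) * D.pol n

/-- The characteristic polynomial of `A` (zero in infinite dimension). -/
noncomputable def Data.chi (D : Data K) : K[X] := if D.N = ⊤ then 0 else D.pol D.N.toNat

/-- The eigenvalues are mutually distinct. -/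
def Data.Inj (D : Data K) : Prop := Set.InjOn D.t {i | D.In i}

/-- Doubled eigenvalues and an irreducible quadratic in the middle. -/
def Data.Quad (D : Data K) : Prop :=
  ∃ k : ℕ, D.N = 2 * k + 2 ∧ Set.InjOn D.t (Set.Icc 0 (k : ℤ)) ∧ D.t k = D.t (k + 1) ∧
    ∀ s : K, (s - D.a k) * (s - D.a (k + 1)) ≠ D.x (k + 1)

/-- The periodic family. -/
def Data.Per (D : Data K) : Prop :=
  ∃ n r : ℕ, D.N = n * r ∧ IsLeast {m : ℕ | 0 < m ∧ ∀ i, D.t (i + m) = D.t i} n ∧
    (D.t (-1) = D.t 1 ∨ (D.t (-1) = D.t 0 ∧ D.a 0 ≠ D.a D.d)) ∧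
    (r = 1 ∨ ∃ f : K[X], Irreducible f ∧
      D.chi = f.comp (D.pol n + C (D.a 0 - D.a n) * D.pol (n - 1)))

/-- The three families. -/
def Data.Good (D : Data K) : Prop := D.Inj ∨ D.Quad ∨ D.Per

/-- The initial triple at the vertex `i` in the direction `j`. -/
def Data.st (D : Data K) (i j : ℤ) : K × K × K := (D.t i, D.t j, D.a i * (D.t i - D.t j))

/-- The isomorphism criterion. -/
def Equi (p : Par K) (D E : Data K) : Prop :=
  D.chi = E.chi ∧
  ((D.N = 1 ∧ E.t 0 = D.t 0) ∨ E.st 0 1 = D.st 0 1 ∨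
    (D.N ≠ ⊤ ∧ E.st 0 1 = D.st D.d (D.d - 1)) ∨
    (D.Per ∧ zeta p E = zeta p D ∧ ∃ i, D.In i ∧ D.t i = E.t 0))

end Pool.Agent.P.MP_af5c07_al
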