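import Mathlib
import Pool.Agent.P.MP_af5c07_al.Defs

/-!
Coordinates attached to a tridiagonal basis.
-/

set_option linter.unusedSectionVars false

namespace Pool.Agent.P.MP_af5c07_al

open Polynomial Module

variable {K : Type*} [Field K] {V : Type*} [AddCommGroup V] [Module K V]

namespace Data

variable {D : Data K}

theorem In_of_nat {m : ℕ} (h : D.N = m) (i : ℤ) : D.In i ↔ 0 ≤ i ∧ i < m := by
  unfold In
  rw [h]
  constructor
  · rintro ⟨h1, h2⟩
    have : i.toNat < m := by exact_mod_cast h2
    omega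
  · rintro ⟨h1, h2⟩
    refine ⟨h1, ?_⟩
    have : i.toNat < m := by omega
    exact_mod_cast this

theorem In_of_top (h : D.N = ⊤) (i : ℤ) : D.In i ↔ 0 ≤ i := by
  unfold In
  rw [h]
  simp

theorem N_eq (h : D.N ≠ ⊤) : D.N = (D.N.toNat : ℕ) := (ENat.natCast_toNat h).symm

theorem In_fin (h : D.N ≠ ⊤) (i : ℤ) : D.In i ↔ 0 ≤ i ∧ i ≤ D.d := by
  rw [In_of_nat (N_eq h)]
  unfold d
  omega

theorem In.nonneg {i : ℤ} (h : D.In i) : 0 ≤ i := h.1

theorem In.down {i j : ℤ} (h : D.In j) (h0 : 0 ≤ i) (hij : i ≤ j) : D.In i := by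
  by_cases hN : D.N = ⊤
  · rwa [In_of_top hN]
  · rw [In_fin hN] at h ⊢; omega

theorem last_of {j : ℤ} (h : D.In j) (h' : ¬ D.In (j + 1)) : D.N ≠ ⊤ ∧ D.d = j := by
  by_cases hN : D.N = ⊤
  · exfalso; apply h'; rw [In_of_top hN]; have := h.nonneg; omega
  · rw [In_fin hN] at h h'
    exact ⟨hN, by omega⟩

theorem two_le_iff : 2 ≤ D.N ↔ D.In 1 := by
  unfold In
  simp only [zero_le_one, Int.toNat_one, Nat.cast_one, true_and]
  exact Order.add_one_le_iff_of_not_isMax (x := (1 : ℕ∞)) (by
    rw [not_isMax_iff]; exact ⟨2, by norm_num⟩)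

theorem In_zero_of_one (h : D.N = 1) : D.In 0 := by
  rw [In_of_nat (m := 1) (by simpa using h)]; simp

theorem not_In_one (h : D.N = 1) : ¬ D.In 1 := by
  rw [In_of_nat (m := 1) (by simpa using h)]; simp

theorem eq_one_of (h0 : D.In 0) (h1 : ¬ D.In 1) : D.N = 1 := by
  obtain ⟨hN, hd⟩ := last_of h0 (by simpa using h1)
  unfold d at hd
  have : D.N.toNat = 1 := by omega
  rw [N_eq hN, this]; simp

end Data

/-- Coordinates and basis vectors. -/
structure Ctx (D : Data K) (A B : End K V) where
  c : ℤ → V →ₗ[K] K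
  v : ℤ → V
  c_out : ∀ i, ¬ D.In i → ∀ w, c i w = 0
  c_inj : ∀ w, (∀ i, c i w = 0) → w = 0
  c_fin : ∀ w, ∃ M, ∀ i, M < i → c i w = 0
  c_v : ∀ i j, D.In j → c i (v j) = if i = j then 1 else 0
  v_out : ∀ j, ¬ D.In j → v j = 0
  c_A : ∀ i w, D.In i → c i (A w) = c (i - 1) w + D.a i * c i w + D.x (i + 1) * c (i + 1) w
  c_B : ∀ i w, c i (B w) = D.t i * c i w

namespace Ctx

variable {D : Data K} {A B : End K V} (H : Ctx D A B)

theorem ext' {w w' : V} (h : ∀ i, D.In i → H.c i w = H.c i w') : w = w' := by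
  rw [← sub_eq_zero]
  apply H.c_inj
  intro i
  by_cases hi : D.In i
  · rw [map_sub, h i hi, sub_self]
  · exact H.c_out i hi _

open Classical in
theorem c_v' (i j : ℤ) : H.c i (H.v j) = if i = j ∧ D.In j then 1 else 0 := by
  by_cases hj : D.In j
  · rw [H.c_v i j hj]; simp [hj]
  · rw [H.v_out j hj]; simp [hj]

theorem c_v_self {j : ℤ} (hj : D.In j) : H.c j (H.v j) = 1 := by rw [H.c_v j j hj]; simp

theorem c_v_ne {i j : ℤ} (h : i ≠ j) : H.c i (H.v j) = 0 := by rw [H.c_v']; simp [h]

theorem v_ne {j : ℤ} (hj : D.In j) : H.v j ≠ 0 := by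
  intro h
  have := H.c_v_self hj
  rw [h, map_zero] at this
  exact zero_ne_one this

theorem In_of_ne {i : ℤ} {w : V} (h : H.c i w ≠ 0) : D.In i := by
  by_contra h'
  exact h (H.c_out i h' w)

theorem c_neg {i : ℤ} (hi : i < 0) (w : V) : H.c i w = 0 :=
  H.c_out i (fun h => by have := h.nonneg; omega) w

theorem mem_of_v {W : Submodule K V} (hW : ∀ j, D.In j → H.v j ∈ W) (w : V) : w ∈ W := by
  obtain ⟨M, hM⟩ := H.c_fin w
  have key : ∀ n : ℕ, ∀ w : V, (∀ i, (n : ℤ) ≤ i → H.c i w = 0) → w ∈ W := by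
    intro n
    induction n with
    | zero =>
      intro w hw
      have : w = 0 := H.c_inj w fun i => by
        by_cases hi : 0 ≤ i
        · exact hw i (by simpa using hi)
        · exact H.c_neg (by omega) w
      rw [this]; exact W.zero_mem
    | succ n ih =>
      intro w hw
      have h1 : w - H.c n w • H.v n ∈ W := by
        apply ih
        intro i hi
        rw [map_sub, map_smul, smul_eq_mul, H.c_v']
        by_cases hin : i = n
        · subst hin
          by_cases hI : D.In n
          · simp [hI]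
          · simp [H.c_out _ hI]
        · rw [hw i (by push_cast; omega)]; simp [hin]
      have h2 : H.c n w • H.v n ∈ W := by
        by_cases hI : D.In n
        · exact W.smul_mem _ (hW _ hI)
        · rw [H.v_out _ hI, smul_zero]; exact W.zero_mem
      simpa using W.add_mem h1 h2
  exact key (M + 1).toNat w fun i hi => hM i (by omega)

include H in
theorem realizes : Realizes D A B := by
  classical
  have hli : LinearIndependent K (fun j : {i : ℤ // D.In i} => H.v j.1) := by
    rw [linearIndependent_iff']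
    intro s g hg i hi
    have := congrArg (H.c i.1) hg
    rw [map_sum, map_zero, Finset.sum_eq_single i] at this
    · simpa [H.c_v_self i.2] using this
    · intro j _ hj
      rw [map_smul, H.c_v_ne (fun h => hj (Subtype.ext h.symm))]; simp
    · intro h; exact absurd hi h
  have hsp : ⊤ ≤ Submodule.span K (Set.range fun j : {i : ℤ // D.In i} => H.v j.1) := by
    intro w _
    exact H.mem_of_v (fun j hj => Submodule.subset_span (Set.mem_range.2 ⟨⟨j, hj⟩, rfl⟩)) w
  let b := Basis.mk hli hsp
  have hb : ∀ j, b j = H.v j.1 := fun j => Basis.mk_apply hli hsp j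
  have hrepr : ∀ (i : {i : ℤ // D.In i}) (w : V), b.repr w i = H.c i.1 w := by
    intro i w
    have : b.coord i = H.c i.1 := by
      refine b.ext fun j => ?_
      rw [Basis.coord_apply, Basis.repr_self, hb, H.c_v _ _ j.2, Finsupp.single_apply]
      by_cases h : j = i
      · simp [h]
      · have : i.1 ≠ j.1 := fun h' => h (Subtype.ext h'.symm)
        simp [h, this]
    rw [← this, Basis.coord_apply]
  refine ⟨b, fun i j => ⟨?_, ?_⟩⟩
  · rw [hrepr, hb, H.c_A _ _ i.2, H.c_v _ _ j.2, H.c_v _ _ j.2, H.c_v _ _ j.2]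
    by_cases h1 : i.1 = j.1 + 1
    · have : i.1 - 1 = j.1 := by omega
      have h2 : i.1 ≠ j.1 := by omega
      have h3 : i.1 + 1 ≠ j.1 := by omega
      simp [this, h2, h3, if_pos h1]
    · have h1' : i.1 - 1 ≠ j.1 := by omega
      by_cases h2 : i.1 = j.1
      · have h3 : i.1 + 1 ≠ j.1 := by omega
        rw [if_neg h1', if_pos h2, if_neg h3, if_neg h1, if_pos h2, h2]; simp
      · by_cases h3 : i.1 + 1 = j.1
        · rw [if_neg h1', if_neg h2, if_pos h3, if_neg h1, if_neg h2, if_pos h3, h3]; simp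
        · rw [if_neg h1', if_neg h2, if_neg h3, if_neg h1, if_neg h2, if_neg h3]; simp
  · rw [hrepr, hb, H.c_B, H.c_v _ _ j.2]
    by_cases h2 : i.1 = j.1
    · simp [h2]
    · simp [h2]

end Ctx

/-- A basis as in `Realizes` gives coordinates. -/
theorem Realizes.ctx {D : Data K} {A B : End K V} (h : Realizes D A B) : Nonempty (Ctx D A B) := by
  classical
  obtain ⟨b, hb⟩ := h
  let c : ℤ → V →ₗ[K] K := fun i => if h : D.In i then b.coord ⟨i, h⟩ else 0
  have hc : ∀ i (h : D.In i) w, c i w = b.repr w ⟨i, h⟩ := by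
    intro i h w; simp [c, h]
  have hc0 : ∀ i, ¬ D.In i → ∀ w, c i w = 0 := by
    intro i h w; simp [c, h]
  have hcb : ∀ i (j : {i : ℤ // D.In i}), c i (b j) = if i = j.1 then 1 else 0 := by
    intro i j
    by_cases hi : D.In i
    · rw [hc i hi, Basis.repr_self, Finsupp.single_apply]
      by_cases h : i = j.1
      · subst h; simp
      · have : j ≠ ⟨i, hi⟩ := fun h' => h (by rw [h'])
        simp [h, this]
    · rw [hc0 i hi]
      have : i ≠ j.1 := fun h => hi (h ▸ j.2)
      simp [this]
  refine ⟨⟨c, fun j => if h : D.In j then b ⟨j, h⟩ else 0, hc0, ?_, ?_, ?_, ?_, ?_, ?_⟩⟩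
  · intro w hw
    apply b.repr.injective
    ext i
    rw [← hc i.1 i.2, hw]; simp
  · intro w
    obtain ⟨M, hM⟩ := ((b.repr w).support.image Subtype.val).bddAbove
    refine ⟨M, fun i hi => ?_⟩
    by_cases hI : D.In i
    · rw [hc i hI]
      by_contra hne
      have : i ≤ M := hM (by
        simp only [Finset.coe_image, Set.mem_image, Finset.mem_coe]
        exact ⟨⟨i, hI⟩, Finsupp.mem_support_iff.2 hne, rfl⟩)
      omega
    · exact hc0 i hI w
  · intro i j hj
    simp only [hj, dif_pos]
    exact hcb i ⟨j, hj⟩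
  · intro j hj; simp [hj]
  · intro i w hi
    have : (c i).comp A = c (i - 1) + D.a i • c i + D.x (i + 1) • c (i + 1) := by
      refine b.ext fun j => ?_
      simp only [LinearMap.comp_apply, LinearMap.add_apply, LinearMap.smul_apply, smul_eq_mul]
      rw [hc i hi, (hb ⟨i, hi⟩ j).1, hcb, hcb, hcb]
      by_cases h1 : i = j.1 + 1
      · have : i - 1 = j.1 := by omega
        have h2 : i ≠ j.1 := by omega
        have h3 : i + 1 ≠ j.1 := by omega
        simp [this, h2, h3, if_pos h1]
      · have h1' : i - 1 ≠ j.1 := by omega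
        by_cases h2 : i = j.1
        · have h3 : i + 1 ≠ j.1 := by omega
          simp only
          rw [if_neg h1', if_pos h2, if_neg h3, if_neg h1, if_pos h2, h2]; simp
        · by_cases h3 : i + 1 = j.1
          · simp only
            rw [if_neg h1', if_neg h2, if_pos h3, if_neg h1, if_neg h2, if_pos h3, h3]; simp
          · simp only
            rw [if_neg h1', if_neg h2, if_neg h3, if_neg h1, if_neg h2, if_neg h3]; simp
    exact LinearMap.congr_fun this w
  · intro i w
    by_cases hi : D.In i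
    · have : (c i).comp B = D.t i • c i := by
        refine b.ext fun j => ?_
        simp only [LinearMap.comp_apply, LinearMap.smul_apply, smul_eq_mul]
        rw [hc i hi, (hb ⟨i, hi⟩ j).2, hcb]
        by_cases h2 : i = j.1
        · simp [h2]
        · simp [h2]
      exact LinearMap.congr_fun this w
    · rw [hc0 i hi, hc0 i hi]; simp

/-- Every datum is realized. -/
theorem exists_realizes (D : Data K) :
    ∃ A B : End K ({i : ℤ // D.In i} →₀ K), Realizes D A B := by
  classical
  let b : Basis {i : ℤ // D.In i} K ({i : ℤ // D.In i} →₀ K) := Finsupp.basisSingleOne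
  let e : ℤ → ({i : ℤ // D.In i} →₀ K) := fun j => if h : D.In j then b ⟨j, h⟩ else 0
  have he : ∀ (i : {i : ℤ // D.In i}) (j : ℤ), b.repr (e j) i = if i.1 = j then 1 else 0 := by
    intro i j
    by_cases hj : D.In j
    · simp only [e, hj, dif_pos, Basis.repr_self, Finsupp.single_apply]
      by_cases h : i.1 = j
      · subst h; simp
      · have : (⟨j, hj⟩ : {i : ℤ // D.In i}) ≠ i := fun h' => h (by rw [← h'])
        simp [h, this]
    · have : i.1 ≠ j := fun h => hj (h ▸ i.2)
      simp [e, hj, this]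
  refine ⟨b.constr K fun j => e (j.1 + 1) + D.a j.1 • e j.1 + D.x j.1 • e (j.1 - 1),
    b.constr K fun j => D.t j.1 • e j.1, b, fun i j => ⟨?_, ?_⟩⟩
  · rw [Basis.constr_basis]
    simp only [map_add, map_smul, Finsupp.add_apply, Finsupp.smul_apply, he, smul_eq_mul]
    by_cases h1 : i.1 = j.1 + 1
    · have h2 : i.1 ≠ j.1 := by omega
      have h3 : i.1 ≠ j.1 - 1 := by omega
      simp [h2, h3, if_pos h1]
    · by_cases h2 : i.1 = j.1
      · have h3 : i.1 ≠ j.1 - 1 := by omega
        rw [if_neg h1, if_pos h2, if_neg h3, if_neg h1, if_pos h2]; simp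
      · by_cases h3 : i.1 + 1 = j.1
        · have h4 : i.1 = j.1 - 1 := by omega
          rw [if_neg h1, if_neg h2, if_pos h4, if_neg h1, if_neg h2, if_pos h3]; simp
        · have h4 : i.1 ≠ j.1 - 1 := by omega
          rw [if_neg h1, if_neg h2, if_neg h4, if_neg h1, if_neg h2, if_neg h3]; simp
  · rw [Basis.constr_basis]
    simp only [map_smul, Finsupp.smul_apply, he, smul_eq_mul]
    by_cases h2 : i.1 = j.1
    · simp [h2]
    · simp [h2]

end Pool.Agent.P.MP_af5c07_al
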