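import Mathlib
import Pool.Agent.P.MP_af5c07_al.Ctx

/-!
The Askey-Wilson relations entry by entry, and their closed-form solution.
-/

set_option linter.unusedSectionVars false

namespace Pool.Agent.P.MP_af5c07_al

open Polynomial Module

variable {K : Type*} [Field K] {V : Type*} [AddCommGroup V] [Module K V]

/-- The off-diagonal products vanish exactly outside the range. -/
def Data.HX (D : Data K) : Prop := ∀ i, D.x i ≠ 0 ↔ D.In (i - 1) ∧ D.In i

theorem Data.HX.zero_of {D : Data K} (h : D.HX) {i : ℤ} (hi : ¬ D.In i) : D.x i = 0 := by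
  by_contra h'; exact hi ((h i).1 h').2

theorem Data.HX.zero_of_le {D : Data K} (h : D.HX) {i : ℤ} (hi : i ≤ 0) : D.x i = 0 := by
  by_contra h'; have := ((h i).1 h').1.nonneg; omega

theorem Data.HX.ne {D : Data K} (h : D.HX) {i : ℤ} (hi : D.In i) (h1 : 1 ≤ i) : D.x i ≠ 0 :=
  (h i).2 ⟨hi.down (by omega) (by omega), hi⟩

/-- The entrywise form of the relations. -/
structure Raw (p : Par K) (D : Data K) : Prop where
  e0 : ∀ i, D.In i → D.In (i + 2) → D.t i - p.β * D.t (i + 1) + D.t (i + 2) - p.γs = 0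
  e3 : ∀ i, D.In i → D.In (i + 1) →
    (D.a i + D.a (i + 1)) * (D.t i + D.t (i + 1) - p.γs)
      - p.β * (D.a i * D.t i + D.a (i + 1) * D.t (i + 1)) - p.γ * (D.t i + D.t (i + 1)) - p.ω = 0
  e4 : ∀ i, D.In i → D.x (i + 1) * (2 * D.t i - p.β * D.t (i + 1) - p.γs)
    + D.x i * (2 * D.t i - p.β * D.t (i - 1) - p.γs) - p.R (D.t i) (D.a i) = 0
  e1 : ∀ i, D.In i → D.In (i + 1) → p.Q (D.t i) (D.t (i + 1)) = 0
  e2 : ∀ i, D.In i → D.a i * p.Q (D.t i) (D.t i) - p.G (D.t i) = 0

namespace Ctx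

variable {D : Data K} {A B : End K V} (H : Ctx D A B)

theorem c_A_pred (hx : D.HX) {i : ℤ} (hi : D.In i) (w : V) :
    H.c (i - 1) (A w) = H.c (i - 2) w + D.a (i - 1) * H.c (i - 1) w + D.x i * H.c i w := by
  by_cases h0 : i = 0
  · subst h0
    rw [H.c_neg (by norm_num), H.c_neg (by norm_num), H.c_neg (by norm_num), hx.zero_of_le le_rfl]
    simp
  · have := hi.nonneg
    rw [H.c_A _ _ (hi.down (by omega) (by omega))]
    have e1 : i - 1 - 1 = i - 2 := by ring
    have e2 : i - 1 + 1 = i := by ring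
    rw [e1, e2]

theorem x_c_A_succ (hx : D.HX) (i : ℤ) (w : V) :
    D.x (i + 1) * H.c (i + 1) (A w)
      = D.x (i + 1) * (H.c i w + D.a (i + 1) * H.c (i + 1) w + D.x (i + 2) * H.c (i + 2) w) := by
  by_cases h : D.In (i + 1)
  · rw [H.c_A _ _ h]
    have e1 : i + 1 - 1 = i := by ring
    have e2 : i + 1 + 1 = i + 2 := by ring
    rw [e1, e2]
  · rw [hx.zero_of h]; simp

theorem rel1_coord (hx : D.HX) (p : Par K) {i : ℤ} (hi : D.In i) (w : V) :
    H.c i ((A * A * B - p.β • (A * B * A) + B * A * A - p.γ • (A * B + B * A) - p.ρ • B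
      - (p.γs • (A * A) + p.ω • A + p.η • (1 : End K V))) w)
    = H.c (i - 2) w * (D.t (i - 2) - p.β * D.t (i - 1) + D.t i - p.γs)
      + H.c (i - 1) w * ((D.a (i - 1) + D.a i) * (D.t (i - 1) + D.t i - p.γs)
        - p.β * (D.a (i - 1) * D.t (i - 1) + D.a i * D.t i) - p.γ * (D.t (i - 1) + D.t i) - p.ω)
      + H.c i w * (D.x (i + 1) * (2 * D.t i - p.β * D.t (i + 1) - p.γs)
        + D.x i * (2 * D.t i - p.β * D.t (i - 1) - p.γs) - p.R (D.t i) (D.a i))
      + D.x (i + 1) * H.c (i + 1) w * ((D.a i + D.a (i + 1)) * (D.t i + D.t (i + 1) - p.γs)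
        - p.β * (D.a i * D.t i + D.a (i + 1) * D.t (i + 1)) - p.γ * (D.t i + D.t (i + 1)) - p.ω)
      + D.x (i + 1) * D.x (i + 2) * H.c (i + 2) w
        * (D.t i - p.β * D.t (i + 1) + D.t (i + 2) - p.γs) := by
  simp only [LinearMap.sub_apply, LinearMap.add_apply, LinearMap.smul_apply, End.mul_apply,
    End.one_apply, map_sub, map_add, map_smul, smul_eq_mul, H.c_B, H.c_A _ _ hi,
    H.c_A_pred hx hi]
  have h1 := H.x_c_A_succ hx i w
  have h2 := H.x_c_A_succ hx i (B w)
  simp only [H.c_B] at h2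
  unfold Par.R
  linear_combination h2 + (-p.β * D.t (i + 1) + D.t i - p.γs) * h1

theorem rel2_coord (p : Par K) {i : ℤ} (hi : D.In i) (w : V) :
    H.c i ((B * B * A - p.β • (B * A * B) + A * B * B - p.γs • (B * A + A * B) - p.ρs • A
      - (p.γ • (B * B) + p.ω • B + p.ηs • (1 : End K V))) w)
    = H.c (i - 1) w * p.Q (D.t (i - 1)) (D.t i)
      + H.c i w * (D.a i * p.Q (D.t i) (D.t i) - p.G (D.t i))
      + D.x (i + 1) * H.c (i + 1) w * p.Q (D.t i) (D.t (i + 1)) := by
  simp only [LinearMap.sub_apply, LinearMap.add_apply, LinearMap.smul_apply, End.mul_apply,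
    End.one_apply, map_sub, map_add, map_smul, smul_eq_mul, H.c_B, H.c_A _ _ hi]
  unfold Par.Q Par.G
  ring

include H in
theorem raw_of_AW (hx : D.HX) (p : Par K) (h1 : AW1 p A B) (h2 : AW2 p A B) : Raw p D := by
  have r1 : ∀ i j, D.In i → _ := fun i j hi => H.rel1_coord hx p hi (H.v j)
  have r2 : ∀ i j, D.In i → _ := fun i j hi => H.rel2_coord p hi (H.v j)
  rw [sub_eq_zero.2 h1] at r1
  rw [sub_eq_zero.2 h2] at r2
  simp only [LinearMap.zero_apply, map_zero] at r1 r2
  refine ⟨fun i hi hi2 => ?_, fun i hi hi1 => ?_, fun i hi => ?_, fun i hi hi1 => ?_,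
    fun i hi => ?_⟩
  · have h := r1 (i + 2) i hi2
    have e1 : i + 2 - 2 = i := by ring
    have e2 : i + 2 - 1 = i + 1 := by ring
    rw [e1, e2, H.c_v_self hi, H.c_v_ne (by omega), H.c_v_ne (by omega), H.c_v_ne (by omega),
      H.c_v_ne (by omega)] at h
    linear_combination -h
  · have h := r1 (i + 1) i hi1
    have e2 : i + 1 - 1 = i := by ring
    rw [e2, H.c_v_self hi, H.c_v_ne (by omega), H.c_v_ne (by omega), H.c_v_ne (by omega),
      H.c_v_ne (by omega)] at h
    linear_combination -h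
  · have h := r1 i i hi
    rw [H.c_v_self hi, H.c_v_ne (by omega), H.c_v_ne (by omega), H.c_v_ne (by omega),
      H.c_v_ne (by omega)] at h
    linear_combination -h
  · have h := r2 (i + 1) i hi1
    have e2 : i + 1 - 1 = i := by ring
    rw [e2, H.c_v_self hi, H.c_v_ne (by omega), H.c_v_ne (by omega)] at h
    linear_combination -h
  · have h := r2 i i hi
    rw [H.c_v_self hi, H.c_v_ne (by omega), H.c_v_ne (by omega)] at h
    linear_combination -h

include H in
theorem AW_of_raw (hx : D.HX) (p : Par K) (h : Raw p D) : AW1 p A B ∧ AW2 p A B := by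
  constructor
  · unfold AW1
    rw [← sub_eq_zero]
    ext w
    refine H.ext' fun i hi => ?_
    rw [H.rel1_coord hx p hi, h.e4 i hi]
    have t1 : H.c (i - 2) w * (D.t (i - 2) - p.β * D.t (i - 1) + D.t i - p.γs) = 0 := by
      by_cases h' : D.In (i - 2)
      · have := h.e0 (i - 2) h' (by simpa using hi)
        have e1 : i - 2 + 1 = i - 1 := by ring
        have e2 : i - 2 + 2 = i := by ring
        rw [e1, e2] at this
        rw [this, mul_zero]
      · rw [H.c_out _ h', zero_mul]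
    have t2 : H.c (i - 1) w * ((D.a (i - 1) + D.a i) * (D.t (i - 1) + D.t i - p.γs)
        - p.β * (D.a (i - 1) * D.t (i - 1) + D.a i * D.t i) - p.γ * (D.t (i - 1) + D.t i) - p.ω)
        = 0 := by
      by_cases h' : D.In (i - 1)
      · have := h.e3 (i - 1) h' (by simpa using hi)
        have e1 : i - 1 + 1 = i := by ring
        rw [e1] at this
        rw [this, mul_zero]
      · rw [H.c_out _ h', zero_mul]
    have t3 : D.x (i + 1) * H.c (i + 1) w * ((D.a i + D.a (i + 1)) * (D.t i + D.t (i + 1) - p.γs)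
        - p.β * (D.a i * D.t i + D.a (i + 1) * D.t (i + 1)) - p.γ * (D.t i + D.t (i + 1)) - p.ω)
        = 0 := by
      by_cases h' : D.In (i + 1)
      · rw [h.e3 i hi h', mul_zero]
      · rw [H.c_out _ h']; simp
    have t4 : D.x (i + 1) * D.x (i + 2) * H.c (i + 2) w
        * (D.t i - p.β * D.t (i + 1) + D.t (i + 2) - p.γs) = 0 := by
      by_cases h' : D.In (i + 2)
      · rw [h.e0 i hi h', mul_zero]
      · rw [H.c_out _ h']; simp
    rw [t1, t2, t3, t4]; simp
  · unfold AW2
    rw [← sub_eq_zero]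
    ext w
    refine H.ext' fun i hi => ?_
    rw [H.rel2_coord p hi, h.e2 i hi]
    have t2 : H.c (i - 1) w * p.Q (D.t (i - 1)) (D.t i) = 0 := by
      by_cases h' : D.In (i - 1)
      · have := h.e1 (i - 1) h' (by simpa using hi)
        have e1 : i - 1 + 1 = i := by ring
        rw [e1] at this
        rw [this, mul_zero]
      · rw [H.c_out _ h', zero_mul]
    have t3 : D.x (i + 1) * H.c (i + 1) w * p.Q (D.t i) (D.t (i + 1)) = 0 := by
      by_cases h' : D.In (i + 1)
      · rw [h.e1 i hi h', mul_zero]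
      · rw [H.c_out _ h']; simp
    rw [t2, t3]; simp

end Ctx

/-- The working form of the equations in dimension at least two. -/
structure Nice (p : Par K) (D : Data K) : Prop where
  hx : D.HX
  in1 : D.In 1
  rec' : ∀ i, D.t (i + 1) + D.t (i - 1) = p.β * D.t i + p.γs
  con : ∀ i, p.Q (D.t i) (D.t (i + 1)) = 0
  e2 : ∀ i, D.In i → D.a i * (D.t i - D.t (i - 1)) * (D.t i - D.t (i + 1)) = p.G (D.t i)
  e3 : ∀ i, D.In i → D.In (i + 1) → D.a i * (D.t i - D.t (i - 1))
    + D.a (i + 1) * (D.t (i + 1) - D.t (i + 2)) = p.γ * (D.t i + D.t (i + 1)) + p.ω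
  e4 : ∀ i, D.In i → D.x (i + 1) * (D.t i - D.t (i + 2)) + D.x i * (D.t i - D.t (i - 2))
    = p.R (D.t i) (D.a i)
  up : ∀ i, D.In i → D.x (i + 1) * (D.t i - D.t (i + 2)) * (D.t (i - 1) - D.t (i + 1))
    = p.Z (D.t i) (D.t (i + 1)) (D.a i * (D.t i - D.t (i - 1))) - zeta p D
  down : ∀ i, D.In i → D.x i * (D.t (i - 1) - D.t (i + 1)) * (D.t (i - 2) - D.t i)
    = p.Z (D.t i) (D.t (i - 1)) (D.a i * (D.t i - D.t (i + 1))) - zeta p D

theorem rec_succ {p : Par K} {t : ℤ → K} (h : ∀ i, t (i + 1) + t (i - 1) = p.β * t i + p.γs)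
    (i : ℤ) : t (i + 2) + t i = p.β * t (i + 1) + p.γs := by
  have := h (i + 1)
  have e1 : i + 1 + 1 = i + 2 := by ring
  have e2 : i + 1 - 1 = i := by ring
  rwa [e1, e2] at this

theorem rec_pred {p : Par K} {t : ℤ → K} (h : ∀ i, t (i + 1) + t (i - 1) = p.β * t i + p.γs)
    (i : ℤ) : t i + t (i - 2) = p.β * t (i - 1) + p.γs := by
  have := h (i - 1)
  have e1 : i - 1 + 1 = i := by ring
  have e2 : i - 1 - 1 = i - 2 := by ring
  rwa [e1, e2] at this

theorem con_all {p : Par K} {t : ℤ → K} (h : ∀ i, t (i + 1) + t (i - 1) = p.β * t i + p.γs)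
    (h0 : p.Q (t 0) (t 1) = 0) (i : ℤ) : p.Q (t i) (t (i + 1)) = 0 := by
  have step : ∀ j, p.Q (t (j + 1)) (t (j + 1 + 1)) = p.Q (t j) (t (j + 1)) := by
    intro j
    have := rec_succ h j
    have e1 : j + 1 + 1 = j + 2 := by ring
    rw [e1]
    unfold Par.Q
    linear_combination (t (j + 2) - t j) * this
  induction i using Int.induction_on with
  | zero => simpa using h0
  | succ n ih => rw [step]; exact ih
  | pred n ih =>
    have := step (-(n : ℤ) - 1)
    have e1 : -(n : ℤ) - 1 + 1 = -n := by ring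
    rw [e1] at this ⊢
    rw [← this]; exact ih

/-- The conic through `t i` splits. -/
theorem Q_split {p : Par K} {t : ℤ → K} (h : ∀ i, t (i + 1) + t (i - 1) = p.β * t i + p.γs)
    (hc : ∀ i, p.Q (t i) (t (i + 1)) = 0) (i : ℤ) (s : K) :
    p.Q (t i) s = (s - t (i + 1)) * (s - t (i - 1)) := by
  have h1 := h i
  have h2 := hc i
  unfold Par.Q at h2 ⊢
  linear_combination h2 + (s - t (i + 1)) * h1

theorem nice_of_raw {p : Par K} {D : Data K} (hx : D.HX) (h1 : D.In 1)
    (hr : ∀ i, D.t (i + 1) + D.t (i - 1) = p.β * D.t i + p.γs) (h : Raw p D) : Nice p D := by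
  have h0 : D.In 0 := h1.down le_rfl (by norm_num)
  have hc := con_all hr (by simpa using h.e1 0 h0 (by simpa using h1))
  have e2 : ∀ i, D.In i →
      D.a i * (D.t i - D.t (i - 1)) * (D.t i - D.t (i + 1)) = p.G (D.t i) := by
    intro i hi
    have := h.e2 i hi
    rw [Q_split hr hc] at this
    linear_combination this
  have e3 : ∀ i, D.In i → D.In (i + 1) → D.a i * (D.t i - D.t (i - 1))
      + D.a (i + 1) * (D.t (i + 1) - D.t (i + 2)) = p.γ * (D.t i + D.t (i + 1)) + p.ω := by
    intro i hi hi1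
    linear_combination h.e3 i hi hi1 - D.a i * hr i - D.a (i + 1) * rec_succ hr i
  have e4 : ∀ i, D.In i → D.x (i + 1) * (D.t i - D.t (i + 2)) + D.x i * (D.t i - D.t (i - 2))
      = p.R (D.t i) (D.a i) := by
    intro i hi
    linear_combination h.e4 i hi - D.x (i + 1) * rec_succ hr i - D.x i * rec_pred hr i
  have updown : ∀ i, D.In i → D.x i * (D.t (i - 1) - D.t (i + 1)) * (D.t (i - 2) - D.t i)
      = p.Z (D.t i) (D.t (i - 1)) (D.a i * (D.t i - D.t (i + 1))) - zeta p D →
      D.x (i + 1) * (D.t i - D.t (i + 2)) * (D.t (i - 1) - D.t (i + 1))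
      = p.Z (D.t i) (D.t (i + 1)) (D.a i * (D.t i - D.t (i - 1))) - zeta p D := by
    intro i hi hd
    have h4 := e4 i hi
    have h5 := hr i
    unfold Par.R at h4
    unfold Par.Z at hd ⊢
    linear_combination hd + (D.t (i - 1) - D.t (i + 1)) * h4
      - (D.t (i - 1) - D.t (i + 1)) * D.a i ^ 2 * h5
  have down : ∀ i, D.In i → D.x i * (D.t (i - 1) - D.t (i + 1)) * (D.t (i - 2) - D.t i)
      = p.Z (D.t i) (D.t (i - 1)) (D.a i * (D.t i - D.t (i + 1))) - zeta p D := by
    intro i hi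
    have hi0 := hi.nonneg
    induction i, hi0 using Int.leInduction with
    | base =>
      rw [hx.zero_of_le le_rfl]
      unfold zeta
      simp
    | succ i hi0 ih =>
      have hi' : D.In i := hi.down hi0 (by omega)
      have hu := updown i hi' (ih hi')
      have h3 := e3 i hi' hi
      have e1 : i + 1 - 1 = i := by ring
      have e2 : i + 1 + 1 = i + 2 := by ring
      have e3' : i + 1 - 2 = i - 1 := by ring
      rw [e1, e2, e3']
      have hw : D.a (i + 1) * (D.t (i + 1) - D.t (i + 2))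
          = p.γ * (D.t i + D.t (i + 1)) + p.ω - D.a i * (D.t i - D.t (i - 1)) := by
        linear_combination h3
      rw [hw, hu]
      unfold Par.Z
      ring
  exact ⟨hx, h1, hr, hc, e2, e3, e4, fun i hi => updown i hi (down i hi), down⟩

theorem Nice.raw {p : Par K} {D : Data K} (h : Nice p D) : Raw p D := by
  refine ⟨fun i _ _ => ?_, fun i hi hi1 => ?_, fun i hi => ?_, fun i _ _ => h.con i,
    fun i hi => ?_⟩
  · linear_combination rec_succ h.rec' i
  · linear_combination h.e3 i hi hi1 + D.a i * h.rec' i + D.a (i + 1) * rec_succ h.rec' i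
  · linear_combination h.e4 i hi + D.x (i + 1) * rec_succ h.rec' i + D.x i * rec_pred h.rec' i
  · rw [Q_split h.rec' h.con]
    linear_combination h.e2 i hi

theorem Nice.sol {p : Par K} {D : Data K} (h : Nice p D) : Sol p D := by
  refine ⟨h.hx, Or.inr ⟨Data.two_le_iff.2 h.in1, h.rec', by simpa using h.con 0,
    fun i hi => ⟨h.e2 i hi, h.up i hi, fun hi1 ht => ?_, fun ht => ?_⟩⟩⟩
  · have h3 := h.e3 i hi hi1
    have h4 := h.rec' i
    have h5 := rec_succ h.rec' i
    rw [← ht] at h3 h4 h5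
    linear_combination h3 + D.a (i + 1) * (h5 - h4)
  · have h3 := h.e4 i hi
    have h4 := rec_pred h.rec' i
    have h5 := rec_succ h.rec' i
    rw [ht] at h4
    linear_combination h3 + D.x i * (h4 - h5)

theorem nice_of_sol {p : Par K} {D : Data K} (h : Sol p D) (h1 : D.In 1) : Nice p D := by
  obtain ⟨hx, h | ⟨-, hr, h0, hs⟩⟩ := h
  · exact absurd h1 (Data.not_In_one h.1)
  have hc := con_all hr h0
  have e3 : ∀ i, D.In i → D.In (i + 1) → D.a i * (D.t i - D.t (i - 1))
      + D.a (i + 1) * (D.t (i + 1) - D.t (i + 2)) = p.γ * (D.t i + D.t (i + 1)) + p.ω := by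
    intro i hi hi1
    by_cases ht : D.t i = D.t (i + 1)
    · have h3 := (hs i hi).2.2.1 hi1 ht
      have h4 := hr i
      have h5 := rec_succ hr i
      rw [← ht] at h4 h5 ⊢
      linear_combination h3 - D.a (i + 1) * (h5 - h4)
    · have h3 := (hs i hi).1
      have h4 := (hs (i + 1) hi1).1
      have e1 : i + 1 - 1 = i := by ring
      have e2 : i + 1 + 1 = i + 2 := by ring
      rw [e1, e2] at h4
      apply mul_left_cancel₀ (sub_ne_zero.2 ht)
      unfold Par.G at h3 h4
      linear_combination h3 - h4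
  have down : ∀ i, D.In i → D.x i * (D.t (i - 1) - D.t (i + 1)) * (D.t (i - 2) - D.t i)
      = p.Z (D.t i) (D.t (i - 1)) (D.a i * (D.t i - D.t (i + 1))) - zeta p D := by
    intro i hi
    by_cases hi0 : i = 0
    · subst hi0
      rw [Data.HX.zero_of_le hx le_rfl]
      unfold zeta
      simp
    · have := hi.nonneg
      obtain ⟨j, rfl⟩ : ∃ j, i = j + 1 := ⟨i - 1, by ring⟩
      have hi' : D.In j := hi.down (by omega) (by omega)
      have hu := (hs j hi').2.1
      have h3 := e3 j hi' hi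
      have e1 : j + 1 - 1 = j := by ring
      have e2 : j + 1 + 1 = j + 2 := by ring
      have e3' : j + 1 - 2 = j - 1 := by ring
      rw [e1, e2, e3']
      have hw : D.a (j + 1) * (D.t (j + 1) - D.t (j + 2))
          = p.γ * (D.t j + D.t (j + 1)) + p.ω - D.a j * (D.t j - D.t (j - 1)) := by
        linear_combination h3
      rw [hw, hu]
      unfold Par.Z
      ring
  refine ⟨hx, h1, hr, hc, fun i hi => (hs i hi).1, e3, fun i hi => ?_,
    fun i hi => (hs i hi).2.1, down⟩
  by_cases ht : D.t (i - 1) = D.t (i + 1)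
  · have h3 := (hs i hi).2.2.2 ht
    have h4 := rec_pred hr i
    have h5 := rec_succ hr i
    rw [ht] at h4
    linear_combination h3 - D.x i * (h4 - h5)
  · have hu := (hs i hi).2.1
    have hd := down i hi
    have h5 := hr i
    apply mul_left_cancel₀ (sub_ne_zero.2 ht)
    unfold Par.Z at hu hd
    unfold Par.R
    linear_combination hu - hd + (D.t (i - 1) - D.t (i + 1)) * D.a i ^ 2 * h5

theorem raw_of_sol {p : Par K} {D : Data K} (h : Sol p D) : Raw p D := by
  by_cases h1 : D.In 1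
  · exact (nice_of_sol h h1).raw
  obtain ⟨hx, ⟨hN, h2, h3⟩ | h⟩ := h
  · have hI : ∀ i, D.In i → i = 0 := by
      intro i hi
      rw [Data.In_of_nat (m := 1) (by simpa using hN)] at hi
      omega
    refine ⟨fun i hi hi2 => ?_, fun i hi hi1 => ?_, fun i hi => ?_, fun i hi hi1 => ?_,
      fun i hi => ?_⟩
    · have := hI _ hi; have := hI _ hi2; omega
    · have := hI _ hi; have := hI _ hi1; omega
    · obtain rfl := hI _ hi
      rw [Data.HX.zero_of hx (i := 0 + 1) (by simpa using h1), Data.HX.zero_of_le hx le_rfl, h3]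
      simp
    · have := hI _ hi; have := hI _ hi1; omega
    · obtain rfl := hI _ hi
      rw [h2, sub_self]
  · exact absurd (Data.two_le_iff.1 h.1) h1

theorem Sol.in0 {p : Par K} {D : Data K} (h : Sol p D) : D.In 0 := by
  obtain ⟨-, h | h⟩ := h
  · exact Data.In_zero_of_one h.1
  · exact (Data.two_le_iff.1 h.1).down le_rfl (by norm_num)

theorem sol_of_raw_one {p : Par K} {D : Data K} (hx : D.HX) (h0 : D.In 0) (h1 : ¬ D.In 1)
    (h : Raw p D) : Sol p D := by
  refine ⟨hx, Or.inl ⟨Data.eq_one_of h0 h1, by linear_combination h.e2 0 h0, ?_⟩⟩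
  have := h.e4 0 h0
  rw [hx.zero_of (i := 0 + 1) (by simpa using h1), hx.zero_of_le le_rfl] at this
  linear_combination -this

end Pool.Agent.P.MP_af5c07_al
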