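import Mathlib
import Pool.Agent.P.MP_af5c07_al.Rel

/-!
Normalisation of a tridiagonal basis, extension of the eigenvalue sequence, reversal.
-/

set_option linter.unusedSectionVars false

namespace Pool.Agent.P.MP_af5c07_al

open Polynomial Module

variable {K : Type*} [Field K] {V : Type*} [AddCommGroup V] [Module K V]

theorem ctx_of_pre {D : Data K} {A B : End K V} (c : ℤ → V →ₗ[K] K) (v : ℤ → V) (l u : ℤ → K)
    (c_out : ∀ i, ¬ D.In i → ∀ w, c i w = 0)
    (c_inj : ∀ w, (∀ i, c i w = 0) → w = 0)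
    (c_fin : ∀ w, ∃ M, ∀ i, M < i → c i w = 0)
    (c_v : ∀ i j, D.In j → c i (v j) = if i = j then 1 else 0)
    (v_out : ∀ j, ¬ D.In j → v j = 0)
    (c_A : ∀ i w, D.In i → c i (A w) = l i * c (i - 1) w + D.a i * c i w + u i * c (i + 1) w)
    (c_B : ∀ i w, c i (B w) = D.t i * c i w)
    (hl : ∀ i, D.In i → 1 ≤ i → l i ≠ 0)
    (hx : ∀ i, D.In i → D.In (i + 1) → D.x (i + 1) = u i * l (i + 1)) : Nonempty (Ctx D A B) := by
  let μ : ℕ → K := fun n => ∏ k ∈ Finset.range n, l (k + 1)
  have hμ : ∀ i, D.In i → μ i.toNat ≠ 0 := by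
    intro i hi
    refine Finset.prod_ne_zero_iff.2 fun k hk => hl _ (hi.down (by omega) ?_) (by omega)
    have := Finset.mem_range.1 hk
    omega
  have hμs : ∀ i : ℤ, 0 ≤ i → μ (i + 1).toNat = μ i.toNat * l (i + 1) := by
    intro i hi
    have e : (i + 1).toNat = i.toNat + 1 := by omega
    rw [e]
    simp only [μ, Finset.prod_range_succ]
    congr 2
    omega
  refine ⟨⟨fun i => (μ i.toNat)⁻¹ • c i, fun j => μ j.toNat • v j, ?_, ?_, ?_, ?_, ?_, ?_, ?_⟩⟩
  · intro i hi w; simp [c_out i hi]
  · intro w hw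
    refine c_inj w fun i => ?_
    by_cases hi : D.In i
    · have := hw i
      simpa [hμ i hi] using this
    · exact c_out i hi w
  · intro w
    obtain ⟨M, hM⟩ := c_fin w
    exact ⟨M, fun i hi => by simp [hM i hi]⟩
  · intro i j hj
    simp only [LinearMap.smul_apply, map_smul, smul_eq_mul, c_v i j hj]
    by_cases h : i = j
    · subst h; simp [hμ i hj]
    · simp [h]
  · intro j hj; simp [v_out j hj]
  · intro i w hi
    simp only [LinearMap.smul_apply, smul_eq_mul, c_A i w hi]
    have h0 := hi.nonneg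
    have t1 : (μ i.toNat)⁻¹ * (l i * c (i - 1) w) = (μ (i - 1).toNat)⁻¹ * c (i - 1) w := by
      by_cases h : i = 0
      · subst h
        rw [c_out (0 - 1) (fun h => by have := h.nonneg; omega)]; simp
      · have h1 := hμs (i - 1) (by omega)
        have e : i - 1 + 1 = i := by ring
        rw [e] at h1
        have h2 := hμ (i - 1) (hi.down (by omega) (by omega))
        have h3 := hl i hi (by omega)
        rw [h1]; field_simp
    have t2 : (μ i.toNat)⁻¹ * (u i * c (i + 1) w)
        = D.x (i + 1) * ((μ (i + 1).toNat)⁻¹ * c (i + 1) w) := by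
      by_cases h : D.In (i + 1)
      · rw [hx i hi h, hμs i h0]
        have h2 := hμ i hi
        have h3 := hl (i + 1) h (by omega)
        field_simp
      · rw [c_out _ h]; simp
    rw [← t1, ← t2]; ring
  · intro i w
    simp only [LinearMap.smul_apply, smul_eq_mul, c_B]; ring

theorem ctx_of_polyType {A B : End K V} (h : PolyType A B) (hV : Nontrivial V) :
    ∃ D : Data K, D.HX ∧ D.In 0 ∧ Nonempty (Ctx D A B) := by
  classical
  obtain ⟨N, b, hb⟩ := h
  let I : ℤ → Prop := fun i => 0 ≤ i ∧ (i.toNat : ℕ∞) < N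
  let v : ℤ → V := fun j => if h : I j then b ⟨j.toNat, h.2⟩ else 0
  let c : ℤ → V →ₗ[K] K := fun i => if h : I i then b.coord ⟨i.toNat, h.2⟩ else 0
  let D : Data K := ⟨N, fun i => c i (B (v i)), fun i => c i (A (v i)),
    fun i => c (i - 1) (A (v i)) * c i (A (v (i - 1)))⟩
  have hI : ∀ i, D.In i ↔ I i := fun i => Iff.rfl
  have hc : ∀ i (h : I i) w, c i w = b.repr w ⟨i.toNat, h.2⟩ := by
    intro i h w; simp [c, h]
  have hc0 : ∀ i, ¬ I i → ∀ w, c i w = 0 := by
    intro i h w; simp [c, h]
  have hv : ∀ j (h : I j), v j = b ⟨j.toNat, h.2⟩ := by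
    intro j h; simp [v, h]
  have hv0 : ∀ j, ¬ I j → v j = 0 := by
    intro j h; simp [v, h]
  have hIn : ∀ j : {i : ℕ // (i : ℕ∞) < N}, I (j.1 : ℤ) := fun j => ⟨by omega, by simpa using j.2⟩
  have hvb : ∀ j : {i : ℕ // (i : ℕ∞) < N}, b j = v (j.1 : ℤ) := by
    intro j; rw [hv _ (hIn j)]; simp
  have hcv : ∀ i j, I j → c i (v j) = if i = j then 1 else 0 := by
    intro i j hj
    by_cases hi : I i
    · rw [hc i hi, hv j hj, Basis.repr_self, Finsupp.single_apply]
      by_cases h : i = j
      · subst h; simp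
      · have : (⟨j.toNat, hj.2⟩ : {i : ℕ // (i : ℕ∞) < N}) ≠ ⟨i.toNat, hi.2⟩ := by
          intro h'
          have := congrArg Subtype.val h'
          have := hi.1; have := hj.1
          simp only at *
          omega
        simp [h, this]
    · have : i ≠ j := fun h => hi (h ▸ hj)
      simp [hc0 i hi, this]
  have hne : ∀ i j, I i → I j → (i + 1 = j ∨ j + 1 = i) → c i (A (v j)) ≠ 0 := by
    intro i j hi hj hij
    rw [hc i hi, hv j hj]
    refine (hb _ _).2.1 ?_
    have := hi.1; have := hj.1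
    simp only
    omega
  have hz : ∀ i j, I i → I j → (i + 1 < j ∨ j + 1 < i) → c i (A (v j)) = 0 := by
    intro i j hi hj hij
    rw [hc i hi, hv j hj]
    refine (hb _ _).1 ?_
    have := hi.1; have := hj.1
    simp only
    omega
  have hinj : ∀ w, (∀ i, c i w = 0) → w = 0 := by
    intro w hw
    apply b.repr.injective
    ext j
    have := hw (j.1 : ℤ)
    rw [hc _ (hIn j)] at this
    simpa using this
  refine ⟨D, ?_, ?_, ctx_of_pre c v (fun i => c i (A (v (i - 1)))) (fun i => c i (A (v (i + 1))))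
    hc0 hinj ?_ hcv hv0 ?_ ?_ ?_ ?_⟩
  · intro i
    constructor
    · intro h
      change c (i - 1) (A (v i)) * c i (A (v (i - 1))) ≠ 0 at h
      constructor
      · by_contra h'; exact h (by rw [hc0 _ h']; simp)
      · by_contra h'; exact h (by rw [hc0 i h']; simp)
    · rintro ⟨h1, h2⟩
      exact mul_ne_zero (hne _ _ h1 h2 (by omega)) (hne _ _ h2 h1 (by omega))
  · by_contra h0
    obtain ⟨w, hw⟩ := exists_ne (0 : V)
    refine hw (hinj w fun i => hc0 i (fun hi => h0 ?_) w)
    exact Data.In.down (D := D) hi le_rfl hi.1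
  · intro w
    obtain ⟨M, hM⟩ := ((b.repr w).support.image Subtype.val).bddAbove
    refine ⟨M, fun i hi => ?_⟩
    by_cases hI : I i
    · rw [hc i hI]
      by_contra hne
      have : i.toNat ≤ M := hM (by
        simp only [Finset.coe_image, Set.mem_image, Finset.mem_coe]
        exact ⟨⟨i.toNat, hI.2⟩, Finsupp.mem_support_iff.2 hne, rfl⟩)
      omega
    · exact hc0 i hI w
  · intro i w hi
    have : (c i).comp A = c i (A (v (i - 1))) • c (i - 1) + D.a i • c i
        + c i (A (v (i + 1))) • c (i + 1) := by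
      refine b.ext fun j => ?_
      simp only [LinearMap.comp_apply, LinearMap.add_apply, LinearMap.smul_apply, smul_eq_mul]
      rw [hvb, hcv _ _ (hIn j), hcv _ _ (hIn j), hcv _ _ (hIn j)]
      by_cases h1 : i - 1 = j.1
      · rw [if_pos h1, if_neg (by omega), if_neg (by omega), h1]; simp
      · by_cases h2 : i = j.1
        · rw [if_neg h1, if_pos h2, if_neg (by omega), ← h2]; simp [D]
        · by_cases h3 : i + 1 = j.1
          · rw [if_neg h1, if_neg h2, if_pos h3, h3]; simp
          · rw [if_neg h1, if_neg h2, if_neg h3, hz _ _ hi (hIn j) (by omega)]; simp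
    exact LinearMap.congr_fun this w
  · intro i w
    by_cases hi : I i
    · have : (c i).comp B = D.t i • c i := by
        refine b.ext fun j => ?_
        simp only [LinearMap.comp_apply, LinearMap.smul_apply, smul_eq_mul]
        by_cases h2 : i = j.1
        · rw [hvb, hcv _ _ (hIn j), if_pos h2, ← h2]; simp [D]
        · rw [hvb j, hcv _ _ (hIn j), if_neg h2, ← hvb, hc i hi, mul_zero]
          refine (hb _ _).2.2 fun h' => h2 ?_
          have := congrArg Subtype.val h'
          have := hi.1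
          simp only at *
          omega
      exact LinearMap.congr_fun this w
    · rw [hc0 i hi, hc0 i hi]; simp
  · intro i hi h1
    exact hne _ _ hi (Data.In.down (D := D) hi (by omega) (by omega)) (by omega)
  · intro i hi hi1
    simp [D]

theorem Realizes.polyType {D : Data K} {A B : End K V} (h : Realizes D A B) (hx : D.HX) :
    PolyType A B := by
  obtain ⟨b, hb⟩ := h
  let e : {i : ℤ // D.In i} ≃ {i : ℕ // (i : ℕ∞) < D.N} :=
    { toFun := fun i => ⟨i.1.toNat, i.2.2⟩
      invFun := fun j => ⟨(j.1 : ℤ), ⟨by omega, by simpa using j.2⟩⟩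
      left_inv := fun i => Subtype.ext (by have := i.2.1; simp only; omega)
      right_inv := fun j => Subtype.ext (by simp) }
  refine ⟨D.N, b.reindex e, fun i j => ?_⟩
  have hi : (e.symm i).1 = (i.1 : ℤ) := rfl
  have hj : (e.symm j).1 = (j.1 : ℤ) := rfl
  simp only [Basis.reindex_apply, Basis.repr_reindex_apply]
  rw [(hb _ _).1, (hb _ _).2, hi, hj]
  refine ⟨fun h => ?_, fun h => ?_, fun h => ?_⟩
  · rw [if_neg (by omega), if_neg (by omega), if_neg (by omega)]
  · rcases h with h | h
    · rw [if_neg (by omega), if_neg (by omega), if_pos (by omega)]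
      exact hx.ne (e.symm j).2 (by omega)
    · rw [if_pos (by omega)]; exact one_ne_zero
  · rw [if_neg]
    intro h'
    exact h (Subtype.ext (by omega))

/-- Changing the eigenvalue sequence outside the range. -/
def Ctx.changeT {D : Data K} {A B : End K V} (H : Ctx D A B) (t' : ℤ → K)
    (h : ∀ i, D.In i → t' i = D.t i) : Ctx ⟨D.N, t', D.a, D.x⟩ A B where
  c := H.c
  v := H.v
  c_out := H.c_out
  c_inj := H.c_inj
  c_fin := H.c_fin
  c_v := H.c_v
  v_out := H.v_out
  c_A := H.c_A
  c_B := fun i w => by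
    by_cases hi : D.In i
    · rw [H.c_B, ← h i hi]
    · rw [H.c_out i hi, H.c_out i hi]; simp

theorem exists_rec (β g s0 s1 : K) : ∃ t : ℤ → K, t 0 = s0 ∧ t 1 = s1 ∧
    ∀ i, t (i + 1) + t (i - 1) = β * t i + g := by
  let f : K × K → ℕ → K × K := fun s n => Nat.rec s (fun _ q => (q.2, β * q.2 + g - q.1)) n
  have hf : ∀ s n, (f s (n + 2)).1 + (f s n).1 = β * (f s (n + 1)).1 + g := by
    intro s n; simp [f]
  refine ⟨fun i => if 0 ≤ i then (f (s0, s1) i.toNat).1 else (f (s1, s0) (1 - i).toNat).1,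
    by simp [f], by simp [f], fun i => ?_⟩
  rcases lt_trichotomy i 0 with h | h | h
  · have e1 : (1 - (i - 1)).toNat = (-i).toNat + 2 := by omega
    have e2 : (1 - i).toNat = (-i).toNat + 1 := by omega
    have := hf (s1, s0) (-i).toNat
    simp only
    rw [if_neg (by omega : ¬ 0 ≤ i - 1), if_neg (by omega : ¬ 0 ≤ i), e1, e2]
    by_cases h1 : i = -1
    · subst h1
      simp [f]
    · rw [if_neg (by omega : ¬ 0 ≤ i + 1)]
      have e3 : (1 - (i + 1)).toNat = (-i).toNat := by omega
      rw [e3]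
      linear_combination this
  · subst h
    have h1 := hf (s1, s0) 0
    have h2 : (f (s1, s0) 0).1 = s1 := rfl
    have h3 : (f (s1, s0) (0 + 1)).1 = s0 := rfl
    rw [h2, h3] at h1
    change s1 + (f (s1, s0) (0 + 2)).1 = β * s0 + g
    linear_combination h1
  · have e1 : (i + 1).toNat = (i - 1).toNat + 2 := by omega
    have e2 : i.toNat = (i - 1).toNat + 1 := by omega
    have := hf (s0, s1) (i - 1).toNat
    simp only
    rw [if_pos (by omega : 0 ≤ i + 1), if_pos (by omega : 0 ≤ i - 1), if_pos (by omega : 0 ≤ i),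
      e1, e2]
    exact this

/-- A module of polynomial type is given by a solution. -/
theorem exists_sol {p : Par K} {A B : End K V} (h : PolyType A B) (hV : Nontrivial V)
    (h1 : AW1 p A B) (h2 : AW2 p A B) : ∃ D : Data K, Sol p D ∧ Nonempty (Ctx D A B) := by
  obtain ⟨D, hx, h0, ⟨H⟩⟩ := ctx_of_polyType h hV
  have hr := H.raw_of_AW hx p h1 h2
  by_cases hI : D.In 1
  · obtain ⟨t, ht0, ht1, ht⟩ := exists_rec p.β p.γs (D.t 0) (D.t 1)
    have key : ∀ n : ℕ, D.In (n + 1) → t n = D.t n ∧ t (n + 1) = D.t (n + 1) := by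
      intro n
      induction n with
      | zero => intro _; simpa using ⟨ht0, ht1⟩
      | succ n ih =>
        intro hn
        push_cast at hn ⊢
        obtain ⟨i1, i2⟩ := ih (hn.down (by omega) (by omega))
        refine ⟨i2, ?_⟩
        have e : (n : ℤ) + 1 + 1 = n + 2 := by ring
        rw [e] at hn ⊢
        have a1 := rec_succ (p := p) ht n
        have a2 := hr.e0 n (hn.down (by omega) (by omega)) hn
        rw [i1, i2] at a1
        linear_combination a1 - a2
    have hagree : ∀ i, D.In i → t i = D.t i := by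
      intro i hi
      have := hi.nonneg
      by_cases h0 : i = 0
      · rw [h0, ht0]
      · have e : ((i - 1).toNat : ℤ) + 1 = i := by omega
        have := (key (i - 1).toNat (by rwa [e])).2
        rwa [e] at this
    let H' := H.changeT t hagree
    have hr' := H'.raw_of_AW hx p h1 h2
    exact ⟨_, (nice_of_raw (D := ⟨D.N, t, D.a, D.x⟩) hx hI ht hr').sol, ⟨H'⟩⟩
  · exact ⟨D, sol_of_raw_one hx h0 hI hr, ⟨H⟩⟩

/-- The reversed data. -/
def Data.rev (D : Data K) : Data K :=
  ⟨D.N, fun i => D.t (D.d - i), fun i => D.a (D.d - i), fun i => D.x (D.d + 1 - i)⟩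

theorem Data.rev_In {D : Data K} (i : ℤ) : D.rev.In i ↔ D.In i := Iff.rfl

theorem Data.rev_d {D : Data K} : D.rev.d = D.d := rfl

theorem Data.In_rev {D : Data K} (hN : D.N ≠ ⊤) (i : ℤ) : D.In (D.d - i) ↔ D.In i := by
  rw [Data.In_fin hN, Data.In_fin hN]; omega

theorem Data.HX.rev {D : Data K} (hx : D.HX) (hN : D.N ≠ ⊤) : D.rev.HX := by
  intro i
  change D.x (D.d + 1 - i) ≠ 0 ↔ D.In (i - 1) ∧ D.In i
  rw [hx, Data.In_fin hN, Data.In_fin hN, Data.In_fin hN, Data.In_fin hN]
  omega

theorem Ctx.rev {D : Data K} {A B : End K V} (H : Ctx D A B) (hx : D.HX) (hN : D.N ≠ ⊤) :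
    Nonempty (Ctx D.rev A B) := by
  refine ctx_of_pre (fun i => H.c (D.d - i)) (fun j => H.v (D.d - j))
    (fun i => D.x (D.d - i + 1)) (fun _ => 1) ?_ ?_ ?_ ?_ ?_ ?_ ?_ ?_ ?_
  · intro i hi w
    exact H.c_out _ (fun h => hi ((Data.In_rev hN i).1 h)) w
  · intro w hw
    refine H.c_inj w fun i => ?_
    have := hw (D.d - i)
    simpa using this
  · intro w
    exact ⟨D.d, fun i hi => H.c_neg (by omega) w⟩
  · intro i j hj
    rw [H.c_v _ _ ((Data.In_rev hN j).2 hj)]
    by_cases h : i = j
    · simp [h]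
    · rw [if_neg h, if_neg (by omega)]
  · intro j hj
    exact H.v_out _ (fun h => hj ((Data.In_rev hN j).1 h))
  · intro i w hi
    rw [H.c_A _ _ ((Data.In_rev hN i).2 hi)]
    have e1 : D.d - (i - 1) = D.d - i + 1 := by ring
    have e2 : D.d - (i + 1) = D.d - i - 1 := by ring
    simp only [e1, e2, Data.rev]
    ring
  · intro i w
    exact H.c_B _ w
  · intro i hi h1
    have hi' : D.In i := hi
    rw [Data.In_fin hN] at hi'
    exact hx.ne ((Data.In_fin hN _).2 (by omega)) (by omega)
  · intro i _ _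
    simp only [Data.rev, one_mul]
    congr 1; ring

theorem Nice.rev {p : Par K} {D : Data K} {A B : End K V} (h : Nice p D) (H : Ctx D A B)
    (hN : D.N ≠ ⊤) : Nice p D.rev := by
  obtain ⟨H'⟩ := H.rev h.hx hN
  obtain ⟨h1, h2⟩ := H.AW_of_raw h.hx p h.raw
  refine nice_of_raw (h.hx.rev hN) h.in1 (fun i => ?_) (H'.raw_of_AW (h.hx.rev hN) p h1 h2)
  have := h.rec' (D.d - i)
  have e1 : D.d - (i - 1) = D.d - i + 1 := by ring
  have e2 : D.d - (i + 1) = D.d - i - 1 := by ring
  simp only [Data.rev, e1, e2]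
  linear_combination this

end Pool.Agent.P.MP_af5c07_al
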