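import Mathlib
import Pool.Agent.P.MP_af5c07_al.Norm

/-!
The cyclic vector, the annihilator, starting vectors and their universal property.
-/

set_option linter.unusedSectionVars false

namespace Pool.Agent.P.MP_af5c07_al

open Polynomial Module

variable {K : Type*} [Field K] {V : Type*} [AddCommGroup V] [Module K V]
  {V' : Type*} [AddCommGroup V'] [Module K V']

theorem Data.pol_monic (D : Data K) (n : ℕ) : (D.pol n).Monic ∧ (D.pol n).natDegree = n := by
  have key : ∀ n, ((D.pol n).Monic ∧ (D.pol n).natDegree = n) ∧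
      ((D.pol (n + 1)).Monic ∧ (D.pol (n + 1)).natDegree = n + 1) := by
    intro n
    induction n with
    | zero => exact ⟨by simp [Data.pol], by simp [Data.pol, monic_X_sub_C]⟩
    | succ n ih =>
      obtain ⟨⟨h1, h2⟩, h3, h4⟩ := ih
      refine ⟨⟨h3, h4⟩, ?_⟩
      have hm : ((X - C (D.a (n + 1))) * D.pol (n + 1)).Monic := (monic_X_sub_C _).mul h3
      have hd : ((X - C (D.a (n + 1))) * D.pol (n + 1)).natDegree = n + 1 + 1 := by
        rw [(monic_X_sub_C _).natDegree_mul h3, natDegree_X_sub_C, h4]; ring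
      have hl : (C (D.x (n + 1)) * D.pol n).natDegree
          < ((X - C (D.a (n + 1))) * D.pol (n + 1)).natDegree := by
        rw [hd]
        have := natDegree_C_mul_le (D.x (n + 1)) (D.pol n)
        omega
      change ((X - C (D.a (n + 1))) * D.pol (n + 1) - C (D.x (n + 1)) * D.pol n).Monic ∧
        ((X - C (D.a (n + 1))) * D.pol (n + 1) - C (D.x (n + 1)) * D.pol n).natDegree = n + 1 + 1
      refine ⟨hm.sub_of_left (degree_lt_degree hl), ?_⟩
      rw [natDegree_sub_eq_left_of_natDegree_lt hl, hd]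
  exact (key n).1

theorem Data.chi_fin {D : Data K} (hN : D.N ≠ ⊤) : D.chi = D.pol D.N.toNat := if_neg hN

theorem Data.chi_top {D : Data K} (hN : D.N = ⊤) : D.chi = 0 := if_pos hN

theorem Data.N_eq_of_chi {D E : Data K} (h : D.chi = E.chi) : D.N = E.N := by
  by_cases hD : D.N = ⊤ <;> by_cases hE : E.N = ⊤
  · rw [hD, hE]
  · rw [chi_top hD, chi_fin hE] at h
    exact absurd h.symm (E.pol_monic _).1.ne_zero
  · rw [chi_top hE, chi_fin hD] at h
    exact absurd h (D.pol_monic _).1.ne_zero
  · rw [chi_fin hD, chi_fin hE] at h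
    have := congrArg natDegree h
    rw [(D.pol_monic _).2, (E.pol_monic _).2] at this
    rw [N_eq hD, N_eq hE, this]

theorem aeval_comm_apply (A : End K V) (f g : K[X]) (w : V) :
    aeval A f (aeval A g w) = aeval A g (aeval A f w) := by
  rw [← End.mul_apply, ← map_mul, mul_comm, map_mul, End.mul_apply]

theorem aeval_mul_apply (A : End K V) (f g : K[X]) (w : V) :
    aeval A (f * g) w = aeval A f (aeval A g w) := by
  rw [map_mul, End.mul_apply]

theorem aeval_A (A : End K V) (f : K[X]) (w : V) : aeval A f (A w) = A (aeval A f w) := by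
  have := aeval_comm_apply A f X w
  simpa using this

theorem aeval_mem {A : End K V} {W : Submodule K V} (hW : ∀ w ∈ W, A w ∈ W) (f : K[X]) {w : V}
    (hw : w ∈ W) : aeval A f w ∈ W := by
  induction f using Polynomial.induction_on' with
  | add f g hf hg => rw [map_add]; exact W.add_mem hf hg
  | monomial n c =>
    rw [aeval_monomial, End.mul_apply, Module.algebraMap_end_apply]
    refine W.smul_mem _ ?_
    induction n with
    | zero => simpa using hw
    | succ n ih => rw [pow_succ', End.mul_apply]; exact hW _ ih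

/-- A starting vector of type `(s, s', m)`. -/
def St (A B : End K V) (τ : K × K × K) (w : V) : Prop :=
  B w = τ.1 • w ∧ B (A w) = τ.2.1 • A w + τ.2.2 • w

/-- The starting vectors of a given type form a subspace. -/
def StSub (A B : End K V) (τ : K × K × K) : Submodule K V where
  carrier := {w | St A B τ w}
  add_mem' := by
    rintro u w ⟨h1, h2⟩ ⟨h3, h4⟩
    refine ⟨by rw [map_add, h1, h3, smul_add], ?_⟩
    rw [map_add, map_add, h2, h4, smul_add, smul_add]; abel
  zero_mem' := ⟨by simp, by simp⟩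
  smul_mem' := by
    rintro c w ⟨h1, h2⟩
    refine ⟨by rw [map_smul, h1, smul_comm], ?_⟩
    rw [map_smul, map_smul, h2, smul_add, smul_comm c, smul_comm c]

theorem AW1.step {p : Par K} {A B : End K V} (h : AW1 p A B) (u : V) :
    B (A (A u)) = p.γs • A (A u) + p.ω • A u + p.η • u - A (A (B u)) + p.β • A (B (A u))
      + p.γ • (A (B u) + B (A u)) + p.ρ • B u := by
  have := LinearMap.congr_fun h u
  simp only [LinearMap.sub_apply, LinearMap.add_apply, LinearMap.smul_apply, End.mul_apply,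
    End.one_apply] at this
  rw [← this]; abel

theorem St.hom {p : Par K} {A B : End K V} {A' B' : End K V'} (h : AW1 p A B) (h' : AW1 p A' B')
    {τ : K × K × K} {w : V} {w' : V'} (hw : St A B τ w) (hw' : St A' B' τ w') (g : K[X]) :
    ∃ q : K[X], B (aeval A g w) = aeval A q w ∧ B' (aeval A' g w') = aeval A' q w' := by
  have key : ∀ n : ℕ, (∃ q : K[X], B ((A ^ n) w) = aeval A q w ∧ B' ((A' ^ n) w') = aeval A' q w') ∧
      (∃ q : K[X], B (A ((A ^ n) w)) = aeval A q w ∧ B' (A' ((A' ^ n) w')) = aeval A' q w') := by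
    intro n
    induction n with
    | zero =>
      refine ⟨⟨C τ.1, ?_, ?_⟩, ⟨C τ.2.1 * X + C τ.2.2, ?_, ?_⟩⟩
      · simp [hw.1]
      · simp [hw'.1]
      · simp [hw.2]
      · simp [hw'.2]
    | succ n ih =>
      obtain ⟨⟨q0, a0, b0⟩, q1, a1, b1⟩ := ih
      refine ⟨⟨q1, by rw [pow_succ', End.mul_apply, a1], by rw [pow_succ', End.mul_apply, b1]⟩,
        C p.γs * (X * (X * X ^ n)) + C p.ω * (X * X ^ n) + C p.η * X ^ n - X * (X * q0)
          + C p.β * (X * q1) + C p.γ * (X * q0 + q1) + C p.ρ * q0, ?_, ?_⟩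
      · rw [pow_succ', End.mul_apply, h.step, a0, a1]
        simp
      · rw [pow_succ', End.mul_apply, h'.step, b0, b1]
        simp
  induction g using Polynomial.induction_on' with
  | add f g hf hg =>
    obtain ⟨q, a, b⟩ := hf
    obtain ⟨q', a', b'⟩ := hg
    exact ⟨q + q', by simp [a, a'], by simp [b, b']⟩
  | monomial n c =>
    obtain ⟨q, a, b⟩ := (key n).1
    refine ⟨C c * q, ?_, ?_⟩
    · simp [aeval_monomial, a]
    · simp [aeval_monomial, b]

theorem St.map {A B : End K V} {τ : K × K × K} {w : V} (hw : St A B τ w) {M : End K V}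
    (hA : ∀ u, A (M u) = M (A u)) (hB : ∀ u, B (M u) = M (B u)) : St A B τ (M w) := by
  refine ⟨by rw [hB, hw.1, map_smul], ?_⟩
  rw [hA, hB, hw.2, map_add, map_smul, map_smul]

/-- In an irreducible module an endomorphism with a kernel vanishes. -/
theorem Irr.endo_zero {A B : End K V} (h : Irr A B) {M : End K V}
    (hA : ∀ u, A (M u) = M (A u)) (hB : ∀ u, B (M u) = M (B u)) {w : V} (hw : w ≠ 0)
    (hM : M w = 0) (u : V) : M u = 0 := by
  rcases h.2 (LinearMap.ker M) (fun z hz => by
      rw [LinearMap.mem_ker] at hz ⊢; rw [← hA, hz, map_zero]) (fun z hz => by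
      rw [LinearMap.mem_ker] at hz ⊢; rw [← hB, hz, map_zero]) with h1 | h1
  · exact absurd ((Submodule.eq_bot_iff _).1 h1 w hM) hw
  · have : u ∈ LinearMap.ker M := by rw [h1]; trivial
    exact this

namespace Ctx

variable {D : Data K} {A B : End K V} (H : Ctx D A B)

/-- The highest nonzero coordinate. -/
def Top (w : V) (j : ℤ) : Prop := H.c j w ≠ 0 ∧ ∀ i, j < i → H.c i w = 0

theorem exists_top {w : V} (hw : w ≠ 0) : ∃ j, H.Top w j := by
  obtain ⟨M, hM⟩ := H.c_fin w
  have hne : ∃ i, H.c i w ≠ 0 := by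
    by_contra h
    push Not at h
    exact hw (H.c_inj w h)
  obtain ⟨j, hj, hmax⟩ := Int.exists_greatest_of_bdd (P := fun i => H.c i w ≠ 0)
    ⟨M, fun z hz => by by_contra h; exact hz (hM z (by omega))⟩ hne
  exact ⟨j, hj, fun i hi => by by_contra h; have := hmax i h; omega⟩

theorem Top.In {w : V} {j : ℤ} (h : H.Top w j) : D.In j := H.In_of_ne h.1

theorem A_v {j : ℤ} (hj : D.In j) :
    A (H.v j) = H.v (j + 1) + D.a j • H.v j + D.x j • H.v (j - 1) := by
  refine H.ext' fun i hi => ?_
  rw [H.c_A _ _ hi]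
  simp only [map_add, map_smul, smul_eq_mul]
  by_cases h1 : i = j + 1
  · subst h1
    have e : j + 1 - 1 = j := by ring
    rw [e, H.c_v_self hj, H.c_v_self hi, H.c_v_ne (i := j + 1) (j := j) (by omega),
      H.c_v_ne (i := j + 1 + 1) (j := j) (by omega), H.c_v_ne (i := j + 1) (j := j - 1) (by omega)]
    simp
  · by_cases h2 : i = j
    · subst h2
      rw [H.c_v_self hi, H.c_v_ne (i := i - 1) (j := i) (by omega),
        H.c_v_ne (i := i + 1) (j := i) (by omega), H.c_v_ne (i := i) (j := i + 1) (by omega),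
        H.c_v_ne (i := i) (j := i - 1) (by omega)]
      simp
    · by_cases h3 : i + 1 = j
      · subst h3
        have e : i + 1 - 1 = i := by ring
        rw [e, H.c_v_self hi, H.c_v_self hj, H.c_v_ne (i := i - 1) (j := i + 1) (by omega),
          H.c_v_ne (i := i) (j := i + 1) (by omega), H.c_v_ne (i := i) (j := i + 1 + 1) (by omega)]
        simp
      · rw [H.c_v_ne (i := i - 1) (j := j) (by omega), H.c_v_ne (i := i) (j := j) (by omega),
          H.c_v_ne (i := i + 1) (j := j) (by omega), H.c_v_ne (i := i) (j := j + 1) (by omega),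
          H.c_v_ne (i := i) (j := j - 1) (by omega)]
        simp

theorem B_v (j : ℤ) : B (H.v j) = D.t j • H.v j := by
  refine H.ext' fun i hi => ?_
  rw [H.c_B, map_smul, smul_eq_mul]
  by_cases h : i = j
  · rw [h]
  · rw [H.c_v_ne h]; simp

theorem pol_v' (n : ℕ) (hn : D.In n) :
    aeval A (D.pol n) (H.v 0) = H.v n ∧ aeval A (D.pol (n + 1)) (H.v 0) = H.v (n + 1) := by
  induction n with
  | zero =>
    refine ⟨by simp [Data.pol], ?_⟩
    have := H.A_v hn
    rw [H.v_out ((0 : ℕ) - 1) (fun h => by have := h.nonneg; omega)] at this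
    simp only [Nat.cast_zero] at this
    simp [Data.pol, this]
  | succ n ih =>
    push_cast at hn ⊢
    obtain ⟨h1, h2⟩ := ih (hn.down (by omega) (by omega))
    refine ⟨h2, ?_⟩
    change aeval A ((X - C (D.a (n + 1))) * D.pol (n + 1) - C (D.x (n + 1)) * D.pol n) (H.v 0) = _
    rw [map_sub, LinearMap.sub_apply, aeval_mul_apply, aeval_mul_apply, h1, h2]
    have := H.A_v hn
    have e : (n : ℤ) + 1 - 1 = n := by ring
    rw [e] at this
    simp only [map_sub, aeval_X, aeval_C, LinearMap.sub_apply, Module.algebraMap_end_apply, this]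
    abel

theorem pol_v (n : ℕ) (hn : D.In n) : aeval A (D.pol n) (H.v 0) = H.v n := (H.pol_v' n hn).1

theorem chi_v (h0 : D.In 0) : aeval A D.chi (H.v 0) = 0 := by
  by_cases hN : D.N = ⊤
  · rw [Data.chi_top hN]; simp
  · rw [Data.chi_fin hN]
    have h1 := (Data.In_of_nat (Data.N_eq hN) 0).1 h0
    obtain ⟨m, hm⟩ : ∃ m, D.N.toNat = m + 1 := ⟨D.N.toNat - 1, by omega⟩
    have h2 : D.In m := by rw [Data.In_of_nat (Data.N_eq hN)]; omega
    have h3 : ¬ D.In (m + 1) := by rw [Data.In_of_nat (Data.N_eq hN)]; omega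
    rw [hm, (H.pol_v' m h2).2, H.v_out _ h3]

theorem cyc (w : V) : ∃ g : K[X], w = aeval A g (H.v 0) := by
  let φ : K[X] →ₗ[K] V := (LinearMap.applyₗ (H.v 0)).comp (aeval A).toLinearMap
  have : w ∈ LinearMap.range φ := by
    refine H.mem_of_v (fun j hj => LinearMap.mem_range.2 ⟨D.pol j.toNat, ?_⟩) w
    have h0 := hj.nonneg
    have e : (j.toNat : ℤ) = j := by omega
    have := H.pol_v j.toNat (by rwa [e])
    rw [e] at this
    exact this
  obtain ⟨g, hg⟩ := this
  exact ⟨g, hg.symm⟩

theorem eq_top_of_v0 {W : Submodule K V} (hW : ∀ w ∈ W, A w ∈ W) (h0 : H.v 0 ∈ W) : W = ⊤ := by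
  rw [eq_top_iff]
  intro w _
  obtain ⟨g, rfl⟩ := H.cyc w
  exact aeval_mem hW g h0

theorem pow_v (h0 : D.In 0) (n : ℕ) : (∀ i : ℤ, n < i → H.c i ((A ^ n) (H.v 0)) = 0) ∧
    (D.In n → H.c n ((A ^ n) (H.v 0)) = 1) := by
  induction n with
  | zero =>
    refine ⟨fun i hi => ?_, fun _ => ?_⟩
    · simp only [pow_zero, End.one_apply]; exact H.c_v_ne (by omega)
    · simpa using H.c_v_self h0
  | succ n ih =>
    push_cast
    refine ⟨fun i hi => ?_, fun hn => ?_⟩
    · by_cases hI : D.In i
      · rw [pow_succ', End.mul_apply, H.c_A _ _ hI, ih.1 _ (by omega), ih.1 _ (by omega),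
          ih.1 _ (by omega)]
        simp
      · exact H.c_out _ hI _
    · have e : (n : ℤ) + 1 - 1 = n := by ring
      rw [pow_succ', End.mul_apply, H.c_A _ _ hn, e, ih.2 (hn.down (by omega) (by omega)),
        ih.1 _ (by omega), ih.1 _ (by omega)]
      simp

theorem c_aeval_gt (h0 : D.In 0) (g : K[X]) {i : ℤ} (hi : (g.natDegree : ℤ) < i) :
    H.c i (aeval A g (H.v 0)) = 0 := by
  rw [aeval_eq_sum_range, LinearMap.sum_apply, map_sum]
  refine Finset.sum_eq_zero fun k hk => ?_
  have := Finset.mem_range.1 hk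
  rw [LinearMap.smul_apply, map_smul, (H.pow_v h0 k).1 i (by omega), smul_zero]

theorem c_aeval_top (h0 : D.In 0) (g : K[X]) (hg : D.In g.natDegree) :
    H.c g.natDegree (aeval A g (H.v 0)) = g.leadingCoeff := by
  rw [aeval_eq_sum_range, LinearMap.sum_apply, map_sum, Finset.sum_range_succ,
    Finset.sum_eq_zero, LinearMap.smul_apply, map_smul, (H.pow_v h0 _).2 hg]
  · rw [zero_add, smul_eq_mul, mul_one]; rfl
  · intro k hk
    have := Finset.mem_range.1 hk
    rw [LinearMap.smul_apply, map_smul, (H.pow_v h0 k).1 _ (by omega), smul_zero]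

theorem eq_zero_of_aeval (h0 : D.In 0) {g : K[X]} (hg : D.In g.natDegree)
    (h : aeval A g (H.v 0) = 0) : g = 0 := by
  have := H.c_aeval_top h0 g hg
  rw [h, map_zero] at this
  exact leadingCoeff_eq_zero.1 this.symm

theorem chi_dvd (h0 : D.In 0) {g : K[X]} (h : aeval A g (H.v 0) = 0) : D.chi ∣ g := by
  by_cases hN : D.N = ⊤
  · rw [H.eq_zero_of_aeval h0 ((Data.In_of_top hN _).2 (by omega)) h]
    exact dvd_zero _
  · have hm : D.chi.Monic := by rw [Data.chi_fin hN]; exact (D.pol_monic _).1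
    have hd : D.chi.natDegree = D.N.toNat := by rw [Data.chi_fin hN]; exact (D.pol_monic _).2
    have h1 := (Data.In_of_nat (Data.N_eq hN) 0).1 h0
    rw [← modByMonic_eq_zero_iff_dvd hm]
    apply H.eq_zero_of_aeval h0
    · rw [Data.In_of_nat (Data.N_eq hN)]
      have : (g %ₘ D.chi).natDegree < D.chi.natDegree :=
        natDegree_modByMonic_lt g hm (by intro h1'; rw [h1'] at hd; simp at hd; omega)
      omega
    · have h2 := modByMonic_add_div g D.chi
      have h3 : g %ₘ D.chi = g - (g /ₘ D.chi) * D.chi := by linear_combination h2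
      rw [h3, map_sub, LinearMap.sub_apply, h, aeval_mul_apply, H.chi_v h0]
      simp

include H in
theorem chi_apply (h0 : D.In 0) (w : V) : aeval A D.chi w = 0 := by
  obtain ⟨g, rfl⟩ := H.cyc w
  rw [aeval_comm_apply, H.chi_v h0, map_zero]

theorem st_iff {τ : K × K × K} {w : V} : St A B τ w ↔
    (∀ i, (D.t i - τ.1) * H.c i w = 0) ∧
    ∀ i, D.In i → (D.t i - τ.2.1) * (H.c (i - 1) w + D.a i * H.c i w + D.x (i + 1) * H.c (i + 1) w)
      = τ.2.2 * H.c i w := by
  constructor
  · rintro ⟨h1, h2⟩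
    refine ⟨fun i => ?_, fun i hi => ?_⟩
    · have := congrArg (H.c i) h1
      rw [H.c_B, map_smul, smul_eq_mul] at this
      linear_combination this
    · have := congrArg (H.c i) h2
      rw [H.c_B, map_add, map_smul, map_smul, smul_eq_mul, smul_eq_mul, H.c_A _ _ hi] at this
      linear_combination this
  · rintro ⟨h1, h2⟩
    refine ⟨H.ext' fun i hi => ?_, H.ext' fun i hi => ?_⟩
    · rw [H.c_B, map_smul, smul_eq_mul]
      linear_combination h1 i
    · rw [H.c_B, map_add, map_smul, map_smul, smul_eq_mul, smul_eq_mul, H.c_A _ _ hi]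
      linear_combination h2 i hi

theorem st_v0 (h0 : D.In 0) : St A B (D.st 0 1) (H.v 0) := by
  refine ⟨H.B_v 0, ?_⟩
  rw [H.A_v h0, H.v_out (0 - 1) (fun h => by have := h.nonneg; omega)]
  simp only [Data.st, smul_zero, add_zero, zero_add, map_add, map_smul, H.B_v]
  module

theorem st_vd (h0 : D.In 0) (hN : D.N ≠ ⊤) : St A B (D.st D.d (D.d - 1)) (H.v D.d) := by
  have h1 := (Data.In_fin hN 0).1 h0
  refine ⟨H.B_v _, ?_⟩
  rw [H.A_v ((Data.In_fin hN _).2 (by omega)),
    H.v_out (D.d + 1) (fun h => by have := (Data.In_fin hN _).1 h; omega)]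
  simp only [Data.st, zero_add, map_add, map_smul, H.B_v]
  module

/-- A starting vector of the same type as `v 0` gives an endomorphism. -/
theorem endo {p : Par K} (h : AW1 p A B) (h0 : D.In 0) {g : K[X]}
    (hg : St A B (D.st 0 1) (aeval A g (H.v 0))) (u : V) : B (aeval A g u) = aeval A g (B u) := by
  obtain ⟨f, rfl⟩ := H.cyc u
  obtain ⟨q, h1, h2⟩ := St.hom h h hg (H.st_v0 h0) f
  rw [aeval_comm_apply, h1, h2, aeval_comm_apply]

end Ctx

end Pool.Agent.P.MP_af5c07_al
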