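import Mathlib
import Pool.Agent.P.MP_af5c07_al.Poly

/-!
Properties of the eigenvalue sequence and of the closed formulas.
-/

set_option linter.unusedSectionVars false

namespace Pool.Agent.P.MP_af5c07_al

open Polynomial Module

variable {K : Type*} [Field K] {p : Par K} {D : Data K}

theorem rec_unique {b g : K} {f f' : ℤ → K} (h : ∀ i, f (i + 1) + f (i - 1) = b * f i + g)
    (h' : ∀ i, f' (i + 1) + f' (i - 1) = b * f' i + g) (e0 : f 0 = f' 0) (e1 : f 1 = f' 1)
    (k : ℤ) : f k = f' k := by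
  have key : ∀ k : ℤ, f k = f' k ∧ f (k + 1) = f' (k + 1) := by
    intro k
    induction k using Int.induction_on with
    | zero => simpa using ⟨e0, e1⟩
    | succ n ih =>
      refine ⟨ih.2, ?_⟩
      have a1 := h (n + 1)
      have a2 := h' (n + 1)
      have e : (n : ℤ) + 1 - 1 = n := by ring
      rw [e] at a1 a2
      linear_combination a1 - a2 - ih.1 + b * ih.2
    | pred n ih =>
      have e : -(n : ℤ) - 1 + 1 = -n := by ring
      rw [e]
      refine ⟨?_, ih.1⟩
      linear_combination h (-n) - h' (-n) - ih.2 + b * ih.1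
  exact (key k).1

theorem per_dvd {t : ℤ → K} {n : ℕ} (hn : IsLeast {m : ℕ | 0 < m ∧ ∀ i, t (i + m) = t i} n)
    {m : ℤ} (hm : Function.Periodic t m) : (n : ℤ) ∣ m := by
  have hp : Function.Periodic t (n : ℤ) := hn.1.2
  have hn0 : 0 < n := hn.1.1
  have h1 : Function.Periodic t (m % n) := by
    have := hm.sub_period (hp.int_mul (m / n))
    have e : m - ((m / n : ℤ) : ℤ) * (n : ℤ) = m % n := by
      have := Int.emod_add_ediv_mul m n
      linear_combination -this
    simp only [Int.cast_id] at this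
    rwa [e] at this
  have h2 : 0 ≤ m % n := Int.emod_nonneg _ (by omega)
  have h3 : m % n < n := Int.emod_lt_of_pos _ (by omega)
  by_contra hd
  have h4 : m % n ≠ 0 := fun h => hd (Int.dvd_of_emod_eq_zero h)
  have h5 : n ≤ (m % n).toNat := hn.2 ⟨by omega, fun i => by
    have e : (((m % n).toNat : ℕ) : ℤ) = m % n := by omega
    rw [e]; exact h1 i⟩
  omega

theorem per_mul {t : ℤ → K} {n : ℤ} (hp : Function.Periodic t n) (k i : ℤ) :
    t (i + n * k) = t i := by
  have := hp.int_mul k i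
  simp only [Int.cast_id] at this
  rwa [mul_comm k n] at this

/-- The cleared closed form of an edge. -/
def Par.Psi (p : Par K) (s u : K) : K :=
  (p.γ * s * u + p.ω * s + p.ηs) * (p.γ * s * u + p.ω * u + p.ηs)
    - (s - u) ^ 2 * (p.η * (s + u) + p.ρ * s * u)

/-- The left-hand side of the closed formula at the edge between `j - 1` and `j`. -/
def Data.y (D : Data K) (j : ℤ) : K := D.x j * (D.t (j - 1) - D.t (j + 1)) * (D.t (j - 2) - D.t j)

namespace Nice

variable (h : Nice p D)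
include h

theorem in0 : D.In 0 := h.in1.down le_rfl (by norm_num)

theorem root {i : ℤ} {s : K} (hs : p.Q (D.t i) s = 0) : s = D.t (i + 1) ∨ s = D.t (i - 1) := by
  rw [Q_split h.rec' h.con] at hs
  rcases mul_eq_zero.1 hs with h1 | h1
  · exact Or.inl (sub_eq_zero.1 h1)
  · exact Or.inr (sub_eq_zero.1 h1)

theorem shift {i j : ℤ} (e0 : D.t i = D.t j) (e1 : D.t (i + 1) = D.t (j + 1)) (k : ℤ) :
    D.t (i + k) = D.t (j + k) := by
  refine rec_unique (b := p.β) (g := p.γs) (f := fun k => D.t (i + k)) (f' := fun k => D.t (j + k))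
    (fun k => ?_) (fun k => ?_) (by simpa using e0) e1 k
  · have := h.rec' (i + k)
    rwa [add_assoc, add_sub_assoc] at this
  · have := h.rec' (j + k)
    rwa [add_assoc, add_sub_assoc] at this

theorem reflect {i j : ℤ} (e0 : D.t i = D.t j) (e1 : D.t (i + 1) = D.t (j - 1)) (k : ℤ) :
    D.t (i + k) = D.t (j - k) := by
  refine rec_unique (b := p.β) (g := p.γs) (f := fun k => D.t (i + k)) (f' := fun k => D.t (j - k))
    (fun k => ?_) (fun k => ?_) (by simpa using e0) e1 k
  · have := h.rec' (i + k)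
    rwa [add_assoc, add_sub_assoc] at this
  · have := h.rec' (j - k)
    have e1 : j - (k + 1) = j - k - 1 := by ring
    have e2 : j - (k - 1) = j - k + 1 := by ring
    simp only [e1, e2]
    linear_combination this

/-- Symmetry about `c / 2`. -/
theorem symm_of {i j : ℤ} (e0 : D.t i = D.t j) (e1 : D.t (i + 1) = D.t (j - 1)) (k : ℤ) :
    D.t (i + j - k) = D.t k := by
  have := h.reflect e0 e1 (j - k)
  have e2 : i + (j - k) = i + j - k := by ring
  have e3 : j - (j - k) = k := by ring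
  rwa [e2, e3] at this

theorem per_of {i j : ℤ} (e0 : D.t i = D.t j) (e1 : D.t (i + 1) = D.t (j + 1)) :
    Function.Periodic D.t (i - j) := by
  intro k
  have := h.shift e0 e1 (k - j)
  have e2 : i + (k - j) = k + (i - j) := by ring
  have e3 : j + (k - j) = k := by ring
  rwa [e2, e3] at this

theorem nbr {i j : ℤ} (e : D.t i = D.t j) :
    (D.t (i + 1) = D.t (j + 1) ∧ D.t (i - 1) = D.t (j - 1)) ∨
    (D.t (i + 1) = D.t (j - 1) ∧ D.t (i - 1) = D.t (j + 1)) := by
  have h1 := h.rec' i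
  have h2 := h.rec' j
  have h3 := h.con i
  rw [e] at h1 h3
  rcases h.root h3 with h4 | h4
  · exact Or.inl ⟨h4, by linear_combination h1 - h2 - h4⟩
  · exact Or.inr ⟨h4, by linear_combination h1 - h2 - h4⟩

theorem const_of {i : ℤ} (e0 : D.t (i - 1) = D.t i) (e1 : D.t i = D.t (i + 1)) (k : ℤ) :
    D.t k = D.t i := by
  have hp : Function.Periodic D.t (i - (i - 1)) := h.per_of e0.symm (by
    have e : i - 1 + 1 = i := by ring
    rw [e, e1])
  have e : i - (i - 1) = 1 := by ring
  rw [e] at hp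
  have := per_mul hp (k - i) i
  have e2 : i + 1 * (k - i) = k := by ring
  rwa [e2] at this

theorem m_eq {j : ℤ} (hj : D.In j) (hne : D.t (j - 1) ≠ D.t j) {m : K}
    (hm : m * (D.t j - D.t (j - 1)) = p.G (D.t j)) : m = D.a j * (D.t j - D.t (j + 1)) := by
  apply mul_right_cancel₀ (sub_ne_zero.2 hne.symm)
  rw [hm, ← h.e2 j hj]; ring

theorem edge {j : ℤ} (hj : D.In j ∨ D.In (j - 1)) :
    (D.t (j - 1) - D.t j) ^ 2 * (D.y j + zeta p D) = p.Psi (D.t (j - 1)) (D.t j) := by
  rcases hj with hj | hj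
  · have h1 := h.down j hj
    have h2 := h.e2 j hj
    unfold Data.y
    rw [h1]
    unfold Par.Z Par.Psi
    unfold Par.G at h2
    set m := D.a j * (D.t j - D.t (j + 1)) with hm
    have h3 : m * (D.t j - D.t (j - 1)) = p.γ * D.t j ^ 2 + p.ω * D.t j + p.ηs := by
      rw [hm]; linear_combination h2
    linear_combination (m * (D.t j - D.t (j - 1)) + (p.γ * D.t j ^ 2 + p.ω * D.t j + p.ηs)
      - (2 * p.γ * D.t j + p.ω) * (D.t j - D.t (j - 1))) * h3
  · obtain ⟨i, rfl⟩ : ∃ i, j = i + 1 := ⟨j - 1, by ring⟩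
    have e1 : i + 1 - 1 = i := by ring
    have e2 : i + 1 + 1 = i + 2 := by ring
    have e3 : i + 1 - 2 = i - 1 := by ring
    rw [e1] at hj
    have h1 := h.up i hj
    have h2 := h.e2 i hj
    unfold Data.y
    rw [e1, e2, e3, h1]
    unfold Par.Z Par.Psi
    unfold Par.G at h2
    set m := D.a i * (D.t i - D.t (i - 1)) with hm
    linear_combination (m * (D.t i - D.t (i + 1)) + (p.γ * D.t i ^ 2 + p.ω * D.t i + p.ηs)
      - (2 * p.γ * D.t i + p.ω) * (D.t i - D.t (i + 1))) * h2

theorem special_of {j k : ℤ} (hj : D.In j) (h1 : 1 ≤ j) (hk : D.In k ∨ D.In (k - 1))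
    (hxk : D.x k = 0)
    (he : (D.t (j - 1) = D.t (k - 1) ∧ D.t j = D.t k) ∨ (D.t (j - 1) = D.t k ∧ D.t j = D.t (k - 1)))
    (hne : D.t (j - 1) ≠ D.t j) : D.t (j - 1) = D.t (j + 1) ∨ D.t (j - 2) = D.t j := by
  have a1 := h.edge (j := j) (Or.inl hj)
  have a2 := h.edge hk
  have hy : D.y k = 0 := by unfold Data.y; rw [hxk]; simp
  have a3 : D.y j = 0 := by
    apply mul_left_cancel₀ (pow_ne_zero 2 (sub_ne_zero.2 hne))
    rw [hy] at a2
    rcases he with ⟨e1, e2⟩ | ⟨e1, e2⟩
    · rw [← e1, ← e2] at a2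
      linear_combination a1 - a2
    · rw [← e1, ← e2] at a2
      unfold Par.Psi at a1 a2
      linear_combination a1 - a2
  unfold Data.y at a3
  rcases mul_eq_zero.1 a3 with a4 | a4
  · exact Or.inl (sub_eq_zero.1 ((mul_eq_zero.1 a4).resolve_left (h.hx.ne hj h1)))
  · exact Or.inr (sub_eq_zero.1 a4)

theorem pred_two {j : ℤ} (e : D.t (j - 1) = D.t j) : D.t (j - 2) = D.t (j + 1) := by
  have h1 := h.rec' j
  have h2 := rec_pred h.rec' j
  rw [e] at h1 h2
  linear_combination h2 - h1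

theorem hroot {j : ℤ} (hj : D.In j) (h1 : 1 ≤ j) (e : D.t (j - 1) = D.t j) (m : K) :
    p.Z (D.t j) (D.t j) m - zeta p D
      = (m - (D.t j - D.t (j + 1)) * D.a (j - 1)) * (m - (D.t j - D.t (j + 1)) * D.a j)
        - (D.t j - D.t (j + 1)) ^ 2 * D.x j := by
  have hj' : D.In (j - 1) := hj.down (by omega) (by omega)
  have a1 := h.down j hj
  have a2 := h.e3 (j - 1) hj' (by simpa using hj)
  have e1 : j - 1 - 1 = j - 2 := by ring
  have e2 : j - 1 + 1 = j := by ring
  have e3 : j - 1 + 2 = j + 1 := by ring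
  rw [e1, e2, e3, h.pred_two e, e] at a2
  rw [h.pred_two e, e] at a1
  unfold Par.Z at a1 ⊢
  linear_combination -a1 + (m - (D.t j - D.t (j + 1)) * D.a j) * a2

theorem hsum {j : ℤ} (hj : D.In j) (h1 : 1 ≤ j) (e : D.t (j - 1) = D.t j) :
    (D.t j - D.t (j + 1)) * (D.a (j - 1) + D.a j) = 2 * p.γ * D.t j + p.ω := by
  have hj' : D.In (j - 1) := hj.down (by omega) (by omega)
  have a2 := h.e3 (j - 1) hj' (by simpa using hj)
  have e1 : j - 1 - 1 = j - 2 := by ring
  have e2 : j - 1 + 1 = j := by ring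
  have e3 : j - 1 + 2 = j + 1 := by ring
  rw [e1, e2, e3, h.pred_two e, e] at a2
  linear_combination a2

end Nice

end Pool.Agent.P.MP_af5c07_al
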