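import Mathlib
import Pool.Agent.P.MP_af5c07_al.Seq

/-!
Construction and analysis of starting vectors.
-/

set_option linter.unusedSectionVars false

namespace Pool.Agent.P.MP_af5c07_al

open Polynomial Module

variable {K : Type*} [Field K] {V : Type*} [AddCommGroup V] [Module K V]
  {p : Par K} {D : Data K} {A B : End K V}

/-- A reflection centre inside the range, with a root in the half-integer case. -/
def Data.Special (D : Data K) : Prop :=
  (∃ j, D.In (j - 1) ∧ D.In (j + 1) ∧ D.t (j - 1) = D.t (j + 1)) ∨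
  (∃ j τ, D.In (j - 1) ∧ D.In j ∧ D.t (j - 1) = D.t j ∧ (τ - D.a (j - 1)) * (τ - D.a j) = D.x j)

namespace Ctx

variable (H : Ctx D A B)

theorem st_center {j : ℤ} (hj : D.In j) (e : D.t (j - 1) = D.t (j + 1)) :
    St A B (D.st j (j + 1)) (H.v j) := by
  refine ⟨H.B_v j, ?_⟩
  rw [H.A_v hj]
  simp only [Data.st, map_add, map_smul, H.B_v, e]
  module

theorem st_after (h : Nice p D) {j : ℤ} (hj : D.In j) (h2 : 2 ≤ j) (e : D.t (j - 2) = D.t j) :
    St A B (D.st j (j + 1)) (H.v j - D.x j • H.v (j - 2)) := by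
  have hj2 : D.In (j - 2) := hj.down (by omega) (by omega)
  have e3 : D.t (j - 2 - 1) = D.t (j + 1) := by
    have a1 := h.rec' j
    have a2 := h.rec' (j - 2)
    have e1 : j - 2 + 1 = j - 1 := by ring
    rw [e1, e] at a2
    linear_combination a2 - a1
  have ea : D.a (j - 2) * (D.t j - D.t (j + 1)) = D.a j * (D.t j - D.t (j + 1)) := by
    by_cases hc : D.t (j - 1) = D.t j
    · have : D.t (j + 1) = D.t j := by rw [← h.pred_two hc, e]
      rw [this]; simp
    · refine h.m_eq hj hc ?_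
      have a1 := h.e2 (j - 2) hj2
      have e1 : j - 2 + 1 = j - 1 := by ring
      rw [e1, e, e3] at a1
      exact a1
  have e1 : j - 2 + 1 = j - 1 := by ring
  constructor
  · simp only [Data.st, map_sub, map_smul, H.B_v, e]
    module
  · rw [map_sub, map_smul, H.A_v hj, H.A_v hj2, e1]
    simp only [Data.st, map_sub, map_add, map_smul, H.B_v, e, e3]
    match_scalars
    · ring
    · ring
    · ring
    · linear_combination (-D.x j) * ea
    · ring

theorem st_root (h : Nice p D) {j : ℤ} (hj : D.In j) (h1 : 1 ≤ j) (e : D.t (j - 1) = D.t j)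
    {τ : K} (hτ : (τ - D.a (j - 1)) * (τ - D.a j) = D.x j) :
    St A B (D.t j, D.t (j + 1), τ * (D.t j - D.t (j + 1)))
      (H.v j + (τ - D.a j) • H.v (j - 1)) := by
  have hj1 : D.In (j - 1) := hj.down (by omega) (by omega)
  have e1 : j - 1 + 1 = j := by ring
  have e2 : j - 1 - 1 = j - 2 := by ring
  constructor
  · simp only [map_add, map_smul, H.B_v, e]
    module
  · rw [map_add, map_smul, H.A_v hj, H.A_v hj1, e1, e2]
    simp only [map_add, map_smul, H.B_v, e, h.pred_two e]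
    match_scalars
    · ring
    · ring
    · linear_combination (-(D.t j - D.t (j + 1))) * hτ
    · ring

theorem top_t {s : K} {w : V} (hw : B w = s • w) {j : ℤ} (hj : H.c j w ≠ 0) : D.t j = s := by
  have := congrArg (H.c j) hw
  rw [H.c_B, map_smul, smul_eq_mul] at this
  exact mul_right_cancel₀ hj this

theorem c_zero_of {s : K} {w : V} (hw : B w = s • w) {j : ℤ} (hj : D.t j ≠ s) : H.c j w = 0 := by
  by_contra h; exact hj (H.top_t hw h)

theorem top_next {τ : K × K × K} {w : V} (hw : St A B τ w) {j : ℤ} (hj : H.Top w j)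
    (hI : D.In (j + 1)) : D.t (j + 1) = τ.2.1 := by
  have := (H.st_iff.1 hw).2 (j + 1) hI
  have e : j + 1 - 1 = j := by ring
  rw [e, hj.2 (j + 1) (by omega), hj.2 (j + 1 + 1) (by omega)] at this
  have h2 : (D.t (j + 1) - τ.2.1) * H.c j w = 0 := by linear_combination this
  exact sub_eq_zero.1 ((mul_eq_zero.1 h2).resolve_right hj.1)

theorem top_zero {w : V} (hj : ∀ i, 0 < i → H.c i w = 0) : w = H.c 0 w • H.v 0 := by
  refine H.ext' fun i hi => ?_
  rw [map_smul, smul_eq_mul]
  by_cases h0 : i = 0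
  · subst h0; rw [H.c_v_self hi, mul_one]
  · have := hi.nonneg
    rw [hj i (by omega), H.c_v_ne h0, mul_zero]

theorem top_m {τ : K × K × K} {w : V} (hw : St A B τ w) {j : ℤ} (hj : H.Top w j)
    (h0 : H.c (j - 1) w = 0) : τ.2.2 = D.a j * (D.t j - τ.2.1) := by
  have := (H.st_iff.1 hw).2 j hj.In
  rw [h0, hj.2 (j + 1) (by omega)] at this
  apply mul_right_cancel₀ hj.1
  linear_combination -this

theorem top_fwd (h : Nice p D) {m : K} {w : V} {j : ℤ} (hw : St A B (D.t j, D.t (j + 1), m) w)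
    (hj : H.Top w j) (h1 : 1 ≤ j) :
    (D.t (j - 1) ≠ D.t j ∧ m = D.a j * (D.t j - D.t (j + 1)) ∧
      (D.t (j - 1) = D.t (j + 1) ∨ (2 ≤ j ∧ D.t (j - 2) = D.t j))) ∨
    (D.t (j - 1) = D.t j ∧ (D.t j = D.t (j + 1) ∨ ∃ τ, m = τ * (D.t j - D.t (j + 1)) ∧
      (τ - D.a (j - 1)) * (τ - D.a j) = D.x j)) := by
  have hI := hj.In
  have hj1 : D.In (j - 1) := hI.down (by omega) (by omega)
  have a0 := (H.st_iff.1 hw).2 j hI
  have a1 := (H.st_iff.1 hw).2 (j - 1) hj1
  have e1 : j - 1 + 1 = j := by ring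
  have e2 : j - 1 - 1 = j - 2 := by ring
  rw [e1, e2] at a1
  rw [hj.2 (j + 1) (by omega)] at a0
  simp only at a0 a1
  by_cases hc : D.t (j - 1) = D.t j
  · refine Or.inr ⟨hc, ?_⟩
    by_cases hd : D.t j = D.t (j + 1)
    · exact Or.inl hd
    · have hδ : D.t j - D.t (j + 1) ≠ 0 := sub_ne_zero.2 hd
      have h2 : H.c (j - 2) w = 0 := H.c_zero_of hw.1 (by rw [h.pred_two hc]; exact Ne.symm hd)
      rw [h2, hc] at a1
      refine Or.inr ⟨m / (D.t j - D.t (j + 1)), by field_simp, ?_⟩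
      set τ := m / (D.t j - D.t (j + 1)) with hτ
      have hm : m = τ * (D.t j - D.t (j + 1)) := by rw [hτ]; field_simp
      rw [hm] at a0 a1
      have b0 : H.c (j - 1) w = (τ - D.a j) * H.c j w := by
        apply mul_left_cancel₀ hδ
        linear_combination a0
      rw [b0] at a1
      apply mul_left_cancel₀ hδ
      apply mul_right_cancel₀ hj.1
      linear_combination -a1
  · have h2 : H.c (j - 1) w = 0 := H.c_zero_of hw.1 hc
    refine Or.inl ⟨hc, H.top_m hw hj h2, ?_⟩
    by_cases hd : D.t (j - 1) = D.t (j + 1)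
    · exact Or.inl hd
    · right
      rw [h2] at a1
      have b0 : H.c (j - 2) w + D.x j * H.c j w = 0 := by
        apply mul_left_cancel₀ (sub_ne_zero.2 hd)
        linear_combination a1
      have b1 : H.c (j - 2) w ≠ 0 := by
        intro h3
        rw [h3, zero_add] at b0
        exact mul_ne_zero (h.hx.ne hI h1) hj.1 b0
      have := (H.In_of_ne b1).nonneg
      exact ⟨by omega, H.top_t hw.1 b1⟩

include H in
/-- A proper nonzero submodule forces a special position. -/
theorem irr_of_not_special (h : Nice p D) (hs : ¬ D.Special) : Irr A B := by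
  refine ⟨⟨H.v 0, 0, H.v_ne h.in0⟩, fun W hA hB => ?_⟩
  by_contra hW
  push Not at hW
  obtain ⟨w0, hw0, hne0⟩ := (Submodule.ne_bot_iff W).1 hW.1
  obtain ⟨e, ⟨w, hw, he⟩, hmin⟩ := Int.exists_least_of_bdd (P := fun e => ∃ w ∈ W, H.Top w e)
    ⟨0, fun z ⟨w, _, hz⟩ => hz.In.nonneg⟩ (by
      obtain ⟨j, hj⟩ := H.exists_top hne0
      exact ⟨j, w0, hw0, hj⟩)
  have hzero : ∀ u ∈ W, (∀ i, e ≤ i → H.c i u = 0) → u = 0 := by
    intro u hu hc
    by_contra hne
    obtain ⟨j, hj⟩ := H.exists_top hne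
    exact hj.1 (hc j (hmin j ⟨u, hu, hj⟩))
  have hprop : ∀ u ∈ W, (∀ i, e < i → H.c i u = 0) → u = (H.c e u / H.c e w) • w := by
    intro u hu hc
    rw [← sub_eq_zero]
    refine hzero _ (W.sub_mem hu (W.smul_mem _ hw)) fun i hi => ?_
    rw [map_sub, map_smul, smul_eq_mul]
    by_cases hie : i = e
    · subst hie; have := he.1; field_simp; ring
    · rw [hc i (by omega), he.2 i (by omega)]; simp
  have hI := he.In
  have h1 : 1 ≤ e := by
    have := hI.nonneg
    by_contra h0
    have e0 : e = 0 := by omega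
    subst e0
    have h2 := H.top_zero he.2
    have h3 : H.v 0 = (H.c 0 w)⁻¹ • w := by
      rw [h2, smul_smul, ← h2, inv_mul_cancel₀ he.1, one_smul]
    exact hW.2 (H.eq_top_of_v0 hA (h3 ▸ W.smul_mem _ hw))
  have hI1 : D.In (e - 1) := hI.down (by omega) (by omega)
  have hBw : B w = D.t e • w := by
    rw [← sub_eq_zero]
    refine hzero _ (W.sub_mem (hB w hw) (W.smul_mem _ hw)) fun i hi => ?_
    rw [map_sub, map_smul, smul_eq_mul, H.c_B]
    by_cases hie : i = e
    · subst hie; ring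
    · rw [he.2 i (by omega)]; simp
  have hAtop : ∀ i, e + 1 < i → H.c i (A w) = 0 := by
    intro i hi
    by_cases hI' : D.In i
    · rw [H.c_A _ _ hI', he.2 _ (by omega), he.2 _ (by omega), he.2 _ (by omega)]; simp
    · exact H.c_out _ hI' _
  apply hs
  by_cases hI2 : D.In (e + 1)
  · have h2 := hprop (B (A w) - D.t (e + 1) • A w)
      (W.sub_mem (hB _ (hA _ hw)) (W.smul_mem _ (hA _ hw))) (fun i hi => by
        rw [map_sub, map_smul, smul_eq_mul, H.c_B]
        by_cases hie : i = e + 1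
        · subst hie; ring
        · rw [hAtop i (by omega)]; simp)
    have hst : St A B (D.t e, D.t (e + 1), _) w := ⟨hBw, by rw [← h2]; simp⟩
    rcases H.top_fwd h hst he h1 with ⟨-, -, h3 | ⟨h3, h4⟩⟩ | ⟨h3, h4 | ⟨τ, -, h4⟩⟩
    · exact Or.inl ⟨e, hI1, hI2, h3⟩
    · refine Or.inl ⟨e - 1, ?_, by simpa using hI, ?_⟩
      · exact hI.down (by omega) (by omega)
      · have e1 : e - 1 - 1 = e - 2 := by ring
        have e2 : e - 1 + 1 = e := by ring
        rw [e1, e2, h4]
    · exact Or.inl ⟨e, hI1, hI2, h3.trans h4⟩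
    · exact Or.inr ⟨e, τ, hI1, hI, h3, h4⟩
  · have h2 := hprop (A w) (hA _ hw) (fun i hi => H.c_out i
      (fun h' => hI2 (h'.down (by omega) (by omega))) _)
    set μ := H.c e (A w) / H.c e w with hμ
    have a0 := congrArg (H.c e) h2
    have a1 := congrArg (H.c (e - 1)) h2
    rw [H.c_A _ _ hI, he.2 (e + 1) (by omega), map_smul, smul_eq_mul] at a0
    rw [H.c_A_pred h.hx hI, map_smul, smul_eq_mul] at a1
    by_cases h3 : H.c (e - 2) w = 0
    · have b0 : H.c (e - 1) w = (μ - D.a e) * H.c e w := by linear_combination a0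
      have b1 : (μ - D.a (e - 1)) * (μ - D.a e) = D.x e := by
        rw [h3, b0] at a1
        apply mul_right_cancel₀ he.1
        linear_combination -a1
      have b2 : H.c (e - 1) w ≠ 0 := by
        rw [b0]
        refine mul_ne_zero (fun h4 => ?_) he.1
        rw [h4, mul_zero] at b1
        exact h.hx.ne hI h1 b1.symm
      exact Or.inr ⟨e, μ, hI1, hI, H.top_t hBw b2, b1⟩
    · refine Or.inl ⟨e - 1, ?_, by simpa using hI, ?_⟩
      · have e1 : e - 1 - 1 = e - 2 := by ring
        rw [e1]; exact H.In_of_ne h3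
      · have e1 : e - 1 - 1 = e - 2 := by ring
        have e2 : e - 1 + 1 = e := by ring
        rw [e1, e2, H.top_t hBw h3]

include H in
/-- The quadratic relation at a half-integer end. -/
theorem quadH (h : Nice p D) (e0 : D.t (-1) = D.t 0) (hne : D.t 0 ≠ D.t 1) {α α' : K}
    (hZ : ∀ m, p.Z (D.t 0) (D.t 0) m - zeta p D
      = (m - α * (D.t 0 - D.t 1)) * (m - α' * (D.t 0 - D.t 1)))
    (hsum : (α + α') * (D.t 0 - D.t 1) = 2 * p.γ * D.t 0 + p.ω)
    {z : V} (hz : B z = D.t 0 • z) :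
    St A B (D.t 0, D.t 1, α' * (D.t 0 - D.t 1))
      (B (A z) - D.t 1 • A z - (α * (D.t 0 - D.t 1)) • z) := by
  set δ := D.t 0 - D.t 1 with hδ
  have hδ0 : δ ≠ 0 := sub_ne_zero.2 hne
  set w := B (A z) - D.t 1 • A z - (α * δ) • z with hw
  have hc : ∀ i, D.In i → H.c i w = (D.t i - D.t 1) * (H.c (i - 1) z + D.a i * H.c i z
      + D.x (i + 1) * H.c (i + 1) z) - α * δ * H.c i z := by
    intro i hi
    rw [hw, map_sub, map_sub, map_smul, map_smul, H.c_B, H.c_A _ _ hi]
    simp only [smul_eq_mul]; ring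
  have types : ∀ i, D.t i = D.t 0 →
      (D.t (i + 1) = D.t 1 ∧ D.t (i - 1) = D.t 0) ∨ (D.t (i + 1) = D.t 0 ∧ D.t (i - 1) = D.t 1) := by
    intro i hi
    have := h.nbr hi
    simpa [e0] using this
  have nb : ∀ (u : V), B u = D.t 0 • u → ∀ i, D.t i ≠ D.t 0 →
      (D.t i - D.t 1) * H.c (i - 1) u = 0 ∧ (D.t i - D.t 1) * H.c (i + 1) u = 0 := by
    intro u hu i hi
    constructor
    · by_cases h1 : H.c (i - 1) u = 0
      · rw [h1, mul_zero]
      · have := types _ (H.top_t hu h1)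
        have e : i - 1 + 1 = i := by ring
        rw [e] at this
        rcases this with ⟨h2, -⟩ | ⟨h2, -⟩
        · rw [h2]; simp
        · exact absurd h2 hi
    · by_cases h1 : H.c (i + 1) u = 0
      · rw [h1, mul_zero]
      · have := types _ (H.top_t hu h1)
        have e : i + 1 - 1 = i := by ring
        rw [e] at this
        rcases this with ⟨-, h2⟩ | ⟨-, h2⟩
        · exact absurd h2 hi
        · rw [h2]; simp
  have hw0 : ∀ i, D.t i ≠ D.t 0 → H.c i w = 0 := by
    intro i hi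
    by_cases hI : D.In i
    · rw [hc i hI, H.c_zero_of hz hi]
      linear_combination (nb z hz i hi).1 + D.x (i + 1) * (nb z hz i hi).2
    · exact H.c_out _ hI _
  have hBw : B w = D.t 0 • w := by
    refine H.ext' fun i _ => ?_
    rw [H.c_B, map_smul, smul_eq_mul]
    by_cases hi : D.t i = D.t 0
    · rw [hi]
    · rw [hw0 i hi]; simp
  refine H.st_iff.2 ⟨fun i => ?_, fun i hI => ?_⟩
  · by_cases hi : D.t i = D.t 0
    · simp [hi]
    · rw [hw0 i hi]; simp
  simp only
  by_cases hi : D.t i = D.t 0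
  swap
  · rw [hw0 i hi]
    linear_combination (nb w hBw i hi).1 + D.x (i + 1) * (nb w hBw i hi).2
  have hi0 := hI.nonneg
  rcases types i hi with ⟨t1, t2⟩ | ⟨t1, t2⟩
  · have z1 : H.c (i + 1) z = 0 := H.c_zero_of hz (by rw [t1]; exact hne.symm)
    have w1 : H.c (i + 1) w = 0 := hw0 _ (by rw [t1]; exact hne.symm)
    by_cases h1 : 1 ≤ i
    · have hI1 : D.In (i - 1) := hI.down (by omega) (by omega)
      have e : D.t (i - 1) = D.t i := by rw [t2, hi]
      have z2 : H.c (i - 1 - 1) z = 0 := H.c_zero_of hz (by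
        have e2 : i - 1 - 1 = i - 2 := by ring
        rw [e2, h.pred_two e, t1]; exact hne.symm)
      have e1 : i - 1 + 1 = i := by ring
      have r1 := h.hroot hI h1 e (D.a i * δ)
      have r2 := h.hsum hI h1 e
      rw [hi, t1, ← hδ] at r1 r2
      rw [hZ] at r1
      rw [hc i hI, hc (i - 1) hI1, w1, z1, z2, e1, hi, t2, ← hδ]
      linear_combination H.c i z * r1 + δ * H.c (i - 1) z * (r2 - hsum)
    · have i0 : i = 0 := by omega
      subst i0
      have r1 := hZ (D.a 0 * δ)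
      have r2 : p.Z (D.t 0) (D.t 0) (D.a 0 * δ) = zeta p D := by unfold zeta; rw [e0]
      rw [r2, sub_self] at r1
      rw [hc 0 hI, w1, z1, H.c_neg (i := 0 - 1) (by norm_num), H.c_neg (i := 0 - 1) (by norm_num),
        ← hδ]
      linear_combination (-H.c 0 z) * r1
  · have z1 : H.c (i - 1) z = 0 := H.c_zero_of hz (by rw [t2]; exact hne.symm)
    have w1 : H.c (i - 1) w = 0 := hw0 _ (by rw [t2]; exact hne.symm)
    by_cases h1 : D.In (i + 1)
    · have e1 : i + 1 - 1 = i := by ring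
      have e : D.t (i + 1 - 1) = D.t (i + 1) := by rw [e1, t1, hi]
      have t3 : D.t (i + 1 + 1) = D.t 1 := by
        have e2 : i + 1 - 2 = i - 1 := by ring
        rw [← h.pred_two e, e2, t2]
      have z2 : H.c (i + 1 + 1) z = 0 := H.c_zero_of hz (by rw [t3]; exact hne.symm)
      have r1 := h.hroot h1 (by omega) e (D.a i * δ)
      have r2 := h.hsum h1 (by omega) e
      rw [t1, t3, ← hδ, e1] at r1 r2
      rw [hZ] at r1
      have hx := h.hx.ne h1 (by omega)
      rw [hc i hI, hc (i + 1) h1, w1, z1, z2, e1, hi, t1, ← hδ]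
      linear_combination H.c i z * r1 + δ * D.x (i + 1) * H.c (i + 1) z * (r2 - hsum)
    · have r1 := h.up i hI
      rw [h.hx.zero_of h1, hi, t1, t2, ← hδ, hZ] at r1
      rw [hc i hI, w1, z1, h.hx.zero_of h1, hi, ← hδ]
      linear_combination (-H.c i z) * r1

end Ctx

theorem Data.Inj.not_special (hD : D.Inj) : ¬ D.Special := by
  rintro (⟨j, h1, h2, h3⟩ | ⟨j, τ, h1, h2, h3, -⟩)
  · have := hD h1 h2 h3; omega
  · have := hD h1 h2 h3; omega

theorem Nice.quad_not_special (h : Nice p D) (hD : D.Quad) : ¬ D.Special := by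
  obtain ⟨k, hN, hinj, hk, hq⟩ := hD
  have hI : ∀ i, D.In i ↔ 0 ≤ i ∧ i < 2 * k + 2 := by
    intro i
    rw [Data.In_of_nat (m := 2 * k + 2) (by rw [hN]; push_cast; rfl)]
    push_cast; rfl
  have hs : ∀ i, D.t (2 * k + 1 - i) = D.t i := by
    intro i
    have := h.symm_of (i := k) (j := k + 1) hk (by
      have e : (k : ℤ) + 1 - 1 = k := by ring
      rw [e, hk]) i
    have e : (k : ℤ) + (k + 1) - i = 2 * k + 1 - i := by ring
    rwa [e] at this
  have key : ∀ i j, D.In i → D.In j → D.t i = D.t j → i = j ∨ i + j = 2 * k + 1 := by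
    intro i j hi hj hij
    rw [hI] at hi hj
    by_cases h1 : i ≤ k <;> by_cases h2 : j ≤ k
    · exact Or.inl (hinj ⟨hi.1, h1⟩ ⟨hj.1, h2⟩ hij)
    · rw [← hs j] at hij
      have := hinj ⟨hi.1, h1⟩ (⟨by omega, by omega⟩ : 2 * k + 1 - j ∈ Set.Icc 0 (k : ℤ)) hij
      omega
    · rw [← hs i] at hij
      have := hinj (⟨by omega, by omega⟩ : 2 * k + 1 - i ∈ Set.Icc 0 (k : ℤ)) ⟨hj.1, h2⟩ hij
      omega
    · rw [← hs i, ← hs j] at hij
      have := hinj (⟨by omega, by omega⟩ : 2 * k + 1 - i ∈ Set.Icc 0 (k : ℤ))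
        (⟨by omega, by omega⟩ : 2 * k + 1 - j ∈ Set.Icc 0 (k : ℤ)) hij
      omega
  rintro (⟨j, h1, h2, h3⟩ | ⟨j, τ, h1, h2, h3, h4⟩)
  · have := key _ _ h1 h2 h3; omega
  · have := key _ _ h1 h2 h3
    have e : j = k + 1 := by omega
    subst e
    have e : (k : ℤ) + 1 - 1 = k := by ring
    rw [e] at h4
    exact hq τ h4

end Pool.Agent.P.MP_af5c07_al
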