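import Mathlib
import Pool.Agent.P.MP_af5c07_al.Start

/-!
The three families are irreducible.
-/

set_option linter.unusedSectionVars false

namespace Pool.Agent.P.MP_af5c07_al

open Polynomial Module

variable {K : Type*} [Field K] {V : Type*} [AddCommGroup V] [Module K V]
  {p : Par K} {D : Data K} {A B : End K V}

theorem aeval_comp_apply (A : End K V) (g T : K[X]) (w : V) :
    aeval A (g.comp T) w = aeval (aeval A T) g w := by
  rw [aeval_comp]

namespace Ctx

variable (H : Ctx D A B)

theorem exists_bottom (hx : D.HX) {W : Submodule K V} (hA : ∀ w ∈ W, A w ∈ W) (hW : W ≠ ⊥) :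
    ∃ z ∈ W, H.c 0 z ≠ 0 := by
  obtain ⟨w0, hw0, hne0⟩ := (Submodule.ne_bot_iff W).1 hW
  obtain ⟨j, hj⟩ := H.exists_top hne0
  obtain ⟨e, ⟨w, hw, he⟩, hmin⟩ := Int.exists_least_of_bdd (P := fun e => ∃ w ∈ W, H.c e w ≠ 0)
    ⟨0, fun z ⟨w, _, hz⟩ => (H.In_of_ne hz).nonneg⟩ ⟨j, w0, hw0, hj.1⟩
  have hI := H.In_of_ne he
  have h0 := hI.nonneg
  by_cases h1 : e = 0
  · exact ⟨w, hw, h1 ▸ he⟩
  · exfalso
    have hz : ∀ i, i < e → ∀ u ∈ W, H.c i u = 0 := by
      intro i hi u hu
      by_contra h
      have := hmin i ⟨u, hu, h⟩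
      omega
    have := hz (e - 1) (by omega) (A w) (hA w hw)
    rw [H.c_A_pred hx hI, hz (e - 2) (by omega) w hw, hz (e - 1) (by omega) w hw] at this
    simp only [mul_zero, add_zero, zero_add] at this
    exact mul_ne_zero (hx.ne hI (by omega)) he this

theorem proj {W : Submodule K V} (hB : ∀ w ∈ W, B w ∈ W) (s : K) {z : V} (hz : z ∈ W) :
    ∃ u ∈ W, B u = s • u ∧ ∀ i, D.t i = s → H.c i u = H.c i z := by
  have key : ∀ n : ℕ, ∃ u ∈ W, (∀ i, D.t i = s → H.c i u = H.c i z) ∧
      (∀ i, H.c i z = 0 → H.c i u = 0) ∧ ∀ i : ℤ, i < n → D.t i ≠ s → H.c i u = 0 := by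
    intro n
    induction n with
    | zero => exact ⟨z, hz, fun _ _ => rfl, fun _ h => h, fun i hi _ => H.c_neg (by omega) z⟩
    | succ n ih =>
      obtain ⟨u, hu, h1, h2, h3⟩ := ih
      by_cases hn : D.t n = s
      · refine ⟨u, hu, h1, h2, fun i hi hs => h3 i ?_ hs⟩
        have : i ≠ n := fun h => hs (h ▸ hn)
        push_cast at hi; omega
      · have hne : s - D.t n ≠ 0 := sub_ne_zero.2 (Ne.symm hn)
        have hc : ∀ i, H.c i ((s - D.t n)⁻¹ • (B u - D.t n • u))
            = (s - D.t n)⁻¹ * (D.t i - D.t n) * H.c i u := by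
          intro i
          rw [map_smul, map_sub, map_smul, H.c_B]
          simp only [smul_eq_mul]; ring
        refine ⟨(s - D.t n)⁻¹ • (B u - D.t n • u),
          W.smul_mem _ (W.sub_mem (hB u hu) (W.smul_mem _ hu)), fun i hi => ?_, fun i hi => ?_,
          fun i hi hs => ?_⟩
        · rw [hc, hi, inv_mul_cancel₀ hne, one_mul, h1 i hi]
        · rw [hc, h2 i hi, mul_zero]
        · rw [hc]
          by_cases hin : i = n
          · rw [hin]; simp
          · rw [h3 i (by push_cast at hi; omega) hs, mul_zero]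
  obtain ⟨M, hM⟩ := H.c_fin z
  obtain ⟨u, hu, h1, h2, h3⟩ := key (M + 1).toNat
  refine ⟨u, hu, H.ext' fun i _ => ?_, h1⟩
  rw [H.c_B, map_smul, smul_eq_mul]
  by_cases hi : D.t i = s
  · rw [hi]
  · have : H.c i u = 0 := by
      by_cases hM' : M < i
      · exact h2 i (hM i hM')
      · exact h3 i (by omega) hi
    rw [this]; simp

include H in
theorem st_of_center (h : Nice p D) (e : D.t (-1) = D.t 1) {z : V} (hz : B z = D.t 0 • z) :
    St A B (D.st 0 1) z := by
  have nb : ∀ i, D.t i = D.t 0 → D.t (i + 1) = D.t 1 ∧ D.t (i - 1) = D.t 1 := by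
    intro i hi
    have := h.nbr hi
    simpa [e] using this
  refine H.st_iff.2 ⟨fun i => ?_, fun i hI => ?_⟩
  · by_cases hi : D.t i = D.t 0
    · simp [Data.st, hi]
    · rw [H.c_zero_of hz hi, mul_zero]
  · simp only [Data.st]
    have a1 : (D.t i - D.t 1) * H.c (i - 1) z = 0 := by
      by_cases h1 : H.c (i - 1) z = 0
      · rw [h1, mul_zero]
      · have := (nb _ (H.top_t hz h1)).1
        have e1 : i - 1 + 1 = i := by ring
        rw [e1] at this
        rw [this]; simp
    have a2 : (D.t i - D.t 1) * H.c (i + 1) z = 0 := by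
      by_cases h1 : H.c (i + 1) z = 0
      · rw [h1, mul_zero]
      · have := (nb _ (H.top_t hz h1)).2
        have e1 : i + 1 - 1 = i := by ring
        rw [e1] at this
        rw [this]; simp
    have a3 : (D.t i - D.t 1) * D.a i * H.c i z = D.a 0 * (D.t 0 - D.t 1) * H.c i z := by
      by_cases h1 : H.c i z = 0
      · rw [h1]; simp
      · have hi := H.top_t hz h1
        by_cases h2 : D.t 0 = D.t 1
        · rw [hi, h2]; simp
        · have b1 := h.e2 i hI
          have b2 := h.e2 0 h.in0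
          rw [hi, (nb i hi).1, (nb i hi).2] at b1
          simp only [zero_sub, zero_add, e] at b2
          have : D.a i = D.a 0 := by
            apply mul_right_cancel₀ (mul_ne_zero (sub_ne_zero.2 h2) (sub_ne_zero.2 h2))
            linear_combination b1 - b2
          rw [hi, this]; ring
    linear_combination a1 + D.x (i + 1) * a2 + a3

theorem T_apply {n : ℕ} (hn : 0 < n) (hI : D.In n) (c : K) :
    aeval A (D.pol n + C c * D.pol (n - 1)) (H.v 0) = H.v n + c • H.v (n - 1) := by
  have e : ((n - 1 : ℕ) : ℤ) = n - 1 := by omega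
  have hI1 : D.In ((n - 1 : ℕ) : ℤ) := hI.down (by omega) (by omega)
  rw [map_add, LinearMap.add_apply, aeval_mul_apply, H.pol_v n hI, H.pol_v _ hI1, e]
  simp

theorem T_st (h : Nice p D) {n : ℕ} (hn : 0 < n) (hI : D.In n) (hp : Function.Periodic D.t n)
    (e : D.t (-1) = D.t 1 ∨ D.t (-1) = D.t 0) :
    St A B (D.st 0 1) (aeval A (D.pol n + C (D.a 0 - D.a n) * D.pol (n - 1)) (H.v 0)) := by
  rw [H.T_apply hn hI]
  have p0 : D.t n = D.t 0 := by simpa using hp 0
  have p1 : D.t (n + 1) = D.t 1 := by rw [add_comm]; exact hp 1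
  have p2 : D.t (n - 1) = D.t (-1) := by
    have := hp (-1)
    rwa [neg_add_eq_sub] at this
  by_cases e0 : D.t (-1) = D.t 0
  · by_cases e1 : D.t 0 = D.t 1
    · refine H.st_of_center h (e0.trans e1) ?_
      rw [map_add, map_smul, H.B_v, H.B_v, p0, p2, e0, smul_add, smul_comm]
    · have ee : D.t (n - 1) = D.t n := by rw [p2, p0, e0]
      have r := h.hroot hI (by omega) ee (D.a 0 * (D.t 0 - D.t 1))
      have r2 : p.Z (D.t 0) (D.t 0) (D.a 0 * (D.t 0 - D.t 1)) = zeta p D := by
        unfold zeta; rw [e0]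
      rw [p0, p1, r2, sub_self] at r
      have hτ : (D.a 0 - D.a (n - 1)) * (D.a 0 - D.a n) = D.x n := by
        apply mul_left_cancel₀ (pow_ne_zero 2 (sub_ne_zero.2 e1))
        linear_combination -r
      have := H.st_root h hI (by omega) ee hτ
      rwa [p0, p1] at this
  · have e1 := e.resolve_right e0
    refine H.st_of_center h e1 ?_
    have hne : D.t (n - 1) ≠ D.t n := by rw [p2, p0]; exact e0
    have b1 := h.e2 n hI
    have b2 := h.e2 0 h.in0
    rw [p0, p1, p2, e1] at b1
    simp only [zero_sub, zero_add, e1] at b2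
    have h2 : D.t 0 ≠ D.t 1 := fun h' => e0 (e1.trans h'.symm)
    have : D.a n = D.a 0 := by
      apply mul_right_cancel₀ (mul_ne_zero (sub_ne_zero.2 h2) (sub_ne_zero.2 h2))
      linear_combination b1 - b2
    rw [this, sub_self, zero_smul, add_zero, H.B_v, p0]

theorem span_T (h1 : AW1 p A B) (h0 : D.In 0) {n : ℕ} (hn : 0 < n) {T : K[X]} (hT : T.Monic)
    (hd : T.natDegree = n) (hst : St A B (D.st 0 1) (aeval A T (H.v 0)))
    (htop : ∀ w j, St A B (D.st 0 1) w → H.Top w j → (n : ℤ) ∣ j) (L : ℕ) :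
    ∀ w, St A B (D.st 0 1) w → (∀ i : ℤ, n * L ≤ i → H.c i w = 0) →
      ∃ g : K[X], g.degree < L ∧ w = aeval A (g.comp T) (H.v 0) := by
  have hpow : ∀ l : ℕ, St A B (D.st 0 1) (aeval A (T ^ l) (H.v 0)) := by
    intro l
    induction l with
    | zero => simpa using H.st_v0 h0
    | succ l ih =>
      rw [pow_succ', aeval_mul_apply]
      exact ih.map (fun u => (aeval_A A T u).symm) (H.endo h1 h0 hst)
  induction L with
  | zero =>
    intro w _ hw
    refine ⟨0, by simp, ?_⟩
    rw [zero_comp, map_zero, LinearMap.zero_apply]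
    refine H.c_inj w fun i => ?_
    by_cases hi : 0 ≤ i
    · exact hw i (by simpa using hi)
    · exact H.c_neg (by omega) w
  | succ L ih =>
    intro w hw hc
    have hdeg : (T ^ L).natDegree = n * L := by rw [hT.natDegree_pow, hd, mul_comm]
    set c := H.c (n * L) w with hcdef
    have hw' : St A B (D.st 0 1) (w - c • aeval A (T ^ L) (H.v 0)) :=
      (StSub A B _).sub_mem hw ((StSub A B _).smul_mem c (hpow L))
    have hc' : ∀ i : ℤ, n * L ≤ i → H.c i (w - c • aeval A (T ^ L) (H.v 0)) = 0 := by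
      intro i hi
      by_contra hne
      obtain ⟨j, hj⟩ := H.exists_top (w := w - c • aeval A (T ^ L) (H.v 0)) (fun h => hne (by
        rw [h, map_zero]))
      obtain ⟨l, rfl⟩ := htop _ j hw' hj
      have hij : i ≤ n * l := by
        by_contra h'
        exact hne (hj.2 i (by omega))
      have hl : (L : ℤ) ≤ l := by
        have : (n : ℤ) * L ≤ n * l := hi.trans hij
        exact le_of_mul_le_mul_left this (by omega)
      apply hj.1
      rw [map_sub, map_smul, smul_eq_mul]
      rcases hl.eq_or_lt with hl | hl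
      · rw [← hl]
        have hI : D.In ((T ^ L).natDegree : ℤ) := by
          rw [hdeg]; push_cast; rw [hl]; exact hj.In
        have := H.c_aeval_top h0 (T ^ L) hI
        rw [hdeg, (hT.pow L).leadingCoeff] at this
        push_cast at this
        rw [this, mul_one, sub_self]
      · have a1 : (n : ℤ) * (L + 1) ≤ n * l := mul_le_mul_of_nonneg_left (by omega) (by omega)
        rw [hc _ (by push_cast; exact a1), H.c_aeval_gt h0 _ (by
          rw [hdeg]; push_cast; nlinarith)]
        simp
    obtain ⟨g, hg, hgw⟩ := ih _ hw' hc'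
    refine ⟨g + C c * X ^ L, ?_, ?_⟩
    · refine (degree_add_le _ _).trans_lt (max_lt (hg.trans ?_) ((degree_C_mul_X_pow_le _ _).trans_lt ?_))
      · exact_mod_cast Nat.lt_succ_self L
      · exact_mod_cast Nat.lt_succ_self L
    · rw [add_comp, map_add, LinearMap.add_apply, ← hgw]
      simp

theorem top_dvd (h : Nice p D) {n r : ℕ} (hN : D.N = n * r)
    (hn : IsLeast {m : ℕ | 0 < m ∧ ∀ i, D.t (i + m) = D.t i} n)
    (e : D.t (-1) = D.t 1 ∨ (D.t (-1) = D.t 0 ∧ D.a 0 ≠ D.a D.d))
    (w : V) (j : ℤ) (hw : St A B (D.st 0 1) w) (hj : H.Top w j) : (n : ℤ) ∣ j := by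
  have t0 : D.t j = D.t 0 := H.top_t hw.1 hj.1
  by_cases t1 : D.t (j + 1) = D.t 1
  · have := per_dvd hn (h.per_of t0 (by simpa using t1))
    simpa using this
  · exfalso
    have hI : ¬ D.In (j + 1) := fun hI => t1 (H.top_next hw hj hI)
    obtain ⟨hN', hd⟩ := Data.last_of hj.In hI
    have hnr : j + 1 = n * r := by
      rw [← hd]
      unfold Data.d
      rw [hN]
      have : ((n : ℕ∞) * r).toNat = n * r := by rw [← Nat.cast_mul, ENat.toNat_natCast]
      rw [this]; push_cast; ring
    have hp : Function.Periodic D.t n := hn.1.2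
    have a1 : D.t (j + 1) = D.t 0 := by
      have := per_mul hp r 0
      rwa [zero_add, ← hnr] at this
    have a2 : D.t j = D.t (-1) := by
      have := per_mul hp r (-1)
      have e1 : -1 + (n : ℤ) * r = j := by omega
      rwa [e1] at this
    have a3 : D.t 0 ≠ D.t 1 := fun h' => t1 (a1.trans h')
    rcases e with e | ⟨e, ea⟩
    · exact a3 (t0.symm.trans (a2.trans e))
    · have a4 : D.t (j - 1) = D.t 1 := by
        rcases h.nbr t0 with ⟨b, -⟩ | ⟨-, b⟩
        · exact absurd (by simpa using b) t1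
        · simpa using b
      have := H.top_m hw hj (H.c_zero_of hw.1 (by rw [a4]; exact a3.symm))
      simp only [Data.st] at this
      rw [t0, ← hd] at this
      exact ea (mul_right_cancel₀ (sub_ne_zero.2 a3) this)

include H in
theorem irr_of_per (h : Nice p D) (hD : D.Per) : Irr A B := by
  obtain ⟨n, r, hN, hn, e, hf⟩ := hD
  have h1 := (H.AW_of_raw h.hx p h.raw).1
  have hI : ∀ i, D.In i ↔ 0 ≤ i ∧ i < n * r := by
    intro i
    rw [Data.In_of_nat (m := n * r) (by rw [hN]; push_cast; rfl)]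
    push_cast; rfl
  have hNt : D.N ≠ ⊤ := by rw [hN, ← Nat.cast_mul]; exact ENat.natCast_ne_top _
  have hn0 : 0 < n := hn.1.1
  have hp : Function.Periodic D.t n := hn.1.2
  refine ⟨⟨H.v 0, 0, H.v_ne h.in0⟩, fun W hA hB => ?_⟩
  by_cases hW : W = ⊥
  · exact Or.inl hW
  right
  obtain ⟨z0, hz0, hc0⟩ := H.exists_bottom h.hx hA hW
  obtain ⟨z, hz, hBz, hcz⟩ := H.proj hB (D.t 0) hz0
  have hc : H.c 0 z ≠ 0 := by rw [hcz 0 rfl]; exact hc0
  have hw : ∃ w ∈ W, H.c 0 w ≠ 0 ∧ St A B (D.st 0 1) w := by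
    by_cases e1 : D.t (-1) = D.t 1
    · exact ⟨z, hz, hc, H.st_of_center h e1 hBz⟩
    · obtain ⟨e0, ea⟩ := e.resolve_left e1
      have hne : D.t 0 ≠ D.t 1 := fun h' => e1 (e0.trans h')
      have hδ : D.t 0 - D.t 1 ≠ 0 := sub_ne_zero.2 hne
      have hd : D.d + 1 = n * r := by
        have a1 := hI D.d
        have a2 := hI (D.d + 1)
        rw [Data.In_fin hNt] at a1 a2
        have := (Data.In_fin hNt 0).1 h.in0
        omega
      have hId : D.In D.d := (Data.In_fin hNt _).2 ⟨((Data.In_fin hNt 0).1 h.in0).2, le_rfl⟩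
      have q : ∀ i, D.t (i + (D.d + 1)) = D.t i := fun i => by rw [hd]; exact per_mul hp r i
      have q0 : D.t (D.d + 1) = D.t 0 := by simpa using q 0
      have q1 : D.t D.d = D.t 0 := by
        have := q (-1)
        have e2 : -1 + (D.d + 1) = D.d := by ring
        rw [e2] at this; rw [this, e0]
      have q2 : D.t (D.d - 1) = D.t 1 := by
        have := q (-2)
        have e2 : -2 + (D.d + 1) = D.d - 1 := by ring
        rw [e2] at this; rw [this]
        simpa using h.pred_two (j := 0) (by simpa using e0)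
      have r1 := h.up D.d hId
      rw [h.hx.zero_of (fun h' => by have := (Data.In_fin hNt _).1 h'; omega), q0, q1, q2] at r1
      have r2 : p.Z (D.t 0) (D.t 0) (D.a 0 * (D.t 0 - D.t 1)) = zeta p D := by
        unfold zeta; rw [e0]
      have hsum : (D.a D.d + D.a 0) * (D.t 0 - D.t 1) = 2 * p.γ * D.t 0 + p.ω := by
        apply mul_left_cancel₀ (mul_ne_zero (sub_ne_zero.2 ea) hδ)
        unfold Par.Z at r1 r2
        linear_combination r1 + r2
      have hZ : ∀ m, p.Z (D.t 0) (D.t 0) m - zeta p D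
          = (m - D.a D.d * (D.t 0 - D.t 1)) * (m - D.a 0 * (D.t 0 - D.t 1)) := by
        intro m
        rw [← r2]
        unfold Par.Z
        linear_combination (m - D.a 0 * (D.t 0 - D.t 1)) * hsum
      refine ⟨_, W.sub_mem (W.sub_mem (hB _ (hA _ hz)) (W.smul_mem _ (hA _ hz))) (W.smul_mem _ hz),
        ?_, H.quadH h e0 hne hZ hsum hBz⟩
      rw [map_sub, map_sub, map_smul, map_smul, H.c_B, H.c_A _ _ h.in0,
        H.c_neg (i := 0 - 1) (by norm_num),
        H.c_zero_of hBz (j := 0 + 1) (by simpa using hne.symm)]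
      simp only [smul_eq_mul]
      intro h'
      apply mul_ne_zero (mul_ne_zero (sub_ne_zero.2 ea) hδ) hc
      linear_combination h'
  obtain ⟨w, hwW, hwc, hw⟩ := hw
  apply H.eq_top_of_v0 hA
  by_cases hr : D.In n
  · have hr1 : r ≠ 1 := by
      rintro rfl
      have := (hI n).1 hr
      simp at this
    obtain ⟨f, hfi, hchi⟩ := hf.resolve_left hr1
    set T := D.pol n + C (D.a 0 - D.a n) * D.pol (n - 1) with hT
    have hlt : (C (D.a 0 - D.a n) * D.pol (n - 1)).natDegree < (D.pol n).natDegree := by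
      have := natDegree_C_mul_le (D.a 0 - D.a n) (D.pol (n - 1))
      rw [(D.pol_monic _).2] at this ⊢
      omega
    have hTm : T.Monic := (D.pol_monic n).1.add_of_left (degree_lt_degree hlt)
    have hTd : T.natDegree = n := by
      rw [hT, natDegree_add_eq_left_of_natDegree_lt hlt, (D.pol_monic _).2]
    have hst := H.T_st h hn0 hr hp (e.imp id And.left)
    obtain ⟨g, hg, hgw⟩ := H.span_T h1 h.in0 hn0 hTm hTd hst (H.top_dvd h hN hn e) r w hw
      (fun i hi => H.c_out i (fun h' => by have := (hI i).1 h'; omega) w)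
    have hg0 : g ≠ 0 := by
      rintro rfl
      rw [hgw] at hwc
      simp at hwc
    have hfd : f.natDegree = r := by
      have a1 := congrArg natDegree hchi
      rw [natDegree_comp, hTd, Data.chi_fin hNt, (D.pol_monic _).2, hN, ← Nat.cast_mul,
        ENat.toNat_natCast, mul_comm] at a1
      exact (Nat.eq_of_mul_eq_mul_right hn0 a1).symm
    have hcop : IsCoprime f g := by
      rw [hfi.coprime_iff_not_dvd]
      intro hdvd
      have := natDegree_le_of_dvd hdvd hg0
      have a2 : g.natDegree < r := (natDegree_lt_iff_degree_lt hg0).2 hg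
      omega
    obtain ⟨a, b, hab⟩ := hcop
    have a3 : H.v 0 = aeval A (b.comp T) w := by
      have := congrArg (fun q : K[X] => aeval A (q.comp T) (H.v 0)) hab
      simp only [add_comp, mul_comp, one_comp, map_add, LinearMap.add_apply, aeval_mul_apply,
        map_one, End.one_apply] at this
      rw [← hchi, H.chi_v h.in0, map_zero, zero_add, ← hgw] at this
      exact this.symm
    rw [a3]
    exact aeval_mem hA _ hwW
  · have hz' : ∀ i, 0 < i → H.c i w = 0 := by
      intro i hi
      by_contra hne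
      obtain ⟨j, hj⟩ := H.exists_top (w := w) (fun h' => hne (by rw [h', map_zero]))
      have a1 := H.top_dvd h hN hn e w j hw hj
      have a2 : i ≤ j := by
        by_contra h'
        exact hne (hj.2 i (by omega))
      have a3 := Int.le_of_dvd (by omega) a1
      exact hr (hj.In.down (by omega) a3)
    have h2 := H.top_zero hz'
    have h3 : H.v 0 = (H.c 0 w)⁻¹ • w := by
      rw [h2, smul_smul, ← h2, inv_mul_cancel₀ hwc, one_smul]
    rw [h3]
    exact W.smul_mem _ hwW

include H in
theorem irr_of_one (h0 : D.In 0) (h1 : ¬ D.In 1) : Irr A B := by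
  refine ⟨⟨H.v 0, 0, H.v_ne h0⟩, fun W hA hB => ?_⟩
  by_cases hW : W = ⊥
  · exact Or.inl hW
  right
  obtain ⟨w, hw, hne⟩ := (Submodule.ne_bot_iff W).1 hW
  have h2 := H.top_zero (w := w)
    (fun i hi => H.c_out i (fun h' => h1 (h'.down (by omega) (by omega))) w)
  have hc : H.c 0 w ≠ 0 := by
    intro h'; rw [h', zero_smul] at h2; exact hne h2
  have h3 : H.v 0 = (H.c 0 w)⁻¹ • w := by
    rw [h2, smul_smul, ← h2, inv_mul_cancel₀ hc, one_smul]
  exact H.eq_top_of_v0 hA (h3 ▸ W.smul_mem _ hw)

include H in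
theorem irr_of_good (hs : Sol p D) (hg : D.Good) : Irr A B := by
  by_cases h1 : D.In 1
  · have h := nice_of_sol hs h1
    rcases hg with hg | hg | hg
    · exact H.irr_of_not_special h hg.not_special
    · exact H.irr_of_not_special h (h.quad_not_special hg)
    · exact H.irr_of_per h hg
  · exact H.irr_of_one hs.in0 h1

end Ctx

end Pool.Agent.P.MP_af5c07_al
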