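import Mathlib
import Pool.Agent.P.MP_af5c07_al.Suff

/-!
Necessity, first part: the periodic situation.
-/

set_option linter.unusedSectionVars false

namespace Pool.Agent.P.MP_af5c07_al

open Polynomial Module

variable {K : Type*} [Field K] {V : Type*} [AddCommGroup V] [Module K V]
  {p : Par K} {D : Data K} {A B : End K V}

theorem comm_comp {T : K[X]} (hT : ∀ u, B (aeval A T u) = aeval A T (B u)) (G : K[X]) (u : V) :
    B (aeval A (G.comp T) u) = aeval A (G.comp T) (B u) := by
  induction G using Polynomial.induction_on' generalizing u with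
  | add f g hf hg => simp [hf, hg]
  | monomial n c =>
    rw [monomial_comp, aeval_mul_apply, aeval_mul_apply]
    simp only [aeval_C, Module.algebraMap_end_apply, map_smul]
    congr 1
    induction n with
    | zero => simp
    | succ n ih => rw [pow_succ', aeval_mul_apply, aeval_mul_apply, hT, ih]

theorem comp_ne_zero {T G : K[X]} (hT : 0 < T.natDegree) (hG : G ≠ 0) : G.comp T ≠ 0 := by
  intro h
  rcases comp_eq_zero_iff.1 h with h | ⟨-, h⟩
  · exact hG h
  · rw [h, natDegree_C] at hT; exact lt_irrefl _ hT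

theorem Irr.scalar (h : Irr A B) {g : K[X]} (hg : ∀ u, B (aeval A g u) = aeval A g (B u))
    {w : V} (hw : w ≠ 0) {l : K} (hl : aeval A g w = l • w) (u : V) : aeval A g u = l • u := by
  have := h.endo_zero (M := aeval A g - l • (1 : End K V)) (fun u => by simp [aeval_A])
    (fun u => by simp [hg]) hw (by simp [hl]) u
  simpa [sub_eq_zero] using this

theorem exists_least {t : ℤ → K} {m : ℤ} (hm : 0 < m) (hp : Function.Periodic t m) :
    ∃ n : ℕ, IsLeast {m : ℕ | 0 < m ∧ ∀ i, t (i + m) = t i} n := by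
  classical
  have hex : ∃ n : ℕ, 0 < n ∧ ∀ i, t (i + n) = t i := ⟨m.toNat, by omega, fun i => by
    have e : (m.toNat : ℤ) = m := by omega
    rw [e]; exact hp i⟩
  exact ⟨Nat.find hex, Nat.find_spec hex, fun k hk => Nat.find_min' hex hk⟩

namespace Ctx

variable (H : Ctx D A B)

theorem small (hirr : Irr A B) (h0 : D.In 0) {n : ℕ} (hn : 0 < n) {T : K[X]}
    (hd : T.natDegree = n) (hT : ∀ u, B (aeval A T u) = aeval A T (B u))
    (J : Submodule K V) (hJ : ∀ u ∈ J, aeval A T u ∈ J) {w : V} (hw : w ∈ J) (hw0 : w ≠ 0)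
    (r : ℕ) (o : ℤ) (htop : ∀ u ∈ J, ∀ j, H.Top u j → ∃ l : ℕ, l < r ∧ j = n * l + o)
    (hI : D.In (n * r)) : False := by
  let φ : V →ₗ[K] (Fin r → K) := LinearMap.pi fun l => H.c (n * (l : ℕ) + o)
  have hnl : ¬ LinearIndependent K fun k : Fin (r + 1) => φ (aeval A (T ^ (k : ℕ)) w) := by
    intro hli
    have := hli.fintype_card_le_finrank
    simp at this
  obtain ⟨g, hg, i0, hi0⟩ := Fintype.not_linearIndependent_iff.1 hnl
  let G : K[X] := ∑ k : Fin (r + 1), C (g k) * X ^ (k : ℕ)
  have hG0 : G ≠ 0 := by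
    intro h
    have := congrArg (fun q : K[X] => q.coeff i0) h
    simp only [G, finsetSum_coeff, coeff_C_mul_X_pow, coeff_zero] at this
    rw [Finset.sum_eq_single i0] at this
    · exact hi0 (by simpa using this)
    · intro b _ hb
      rw [if_neg (fun h' => hb (Fin.ext h'.symm))]
    · simp
  have hGd : G.natDegree ≤ r := by
    refine natDegree_sum_le_of_forall_le _ _ fun k _ => (natDegree_C_mul_X_pow_le _ _).trans ?_
    omega
  have hGw : aeval A (G.comp T) w = ∑ k : Fin (r + 1), g k • aeval A (T ^ (k : ℕ)) w := by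
    simp [G, Polynomial.sum_comp]
  have hpow : ∀ k : ℕ, aeval A (T ^ k) w ∈ J := by
    intro k
    induction k with
    | zero => simpa using hw
    | succ k ih => rw [pow_succ', aeval_mul_apply]; exact hJ _ ih
  have hmem : aeval A (G.comp T) w ∈ J := by
    rw [hGw]; exact J.sum_mem fun k _ => J.smul_mem _ (hpow k)
  have hφ : φ (aeval A (G.comp T) w) = 0 := by
    rw [hGw, map_sum]; simpa using hg
  have hz : aeval A (G.comp T) w = 0 := by
    by_contra hne
    obtain ⟨j, hj⟩ := H.exists_top hne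
    obtain ⟨l, hl, rfl⟩ := htop _ hmem j hj
    exact hj.1 (congrFun hφ ⟨l, hl⟩)
  have h1 := hirr.endo_zero (fun u => (aeval_A A _ u).symm) (comm_comp hT G) hw0 hz (H.v 0)
  refine comp_ne_zero (by omega) hG0 (H.eq_zero_of_aeval h0 (hI.down (by omega) ?_) h1)
  rw [natDegree_comp, hd]
  push_cast
  nlinarith

include H in
theorem inf_case (hirr : Irr A B) (hN : D.N = ⊤) {T : K[X]} (hd : 0 < T.natDegree)
    (hT : ∀ u, B (aeval A T u) = aeval A T (B u)) : False := by
  have h0 : D.In 0 := (Data.In_of_top hN 0).2 le_rfl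
  have hz : ∀ g : K[X], aeval A g (H.v 0) = 0 → g = 0 := fun g hg =>
    H.eq_zero_of_aeval h0 ((Data.In_of_top hN _).2 (by omega)) hg
  rcases hirr.2 (LinearMap.range (aeval A T)) (by
      rintro _ ⟨u, rfl⟩; exact ⟨A u, aeval_A A T u⟩) (by
      rintro _ ⟨u, rfl⟩; exact ⟨B u, (hT u).symm⟩) with h1 | h1
  · have : aeval A T (H.v 0) = 0 := (Submodule.eq_bot_iff _).1 h1 _ ⟨_, rfl⟩
    rw [hz T this] at hd; simp at hd
  · have : H.v 0 ∈ LinearMap.range (aeval A T) := by rw [h1]; trivial
    obtain ⟨u, hu⟩ := this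
    obtain ⟨g, rfl⟩ := H.cyc u
    have h2 := hz (T * g - 1) (by simp [hu])
    have h3 : T * g = 1 := sub_eq_zero.1 h2
    have := natDegree_eq_zero_of_isUnit (IsUnit.of_mul_eq_one g h3)
    omega

include H in
theorem per_final (h : Nice p D) (hirr : Irr A B) {n r : ℕ} (hN : D.N = n * r)
    (hn : IsLeast {m : ℕ | 0 < m ∧ ∀ i, D.t (i + m) = D.t i} n) (hr : D.In n)
    (e : D.t (-1) = D.t 1 ∨ (D.t (-1) = D.t 0 ∧ D.a 0 ≠ D.a D.d)) : D.Per := by
  refine ⟨n, r, hN, hn, e, Or.inr ?_⟩
  have h1 := (H.AW_of_raw h.hx p h.raw).1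
  have hI : ∀ i, D.In i ↔ 0 ≤ i ∧ i < n * r := by
    intro i
    rw [Data.In_of_nat (m := n * r) (by rw [hN]; push_cast; rfl)]
    push_cast; rfl
  have hNt : D.N ≠ ⊤ := by rw [hN, ← Nat.cast_mul]; exact ENat.natCast_ne_top _
  have hn0 : 0 < n := hn.1.1
  have hp : Function.Periodic D.t n := hn.1.2
  set T := D.pol n + C (D.a 0 - D.a n) * D.pol (n - 1) with hT
  have hlt : (C (D.a 0 - D.a n) * D.pol (n - 1)).natDegree < (D.pol n).natDegree := by
    have := natDegree_C_mul_le (D.a 0 - D.a n) (D.pol (n - 1))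
    rw [(D.pol_monic _).2] at this ⊢
    omega
  have hTm : T.Monic := (D.pol_monic n).1.add_of_left (degree_lt_degree hlt)
  have hTd : T.natDegree = n := by
    rw [hT, natDegree_add_eq_left_of_natDegree_lt hlt, (D.pol_monic _).2]
  have hst := H.T_st h hn0 hr hp (e.imp id And.left)
  have hcomm := H.endo h1 h.in0 hst
  have hw : St A B (D.st 0 1) (aeval A ((X ^ r).comp T) (H.v 0)) :=
    (H.st_v0 h.in0).map (fun u => (aeval_A A _ u).symm) (comm_comp hcomm _)
  obtain ⟨g, hg, hgw⟩ := H.span_T h1 h.in0 hn0 hTm hTd hst (H.top_dvd h hN hn e) r _ hw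
    (fun i hi => H.c_out i (fun h' => by have := (hI i).1 h'; omega) _)
  have hlt' : g.degree < (X ^ r : K[X]).degree := by rwa [degree_X_pow]
  have hfm : (X ^ r - g).Monic := (monic_X_pow r).sub_of_left hlt'
  have hfd : (X ^ r - g).natDegree = r := by
    rw [natDegree_eq_of_degree_eq (degree_sub_eq_left_of_degree_lt hlt'), natDegree_X_pow]
  have hf0 : aeval A ((X ^ r - g).comp T) (H.v 0) = 0 := by
    rw [sub_comp, map_sub, LinearMap.sub_apply, hgw, sub_self]
  have hchi : D.chi = (X ^ r - g).comp T := by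
    symm
    refine eq_of_monic_of_dvd_of_natDegree_le ?_ (hfm.comp hTm (by omega)) (H.chi_dvd h.in0 hf0) ?_
    · rw [Data.chi_fin hNt]; exact (D.pol_monic _).1
    · rw [natDegree_comp, hfd, hTd, Data.chi_fin hNt, (D.pol_monic _).2, hN, ← Nat.cast_mul,
        ENat.toNat_natCast, mul_comm]
  have hr0 : 0 < r := by
    have := (hI n).1 hr
    rcases Nat.eq_zero_or_pos r with h' | h'
    · subst h'; simp at this; omega
    · exact h'
  have hne : ∀ a : K[X], a ≠ 0 → a.natDegree < r → aeval A (a.comp T) (H.v 0) ≠ 0 := by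
    intro a ha had hz
    refine comp_ne_zero (by omega) ha (H.eq_zero_of_aeval h.in0 ((hI _).2 ⟨by omega, ?_⟩) hz)
    rw [natDegree_comp, hTd]
    push_cast
    have : (a.natDegree : ℤ) + 1 ≤ r := by exact_mod_cast had
    have : (0 : ℤ) < n := by exact_mod_cast hn0
    nlinarith
  refine ⟨X ^ r - g, ⟨fun hu => ?_, fun a b hab => ?_⟩, hchi⟩
  · have := natDegree_eq_zero_of_isUnit hu
    omega
  · by_contra hcon
    push Not at hcon
    have ha : a ≠ 0 := by rintro rfl; exact hfm.ne_zero (by rw [hab, zero_mul])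
    have hb : b ≠ 0 := by rintro rfl; exact hfm.ne_zero (by rw [hab, mul_zero])
    have hdeg : a.natDegree + b.natDegree = r := by rw [← natDegree_mul ha hb, ← hab, hfd]
    have ha1 : a.natDegree ≠ 0 := fun h' => hcon.1 (isUnit_iff_degree_eq_zero.2 (by
      rw [degree_eq_natDegree ha, h']; rfl))
    have hb1 : b.natDegree ≠ 0 := fun h' => hcon.2 (isUnit_iff_degree_eq_zero.2 (by
      rw [degree_eq_natDegree hb, h']; rfl))
    rw [hab, mul_comp, aeval_mul_apply] at hf0
    exact hne a ha (by omega) (hirr.endo_zero (fun u => (aeval_A A _ u).symm) (comm_comp hcomm a)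
      (hne b hb (by omega)) hf0 _)

include H in
theorem small_H (h : Nice p D) (hirr : Irr A B) {n : ℕ}
    (hn : IsLeast {m : ℕ | 0 < m ∧ ∀ i, D.t (i + m) = D.t i} n) {T : K[X]}
    (hd : T.natDegree = n) (hT : ∀ u, B (aeval A T u) = aeval A T (B u))
    (e0 : D.t (-1) = D.t 0) (hne : D.t 0 ≠ D.t 1) {r : ℕ} (hr : 1 ≤ r) (hI : D.In (n * r))
    (hI' : ¬ D.In (n * (r + 1))) (ha : (n : ℤ) ∣ D.d + 1 → D.a D.d = D.a 0) : False := by
  have hn0 : 0 < n := hn.1.1
  have hp : Function.Periodic D.t n := hn.1.2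
  set δ := D.t 0 - D.t 1 with hδ
  have hδ0 : δ ≠ 0 := sub_ne_zero.2 hne
  set α' := (2 * p.γ * D.t 0 + p.ω) / δ - D.a 0 with hα'
  have hsum : (D.a 0 + α') * δ = 2 * p.γ * D.t 0 + p.ω := by rw [hα']; field_simp; ring
  have r2 : p.Z (D.t 0) (D.t 0) (D.a 0 * δ) = zeta p D := by unfold zeta; rw [e0]
  have hZ : ∀ m, p.Z (D.t 0) (D.t 0) m - zeta p D = (m - D.a 0 * δ) * (m - α' * δ) := by
    intro m
    rw [← r2]
    unfold Par.Z
    linear_combination (m - D.a 0 * δ) * hsum
  let M : End K V := B * A - D.t 1 • A - (D.a 0 * δ) • (1 : End K V)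
  have hM : ∀ z, M z = B (A z) - D.t 1 • A z - (D.a 0 * δ) • z := fun z => rfl
  have hc : ∀ z i, D.In i → H.c i (M z) = (D.t i - D.t 1) * (H.c (i - 1) z + D.a i * H.c i z
      + D.x (i + 1) * H.c (i + 1) z) - D.a 0 * δ * H.c i z := by
    intro z i hi
    rw [hM, map_sub, map_sub, map_smul, map_smul, H.c_B, H.c_A _ _ hi]
    simp only [smul_eq_mul]; ring
  have hE : ∀ z, z ∈ LinearMap.ker (B - D.t 0 • (1 : End K V)) ↔ B z = D.t 0 • z := by
    intro z; simp [sub_eq_zero]
  have hIn : D.In n := hI.down (by omega) (by nlinarith)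
  have p0 : D.t n = D.t 0 := by simpa using hp 0
  have p2 : D.t (n - 1) = D.t 0 := by
    have := hp (-1)
    rw [neg_add_eq_sub] at this
    rw [this, e0]
  refine H.small hirr h.in0 hn0 hd hT
    (Submodule.map M (LinearMap.ker (B - D.t 0 • (1 : End K V)))) ?_ (w := M (H.v (n - 1)))
    ⟨_, (hE _).2 (by rw [H.B_v, p2]), rfl⟩ ?_ r n ?_ hI
  · rintro _ ⟨z, hz, rfl⟩
    refine ⟨aeval A T z, (hE _).2 (by rw [hT, (hE _).1 hz, map_smul]), ?_⟩
    rw [hM, hM, map_sub, map_sub, map_smul, map_smul, ← hT, aeval_A]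
  · intro h'
    have := hc (H.v (n - 1)) n hIn
    rw [h', map_zero, H.c_v_self (hIn.down (by omega) (by omega)), H.c_v_ne (by omega),
      H.c_v_ne (by omega), p0] at this
    apply hδ0
    linear_combination -this
  · rintro _ ⟨z, hz, rfl⟩ j hj
    have hz' := (hE _).1 hz
    have hst : St A B _ (M z) := H.quadH h e0 hne hZ hsum hz'
    have t0 : D.t j = D.t 0 := H.top_t hst.1 hj.1
    have hj0 := hj.In.nonneg
    by_cases t1 : D.t (j + 1) = D.t 1
    · obtain ⟨l, hl⟩ := per_dvd hn (h.per_of t0 (by simpa using t1))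
      rw [sub_zero] at hl
      have hjne : j ≠ 0 := by
        rintro rfl
        apply hj.1
        rw [hc z 0 h.in0, H.c_neg (i := 0 - 1) (by norm_num),
          H.c_zero_of hz' (j := 0 + 1) (by simpa using hne.symm)]
        ring
      have hl1 : 1 ≤ l := by
        by_contra h'
        have : (n : ℤ) * l ≤ 0 := mul_nonpos_of_nonneg_of_nonpos (by omega) (by omega)
        omega
      have hl2 : l ≤ r := by
        by_contra h'
        apply hI'
        refine hj.In.down (by positivity) ?_
        rw [hl]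
        exact mul_le_mul_of_nonneg_left (by omega) (by omega)
      refine ⟨(l - 1).toNat, by omega, ?_⟩
      have e : (((l - 1).toNat : ℕ) : ℤ) = l - 1 := by omega
      rw [e, hl]; ring
    · exfalso
      have hI1 : ¬ D.In (j + 1) := fun hI1 => t1 (H.top_next hst hj hI1)
      obtain ⟨hN', hd'⟩ := Data.last_of hj.In hI1
      rcases h.nbr t0 with ⟨b, -⟩ | ⟨b1, b2⟩
      · exact t1 (by simpa using b)
      · simp only [zero_sub, zero_add] at b1 b2
        have := per_dvd hn (h.per_of (i := j) (j := -1) (t0.trans e0.symm)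
          (by rw [b1, e0]; simp))
        have ea := ha (by rw [hd']; simpa using this)
        rw [hd'] at ea
        apply hj.1
        rw [hc z j hj.In, H.c_zero_of hz' (j := j - 1) (by rw [b2]; exact hne.symm),
          H.c_out _ hI1, t0, ea]
        ring

include H in
theorem small_L1 (h : Nice p D) (hirr : Irr A B) {n : ℕ}
    (hn : IsLeast {m : ℕ | 0 < m ∧ ∀ i, D.t (i + m) = D.t i} n) {T : K[X]}
    (hd : T.natDegree = n) (hT : ∀ u, B (aeval A T u) = aeval A T (B u))
    (e : D.t (-2) = D.t 0) {r : ℕ} (hr : 1 ≤ r) (hI : D.In (n * r))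
    (hI' : ¬ D.In (n * (r + 1) - 1)) : False := by
  have hn0 : 0 < n := hn.1.1
  have hp : Function.Periodic D.t n := hn.1.2
  have hE : ∀ z, z ∈ LinearMap.ker (B - D.t (-1) • (1 : End K V)) ↔ B z = D.t (-1) • z := by
    intro z; simp [sub_eq_zero]
  have p2 : D.t (n - 1) = D.t (-1) := by
    have := hp (-1)
    rwa [neg_add_eq_sub] at this
  refine H.small hirr h.in0 hn0 hd hT (LinearMap.ker (B - D.t (-1) • (1 : End K V))) ?_
    (w := H.v (n - 1)) ((hE _).2 (by rw [H.B_v, p2]))
    (H.v_ne (hI.down (by omega) (by nlinarith))) r (n - 1) ?_ hI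
  · intro z hz
    exact (hE _).2 (by rw [hT, (hE _).1 hz, map_smul])
  · intro z hz j hj
    have t0 : D.t j = D.t (-1) := H.top_t ((hE _).1 hz) hj.1
    have t1 : D.t (j + 1) = D.t (-1 + 1) := by
      rcases h.nbr t0 with ⟨b, -⟩ | ⟨b, -⟩
      · exact b
      · rw [b]; simpa using e
    obtain ⟨l, hl⟩ := per_dvd hn (h.per_of t0 t1)
    have hj0 := hj.In.nonneg
    have hl1 : 1 ≤ l := by
      by_contra h'
      have : (n : ℤ) * l ≤ 0 := mul_nonpos_of_nonneg_of_nonpos (by omega) (by omega)
      omega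
    have hl2 : l ≤ r := by
      by_contra h'
      apply hI'
      have : (n : ℤ) * (r + 1) ≤ n * l := mul_le_mul_of_nonneg_left (by omega) (by omega)
      exact hj.In.down (by nlinarith) (by omega)
    refine ⟨(l - 1).toNat, by omega, ?_⟩
    have e : (((l - 1).toNat : ℕ) : ℤ) = l - 1 := by omega
    rw [e]; linear_combination hl

include H in
theorem small_L0 (h : Nice p D) (hirr : Irr A B) {n : ℕ}
    (hn : IsLeast {m : ℕ | 0 < m ∧ ∀ i, D.t (i + m) = D.t i} n) {T : K[X]}
    (hd : T.natDegree = n) (hT : ∀ u, B (aeval A T u) = aeval A T (B u))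
    (e : D.t (-1) = D.t 1) (hn1 : D.In (n + 1)) {r : ℕ} (hI : D.In (n * r))
    (hI' : ¬ D.In (n * (r + 1) - 1)) (hnd : ¬ (n : ℤ) ∣ D.d + 1) : False := by
  have hn0 : 0 < n := hn.1.1
  have hp : Function.Periodic D.t n := hn.1.2
  have hne : D.t 0 ≠ D.t 1 := by
    intro h'
    have hc := h.const_of (i := 0) (by simpa using e.trans h'.symm) (by simpa using h')
    have := per_dvd hn (m := D.d + 1) (fun i => by rw [hc, hc i])
    exact hnd this
  by_cases e2 : D.t 2 = D.t 0
  · have hp2 := per_dvd hn (h.per_of (i := 1) (j := -1) e.symm (by simpa using e2))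
    have hn2 : n = 2 := by
      have a1 : (n : ℤ) ≤ 2 := Int.le_of_dvd (by norm_num) (by simpa using hp2)
      have a2 : n ≠ 1 := by
        rintro rfl
        exact hnd (by simp)
      omega
    subst hn2
    have hE : ∀ z, z ∈ LinearMap.ker (B - D.t 1 • (1 : End K V)) ↔ B z = D.t 1 • z := by
      intro z; simp [sub_eq_zero]
    refine H.small hirr h.in0 hn0 hd hT (LinearMap.ker (B - D.t 1 • (1 : End K V))) ?_
      (w := H.v 1) ((hE _).2 (H.B_v 1)) (H.v_ne h.in1) r 1 ?_ hI
    · intro z hz
      exact (hE _).2 (by rw [hT, (hE _).1 hz, map_smul])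
    · intro z hz j hj
      have t0 : D.t j = D.t 1 := H.top_t ((hE _).1 hz) hj.1
      have t1 : D.t (j + 1) = D.t (1 + 1) := by
        rcases h.nbr t0 with ⟨b, -⟩ | ⟨b, -⟩
        · exact b
        · rw [b]; simpa using e2.symm
      obtain ⟨l, hl⟩ := per_dvd hn (h.per_of t0 t1)
      have hj0 := hj.In.nonneg
      have hl2 : j < 2 * (r + 1) - 1 := by
        by_contra h'
        exact hI' (hj.In.down (by push_cast; omega) (by push_cast; omega))
      push_cast at hl ⊢
      exact ⟨l.toNat, by omega, by omega⟩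
  · have p1 : D.t (n + 1) = D.t 1 := by rw [add_comm]; exact hp 1
    have p2 : D.t (n + 1 + 1) = D.t 2 := by
      have := hp 2
      have e3 : (2 : ℤ) + n = n + 1 + 1 := by ring
      rwa [e3] at this
    have p3 : D.t (n + 1 - 2) = D.t (n + 1) := by
      have := hp (-1)
      have e3 : (-1 : ℤ) + n = n + 1 - 2 := by ring
      rw [e3] at this
      rw [this, e, p1]
    have hw := H.st_after h hn1 (by omega) p3
    refine H.small hirr h.in0 hn0 hd hT (StSub A B (D.st (n + 1) (n + 1 + 1))) ?_ hw ?_ r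
      (n + 1) ?_ hI
    · intro z hz
      exact St.map hz (fun u => (aeval_A A T u).symm) hT
    · intro h'
      have := congrArg (H.c (n + 1)) h'
      rw [map_sub, map_smul, H.c_v_self hn1, H.c_v_ne (by omega)] at this
      simp at this
    · intro z hz j hj
      have hz' : St A B (D.t 1, D.t 2, D.a (n + 1) * (D.t 1 - D.t 2)) z := by
        have : St A B (D.st (n + 1) (n + 1 + 1)) z := hz
        simpa only [Data.st, p1, p2] using this
      have t0 : D.t j = D.t 1 := H.top_t hz'.1 hj.1
      have hj0 := hj.In.nonneg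
      by_cases t1 : D.t (j + 1) = D.t 2
      · obtain ⟨l, hl⟩ := per_dvd hn (h.per_of t0 (by simpa using t1))
        have hj1 : j ≠ 1 := by
          rintro rfl
          rcases H.top_fwd h (j := 1) (by simpa using hz') hj le_rfl with
            ⟨-, -, b | ⟨b, -⟩⟩ | ⟨b, -⟩
          · exact e2 (by simpa using b.symm)
          · omega
          · exact hne (by simpa using b)
        have hj2 : j ≠ 0 := by rintro rfl; exact hne t0
        have hl1 : 1 ≤ l := by
          by_contra h'
          have : (n : ℤ) * l ≤ 0 := mul_nonpos_of_nonneg_of_nonpos (by omega) (by omega)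
          omega
        have hl2 : l ≤ r := by
          by_contra h'
          apply hI'
          have : (n : ℤ) * (r + 1) ≤ n * l := mul_le_mul_of_nonneg_left (by omega) (by omega)
          exact hj.In.down (by nlinarith) (by omega)
        refine ⟨(l - 1).toNat, by omega, ?_⟩
        have e : (((l - 1).toNat : ℕ) : ℤ) = l - 1 := by omega
        rw [e]; linear_combination hl
      · exfalso
        have hI1 : ¬ D.In (j + 1) := fun hI1 => t1 (H.top_next hz' hj hI1)
        obtain ⟨hN', hd'⟩ := Data.last_of hj.In hI1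
        rcases h.nbr t0 with ⟨b, -⟩ | ⟨b1, -⟩
        · exact t1 (by simpa using b)
        · have := per_dvd hn (h.per_of (i := j) (j := -1) (t0.trans e.symm) (by simpa using b1))
          exact hnd (by rw [hd']; simpa using this)

/-- The alternative that is settled by reversal. -/
def _root_.Pool.Agent.P.MP_af5c07_al.Data.Alt (D : Data K) : Prop :=
  D.N ≠ ⊤ ∧ D.t (-1) ≠ D.t 1 ∧ D.t (D.d + 1) = D.t (D.d - 1)

include H in
theorem per_case (h : Nice p D) (hirr : Irr A B) {n : ℕ}
    (hn : IsLeast {m : ℕ | 0 < m ∧ ∀ i, D.t (i + m) = D.t i} n) (hIn : D.In n)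
    (e : D.t (-1) = D.t 1 ∨ D.t (-1) = D.t 0 ∨ D.t (-2) = D.t 0)
    (hn1 : D.t (-1) = D.t 1 → D.In (n + 1)) : D.Per ∨ D.Alt := by
  have h1 := (H.AW_of_raw h.hx p h.raw).1
  have hn0 : 0 < n := hn.1.1
  have hp : Function.Periodic D.t n := hn.1.2
  have hT : ∃ T : K[X], T.natDegree = n ∧ ∀ u, B (aeval A T u) = aeval A T (B u) := by
    by_cases e' : D.t (-1) = D.t 1 ∨ D.t (-1) = D.t 0
    · refine ⟨_, ?_, H.endo h1 h.in0 (H.T_st h hn0 hIn hp e')⟩
      have hlt : (C (D.a 0 - D.a n) * D.pol (n - 1)).natDegree < (D.pol n).natDegree := by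
        have := natDegree_C_mul_le (D.a 0 - D.a n) (D.pol (n - 1))
        rw [(D.pol_monic _).2] at this ⊢
        omega
      rw [natDegree_add_eq_left_of_natDegree_lt hlt, (D.pol_monic _).2]
    · push Not at e'
      have e2 : D.t (-2) = D.t 0 := (e.resolve_left e'.1).resolve_left e'.2
      have hn2 : 2 ≤ n := by
        by_contra h'
        have : n = 1 := by omega
        subst this
        exact e'.2 (by simpa using (hp (-1)).symm)
      have p0 : D.t n = D.t 0 := by simpa using hp 0
      have p1 : D.t (n + 1) = D.t 1 := by rw [add_comm]; exact hp 1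
      have p2 : D.t (n - 1) = D.t (-1) := by
        have := hp (-1)
        rwa [neg_add_eq_sub] at this
      have p3 : D.t (n - 2) = D.t n := by
        have := hp (-2)
        rw [neg_add_eq_sub] at this
        rw [this, e2, p0]
      have hw := H.st_after h hIn (by omega) p3
      have hm := h.m_eq hIn (by rw [p2, p0]; exact e'.2) (m := D.a 0 * (D.t 0 - D.t 1)) (by
        rw [p2, p0]; have := h.e2 0 h.in0; simp only [zero_sub, zero_add] at this
        linear_combination this)
      have hst : D.st n (n + 1) = D.st 0 1 := by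
        simp only [Data.st]; rw [← hm, p0, p1]
      have e3 : ((n - 2 : ℕ) : ℤ) = n - 2 := by omega
      refine ⟨D.pol n - C (D.x n) * D.pol (n - 2), ?_, H.endo h1 h.in0 ?_⟩
      · have hlt : (C (D.x n) * D.pol (n - 2)).natDegree < (D.pol n).natDegree := by
          have := natDegree_C_mul_le (D.x n) (D.pol (n - 2))
          rw [(D.pol_monic _).2] at this ⊢
          omega
        rw [natDegree_sub_eq_left_of_natDegree_lt hlt, (D.pol_monic _).2]
      · rw [map_sub, LinearMap.sub_apply, aeval_mul_apply, H.pol_v n hIn,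
          H.pol_v _ (hIn.down (by omega) (by omega)), e3, ← hst]
        simpa using hw
  obtain ⟨T, hd, hT⟩ := hT
  by_cases hN : D.N = ⊤
  · exact (H.inf_case hirr hN (by omega) hT).elim
  have hI := Data.In_fin hN
  have hdN : D.d + 1 = D.N.toNat := by unfold Data.d; ring
  have hnN : n < D.N.toNat := by have := (hI n).1 hIn; omega
  set r := D.N.toNat / n with hr
  set ρ := D.N.toNat % n with hρ
  have hdiv : (n : ℤ) * r + ρ = D.d + 1 := by
    rw [hdN]; exact_mod_cast Nat.div_add_mod D.N.toNat n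
  have hρn : ρ < n := Nat.mod_lt _ hn0
  have hr1 : 1 ≤ r := Nat.div_pos hnN.le hn0
  by_cases hρ0 : ρ = 0
  · have hNe : D.N = n * r := by
      rw [Data.N_eq hN, ← Nat.cast_mul]
      congr 1
      have := Nat.div_add_mod D.N.toNat n
      omega
    rw [hρ0] at hdiv
    simp only [Nat.cast_zero, add_zero] at hdiv
    by_cases e1 : D.t (-1) = D.t 1
    · exact Or.inl (H.per_final h hirr hNe hn hIn (Or.inl e1))
    by_cases e0 : D.t (-1) = D.t 0
    · by_cases ea : D.a 0 = D.a D.d
      · exfalso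
        have hr2 : 2 ≤ r := by
          by_contra h'
          have : r = 1 := by omega
          rw [this] at hdiv
          simp at hdiv
          omega
        obtain ⟨r', hr'⟩ : ∃ r', r = r' + 1 := ⟨r - 1, by omega⟩
        rw [hr'] at hdiv
        push_cast at hdiv
        refine H.small_H h hirr hn hd hT e0 (fun h' => e1 (e0.trans h')) (r := r') (by omega)
          ((hI _).2 ⟨by positivity, by nlinarith⟩) (fun h' => ?_) (fun _ => ea.symm)
        have := (hI _).1 h'
        omega
      · exact Or.inl (H.per_final h hirr hNe hn hIn (Or.inr ⟨e0, ea⟩))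
    · refine Or.inr ⟨hN, e1, ?_⟩
      have a1 := per_mul hp r 0
      have a2 := per_mul hp r (-2)
      have b2 : -2 + (n : ℤ) * r = D.d - 1 := by omega
      rw [zero_add, hdiv] at a1
      rw [b2] at a2
      rw [a1, a2, (e.resolve_left e1).resolve_left e0]
  · exfalso
    have hnd : ¬ (n : ℤ) ∣ D.d + 1 := by
      rw [← hdiv]
      intro h'
      have := (Int.dvd_add_right (dvd_mul_right (n : ℤ) r)).1 h'
      have := Int.le_of_dvd (by omega) this
      omega
    have hI1 : D.In (n * r) := (hI _).2 ⟨by positivity, by omega⟩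
    have hI2 : ¬ D.In (n * (r + 1) - 1) := fun h' => by
      have := (hI _).1 h'
      have e3 : (n : ℤ) * (r + 1) = n * r + n := by ring
      omega
    by_cases e1 : D.t (-1) = D.t 1
    · exact H.small_L0 h hirr hn hd hT e1 (hn1 e1) hI1 hI2 hnd
    by_cases e0 : D.t (-1) = D.t 0
    · refine H.small_H h hirr hn hd hT e0 (fun h' => e1 (e0.trans h')) hr1 hI1
        (fun h' => hI2 (h'.down (by nlinarith) (by omega))) (fun h' => absurd h' hnd)
    · exact H.small_L1 h hirr hn hd hT ((e.resolve_left e1).resolve_left e0) hr1 hI1 hI2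

end Ctx

end Pool.Agent.P.MP_af5c07_al
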