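import Mathlib
import Pool.Agent.P.MP_af5c07_al.Nec1

/-!
Necessity, second part: an irreducible module lies in one of the three families.
-/

set_option linter.unusedSectionVars false

namespace Pool.Agent.P.MP_af5c07_al

open Polynomial Module

variable {K : Type*} [Field K] {V : Type*} [AddCommGroup V] [Module K V]
  {p : Par K} {D : Data K} {A B : End K V}

theorem Nice.first_collision (h : Nice p D) (hD : ¬ D.Inj) :
    ∃ k : ℤ, 0 ≤ k ∧ D.In (k + 1) ∧ Set.InjOn D.t (Set.Icc 0 k) ∧
      (D.t (k + 1) = D.t k ∨ (1 ≤ k ∧ D.t (k + 1) = D.t (k - 1))) := by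
  have hex : ∃ j, D.In j ∧ ∃ i, 0 ≤ i ∧ i < j ∧ D.t i = D.t j := by
    by_contra hc
    push Not at hc
    refine hD fun i hi j hj hij => ?_
    rcases lt_trichotomy i j with h1 | h1 | h1
    · exact absurd hij (hc j hj i (Data.In.nonneg hi) h1)
    · exact h1
    · exact absurd hij.symm (hc i hi j (Data.In.nonneg hj) h1)
  obtain ⟨j, ⟨hj, i, hi0, hij, ht⟩, hmin⟩ := Int.exists_least_of_bdd
    (P := fun j => D.In j ∧ ∃ i, 0 ≤ i ∧ i < j ∧ D.t i = D.t j) ⟨0, fun z hz => hz.1.nonneg⟩ hex
  have hno : ∀ a b, 0 ≤ a → a < b → b < j → D.t a ≠ D.t b := by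
    intro a b ha hab hb he
    have := hmin b ⟨hj.down (by omega) (by omega), a, ha, hab, he⟩
    omega
  obtain ⟨k, rfl⟩ : ∃ k, j = k + 1 := ⟨j - 1, by ring⟩
  have e1 : k + 1 - 1 = k := by ring
  refine ⟨k, by omega, hj, fun a ha b hb hab => ?_, ?_⟩
  · rcases lt_trichotomy a b with h1 | h1 | h1
    · exact absurd hab (hno a b ha.1 h1 (by have := hb.2; omega))
    · exact h1
    · exact absurd hab.symm (hno b a hb.1 h1 (by have := ha.2; omega))
  by_cases c1 : i = k
  · exact Or.inl (by rw [← ht, c1])
  by_cases c2 : i = k - 1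
  · exact Or.inr ⟨by omega, by rw [← ht, c2]⟩
  exfalso
  rcases h.nbr ht with ⟨b1, b2⟩ | ⟨b1, -⟩
  · rw [e1] at b2
    by_cases hi : i = 0
    · subst hi
      have hne : D.t (k + 1 - 1) ≠ D.t (k + 1) := by
        rw [e1, ← ht]; exact (hno 0 k le_rfl (by omega) (by omega)).symm
      rcases h.special_of hj (by omega) (k := 0) (Or.inl h.in0) (h.hx.zero_of_le le_rfl)
        (Or.inl ⟨by rw [e1, b2], ht.symm⟩) hne with b | b
      · rw [e1, ← b1] at b
        exact hno (0 + 1) k (by omega) (by omega) (by omega) b.symm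
      · rw [← ht] at b
        exact hno 0 (k + 1 - 2) le_rfl (by omega) (by omega) b.symm
    · exact hno (i - 1) k (by omega) (by omega) (by omega) b2
  · rw [e1] at b1
    exact hno (i + 1) k (by omega) (by omega) (by omega) b1

theorem per_one {n : ℕ} (hN : D.N ≠ ⊤) (hn : IsLeast {m : ℕ | 0 < m ∧ ∀ i, D.t (i + m) = D.t i} n)
    (hd : D.d + 1 = n) (e : D.t (-1) = D.t 1 ∨ (D.t (-1) = D.t 0 ∧ D.a 0 ≠ D.a D.d)) : D.Per := by
  refine ⟨n, 1, ?_, hn, e, Or.inl rfl⟩
  rw [Data.N_eq hN]
  have : D.N.toNat = n := by unfold Data.d at hd; omega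
  rw [this]; simp

namespace Ctx

variable (H : Ctx D A B)

include H in
theorem sym_case (h : Nice p D) (hirr : Irr A B) {k : ℤ} (hk : 0 ≤ k)
    (hinj : Set.InjOn D.t (Set.Icc 0 k)) (hN : D.N ≠ ⊤) (hkd : k + 1 ≤ D.d)
    (hc : D.d = 2 * k + 1 ∨ D.d = 2 * k) (hs : ∀ i, D.t (D.d - i) = D.t i)
    (hst : D.st D.d (D.d - 1) = D.st 0 1) : D.Quad := by
  have h1 := (H.AW_of_raw h.hx p h.raw).1
  have hI := Data.In_fin hN
  have hId : D.In D.d := (hI _).2 ⟨by omega, le_rfl⟩
  have ed : ((D.d.toNat : ℕ) : ℤ) = D.d := by omega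
  have hg : aeval A (D.pol D.d.toNat) (H.v 0) = H.v D.d := by
    rw [H.pol_v _ (by rwa [ed]), ed]
  have hcomm := H.endo h1 h.in0 (g := D.pol D.d.toNat) (by
    rw [hg, ← hst]; exact H.st_vd h.in0 hN)
  have hfin : ∀ (w : V) (l : K), w ≠ 0 → aeval A (D.pol D.d.toNat) w = l • w → False := by
    intro w l hw hl
    have := hirr.scalar hcomm hw hl (H.v 0)
    rw [hg] at this
    have := congrArg (H.c D.d) this
    rw [H.c_v_self hId, map_smul, H.c_v_ne (by omega)] at this
    simp at this
  have key : ∀ i, D.In i → D.t i = D.t k → i = k ∨ i = D.d - k := by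
    intro i hi hik
    rw [hI] at hi
    by_cases h2 : i ≤ k
    · exact Or.inl (hinj ⟨hi.1, h2⟩ ⟨hk, le_rfl⟩ hik)
    · rw [← hs i] at hik
      have := hinj (⟨by omega, by omega⟩ : D.d - i ∈ Set.Icc 0 k) ⟨hk, le_rfl⟩ hik
      omega
  have hIk : D.In k := (hI _).2 ⟨hk, by omega⟩
  have hIk1 : D.In (k + 1) := (hI _).2 ⟨by omega, by omega⟩
  rcases hc with hc | hc
  · have ek : ((k.toNat : ℕ) : ℤ) = k := by omega
    have tk : D.t k = D.t (k + 1) := by
      rw [← hs k]; congr 1; omega
    refine ⟨k.toNat, ?_, by rwa [ek], by rwa [ek], fun τ hτ => ?_⟩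
    · rw [Data.N_eq hN]
      have : D.N.toNat = 2 * k.toNat + 2 := by unfold Data.d at hc; omega
      rw [this]; push_cast; rfl
    rw [ek] at hτ
    have e1 : k + 1 - 1 = k := by ring
    have hw := H.st_root h hIk1 (by omega) (by rw [e1, tk]) (τ := τ) (by rwa [e1])
    rw [e1] at hw
    set w := H.v (k + 1) + (τ - D.a (k + 1)) • H.v k with hwdef
    have hw1 : H.c (k + 1) w = 1 := by
      rw [hwdef, map_add, map_smul, H.c_v_self hIk1, H.c_v_ne (by omega)]; simp
    have hw0 : w ≠ 0 := by
      intro h'; rw [h', map_zero] at hw1; exact zero_ne_one hw1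
    by_cases hk0 : k = 0
    · subst hk0
      have hB : ∀ u, B u = D.t 0 • u := by
        intro u
        refine H.ext' fun i hi => ?_
        rw [H.c_B, map_smul, smul_eq_mul]
        rw [hI] at hi
        have : i = 0 ∨ i = 0 + 1 := by omega
        rcases this with rfl | rfl
        · rfl
        · rw [tk]
      have hAw : A w = τ • w := by
        rw [hwdef, map_add, map_smul, H.A_v hIk1, H.A_v hIk,
          H.v_out (0 + 1 + 1) (fun h' => by have := (hI _).1 h'; omega),
          H.v_out (0 - 1) (fun h' => by have := h'.nonneg; omega), e1]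
        match_scalars
        · ring
        · linear_combination -hτ
      have := hirr.scalar (g := X) (fun u => by simp [hB]) hw0 (l := τ) (by simpa using hAw)
        (H.v 0)
      have := congrArg (H.c (0 + 1)) this
      rw [aeval_X, H.c_A _ _ hIk1, e1, H.c_v_self hIk, map_smul, H.c_v_ne (by omega),
        H.c_v_ne (by omega)] at this
      simp at this
    · set u := aeval A (D.pol D.d.toNat) w with hu
      have hust : u - H.c (k + 1) u • w ∈ StSub A B _ :=
        (StSub A B _).sub_mem (hw.map (fun u => (aeval_A A _ u).symm) hcomm)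
          ((StSub A B _).smul_mem _ hw)
      refine hfin w (H.c (k + 1) u) hw0 ?_
      rw [← sub_eq_zero]
      by_contra hne
      obtain ⟨j, hj⟩ := H.exists_top hne
      have t0 := H.top_t hust.1 hj.1
      simp only at t0
      rcases key j hj.In (t0.trans tk.symm) with rfl | hj2
      · have := H.top_next hust hj hIk1
        simp only at this
        have a1 := h.pred_two (j := j + 1) (by rw [e1, tk])
        have e2 : j + 1 - 2 = j - 1 := by ring
        rw [e2, ← this, ← tk] at a1
        have := hinj (⟨by omega, by omega⟩ : j - 1 ∈ Set.Icc 0 j) ⟨hk, le_rfl⟩ a1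
        omega
      · have : j = k + 1 := by omega
        subst this
        apply hj.1
        rw [map_sub, map_smul, hw1]; simp [hu]
  · exfalso
    set u := aeval A (D.pol D.d.toNat) (H.v k) with hu
    have hBu : B u = D.t k • u := by rw [hu, hcomm, H.B_v, map_smul]
    refine hfin (H.v k) (H.c k u) (H.v_ne hIk) (H.ext' fun i hi => ?_)
    rw [map_smul, smul_eq_mul]
    by_cases hik : i = k
    · rw [hik, H.c_v_self hIk, mul_one]
    · rw [H.c_v_ne hik, mul_zero]
      refine H.c_zero_of hBu fun h' => ?_
      have := key i hi h'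
      omega

include H in
theorem nec (h : Nice p D) (hirr : Irr A B) : D.Good ∨ D.Alt := by
  by_cases hD : D.Inj
  · exact Or.inl (Or.inl hD)
  obtain ⟨k, hk, hIk, hinj, hcol⟩ := h.first_collision hD
  have hc : ∃ c : ℤ, (c = 2 * k + 1 ∨ (c = 2 * k ∧ 1 ≤ k)) ∧ ∀ i, D.t (c - i) = D.t i := by
    rcases hcol with e | ⟨hk1, e⟩
    · refine ⟨2 * k + 1, Or.inl rfl, fun i => ?_⟩
      have := h.symm_of (i := k) (j := k + 1) e.symm (by
        have e1 : k + 1 - 1 = k := by ring
        rw [e1, e]) i
      have e2 : k + (k + 1) - i = 2 * k + 1 - i := by ring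
      rwa [e2] at this
    · refine ⟨2 * k, Or.inr ⟨rfl, hk1⟩, fun i => ?_⟩
      have := h.symm_of (i := k) (j := k) rfl e i
      have e2 : k + k - i = 2 * k - i := by ring
      rwa [e2] at this
  obtain ⟨c, hc, hs⟩ := hc
  have hno : ∀ a b, 0 ≤ a → a < b → b ≤ k → D.t a ≠ D.t b := by
    intro a b ha hab hb he
    have := hinj (⟨ha, by omega⟩ : a ∈ Set.Icc 0 k) (⟨by omega, hb⟩ : b ∈ Set.Icc 0 k) he
    omega
  have s0 : D.t c = D.t 0 := by simpa using hs 0
  have pL0 : D.t (-1) = D.t 1 → Function.Periodic D.t c := by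
    intro e
    have := h.per_of (i := c) (j := 0) s0 (by
      have := hs (-1)
      rw [sub_neg_eq_add] at this
      rw [this, e]; simp)
    simpa using this
  have pH : D.t (-1) = D.t 0 → Function.Periodic D.t (c + 1) := by
    intro e
    have := h.per_of (i := c) (j := -1) (s0.trans e.symm) (by
      have := hs (-1)
      rw [sub_neg_eq_add] at this
      rw [this, e]; simp)
    simpa using this
  have pL1 : D.t (-2) = D.t 0 → Function.Periodic D.t (c + 2) := by
    intro e
    have := h.per_of (i := c) (j := -2) (s0.trans e.symm) (by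
      have := hs (-1)
      rw [sub_neg_eq_add] at this
      rw [this]; simp)
    simpa using this
  have hle : ∀ {n : ℕ}, IsLeast {m : ℕ | 0 < m ∧ ∀ i, D.t (i + m) = D.t i} n → ∀ {m : ℤ}, 0 < m →
      Function.Periodic D.t m → (n : ℤ) = m ∨ 2 * (n : ℤ) ≤ m := by
    intro n hn m hm hp
    obtain ⟨l, hl⟩ := per_dvd hn hp
    have hn0 : (0 : ℤ) < n := by exact_mod_cast hn.1.1
    have : 0 < l := by
      by_contra h'
      have : (n : ℤ) * l ≤ 0 := mul_nonpos_of_nonneg_of_nonpos (by omega) (by omega)
      omega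
    by_cases h1 : l = 1
    · left; rw [hl, h1, mul_one]
    · right; rw [hl]
      have : 2 ≤ l := by omega
      nlinarith
  have hnk : ∀ {n : ℕ}, IsLeast {m : ℕ | 0 < m ∧ ∀ i, D.t (i + m) = D.t i} n → k < n := by
    intro n hn
    by_contra h'
    have := hn.1.2 0
    rw [zero_add] at this
    exact hno 0 n le_rfl (by exact_mod_cast hn.1.1) (by omega) this.symm
  by_cases hc1 : D.In (c + 1)
  · have hsp : D.t (-1) = D.t 1 ∨ D.t (-1) = D.t 0 ∨ D.t (-2) = D.t 0 := by
      by_cases e0 : D.t (-1) = D.t 0
      · exact Or.inr (Or.inl e0)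
      have a0 : D.t (c + 1 - 1) = D.t 0 := by simpa using s0
      have a1 : D.t (c + 1) = D.t (0 - 1) := by
        have := hs (-1)
        rw [sub_neg_eq_add] at this
        simpa using this
      rcases h.special_of hc1 (by omega) (k := 0) (Or.inl h.in0) (h.hx.zero_of_le le_rfl)
        (Or.inr ⟨a0, a1⟩) (by rw [a0, a1]; simpa using Ne.symm e0) with b | b
      · have a2 := hs (-2)
        have e2 : c - -2 = c + 1 + 1 := by ring
        rw [e2, ← b, a0] at a2
        exact Or.inr (Or.inr a2.symm)
      · have a2 := hs 1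
        have e2 : c - 1 = c + 1 - 2 := by ring
        rw [e2, b, a1] at a2
        exact Or.inl (by simpa using a2)
    have hper : ∃ m : ℤ, 0 < m ∧ Function.Periodic D.t m := by
      rcases hsp with e | e | e
      · exact ⟨c, by omega, pL0 e⟩
      · exact ⟨c + 1, by omega, pH e⟩
      · exact ⟨c + 2, by omega, pL1 e⟩
    obtain ⟨m, hm, hp⟩ := hper
    obtain ⟨n, hn⟩ := exists_least hm hp
    have hn1 : D.t (-1) = D.t 1 → D.In (n + 1) := by
      intro e
      rcases hle hn (by omega) (pL0 e) with b | b
      · rwa [b]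
      · exact hc1.down (by omega) (by omega)
    by_cases hIn : D.In n
    · exact (H.per_case h hirr hn hIn hsp hn1).imp (fun b => Or.inr (Or.inr b)) id
    · have e1 : D.t (-1) ≠ D.t 1 := fun e => hIn ((hn1 e).down (by omega) (by omega))
      have e0 : D.t (-1) ≠ D.t 0 := fun e => by
        rcases hle hn (by omega) (pH e) with b | b
        · exact hIn (by rwa [b])
        · exact hIn (hc1.down (by omega) (by omega))
      have e2 := (hsp.resolve_left e1).resolve_left e0
      have hnc : (n : ℤ) = c + 1 + 1 := by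
        rcases hle hn (by omega) (pL1 e2) with b | b
        · omega
        · exact absurd (hc1.down (by omega) (by omega)) hIn
      obtain ⟨hN, hd⟩ := Data.last_of hc1 (by rwa [← hnc])
      refine Or.inr ⟨hN, e1, ?_⟩
      have a2 := hs (-2)
      have e3 : c - -2 = c + 1 + 1 := by ring
      have e4 : c + 1 - 1 = c := by ring
      rw [hd, ← e3, a2, e4, e2, s0]
  · have hN : D.N ≠ ⊤ := fun hN => hc1 ((Data.In_of_top hN _).2 (by omega))
    have hI := Data.In_fin hN
    have hkd := ((hI _).1 hIk).2
    have hdc : D.d ≤ c := by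
      by_contra h'
      exact hc1 ((hI _).2 ⟨by omega, by omega⟩)
    have hId : D.In D.d := (hI _).2 ⟨by omega, le_rfl⟩
    left
    rcases hdc.eq_or_lt with hdc | hdc
    · by_cases hst : D.st D.d (D.d - 1) = D.st 0 1
      · exact Or.inr (Or.inl (H.sym_case h hirr hk hinj hN hkd (by omega) (by rwa [hdc]) hst))
      · have t0 : D.t D.d = D.t 0 := by rw [hdc, s0]
        have t1 : D.t (D.d - 1) = D.t 1 := by rw [hdc, hs]
        have t2 : D.t (D.d + 1) = D.t (-1) := by
          have := hs (-1)
          rwa [sub_neg_eq_add, ← hdc] at this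
        have hm : D.a D.d * (D.t 0 - D.t 1) ≠ D.a 0 * (D.t 0 - D.t 1) := by
          intro h'
          apply hst
          simp only [Data.st, t0, t1, h']
        have hne : D.t 0 ≠ D.t 1 := by
          intro h'; apply hm; rw [h']; simp
        have ea : D.a 0 ≠ D.a D.d := by
          intro h'; apply hm; rw [h']
        have e0 : D.t (-1) = D.t 0 := by
          by_contra e0
          apply hm
          have b1 := h.e2 D.d hId
          have b2 := h.e2 0 h.in0
          rw [t0, t1, t2] at b1
          simp only [zero_sub, zero_add] at b2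
          apply mul_right_cancel₀ (sub_ne_zero.2 (Ne.symm e0))
          linear_combination b1 - b2
        obtain ⟨n, hn⟩ := exists_least (by omega) (pH e0)
        refine Or.inr (Or.inr (per_one hN hn ?_ (Or.inr ⟨e0, ea⟩)))
        have b1 := hnk hn
        rcases hle hn (by omega) (pH e0) with b | b
        · omega
        · exfalso
          have b2 : (n : ℤ) = k + 1 := by omega
          have b3 : c = 2 * k + 1 := by omega
          have b4 := hn.1.2 0
          rw [zero_add, b2] at b4
          have b5 := hs k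
          have e3 : c - k = k + 1 := by omega
          rw [e3, b4] at b5
          by_cases hk0 : k = 0
          · subst hk0; exact hne (by simpa using b4.symm)
          · exact hno 0 k le_rfl (by omega) le_rfl b5
    · have hj : D.In (c - D.d) := (hI _).2 ⟨by omega, by omega⟩
      have a0 : D.t (c - D.d - 1) = D.t (D.d + 1) := by
        rw [← hs (D.d + 1)]; congr 1; ring
      have a1 : D.t (c - D.d) = D.t (D.d + 1 - 1) := by
        rw [hs]; congr 1; ring
      have e1 : D.t (-1) = D.t 1 ∧ c = D.d + 1 := by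
        rcases h.special_of hj (by omega) (k := D.d + 1) (Or.inr (by simpa using hId))
          (h.hx.zero_of (fun h' => by have := (hI _).1 h'; omega)) (Or.inr ⟨a0, a1⟩)
          (hno _ _ (by omega) (by omega) (by omega)) with b | b
        · exfalso
          by_cases h' : c - D.d + 1 ≤ k
          · exact hno _ _ (by omega) (by omega) h' b
          · have b2 : c - D.d = k := by omega
            have b3 : c = 2 * k + 1 := by omega
            have b5 := hs k
            have e3 : c - k = k + 1 := by omega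
            rw [e3] at b5
            rw [b2, b5] at b
            exact hno _ _ (by omega) (by omega) le_rfl b
        · by_cases h' : 2 ≤ c - D.d
          · exact absurd b (hno _ _ (by omega) (by omega) (by omega))
          · have b2 : c - D.d = 1 := by omega
            rw [b2] at b
            exact ⟨by simpa using b, by omega⟩
      obtain ⟨n, hn⟩ := exists_least (by omega) (pL0 e1.1)
      refine Or.inr (Or.inr (per_one hN hn ?_ (Or.inl e1.1)))
      have b1 := hnk hn
      rcases hle hn (by omega) (pL0 e1.1) with b | b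
      · omega
      · omega

end Ctx

/-- An irreducible module of polynomial type is realized by good data. -/
theorem exists_good (hs : Sol p D) (H : Ctx D A B) (hirr : Irr A B) :
    ∃ E : Data K, Sol p E ∧ E.Good ∧ Realizes E A B := by
  by_cases h1 : D.In 1
  · have h := nice_of_sol hs h1
    rcases H.nec h hirr with hg | ⟨hN, -, ha⟩
    · exact ⟨D, hs, hg, H.realizes⟩
    · obtain ⟨H'⟩ := H.rev h.hx hN
      have h' := h.rev H hN
      rcases H'.nec h' hirr with hg | ⟨-, hb, -⟩
      · exact ⟨D.rev, h'.sol, hg, H'.realizes⟩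
      · exact absurd (by simpa [Data.rev] using ha) hb
  · refine ⟨D, hs, Or.inl fun i hi j hj _ => ?_, H.realizes⟩
    have a1 : ∀ i, D.In i → i = 0 := by
      intro i hi
      have := hi.nonneg
      by_contra h'
      exact h1 (hi.down (by omega) (by omega))
    rw [a1 i hi, a1 j hj]

end Pool.Agent.P.MP_af5c07_al
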