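import Mathlib
import Pool.Agent.P.MP_af5c07_al.Nec2

/-!
The isomorphism criterion.
-/

set_option linter.unusedSectionVars false

namespace Pool.Agent.P.MP_af5c07_al

open Polynomial Module

variable {K : Type*} [Field K] {V : Type*} [AddCommGroup V] [Module K V]
  {V' : Type*} [AddCommGroup V'] [Module K V']
  {p : Par K} {D E : Data K} {A B : End K V} {A' B' : End K V'}

theorem iso_of_st (H : Ctx D A B) (H' : Ctx E A' B') (h1 : AW1 p A B) (h1' : AW1 p A' B')
    (hirr : Irr A B) (h0 : D.In 0) (h0' : E.In 0) (hchi : D.chi = E.chi) {w : V} (hw0 : w ≠ 0)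
    (hw : St A B (E.st 0 1) w) : Iso A B A' B' := by
  let φ : K[X] →ₗ[K] V := (LinearMap.applyₗ w).comp (aeval A).toLinearMap
  let ψ : K[X] →ₗ[K] V' := (LinearMap.applyₗ (H'.v 0)).comp (aeval A').toLinearMap
  have hφ : ∀ g, φ g = aeval A g w := fun g => rfl
  have hψ : ∀ g, ψ g = aeval A' g (H'.v 0) := fun g => rfl
  have hhom := St.hom h1 h1' hw (H'.st_v0 h0')
  have hφs : Function.Surjective φ := by
    rw [← LinearMap.range_eq_top]
    refine (hirr.2 _ ?_ ?_).resolve_left ?_
    · rintro _ ⟨g, rfl⟩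
      exact ⟨X * g, by simp [hφ]⟩
    · rintro _ ⟨g, rfl⟩
      obtain ⟨q, hq, -⟩ := hhom g
      exact ⟨q, hq.symm⟩
    · intro h
      exact hw0 ((Submodule.eq_bot_iff _).1 h w ⟨1, by simp [hφ]⟩)
  have hψs : Function.Surjective ψ := fun u => by
    obtain ⟨g, hg⟩ := H'.cyc u
    exact ⟨g, hg.symm⟩
  have hker : LinearMap.ker φ = LinearMap.ker ψ := by
    ext g
    simp only [LinearMap.mem_ker, hφ, hψ]
    constructor
    · intro hg
      obtain ⟨g0, hg0⟩ := hφs (H.v 0)
      have : aeval A g (H.v 0) = 0 := by rw [← hg0, hφ, aeval_comm_apply, hg, map_zero]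
      obtain ⟨q, rfl⟩ := H.chi_dvd h0 this
      rw [hchi, aeval_mul_apply, H'.chi_apply h0']
    · intro hg
      obtain ⟨q, rfl⟩ := H'.chi_dvd h0' hg
      rw [← hchi, aeval_mul_apply, H.chi_apply h0]
  let e : V ≃ₗ[K] V' := (φ.quotKerEquivOfSurjective hφs).symm.trans
    ((Submodule.quotEquivOfEq _ _ hker).trans (ψ.quotKerEquivOfSurjective hψs))
  have he : ∀ g, e (φ g) = ψ g := by
    intro g
    have : (φ.quotKerEquivOfSurjective hφs).symm (φ g) = Submodule.Quotient.mk g := by
      rw [LinearEquiv.symm_apply_eq]; rfl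
    simp only [e, LinearEquiv.trans_apply, this]
    rfl
  refine ⟨e, fun u => ?_, fun u => ?_⟩
  · obtain ⟨g, rfl⟩ := hφs u
    have : A (φ g) = φ (X * g) := by simp [hφ]
    rw [this, he, he]; simp [hψ]
  · obtain ⟨g, rfl⟩ := hφs u
    obtain ⟨q, hq, hq'⟩ := hhom g
    rw [he, hψ, hq', hφ, hq, ← hφ, he, hψ]

theorem st_of_iso (H : Ctx D A B) (H' : Ctx E A' B') (h0 : D.In 0) (h0' : E.In 0)
    (h : Iso A B A' B') : D.chi = E.chi ∧ ∃ w, w ≠ 0 ∧ St A B (E.st 0 1) w := by
  obtain ⟨e, hA, hB⟩ := h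
  have hae : ∀ (g : K[X]) u, e (aeval A g u) = aeval A' g (e u) := by
    intro g
    induction g using Polynomial.induction_on' with
    | add f g hf hg => intro u; simp [hf, hg]
    | monomial n c =>
      intro u
      simp only [aeval_monomial, End.mul_apply, Module.algebraMap_end_apply, map_smul]
      congr 1
      induction n with
      | zero => simp
      | succ n ih => rw [pow_succ', pow_succ', End.mul_apply, End.mul_apply, hA, ih]
  have d1 : E.chi ∣ D.chi := H'.chi_dvd h0' (by
    rw [← e.apply_symm_apply (H'.v 0), ← hae, H.chi_apply h0, map_zero])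
  have d2 : D.chi ∣ E.chi := H.chi_dvd h0 (by
    apply e.injective
    rw [hae, H'.chi_apply h0', map_zero])
  refine ⟨?_, e.symm (H'.v 0), by simpa using H'.v_ne h0', ?_⟩
  · by_cases hN : D.N = ⊤
    · rw [Data.chi_top hN] at d2 ⊢
      exact (zero_dvd_iff.1 d2).symm
    · have m1 : D.chi.Monic := by rw [Data.chi_fin hN]; exact (D.pol_monic _).1
      have hN' : E.N ≠ ⊤ := by
        intro hN'
        rw [Data.chi_top hN'] at d1
        exact m1.ne_zero (zero_dvd_iff.1 d1)
      have m2 : E.chi.Monic := by rw [Data.chi_fin hN']; exact (E.pol_monic _).1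
      exact eq_of_monic_of_associated m1 m2 (associated_of_dvd_dvd d2 d1)
  · obtain ⟨s1, s2⟩ := H'.st_v0 h0'
    constructor
    · apply e.injective
      rw [hB, map_smul, e.apply_symm_apply, s1]
    · apply e.injective
      rw [hB, hA, map_add, map_smul, map_smul, hA, e.apply_symm_apply, s2]

theorem Nice.per_of_special (h : Nice p D) (hg : D.Good) (hs : D.Special) : D.Per := by
  rcases hg with hg | hg | hg
  · exact absurd hs hg.not_special
  · exact absurd hs (h.quad_not_special hg)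
  · exact hg

theorem equi_of_st (H : Ctx D A B) (h : Nice p D) (h' : Nice p E) (hg : D.Good) {w : V}
    (hw0 : w ≠ 0) (hw : St A B (E.st 0 1) w) :
    E.st 0 1 = D.st 0 1 ∨ (D.N ≠ ⊤ ∧ E.st 0 1 = D.st D.d (D.d - 1)) ∨
      (D.Per ∧ zeta p E = zeta p D ∧ ∃ i, D.In i ∧ D.t i = E.t 0) := by
  obtain ⟨j, hj⟩ := H.exists_top hw0
  have hI := hj.In
  have hj0 := hI.nonneg
  have t0 : D.t j = E.t 0 := H.top_t hw.1 hj.1
  by_cases hb : ¬ D.In (j + 1) ∧ D.t (j - 1) = E.t 1
  · obtain ⟨hN, hd⟩ := Data.last_of hI hb.1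
    refine Or.inr (Or.inl ⟨hN, ?_⟩)
    simp only [Data.st, hd, t0, hb.2]
    by_cases he : E.t 0 = E.t 1
    · rw [he]; simp
    · have := H.top_m hw hj (H.c_zero_of hw.1 (by rw [hb.2]; exact Ne.symm he))
      simp only [Data.st] at this
      rw [this, t0]
  have t1 : D.t (j + 1) = E.t 1 := by
    by_cases hI1 : D.In (j + 1)
    · exact H.top_next hw hj hI1
    · have := h'.con 0
      rw [zero_add, ← t0] at this
      rcases h.root this with b | b
      · exact b.symm
      · exact absurd ⟨hI1, b.symm⟩ hb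
  have t2 : D.t (j - 1) = E.t (-1) := by
    have a1 := h.rec' j
    have a2 := h'.rec' 0
    rw [t0, t1] at a1
    simp only [zero_add, zero_sub] at a2
    linear_combination a1 - a2
  by_cases hj1 : j = 0
  · subst hj1
    left
    have := H.top_m hw hj (H.c_neg (by norm_num) w)
    simp only [Data.st, zero_add] at this t1 ⊢
    rw [this, t0, t1]
  have hw' : St A B (D.t j, D.t (j + 1), E.a 0 * (E.t 0 - E.t 1)) w := by
    rw [t0, t1]; exact hw
  have hz : zeta p E = p.Z (D.t j) (D.t (j - 1)) (E.a 0 * (E.t 0 - E.t 1)) := by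
    unfold zeta; rw [t0, t2]
  have hI' : D.In (j - 1) := hI.down (by omega) (by omega)
  rcases H.top_fwd h hw' hj (by omega) with ⟨b1, b2, b3⟩ | ⟨b1, b2 | ⟨τ, b2, b3⟩⟩
  · have hd := h.down j hI
    refine Or.inr (Or.inr ⟨h.per_of_special hg (Or.inl ?_), ?_, j, hI, t0⟩)
    · rcases b3 with b3 | ⟨b3, b4⟩
      · refine ⟨j, hI', ?_, b3⟩
        by_contra hI1
        exact hb ⟨hI1, b3.trans t1⟩
      · have e1 : j - 1 - 1 = j - 2 := by ring
        have e2 : j - 1 + 1 = j := by ring
        exact ⟨j - 1, hI.down (by omega) (by omega), by rwa [e2], by rw [e1, e2, b4]⟩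
    · rw [hz, b2]
      rcases b3 with b3 | ⟨-, b4⟩
      · rw [b3] at hd ⊢; linear_combination -hd
      · rw [b4] at hd; linear_combination -hd
  · left
    have hc := h.const_of b1 b2
    simp only [Data.st]
    rw [← t0, ← t1, hc 0, hc 1, hc (j + 1)]
    simp
  · refine Or.inr (Or.inr ⟨h.per_of_special hg (Or.inr ⟨j, τ, hI', hI, b1, b3⟩), ?_, j, hI, t0⟩)
    have := h.hroot hI (by omega) b1 (τ * (D.t j - D.t (j + 1)))
    rw [hz, b2, b1]
    linear_combination this + (D.t j - D.t (j + 1)) ^ 2 * b3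

theorem st_of_per (H : Ctx D A B) (h : Nice p D) (h' : Nice p E) (hP : D.Per)
    (hz : zeta p E = zeta p D) {i : ℤ} (hi : D.t i = E.t 0) :
    ∃ w, w ≠ 0 ∧ St A B (E.st 0 1) w := by
  obtain ⟨n, r, hN, hn, e, -⟩ := hP
  have hNt : D.N ≠ ⊤ := by rw [hN, ← Nat.cast_mul]; exact ENat.natCast_ne_top _
  have hI := Data.In_fin hNt
  have hn0 : 0 < n := hn.1.1
  have hp : Function.Periodic D.t n := hn.1.2
  have hd : D.d + 1 = n * r := by
    unfold Data.d
    rw [hN, ← Nat.cast_mul, ENat.toNat_natCast]; push_cast; ring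
  have hd0 := ((hI _).1 h.in1).2
  have hnd : (n : ℤ) ≤ D.d + 1 := Int.le_of_dvd (by omega) ⟨r, hd⟩
  have q : ∀ i, D.t (i + (D.d + 1)) = D.t i := fun i => by rw [hd]; exact per_mul hp r i
  have hId : D.In D.d := (hI _).2 ⟨by omega, le_rfl⟩
  have q0 : D.t (D.d + 1) = D.t 0 := by simpa using q 0
  have q1 : D.t D.d = D.t (-1) := by
    have := q (-1)
    have e2 : -1 + (D.d + 1) = D.d := by ring
    rwa [e2] at this
  have q2 : D.t (D.d - 1) = D.t (-2) := by
    have := q (-2)
    have e2 : -2 + (D.d + 1) = D.d - 1 := by ring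
    rwa [e2] at this
  have hfw : ∃ j, D.t j = E.t 0 ∧ D.t (j + 1) = E.t 1 := by
    have := h'.con 0
    rw [zero_add, ← hi] at this
    rcases h.root this with b | b
    · exact ⟨i, hi, b.symm⟩
    · rcases e with e | ⟨e, -⟩
      · have hs := h.symm_of (i := 0) (j := 0) rfl (by simpa using e.symm)
        refine ⟨0 + 0 - i, by rw [hs, hi], ?_⟩
        have e2 : 0 + 0 - i + 1 = 0 + 0 - (i - 1) := by ring
        rw [e2, hs, b]
      · have hs := h.symm_of (i := -1) (j := 0) e (by simpa using e.symm)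
        refine ⟨-1 + 0 - i, by rw [hs, hi], ?_⟩
        have e2 : -1 + 0 - i + 1 = -1 + 0 - (i - 1) := by ring
        rw [e2, hs, b]
  obtain ⟨j0, u0, u1⟩ := hfw
  obtain ⟨j, hj0, hjn, t0, t1⟩ : ∃ j : ℤ, 0 ≤ j ∧ j < n ∧ D.t j = E.t 0 ∧ D.t (j + 1) = E.t 1 := by
    have e1 := Int.emod_add_mul_ediv j0 n
    refine ⟨j0 % n, Int.emod_nonneg _ (by omega), Int.emod_lt_of_pos _ (by omega), ?_, ?_⟩
    · rw [← per_mul hp (j0 / n), e1, u0]
    · rw [← per_mul hp (j0 / n), ← u1]
      congr 1; linear_combination e1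
  have hj : D.In j := (hI _).2 ⟨hj0, by omega⟩
  have t2 : D.t (j - 1) = E.t (-1) := by
    have a1 := h.rec' j
    have a2 := h'.rec' 0
    rw [t0, t1] at a1
    simp only [zero_add, zero_sub] at a2
    linear_combination a1 - a2
  set m := E.a 0 * (E.t 0 - E.t 1) with hm
  have hst : E.st 0 1 = (D.t j, D.t (j + 1), m) := by simp only [Data.st, t0, t1, hm]
  have hz' : p.Z (D.t j) (D.t (j - 1)) m = zeta p D := by
    rw [← hz]; unfold zeta; rw [t0, t2]
  have hG : m * (D.t j - D.t (j - 1)) = p.G (D.t j) := by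
    have := h'.e2 0 h'.in0
    simp only [zero_add, zero_sub] at this
    rw [t0, t2, hm]; linear_combination this
  rw [hst]
  by_cases hc : D.t (j - 1) = D.t j
  · by_cases hc2 : D.t j = D.t (j + 1)
    · refine ⟨H.v 0, H.v_ne h.in0, ?_⟩
      have hcon := h.const_of hc hc2
      have : (D.t j, D.t (j + 1), m) = D.st 0 1 := by
        simp only [Data.st]
        rw [hm, ← t0, ← t1, hcon 0, hcon 1, hcon (j + 1)]
        simp
      rw [this]; exact H.st_v0 h.in0
    have hδ : D.t j - D.t (j + 1) ≠ 0 := sub_ne_zero.2 hc2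
    by_cases hj1 : j = 0
    · subst hj1
      simp only [zero_sub, zero_add] at hc hc2 hδ hz' ⊢
      obtain ⟨-, ea⟩ := e.resolve_left (fun e => hc2 (hc.symm.trans e))
      have q2' : D.t (D.d - 1) = D.t 1 := by
        rw [q2]; simpa using h.pred_two (j := 0) (by simpa using hc)
      have r1 := h.up D.d hId
      rw [h.hx.zero_of (fun h' => by have := (hI _).1 h'; omega), q0, q1, q2', hc] at r1
      have r2 : p.Z (D.t 0) (D.t 0) (D.a 0 * (D.t 0 - D.t 1)) = zeta p D := by
        unfold zeta; rw [hc]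
      have hsum : (D.a D.d + D.a 0) * (D.t 0 - D.t 1) = 2 * p.γ * D.t 0 + p.ω := by
        apply mul_left_cancel₀ (mul_ne_zero (sub_ne_zero.2 ea) hδ)
        unfold Par.Z at r1 r2
        linear_combination r1 + r2
      have hZ : (m - D.a D.d * (D.t 0 - D.t 1)) * (m - D.a 0 * (D.t 0 - D.t 1)) = 0 := by
        rw [hc, ← r2] at hz'
        unfold Par.Z at hz'
        linear_combination hz' - (m - D.a 0 * (D.t 0 - D.t 1)) * hsum
      rcases mul_eq_zero.1 hZ with b | b
      · refine ⟨H.v D.d, H.v_ne hId, ?_⟩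
        have := H.st_vd h.in0 hNt
        simp only [Data.st, q1, q2', hc] at this
        rwa [sub_eq_zero.1 b]
      · refine ⟨H.v 0, H.v_ne h.in0, ?_⟩
        rw [sub_eq_zero.1 b]
        exact H.st_v0 h.in0
    · have r := h.hroot hj (by omega) hc m
      rw [hc] at hz'
      rw [hz', sub_self] at r
      obtain ⟨τ, hτ⟩ : ∃ τ, m = τ * (D.t j - D.t (j + 1)) := ⟨m / (D.t j - D.t (j + 1)), by
        field_simp⟩
      have hr : (τ - D.a (j - 1)) * (τ - D.a j) = D.x j := by
        apply mul_left_cancel₀ (pow_ne_zero 2 hδ)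
        rw [hτ] at r
        linear_combination -r
      refine ⟨_, ?_, hτ ▸ H.st_root h hj (by omega) hc hr⟩
      intro h0
      have := congrArg (H.c j) h0
      rw [map_add, map_smul, H.c_v_self hj, H.c_v_ne (by omega)] at this
      simp at this
  · have hm' := h.m_eq hj hc hG
    have hst' : (D.t j, D.t (j + 1), m) = D.st j (j + 1) := by simp only [Data.st, hm']
    by_cases hj1 : j = 0
    · subst hj1
      exact ⟨H.v 0, H.v_ne h.in0, by rw [hst']; simpa using H.st_v0 h.in0⟩
    have hd' := h.down j hj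
    rw [← hm', hz', sub_self] at hd'
    rcases mul_eq_zero.1 hd' with b | b
    · have b' := sub_eq_zero.1 ((mul_eq_zero.1 b).resolve_left (h.hx.ne hj (by omega)))
      exact ⟨H.v j, H.v_ne hj, hst' ▸ H.st_center hj b'⟩
    · have b' := sub_eq_zero.1 b
      by_cases hj2 : j = 1
      · subst hj2
        refine ⟨H.v D.d, H.v_ne hId, ?_⟩
        have b1 : D.t (-1) = D.t 1 := by simpa using b'
        have b2 : D.t (-2) = D.t (1 + 1) := by
          have hs := h.symm_of (i := 0) (j := 0) rfl (by simpa using b1.symm) (1 + 1)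
          simpa using hs
        have b3 : m = D.a D.d * (D.t 1 - D.t (1 + 1)) := by
          have a1 := h.e2 D.d hId
          rw [q0, q1, q2, b1, b2] at a1
          simp only [sub_self] at hG hc
          apply mul_right_cancel₀ (sub_ne_zero.2 (Ne.symm hc))
          linear_combination hG - a1
        have := H.st_vd h.in0 hNt
        simp only [Data.st, q1, q2, b1, b2] at this
        rwa [b3]
      · refine ⟨_, ?_, hst' ▸ H.st_after h hj (by omega) b'⟩
        intro h0
        have := congrArg (H.c j) h0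
        rw [map_sub, map_smul, H.c_v_self hj, H.c_v_ne (by omega)] at this
        simp at this

theorem iso_iff (H : Ctx D A B) (H' : Ctx E A' B') (hs : Sol p D) (hs' : Sol p E) (hg : D.Good) :
    Iso A B A' B' ↔ Equi p D E := by
  have h1 := (H.AW_of_raw hs.1 p (raw_of_sol hs)).1
  have h1' := (H'.AW_of_raw hs'.1 p (raw_of_sol hs')).1
  have hirr := H.irr_of_good hs hg
  have hone : ¬ D.In 1 → ∀ w : V, w = H.c 0 w • H.v 0 := fun hI w => H.top_zero
    (fun i hi => H.c_out i (fun h' => hI (h'.down (by omega) (by omega))) w)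
  constructor
  · intro h
    obtain ⟨hchi, w, hw0, hw⟩ := st_of_iso H H' hs.in0 hs'.in0 h
    refine ⟨hchi, ?_⟩
    by_cases hI : D.In 1
    · have hI' : E.In 1 := by
        rw [← Data.two_le_iff] at hI ⊢
        rwa [← Data.N_eq_of_chi hchi]
      exact Or.inr (equi_of_st H (nice_of_sol hs hI) (nice_of_sol hs' hI') hg hw0 hw)
    · refine Or.inl ⟨Data.eq_one_of hs.in0 hI, (H.top_t hw.1 (j := 0) fun h' => hw0 ?_).symm⟩
      rw [hone hI w, h', zero_smul]
  · rintro ⟨hchi, h⟩
    have hN := Data.N_eq_of_chi hchi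
    by_cases hI : D.In 1
    · have hI' : E.In 1 := by
        rw [← Data.two_le_iff] at hI ⊢
        rwa [← hN]
      rcases h with ⟨h, -⟩ | h | ⟨hN, h⟩ | ⟨hP, hz, i, -, hi⟩
      · exact absurd hI (Data.not_In_one h)
      · exact iso_of_st H H' h1 h1' hirr hs.in0 hs'.in0 hchi (H.v_ne hs.in0)
          (h ▸ H.st_v0 hs.in0)
      · exact iso_of_st H H' h1 h1' hirr hs.in0 hs'.in0 hchi
          (H.v_ne ((Data.In_fin hN _).2 ⟨((Data.In_fin hN 0).1 hs.in0).2, le_rfl⟩))
          (h ▸ H.st_vd hs.in0 hN)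
      · obtain ⟨w, hw0, hw⟩ := st_of_per H (nice_of_sol hs hI) (nice_of_sol hs' hI') hP hz hi
        exact iso_of_st H H' h1 h1' hirr hs.in0 hs'.in0 hchi hw0 hw
    · have hN1 := Data.eq_one_of hs.in0 hI
      have hd : D.d = 0 := by unfold Data.d; rw [hN1]; simp
      have ht : E.t 0 = D.t 0 := by
        rcases h with ⟨-, h⟩ | h | ⟨-, h⟩ | ⟨-, -, i, hi, h⟩
        · exact h
        · exact congrArg Prod.fst h
        · rw [hd] at h; exact congrArg Prod.fst h
        · have : i = 0 := by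
            have := hi.nonneg
            by_contra h'
            exact hI (hi.down (by omega) (by omega))
          rw [← h, this]
      have ha : E.a 0 = D.a 0 := by
        rw [Data.chi_fin (by rw [hN1]; simp), Data.chi_fin (by rw [← hN, hN1]; simp), ← hN,
          hN1] at hchi
        have : (X - C (D.a 0) : K[X]) = X - C (E.a 0) := hchi
        exact (C_injective (sub_right_injective this)).symm
      refine iso_of_st H H' h1 h1' hirr hs.in0 hs'.in0 hchi (H.v_ne hs.in0) ⟨?_, ?_⟩
      · simp only [Data.st, ht]; exact H.B_v 0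
      · rw [H.A_v hs.in0, H.v_out (0 + 1) (by simpa using hI),
          H.v_out (0 - 1) (fun h => by have := h.nonneg; omega)]
        simp only [Data.st, ht, ha, zero_add, smul_zero, add_zero, map_smul, H.B_v]
        module

end Pool.Agent.P.MP_af5c07_al
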