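import Mathlib
import Pool.Agent.P.MP_af5c07_al.Defs

/-!
The families of the Askey scheme as Askey-Wilson modules.  Every family is given by the eight
scalars of the algebra, the eigenvalues `t n` of the difference operator and the coefficients of
the three-term recurrence `y p n = p (n+1) + a n p n + x n p (n-1)` of the monic polynomials,
in the form of Koekoek, Lesky and Swarttouw (KLS): `a n = θ - A n - C n`, `x n = A (n-1) C n`.
-/

namespace Pool.Agent.P.MP_af5c07_al

variable {L : Type*} [Field L]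

/-- The scalars for `u A + v`, `u' B + v'` when `p` are the scalars for `A`, `B`. -/
def Par.aff (p : Par L) (u v u' v' : L) : Par L where
  β := p.β
  γ := p.γ * u + (2 - p.β) * v
  γs := p.γs * u' + (2 - p.β) * v'
  ρ := p.ρ * u ^ 2 - 2 * p.γ * u * v - (2 - p.β) * v ^ 2
  ρs := p.ρs * u' ^ 2 - 2 * p.γs * u' * v' - (2 - p.β) * v' ^ 2
  ω := p.ω * u * u' - 2 * p.γ * u * v' - 2 * p.γs * u' * v - 2 * (2 - p.β) * v * v'
  η := p.η * u ^ 2 * u' - p.ρ * u ^ 2 * v' - p.ω * u * u' * v + p.γs * u' * v ^ 2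
    + 2 * p.γ * u * v * v' + (2 - p.β) * v ^ 2 * v'
  ηs := p.ηs * u * u' ^ 2 - p.ρs * u' ^ 2 * v - p.ω * u * u' * v' + p.γ * u * v' ^ 2
    + 2 * p.γs * u' * v * v' + (2 - p.β) * v * v' ^ 2

/-- The scalars in a larger field. -/
def Par.map {K : Type*} [Field K] (f : K →+* L) (p : Par K) : Par L :=
  ⟨f p.β, f p.γ, f p.γs, f p.ρ, f p.ρs, f p.ω, f p.η, f p.ηs⟩

/-- One member of a family: scalars, eigenvalues, recurrence coefficients, the factor whose
vanishing at `n = N - 1` truncates the family, and the standing assumptions. -/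
structure Scheme (L : Type*) where
  par : Par L
  t : ℤ → L
  a : ℤ → L
  x : ℤ → L
  cut : ℤ → L
  adm : Prop

open Classical in
/-- The quotient `x / y`, with a common zero cancelled. -/
noncomputable def rat (x y : L) : L := if x = y then 1 else x / y

/-- The KLS form of the recurrence. -/
def kls (par : Par L) (θ : L) (t A C cut : ℤ → L) (adm : Prop) : Scheme L :=
  ⟨par, t, fun n => θ - A n - C n, fun n => A (n - 1) * C n, cut, adm⟩

/-- Families with `β = q + 1/q`, `q ≠ ±1`: everything is a function of `z = q ^ n`. -/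
def qk (q : L) (par : Par L) (θ : L) (t A C cut : L → L) (adm : Prop) : Scheme L :=
  kls par θ (fun n => t (q ^ n)) (fun n => A (q ^ n)) (fun n => C (q ^ n)) (fun n => cut (q ^ n))
    (q ≠ 0 ∧ q ^ 2 ≠ 1 ∧ adm)

/-- Families with `β = 2`: everything is a function of `n`. -/
def nk (par : Par L) (θ : L) (t A C cut : L → L) (adm : Prop) : Scheme L :=
  kls par θ (fun n => t n) (fun n => A n) (fun n => C n) (fun n => cut n) ((2 : L) ≠ 0 ∧ adm)

/-- One formula for even `n`, another for odd `n`. -/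
def eo (f g : L → L) (n : ℤ) : L := if Even n then f n else g n

/-- One formula for `n = 2 m`, another for `n = 2 m + 1`, both in terms of `m`. -/
def eoh (f g : L → L) (n : ℤ) : L := if Even n then f (n / 2 : ℤ) else g (n / 2 : ℤ)

/-- KLS 14.1 in the variable `2x`.  Zero parameters: continuous dual q-Hahn, Al-Salam-Chihara,
continuous big q-Hermite.  Truncations: q-Racah, dual q-Hahn, dual q-Krawtchouk. -/
noncomputable def askeyWilson (q a b c d : L) : Scheme L :=
  qk q ⟨q + q⁻¹, 0, 0, -(q - q⁻¹) ^ 2, -(a * b * c * d) * (q - q⁻¹) ^ 2 / q,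
      -(1 - q) ^ 2 * (q * (a + b + c + d) + (a * b * c + a * b * d + a * c * d + b * c * d)) / q ^ 2,
      (1 - q) ^ 2 * (1 + q) * (a * b * c * d
        + q * (a * b + a * c + a * d + b * c + b * d + c * d) + q ^ 2) / q ^ 3,
      (1 - q) ^ 2 * (1 + q) * ((a + b + c + d) * (a * b * c * d)
        + q * (a * b * c + a * b * d + a * c * d + b * c * d)) / q ^ 3⟩
    (a + a⁻¹) (fun z => z⁻¹ + a * b * c * d * z / q)
    (fun z => (1 - a * b * z) * (1 - a * c * z) * (1 - a * d * z)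
      * rat (1 - a * b * c * d * z / q) (1 - a * b * c * d * z ^ 2 / q)
      / (a * (1 - a * b * c * d * z ^ 2)))
    (fun z => a * (1 - z) * (1 - b * d * z / q) * (1 - c * d * z / q)
      * rat (1 - b * c * z / q) (1 - a * b * c * d * z ^ 2 / q) / (1 - a * b * c * d * z ^ 2 / q ^ 2))
    (fun z => 1 - a * d * z) (a ≠ 0)

/-- KLS 14.26 in the variable `2x`. -/
def contqHermite (q : L) : Scheme L :=
  ⟨⟨q + q⁻¹, 0, 0, -(q - q⁻¹) ^ 2, 0, 0, (1 - q) ^ 2 * (1 + q) / q, 0⟩, fun n => (q ^ n)⁻¹,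
    fun _ => 0, fun n => 1 - q ^ n, fun _ => 1, q ≠ 0 ∧ q ^ 2 ≠ 1⟩

/-- KLS 14.5 with `s = a b`.  `s = 0`: big q-Laguerre; `a = 0`: little q-Jacobi in its second
form.  Truncations: q-Hahn, affine q-Krawtchouk, q-Krawtchouk. -/
noncomputable def bigqJacobi (q s a c : L) : Scheme L :=
  qk q ⟨q + q⁻¹, 0, 0, 0, -s * q * (q - q⁻¹) ^ 2, -(1 - q) ^ 2 * (a + c + s + a * c),
      (1 - q) ^ 2 * (1 + q) * (a * c), (1 - q) ^ 2 * (1 + q) * (a * c + s * (a + c + 1))⟩
    1 (fun z => z⁻¹ + s * q * z)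
    (fun z => (1 - a * q * z) * (1 - c * q * z) * rat (1 - s * q * z) (1 - s * q * z ^ 2)
      / (1 - s * q ^ 2 * z ^ 2))
    (fun z => -(1 - z) * (a - s * z) * rat (q * z * (c - s * z)) (1 - s * q * z ^ 2)
      / (1 - s * z ^ 2))
    (fun z => 1 - c * q * z) True

/-- KLS 14.12 with `s = a b`.  `s = 0`: little q-Laguerre; `a = 0`: q-Bessel. -/
noncomputable def littleqJacobi (q s a : L) : Scheme L :=
  qk q ⟨q + q⁻¹, 0, 0, 0, -s * q * (q - q⁻¹) ^ 2, -(1 - q) ^ 2 * (1 + a) / q, 0,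
      (1 - q) ^ 2 * (1 + q) * (a + s) / q⟩
    0 (fun z => z⁻¹ + s * q * z)
    (fun z => -z * (1 - a * q * z) * rat (1 - s * q * z) (1 - s * q * z ^ 2)
      / (1 - s * q ^ 2 * z ^ 2))
    (fun z => -(1 - z) * rat (q * z * (a - s * z)) (1 - s * q * z ^ 2) / (q * (1 - s * z ^ 2)))
    (fun z => 1 - a * q * z) True

/-- KLS 14.13 with `e = -b c`.  `e = 0`: q-Charlier; `c = 0`: Al-Salam-Carlitz (with the discrete
q-Hermite polynomials).  Truncation: quantum q-Krawtchouk. -/
def qMeixner (q c e : L) : Scheme L :=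
  qk q ⟨q + q⁻¹, 0, 0, 0, 0, (1 - q) ^ 2 * (c - e - 1) / q, (1 - q) ^ 2 * (1 + q) * e / q,
      -(1 - q) ^ 2 * (1 + q) * c / q ^ 2⟩
    1 (fun z => z) (fun z => -(c + e * q * z) / (q * z ^ 2)) (fun z => -(1 - z) * (c + z) / z ^ 2)
    (fun z => c + e * q * z) True

/-- KLS 14.21 with `a = q ^ α`, in the variable `a x`.  `a = 0`: Stieltjes-Wigert. -/
def qLaguerre (q a : L) : Scheme L :=
  qk q ⟨q + q⁻¹, 0, 0, 0, 0, (1 - q) ^ 2 * (1 + a) / q, 0, -(1 - q) ^ 2 * (1 + q) / q ^ 2⟩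
    0 (fun z => z) (fun z => -(1 - a * q * z) / (q * z ^ 2)) (fun z => -(1 - z) / z ^ 2)
    (fun z => 1 - a * q * z) True

/-- KLS 9.1 in the variable `-x ^ 2`.  Truncation: Racah. -/
noncomputable def wilson (a b c d : L) : Scheme L :=
  nk ⟨2, 2, 2, -1, (a + b + c + d) * (a + b + c + d - 2),
      2 * (a * b + a * c + a * d + b * c + b * d + c * d) - (a + b + c + d),
      2 * (a * b * c * d) - (a * b * c + a * b * d + a * c * d + b * c * d),
      (a * b * c + a * b * d + a * c * d + b * c * d) * (a + b + c + d - 2)⟩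
    (a ^ 2) (fun n => n * (n + a + b + c + d - 1))
    (fun n => (n + a + b) * (n + a + c) * (n + a + d)
      * rat (n + a + b + c + d - 1) (2 * n + a + b + c + d - 1) / (2 * n + a + b + c + d))
    (fun n => n * (n + b + d - 1) * (n + c + d - 1)
      * rat (n + b + c - 1) (2 * n + a + b + c + d - 1) / (2 * n + a + b + c + d - 2))
    (fun n => n + a + d) True

/-- KLS 9.3 in the variable `-x ^ 2`.  Truncation: dual Hahn. -/
def contDualHahn (a b c : L) : Scheme L :=
  nk ⟨2, 2, 0, -1, 1, 2 * (a + b + c) - 1, 2 * (a * b * c) - (a * b + a * c + b * c),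
      a * b + a * c + b * c⟩
    (a ^ 2) (fun n => n) (fun n => (n + a + b) * (n + a + c)) (fun n => n * (n + b + c - 1))
    (fun n => n + a + c) True

/-- KLS 9.4 in the variable `i x`.  Truncation: Hahn. -/
noncomputable def contHahn (a b c d : L) : Scheme L :=
  nk ⟨2, 0, 2, 1, (a + b + c + d) * (a + b + c + d - 2), a + b - c - d, a * b + c * d,
      (a * b - c * d) * (a + b + c + d - 2)⟩
    (-a) (fun n => n * (n + a + b + c + d - 1))
    (fun n => -(n + a + c) * (n + a + d)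
      * rat (n + a + b + c + d - 1) (2 * n + a + b + c + d - 1) / (2 * n + a + b + c + d))
    (fun n => n * (n + b + d - 1)
      * rat (n + b + c - 1) (2 * n + a + b + c + d - 1) / (2 * n + a + b + c + d - 2))
    (fun n => n + a + d) True

/-- KLS 9.10 (and 9.7, Meixner-Pollaczek).  Truncation: Krawtchouk. -/
def meixner (b c : L) : Scheme L :=
  nk ⟨2, 0, 0, 1, 1, (c + 1) / (c - 1), b * c / (c - 1), b * c / (c - 1)⟩
    0 (fun n => n) (fun n => c * (n + b) / (c - 1)) (fun n => n / (c - 1)) (fun n => n + b) (c ≠ 1)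

/-- KLS 9.14. -/
def charlier (a : L) : Scheme L :=
  nk ⟨2, 0, 0, 1, 1, -1, -a, -a⟩ 0 (fun n => n) (fun _ => -a) (fun n => -n) (fun _ => 1) True

/-- KLS 9.8 (and 9.9, pseudo-Jacobi). -/
noncomputable def jacobi (a b : L) : Scheme L :=
  nk ⟨2, 0, 2, 0, (a + b) * (a + b + 2), 0, -2, a ^ 2 - b ^ 2⟩ 1 (fun n => n * (n + a + b + 1))
    (fun n => 2 * (n + a + 1) * rat (n + a + b + 1) (2 * n + a + b + 1) / (2 * n + a + b + 2))
    (fun n => 2 * n * rat (n + b) (2 * n + a + b + 1) / (2 * n + a + b)) (fun n => n + a + 1) True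

/-- KLS 9.13. -/
noncomputable def bessel (a : L) : Scheme L :=
  nk ⟨2, 0, 2, 0, a * (a + 2), 0, 0, 2 * a⟩ 0 (fun n => n * (n + a + 1))
    (fun n => 2 * rat (n + a + 1) (2 * n + a + 1) / (2 * n + a + 2))
    (fun n => -2 * n / ((2 * n + a) * (2 * n + a + 1))) (fun _ => 1) True

/-- KLS 9.12. -/
def laguerre (a : L) : Scheme L :=
  nk ⟨2, 0, 0, 0, 1, -2, 0, -(a + 1)⟩ 0 (fun n => n) (fun n => -(n + a + 1)) (fun n => -n)
    (fun n => n + a + 1) True

/-- KLS 9.15. -/
def hermite : Scheme L :=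
  ⟨⟨2, 0, 0, 0, 1, 0, -1, 0⟩, fun n => n, fun _ => 0, fun n => n / 2, fun _ => 1, (2 : L) ≠ 0⟩

/-- Bannai-Ito polynomials with `(ρ₁, ρ₂, r₁, r₂) = (a, b, -c, -d)`. -/
def bannaiIto (a b c d : L) : Scheme L :=
  kls ⟨-2, -1, 0, 0, 1, 4 * (a * b - c * d), 2 * (a * b), 1 / 4 + a ^ 2 + b ^ 2 - c ^ 2 - d ^ 2⟩ a
    (eo (fun n => n + (a + b + c + d) + 1 / 2) (fun n => -(n + (a + b + c + d) + 1 / 2)))
    (eo (fun n => (n + 2 * a + 2 * c + 1) * (n + 2 * a + 2 * d + 1) / (4 * (n + (a + b + c + d) + 1)))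
      (fun n => (n + 2 * (a + b + c + d) + 1) * (n + 2 * a + 2 * b + 1)
        / (4 * (n + (a + b + c + d) + 1))))
    (eo (fun n => -n * (n + 2 * c + 2 * d) / (4 * (n + (a + b + c + d))))
      (fun n => -(n + 2 * b + 2 * c) * (n + 2 * b + 2 * d) / (4 * (n + (a + b + c + d)))))
    (eo (fun n => n + 2 * a + 2 * d + 1) (fun n => n + 2 * a + 2 * b + 1)) ((2 : L) ≠ 0)

/-- Big `-1` Jacobi polynomials for `g = (α + β) / 2`, `e = 1 + c`, `f = 1 - c`,
`r = e (α - β) / 2`; `e = f`: little `-1` Jacobi. -/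
def minusOneJacobi (g e f r : L) : Scheme L :=
  kls ⟨-2, 0, 0, 0, 1, 2 * (f * g - r), (f ^ 2 - e ^ 2) / 2, f * g + r⟩ ((e + f) / 2)
    (eo (fun n => n + g + 1 / 2) (fun n => -(n + g + 1 / 2)))
    (eo (fun n => (e * (n + g + 1) + r) / (2 * (n + g + 1)))
      (fun n => f * (n + 2 * g + 1) / (2 * (n + g + 1))))
    (eo (fun n => f * n / (2 * (n + g))) (fun n => (e * (n + g) - r) / (2 * (n + g))))
    (eo (fun n => e * (n + g + 1) + r) (fun _ => f)) ((2 : L) ≠ 0)

/-- Characteristic two, `β = 0`, dimension at most four; `w = g`, `N = 4` is the orphan. -/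
def orphan (s g r k w : L) : Scheme L :=
  kls ⟨0, g, 1, r ^ 2 + g * r, s ^ 2 + s, w + r * (1 + s) + g * s, k * (r + g), k * (1 + s)⟩ 0
    (eoh (fun m => m) (fun m => m + s))
    (eoh (fun m => (k + m * (w + r + g * (1 + s))) / s) (fun m => (m + s) * (w + g * m) / (1 + s)))
    (eoh (fun m => m * (w + g * (1 + s)) / (1 + s)) (fun m => (k + (m + s) * (w + r + g * m)) / s))
    (eoh (fun m => k + m * (w + r + g * (1 + s))) (fun m => w + g * m)) ((2 : L) = 0)

/-- The list of families. -/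
def IsFamily (S : Scheme L) : Prop :=
  (∃ q a b c d, S = askeyWilson q a b c d) ∨ (∃ q, S = contqHermite q) ∨
  (∃ q s a c, S = bigqJacobi q s a c) ∨ (∃ q s a, S = littleqJacobi q s a) ∨
  (∃ q c e, S = qMeixner q c e) ∨ (∃ q a, S = qLaguerre q a) ∨
  (∃ a b c d, S = wilson a b c d) ∨ (∃ a b c, S = contDualHahn a b c) ∨
  (∃ a b c d, S = contHahn a b c d) ∨ (∃ b c, S = meixner b c) ∨ (∃ a, S = charlier a) ∨
  (∃ a b, S = jacobi a b) ∨ (∃ a, S = bessel a) ∨ (∃ a, S = laguerre a) ∨ S = hermite ∨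
  (∃ a b c d, S = bannaiIto a b c d) ∨ (∃ g e f r, S = minusOneJacobi g e f r) ∨
  (∃ s g r k w, S = orphan s g r k w)

/-- Nondegeneracy on the index range of `D`: at least two indices, distinct eigenvalues, nonzero
`x n`; for finite `N` the factor `cut` vanishes at `N - 1` or `N` is a period of `t`. -/
def Scheme.Ok {K : Type*} (S : Scheme L) (D : Data K) : Prop :=
  S.adm ∧ D.In 1 ∧ Set.InjOn S.t {n | D.In n} ∧ (∀ n, D.In (n - 1) → D.In n → S.x n ≠ 0) ∧
    (D.N = ⊤ ∨ S.cut D.d = 0 ∨ ∀ n, S.t (n + (D.d + 1)) = S.t n)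

/-- After the embedding `f` and an affine change of `A` and `B`, the scalars `p` and the data `D`
are those of a member of one of the families. -/
def AskeyVia {K : Type*} [Field K] (f : K →+* L) (p : Par K) (D : Data K) : Prop :=
  ∃ (S : Scheme L) (u v u' v' : L), IsFamily S ∧ S.Ok D ∧ u ≠ 0 ∧ u' ≠ 0 ∧
    p.map f = S.par.aff u v u' v' ∧ (∀ n, f (D.t n) = u' * S.t n + v') ∧
    (∀ n, D.In n → f (D.a n) = u * S.a n + v) ∧
    (∀ n, D.In (n - 1) → D.In n → f (D.x n) = u ^ 2 * S.x n) ∧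
    (∀ n, ¬ (D.In (n - 1) ∧ D.In n) → D.x n = 0)

/-- The parameters of the family lie in the algebraic closure. -/
def Askey {K : Type*} [Field K] (p : Par K) (D : Data K) : Prop :=
  AskeyVia (algebraMap K (AlgebraicClosure K)) p D

/-- The classification list: Askey scheme, dimension one, and the exceptional finite-dimensional
modules with repeated or periodic eigenvalues. -/
def Listed {K : Type*} [Field K] (p : Par K) (D : Data K) : Prop :=
  Askey p D ∨ (Sol p D ∧ (D.N = 1 ∨ D.Quad ∨ D.Per))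

end Pool.Agent.P.MP_af5c07_al
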