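import Mathlib
import Pool.Agent.P.MP_af5c07_al.Iso
import Pool.Agent.P.MP_af5c07_al.AskDefs

/-!
The generic theory of recurrences in KLS form.
-/

set_option linter.unusedSectionVars false
set_option linter.unusedVariables false

namespace Pool.Agent.P.MP_af5c07_al

variable {K : Type*} [Field K]

/-- The linear function attached to a dual start. -/
def Lf (θ θ1 κ s : K) : K := (θ1 - θ) * s + κ

def Par.Hf (p : Par K) (θ θ1 κ s u : K) : K :=
  (θ * (s - (p.β * s + p.γs - u)) + Lf θ θ1 κ s) * (u - s) + p.G s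

def Par.Qd (p : Par K) (θ θ1 : K) : K := θ ^ 2 - p.β * θ * θ1 + θ1 ^ 2 - p.γ * (θ + θ1) - p.ρ

def Par.Kd (p : Par K) (θ θ1 κ : K) : K :=
  κ * (θ - (p.β * θ + p.γ - θ1)) - (p.γs * θ ^ 2 + p.ω * θ + p.η)

/-- The equations without the nonvanishing. -/
structure Eqs (p : Par K) (D : Data K) : Prop where
  rec' : ∀ i, D.t (i + 1) + D.t (i - 1) = p.β * D.t i + p.γs
  con : p.Q (D.t 0) (D.t 1) = 0
  e2 : ∀ i, D.In i → D.a i * (D.t i - D.t (i - 1)) * (D.t i - D.t (i + 1)) = p.G (D.t i)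
  e3 : ∀ i, D.In i → D.In (i + 1) → D.a i * (D.t i - D.t (i - 1))
    + D.a (i + 1) * (D.t (i + 1) - D.t (i + 2)) = p.γ * (D.t i + D.t (i + 1)) + p.ω
  e4 : ∀ i, D.In i → D.x (i + 1) * (D.t i - D.t (i + 2)) + D.x i * (D.t i - D.t (i - 2))
    = p.R (D.t i) (D.a i)
  xz : ∀ i, ¬ (D.In (i - 1) ∧ D.In i) → D.x i = 0

/-- Not of period two. -/
def NP (t : ℤ → K) : Prop := ¬ (t (-1) = t 1 ∧ t 2 = t 0)

theorem Nice.eqs {p : Par K} {D : Data K} (h : Nice p D) : Eqs p D :=
  ⟨h.rec', by simpa using h.con 0, h.e2, h.e3, h.e4, fun i hi => by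
    by_contra h'; exact hi ((h.hx i).1 h')⟩

theorem Eqs.nice {p : Par K} {D : Data K} (h : Eqs p D) (h1 : D.In 1)
    (hx : ∀ i, D.In (i - 1) → D.In i → D.x i ≠ 0) : Nice p D := by
  have hc := con_all h.rec' h.con
  refine nice_of_raw (fun i => ⟨fun h' => ?_, fun h' => hx i h'.1 h'.2⟩) h1 h.rec'
    ⟨fun i _ _ => ?_, fun i hi hi1 => ?_, fun i hi => ?_, fun i _ _ => hc i, fun i hi => ?_⟩
  · by_contra h''; exact h' (h.xz i h'')
  · linear_combination rec_succ h.rec' i
  · linear_combination h.e3 i hi hi1 + D.a i * h.rec' i + D.a (i + 1) * rec_succ h.rec' i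
  · linear_combination h.e4 i hi + D.x (i + 1) * rec_succ h.rec' i + D.x i * rec_pred h.rec' i
  · rw [Q_split h.rec' hc]
    linear_combination h.e2 i hi

theorem Data.Inj.ne {D : Data K} (h : D.Inj) {i j : ℤ} (hi : D.In i) (hj : D.In j) (hij : i ≠ j) :
    D.t i - D.t j ≠ 0 := fun e => hij (h hi hj (sub_eq_zero.1 e))

/-- Uniqueness of the solution with given ends. -/
theorem Eqs.uniq {p : Par K} {N : ℕ∞} {t a x a' x' : ℤ → K} (h : Eqs p ⟨N, t, a, x⟩)
    (h' : Eqs p ⟨N, t, a', x'⟩) (h1 : (⟨N, t, a, x⟩ : Data K).In 1)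
    (hI : (⟨N, t, a, x⟩ : Data K).Inj) (hnp : NP t) (e0 : a 0 = a' 0)
    (ed : ∀ d, (⟨N, t, a, x⟩ : Data K).In d → ¬ (⟨N, t, a, x⟩ : Data K).In (d + 1) →
      t d = t (d + 1) → a d = a' d) :
    (∀ i, (⟨N, t, a, x⟩ : Data K).In i → a i = a' i) ∧ ∀ i, x i = x' i := by
  set D : Data K := ⟨N, t, a, x⟩ with hD
  have hne : ∀ i j, D.In i → D.In j → i ≠ j → t i - t j ≠ 0 := fun i j hi hj hij =>
    hI.ne hi hj hij
  have ha : ∀ i, D.In i → a i = a' i := by
    intro i hi
    by_cases hi0 : i = 0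
    · rw [hi0]; exact e0
    have hi1 := hi.nonneg
    have n1 : t i - t (i - 1) ≠ 0 := hne _ _ hi (hi.down (by omega) (by omega)) (by omega)
    by_cases n2 : t i - t (i + 1) = 0
    · by_cases hi2 : D.In (i + 1)
      · exact absurd n2 (hne _ _ hi hi2 (by omega))
      · exact ed i hi hi2 (sub_eq_zero.1 n2)
    · have a1 := h.e2 i hi
      have a2 := h'.e2 i hi
      simp only [hD] at a1 a2
      apply mul_right_cancel₀ (mul_ne_zero n1 n2)
      linear_combination a1 - a2
  refine ⟨ha, fun i => ?_⟩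
  by_cases hi : D.In (i - 1) ∧ D.In i
  swap
  · have a1 := h.xz i hi
    have a2 := h'.xz i hi
    simp only [hD] at a1 a2
    rw [a1, a2]
  obtain ⟨hi', hi⟩ := hi
  have key : ∀ j : ℤ, 0 ≤ j → D.In j → x j = x' j := by
    intro j hj0
    induction j, hj0 using Int.leInduction with
    | base =>
      intro _
      have a1 := h.xz 0 (fun h => by have := h.1.nonneg; omega)
      have a2 := h'.xz 0 (fun h => by have := h.1.nonneg; omega)
      simp only [hD] at a1 a2
      rw [a1, a2]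
    | succ j hj0 ih =>
      intro hj1
      have hj : D.In j := hj1.down hj0 (by omega)
      have a1 := h.e4 j hj
      have a2 := h'.e4 j hj
      simp only [hD] at a1 a2
      rw [ha j hj, ih hj] at a1
      by_cases n1 : t j - t (j + 2) = 0
      swap
      · apply mul_right_cancel₀ n1
        linear_combination a1 - a2
      have hj2 : ¬ D.In (j + 2) := fun hj2 => hne _ _ hj hj2 (by omega) n1
      have b1 := h.e4 (j + 1) hj1
      have b2 := h'.e4 (j + 1) hj1
      have e1 : j + 1 + 1 = j + 2 := by ring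
      have e2 : j + 1 - 2 = j - 1 := by ring
      have c1 := h.xz (j + 2) (fun h => hj2 h.2)
      have c2 := h'.xz (j + 2) (fun h => hj2 h.2)
      simp only [hD, e1, e2] at b1 b2 c1 c2
      rw [ha _ hj1, c1] at b1
      rw [c2] at b2
      have n2 : t (j + 1) - t (j - 1) ≠ 0 := by
        by_cases hj' : j = 0
        · subst hj'
          intro e
          exact hnp ⟨by simpa using (sub_eq_zero.1 e).symm, by simpa using (sub_eq_zero.1 n1).symm⟩
        · exact hne _ _ hj1 (hj.down (by omega) (by omega)) (by omega)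
      apply mul_right_cancel₀ n2
      linear_combination b1 - b2
  exact key i hi.nonneg hi

/-- The local identities of a recurrence in KLS form. -/
structure Alg (p : Par K) (θ θ1 κ : K) (t A C cut : ℤ → K) : Prop where
  rec' : ∀ i, t (i + 1) + t (i - 1) = p.β * t i + p.γs
  con : p.Q (t 0) (t 1) = 0
  dual : p.Qd θ θ1 = 0
  kap : p.Kd θ θ1 κ = 0
  np : NP t
  C0 : C 0 = 0
  H0 : p.Hf θ θ1 κ (t 0) (t (-1)) = 0
  A0 : t 1 ≠ t 0 → A 0 * (t 1 - t 0) = Lf θ θ1 κ (t 0)
  hA : ∀ n, t (n + 1) ≠ t (n - 1) → t (n + 1) ≠ t n →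
    A n * (t (n + 1) - t (n - 1)) * (t (n + 1) - t n) = p.Hf θ θ1 κ (t n) (t (n + 1))
  hC : ∀ n, t (n + 1) ≠ t (n - 1) → t (n - 1) ≠ t n →
    C n * (t (n - 1) - t (n + 1)) * (t (n - 1) - t n) = p.Hf θ θ1 κ (t n) (t (n - 1))
  cA : ∀ n, cut n = 0 → A n = 0 ∧ p.Hf θ θ1 κ (t n) (t (n + 1)) = 0
  cC : ∀ n, cut n = 0 → t (n + 1) = t (n - 1) → t (n - 1) ≠ t n →
    C n * (t (n - 1) - t n) = Lf θ θ1 κ (t n)

/-- The data of a family member in dimension `N`. -/
noncomputable def Scheme.data (S : Scheme K) (N : ℕ∞) : Data K :=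
  ⟨N, S.t, S.a, fun i => by
    classical exact if (⟨N, S.t, S.a, S.x⟩ : Data K).In (i - 1) ∧ (⟨N, S.t, S.a, S.x⟩ : Data K).In i
      then S.x i else 0⟩

theorem Hf_sub (p : Par K) (θ θ1 κ : K) {s u w : K} (h : w + u = p.β * s + p.γs) :
    p.Hf θ θ1 κ s w - p.Hf θ θ1 κ s u = Lf θ θ1 κ s * (w - u) := by
  unfold Par.Hf
  linear_combination (θ * (w - u)) * h

theorem G_of_loc (p : Par K) (θ θ1 κ : K) {s u w b c : K} (h : w + u = p.β * s + p.γs)
    (hL : b * (w - s) + c * (u - s) = Lf θ θ1 κ s)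
    (hH : b * (w - u) * (w - s) = p.Hf θ θ1 κ s w) :
    (θ - b - c) * (s - u) * (s - w) = p.G s := by
  unfold Par.Hf at hH
  linear_combination hH - (w - s) * hL + θ * (w - s) * h

theorem e4_of_loc (p : Par K) {θ θ1 κ : K} (hQ : p.Qd θ θ1 = 0) (hK : p.Kd θ θ1 κ = 0)
    {s u w b c : K} (h : w + u = p.β * s + p.γs)
    (hL : b * (w - s) + c * (u - s) = Lf θ θ1 κ s) :
    b * (Lf θ θ1 κ w - p.γ * (s + w) - p.ω + (θ - b - c) * (s - u) + θ * (w - (p.β * w + p.γs - s)))
    + c * (Lf θ θ1 κ u - p.γ * (s + u) - p.ω + (θ - b - c) * (s - w)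
      + θ * (u - (p.β * u + p.γs - s))) = p.R s (θ - b - c) := by
  have hu : u = p.β * s + p.γs - w := by linear_combination h
  subst hu
  unfold Par.Qd at hQ
  unfold Par.Kd at hK
  unfold Par.R
  unfold Lf at hL ⊢
  linear_combination (θ - b - c - (p.β * θ + p.γ - θ1)) * hL + s * hQ + hK

theorem X_mul (p : Par K) (θ θ1 κ : K) {s u w a : K} (h : w + u = p.β * s + p.γs)
    (hG : a * (s - u) * (s - w) = p.G s) :
    (Lf θ θ1 κ w - p.γ * (s + w) - p.ω + a * (s - u) + θ * (w - (p.β * w + p.γs - s))) * (s - w)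
      = p.Hf θ θ1 κ w s := by
  unfold Par.Hf Par.G at *
  linear_combination hG

namespace Alg

variable {p : Par K} {θ θ1 κ : K} {t A C cut : ℤ → K} (h : Alg p θ θ1 κ t A C cut)
include h

theorem cutC {n : ℤ} (hc : cut n = 0) (hne : t (n - 1) ≠ t n) :
    C n * (t (n - 1) - t n) = Lf θ θ1 κ (t n) := by
  by_cases e : t (n + 1) = t (n - 1)
  · exact h.cC n hc e hne
  · apply mul_right_cancel₀ (sub_ne_zero.2 e)
    linear_combination -h.hC n e hne + Hf_sub p θ θ1 κ (h.rec' n) - (h.cA n hc).2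

/-- The two local equations. -/
theorem loc {D : Data K} (ht : D.t = t) (h1 : D.In 1) (hI : D.Inj)
    (hs : D.N = ⊤ ∨ cut D.d = 0 ∨ ∀ n, t (n + (D.d + 1)) = t n) {n : ℤ} (hn : D.In n) :
    A n * (t (n + 1) - t n) + C n * (t (n - 1) - t n) = Lf θ θ1 κ (t n) ∧
    A n * (t (n + 1) - t (n - 1)) * (t (n + 1) - t n) = p.Hf θ θ1 κ (t n) (t (n + 1)) := by
  have hne : ∀ i j, D.In i → D.In j → i ≠ j → t i ≠ t j := fun i j hi hj hij => by
    have := hI.ne hi hj hij
    rw [ht] at this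
    exact sub_ne_zero.1 this
  have h0 : D.In 0 := h1.down le_rfl (by norm_num)
  have reg : t (n + 1) ≠ t (n - 1) → t (n + 1) ≠ t n → t (n - 1) ≠ t n → _ := fun n1 n2 n3 =>
    (⟨by
      apply mul_right_cancel₀ (sub_ne_zero.2 n1)
      linear_combination h.hA n n1 n2 - h.hC n n1 n3 + Hf_sub p θ θ1 κ (h.rec' n), h.hA n n1 n2⟩ :
    A n * (t (n + 1) - t n) + C n * (t (n - 1) - t n) = Lf θ θ1 κ (t n) ∧
    A n * (t (n + 1) - t (n - 1)) * (t (n + 1) - t n) = p.Hf θ θ1 κ (t n) (t (n + 1)))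
  by_cases hn0 : n = 0
  · subst hn0
    have a0 := h.A0 (hne 1 0 h1 h0 (by norm_num))
    have a1 := Hf_sub p θ θ1 κ (h.rec' 0)
    have a2 := h.H0
    simp only [zero_add, zero_sub] at a1 ⊢
    rw [h.C0]
    exact ⟨by linear_combination a0, by linear_combination (t 1 - t (-1)) * a0 - a1 - a2⟩
  have hn' := hn.nonneg
  have hm : D.In (n - 1) := hn.down (by omega) (by omega)
  have n3 : t (n - 1) ≠ t n := hne _ _ hm hn (by omega)
  by_cases hp : D.In (n + 1)
  · exact reg (hne _ _ hp hm (by omega)) (hne _ _ hp hn (by omega)) n3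
  obtain ⟨hN, hd⟩ := Data.last_of hn hp
  rcases hs with hs | hs | hs
  · exact absurd hs hN
  · rw [hd] at hs
    have a1 := h.cutC hs n3
    obtain ⟨a2, a3⟩ := h.cA n hs
    rw [a2, a3]
    exact ⟨by linear_combination a1, by ring⟩
  · rw [hd] at hs
    have e0 : t (n + 1) = t 0 := by simpa using hs 0
    refine reg ?_ ?_ n3
    · rw [e0]
      by_cases hn1 : n = 1
      · subst hn1
        exfalso
        refine h.np ⟨?_, by simpa using e0⟩
        have := hs (-1)
        norm_num at this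
        exact this.symm
      · exact hne _ _ h0 hm (by omega)
    · rw [e0]; exact hne _ _ h0 hn (by omega)

theorem eqs {adm : Prop} {N : ℕ∞} (h1 : ((kls p θ t A C cut adm).data N).In 1)
    (hI : ((kls p θ t A C cut adm).data N).Inj)
    (hs : N = ⊤ ∨ cut ((kls p θ t A C cut adm).data N).d = 0 ∨
      ∀ n, t (n + (((kls p θ t A C cut adm).data N).d + 1)) = t n) :
    Eqs p ((kls p θ t A C cut adm).data N) := by
  set D := (kls p θ t A C cut adm).data N with hD
  have ht : D.t = t := rfl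
  have ha : ∀ n, D.a n = θ - A n - C n := fun _ => rfl
  have hx1 : ∀ n, D.In (n - 1) → D.In n → D.x n = A (n - 1) * C n := fun n a1 a2 => by
    simp only [hD, Scheme.data]
    exact if_pos ⟨a1, a2⟩
  have hx0 : ∀ n, ¬ (D.In (n - 1) ∧ D.In n) → D.x n = 0 := fun n a1 => by
    simp only [hD, Scheme.data]
    exact if_neg a1
  have hne : ∀ i j, D.In i → D.In j → i ≠ j → t i - t j ≠ 0 := fun i j hi hj hij =>
    hI.ne hi hj hij
  have loc := fun n (hn : D.In n) => h.loc ht h1 hI hs hn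
  have e2 : ∀ i, D.In i → (θ - A i - C i) * (t i - t (i - 1)) * (t i - t (i + 1)) = p.G (t i) :=
    fun i hi => G_of_loc p θ θ1 κ (h.rec' i) (loc i hi).1 (loc i hi).2
  have e3 : ∀ i, D.In i → D.In (i + 1) → (θ - A i - C i) * (t i - t (i - 1))
      + (θ - A (i + 1) - C (i + 1)) * (t (i + 1) - t (i + 2))
      = p.γ * (t i + t (i + 1)) + p.ω := by
    intro i hi hi1
    have h3 := e2 i hi
    have h4 := e2 (i + 1) hi1
    have e1 : i + 1 - 1 = i := by ring
    have e2 : i + 1 + 1 = i + 2 := by ring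
    rw [e1, e2] at h4
    apply mul_left_cancel₀ (hne i (i + 1) hi hi1 (by omega))
    unfold Par.G at h3 h4
    linear_combination h3 - h4
  refine ⟨h.rec', h.con, e2, e3, fun i hi => ?_, hx0⟩
  have main := e4_of_loc p h.dual h.kap (h.rec' i) (loc i hi).1
  rw [ht, ha]
  have hi0 := hi.nonneg
  have up : D.x (i + 1) * (t i - t (i + 2)) = A i * (Lf θ θ1 κ (t (i + 1))
      - p.γ * (t i + t (i + 1)) - p.ω + (θ - A i - C i) * (t i - t (i - 1))
      + θ * (t (i + 1) - (p.β * t (i + 1) + p.γs - t i))) := by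
    have e1 : i + 1 - 1 = i := by ring
    have e2' : i + 1 + 1 = i + 2 := by ring
    by_cases hp : D.In (i + 1)
    · rw [hx1 (i + 1) (by rwa [e1]) hp, e1]
      have a1 := (loc (i + 1) hp).1
      have a2 := e3 i hi hp
      rw [e1, e2'] at a1
      linear_combination A i * a1 - A i * a2 - A i * θ * rec_succ h.rec' i
    · rw [hx0 (i + 1) (fun h => hp h.2)]
      obtain ⟨hN, hd⟩ := Data.last_of hi hp
      rcases hs with hs | hs | hs
      · exact absurd hs hN
      · rw [hd] at hs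
        rw [(h.cA i hs).1]; ring
      · rw [hd] at hs
        have f0 : t (i + 1) = t 0 := by simpa using hs 0
        have f1 : t i = t (-1) := by
          have := hs (-1)
          rwa [show (-1 : ℤ) + (i + 1) = i by ring] at this
        have hi1 : i ≠ 0 := by
          rintro rfl
          exact hp (by simpa using h1)
        have n1 : t i - t (i + 1) ≠ 0 := by
          rw [f0]; exact hne _ _ hi (h1.down le_rfl (by norm_num)) hi1
        have a1 := X_mul p θ θ1 κ (h.rec' i) (e2 i hi)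
        have a2 : p.Hf θ θ1 κ (t (i + 1)) (t i) = 0 := by rw [f0, f1]; exact h.H0
        rw [a2] at a1
        rw [(mul_eq_zero.1 a1).resolve_right n1]; ring
  have down : D.x i * (t i - t (i - 2)) = C i * (Lf θ θ1 κ (t (i - 1))
      - p.γ * (t i + t (i - 1)) - p.ω + (θ - A i - C i) * (t i - t (i + 1))
      + θ * (t (i - 1) - (p.β * t (i - 1) + p.γs - t i))) := by
    by_cases hi1 : i = 0
    · subst hi1
      rw [hx0 0 (fun h => by have := h.1.nonneg; omega), h.C0]; ring
    · have hm : D.In (i - 1) := hi.down (by omega) (by omega)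
      rw [hx1 i hm hi]
      have e1 : i - 1 + 1 = i := by ring
      have e2' : i - 1 - 1 = i - 2 := by ring
      have e3' : i - 1 + 2 = i + 1 := by ring
      have a1 := (loc (i - 1) hm).1
      have a2 := e3 (i - 1) hm (by rwa [e1])
      rw [e1, e2'] at a1
      rw [e1, e2', e3'] at a2
      linear_combination C i * a1 - C i * a2 - C i * θ * rec_pred h.rec' i
  linear_combination up + down + main

end Alg

end Pool.Agent.P.MP_af5c07_al
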