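import Mathlib
import Pool.Agent.P.MP_af5c07_al.AskGen

/-!
The local identities for the families with `β = q + 1/q`.
-/

set_option linter.unusedSectionVars false
set_option linter.unusedVariables false

namespace Pool.Agent.P.MP_af5c07_al

variable {K : Type*} [Field K]

theorem rat_self (x : K) : rat x x = 1 := if_pos rfl

theorem rat_eq {x y : K} (h : x = y) : rat x y = 1 := if_pos h

theorem rat_ne {x y : K} (h : y ≠ 0) : rat x y = x / y := by
  unfold rat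
  split_ifs with h'
  · rw [h', div_self h]
  · rfl

theorem ne_of_fac {a b c D : K} (h : a ≠ b) (e : a - b = c * D) : D ≠ 0 := by
  intro h'; rw [h', mul_zero] at e; exact h (sub_eq_zero.1 e)

theorem dm2 {P x y D1 D2 c1 c2 E1 E2 H : K} (h1 : D1 ≠ 0) (h2 : D2 ≠ 0) (hy : y ≠ 0)
    (e1 : E1 = c1 * D1) (e2 : E2 = c2 * D2) (h : P * x * c1 * c2 / y = H) :
    P * rat x D1 / (y * D2) * E1 * E2 = H := by
  rw [rat_ne h1, e1, e2, ← h]; field_simp

theorem dm2' {P x D1 D2 c1 c2 E1 E2 H : K} (h1 : D1 ≠ 0) (h2 : D2 ≠ 0)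
    (e1 : E1 = c1 * D1) (e2 : E2 = c2 * D2) (h : P * x * c1 * c2 = H) :
    P * rat x D1 / D2 * E1 * E2 = H := by
  rw [rat_ne h1, e1, e2, ← h]; field_simp

theorem dm1 {P x y D1 D2 c2 E2 H : K} (h1 : x = D1) (h2 : D2 ≠ 0) (hy : y ≠ 0)
    (e2 : E2 = c2 * D2) (h : P * c2 / y = H) : P * rat x D1 / (y * D2) * E2 = H := by
  rw [rat_eq h1, e2, ← h]; field_simp

theorem dm1' {P x D1 D2 c2 E2 H : K} (h1 : x = D1) (h2 : D2 ≠ 0)
    (e2 : E2 = c2 * D2) (h : P * c2 = H) : P * rat x D1 / D2 * E2 = H := by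
  rw [rat_eq h1, e2, ← h]; field_simp

/-- A family member in KLS form with its local identities. -/
def Scheme.IsKls (S : Scheme K) (θ θ1 κ : K) : Prop :=
  ∃ A C : ℤ → K, S = kls S.par θ S.t A C S.cut S.adm ∧ Alg S.par θ θ1 κ S.t A C S.cut

theorem Alg.isKls {p : Par K} {θ θ1 κ : K} {t A C cut : ℤ → K} (adm : Prop)
    (h : Alg p θ θ1 κ t A C cut) : (kls p θ t A C cut adm).IsKls θ θ1 κ := ⟨A, C, rfl, h⟩

theorem alg_q {p : Par K} {θ θ1 κ q : K} {adm : Prop} (hq : q ≠ 0) {t A C cut : K → K}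
    (hrec : ∀ z, z ≠ 0 → t (z * q) + t (z / q) = p.β * t z + p.γs)
    (con : p.Q (t 1) (t q) = 0) (dual : p.Qd θ θ1 = 0) (kap : p.Kd θ θ1 κ = 0)
    (np : t q⁻¹ = t q → t (q ^ 2) = t 1 → False) (C0 : C 1 = 0)
    (H0 : p.Hf θ θ1 κ (t 1) (t q⁻¹) = 0) (A0 : t q ≠ t 1 → A 1 * (t q - t 1) = Lf θ θ1 κ (t 1))
    (hA : ∀ z, z ≠ 0 → t (z * q) ≠ t (z / q) → t (z * q) ≠ t z →
      A z * (t (z * q) - t (z / q)) * (t (z * q) - t z) = p.Hf θ θ1 κ (t z) (t (z * q)))
    (hC : ∀ z, z ≠ 0 → t (z * q) ≠ t (z / q) → t (z / q) ≠ t z →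
      C z * (t (z / q) - t (z * q)) * (t (z / q) - t z) = p.Hf θ θ1 κ (t z) (t (z / q)))
    (cA : ∀ z, z ≠ 0 → cut z = 0 → A z = 0 ∧ p.Hf θ θ1 κ (t z) (t (z * q)) = 0)
    (cC : ∀ z, z ≠ 0 → cut z = 0 → t (z * q) = t (z / q) → t (z / q) ≠ t z →
      C z * (t (z / q) - t z) = Lf θ θ1 κ (t z)) :
    (qk q p θ t A C cut adm).IsKls θ θ1 κ := by
  apply Alg.isKls
  have z1 : ∀ n : ℤ, q ^ (n + 1) = q ^ n * q := fun n => zpow_add_one₀ hq n
  have z2 : ∀ n : ℤ, q ^ (n - 1) = q ^ n / q := fun n => by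
    rw [zpow_sub_one₀ hq, div_eq_mul_inv]
  have z0 : ∀ n : ℤ, q ^ n ≠ 0 := fun n => zpow_ne_zero n hq
  refine ⟨fun n => ?_, by simpa using con, dual, kap, fun h => np ?_ ?_, by simpa using C0,
    by simpa using H0, by simpa using A0, fun n => ?_, fun n => ?_, fun n => ?_, fun n => ?_⟩
  · rw [z1, z2]; exact hrec _ (z0 n)
  · simpa using h.1
  · have := h.2
    simp only [zpow_zero] at this
    rwa [show q ^ (2 : ℤ) = q ^ 2 from zpow_natCast q 2] at this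
  · rw [z1, z2]; exact hA _ (z0 n)
  · rw [z1, z2]; exact hC _ (z0 n)
  · rw [z1]; exact cA _ (z0 n)
  · rw [z1, z2]; exact cC _ (z0 n)

theorem np_q {q e : K} (hq : q ≠ 0) (hq2 : q ^ 2 ≠ 1)
    (h1 : q⁻¹⁻¹ + e * q⁻¹ = q⁻¹ + e * q) (h2 : (q ^ 2)⁻¹ + e * q ^ 2 = 1⁻¹ + e * 1) : False := by
  have h3 : q ^ 2 - 1 ≠ 0 := sub_ne_zero.2 hq2
  field_simp at h1 h2
  have a1 : e = 1 := by
    apply mul_left_cancel₀ h3
    linear_combination -h1
  subst a1
  exact pow_ne_zero 2 h3 (by linear_combination h2)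

theorem aw_H (q a b c d z : K) (hq : q ≠ 0) (ha : a ≠ 0) (hz : z ≠ 0) :
    (askeyWilson q a b c d).par.Hf (a + a⁻¹) (a * q + (a * q)⁻¹)
      ((1 - q) * (a - (b + c + d) / q + a * (b * c + b * d + c * d) / q - b * c * d / q ^ 2))
      (z⁻¹ + a * b * c * d * z / q) ((z * q)⁻¹ + a * b * c * d * (z * q) / q)
    = (1 - a * b * z) * (1 - a * c * z) * (1 - a * d * z) * (1 - a * b * c * d * z / q)
      * ((q⁻¹ - q) / z) * ((q⁻¹ - 1) / z) / a := by
  simp only [askeyWilson, qk, kls, Par.Hf, Par.G, Lf]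
  field_simp
  ring

theorem aw_kls {q a : K} (b c d : K) (hq : q ≠ 0) (hq2 : q ^ 2 ≠ 1) (ha : a ≠ 0) :
    (askeyWilson q a b c d).IsKls (a + a⁻¹) (a * q + (a * q)⁻¹)
      ((1 - q) * (a - (b + c + d) / q + a * (b * c + b * d + c * d) / q - b * c * d / q ^ 2)) := by
  have hH := fun z hz => aw_H q a b c d z hq ha hz
  simp only [askeyWilson, qk, kls] at hH
  unfold askeyWilson
  refine alg_q hq (fun z hz => ?_) ?_ ?_ ?_ (fun h1 h2 => ?_) ?_ ?_ (fun h => ?_) (fun z hz h1 h2 => ?_)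
    (fun z hz h1 h2 => ?_) (fun z hz h => ⟨?_, ?_⟩) (fun z hz h h1 h2 => ?_)
  · dsimp only; field_simp; ring
  · simp only [Par.Q]; field_simp; ring
  · simp only [Par.Qd]; field_simp; ring
  · simp only [Par.Kd]; field_simp; ring
  · exact np_q (e := a * b * c * d / q) hq hq2 (by linear_combination h1) (by linear_combination h2)
  · simp
  · simp only [Par.Hf, Par.G, Lf]; field_simp; ring
  · have f : q⁻¹ + a * b * c * d * q / q - (1⁻¹ + a * b * c * d * 1 / q)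
        = (q⁻¹ - 1) * (1 - a * b * c * d * 1 ^ 2) := by field_simp; ring
    refine dm1 (by ring) (ne_of_fac h f) ha f ?_
    simp only [Lf]; field_simp; ring
  · have f1 : (z * q)⁻¹ + a * b * c * d * (z * q) / q - ((z / q)⁻¹ + a * b * c * d * (z / q) / q)
        = (q⁻¹ - q) / z * (1 - a * b * c * d * z ^ 2 / q) := by field_simp; ring
    have f2 : (z * q)⁻¹ + a * b * c * d * (z * q) / q - (z⁻¹ + a * b * c * d * z / q)
        = (q⁻¹ - 1) / z * (1 - a * b * c * d * z ^ 2) := by field_simp; ring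
    exact dm2 (ne_of_fac h1 f1) (ne_of_fac h2 f2) ha f1 f2 (hH z hz).symm
  · have f1 : (z / q)⁻¹ + a * b * c * d * (z / q) / q - ((z * q)⁻¹ + a * b * c * d * (z * q) / q)
        = (q - q⁻¹) / z * (1 - a * b * c * d * z ^ 2 / q) := by field_simp; ring
    have f2 : (z / q)⁻¹ + a * b * c * d * (z / q) / q - (z⁻¹ + a * b * c * d * z / q)
        = (q - 1) / z * (1 - a * b * c * d * z ^ 2 / q ^ 2) := by field_simp; ring
    refine dm2' (ne_of_fac h1.symm f1) (ne_of_fac h2 f2) f1 f2 ?_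
    simp only [Par.Hf, Par.G, Lf]; field_simp; ring
  · simp only [h]; simp
  · rw [hH z hz, h]; simp
  · have f2 : (z / q)⁻¹ + a * b * c * d * (z / q) / q - (z⁻¹ + a * b * c * d * z / q)
        = (q - 1) / z * (1 - a * b * c * d * z ^ 2 / q ^ 2) := by field_simp; ring
    have hd : d = (a * z)⁻¹ := by field_simp; linear_combination -h
    refine dm1' ?_ (ne_of_fac h2 f2) f2 ?_
    · rw [hd]; field_simp
    · rw [hd]; simp only [Lf]; field_simp; ring

theorem bqj_H (q s a c z : K) (hq : q ≠ 0) (hz : z ≠ 0) :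
    (bigqJacobi q s a c).par.Hf 1 q⁻¹ ((q - 1) * (a + c + s - a * c * q))
      (z⁻¹ + s * q * z) ((z * q)⁻¹ + s * q * (z * q))
    = (1 - a * q * z) * (1 - c * q * z) * (1 - s * q * z) * ((q⁻¹ - q) / z) * ((q⁻¹ - 1) / z) := by
  simp only [bigqJacobi, qk, kls, Par.Hf, Par.G, Lf]
  field_simp
  ring

theorem bqj_kls {q : K} (s a c : K) (hq : q ≠ 0) (hq2 : q ^ 2 ≠ 1) :
    (bigqJacobi q s a c).IsKls 1 q⁻¹ ((q - 1) * (a + c + s - a * c * q)) := by
  have hH := fun z hz => bqj_H q s a c z hq hz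
  simp only [bigqJacobi, qk, kls] at hH
  unfold bigqJacobi
  refine alg_q hq (fun z hz => ?_) ?_ ?_ ?_ (fun h1 h2 => ?_) ?_ ?_ (fun h => ?_)
    (fun z hz h1 h2 => ?_) (fun z hz h1 h2 => ?_) (fun z hz h => ⟨?_, ?_⟩)
    (fun z hz h h1 h2 => ?_)
  · dsimp only; field_simp; ring
  · simp only [Par.Q]; field_simp; ring
  · simp only [Par.Qd]; field_simp; ring
  · simp only [Par.Kd]; field_simp; ring
  · exact np_q (e := s * q) hq hq2 (by linear_combination h1) (by linear_combination h2)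
  · simp
  · simp only [Par.Hf, Par.G, Lf]; field_simp; ring
  · have f : q⁻¹ + s * q * q - (1⁻¹ + s * q * 1) = (q⁻¹ - 1) * (1 - s * q ^ 2 * 1 ^ 2) := by
      field_simp; ring
    refine dm1' (by ring) (ne_of_fac h f) f ?_
    simp only [Lf]; field_simp; ring
  · have f1 : (z * q)⁻¹ + s * q * (z * q) - ((z / q)⁻¹ + s * q * (z / q))
        = (q⁻¹ - q) / z * (1 - s * q * z ^ 2) := by field_simp; ring
    have f2 : (z * q)⁻¹ + s * q * (z * q) - (z⁻¹ + s * q * z)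
        = (q⁻¹ - 1) / z * (1 - s * q ^ 2 * z ^ 2) := by field_simp; ring
    exact dm2' (ne_of_fac h1 f1) (ne_of_fac h2 f2) f1 f2 (hH z hz).symm
  · have f1 : (z / q)⁻¹ + s * q * (z / q) - ((z * q)⁻¹ + s * q * (z * q))
        = (q - q⁻¹) / z * (1 - s * q * z ^ 2) := by field_simp; ring
    have f2 : (z / q)⁻¹ + s * q * (z / q) - (z⁻¹ + s * q * z)
        = (q - 1) / z * (1 - s * z ^ 2) := by field_simp; ring
    refine dm2' (ne_of_fac h1.symm f1) (ne_of_fac h2 f2) f1 f2 ?_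
    simp only [Par.Hf, Par.G, Lf]; field_simp; ring
  · simp only [h]; simp
  · rw [hH z hz, h]; simp
  · have f2 : (z / q)⁻¹ + s * q * (z / q) - (z⁻¹ + s * q * z)
        = (q - 1) / z * (1 - s * z ^ 2) := by field_simp; ring
    have hd : c = (q * z)⁻¹ := by field_simp; linear_combination -h
    refine dm1' ?_ (ne_of_fac h2 f2) f2 ?_
    · rw [hd]; field_simp
    · rw [hd]; simp only [Lf]; field_simp; ring

theorem lqj_H (q s a z : K) (hq : q ≠ 0) (hz : z ≠ 0) :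
    (littleqJacobi q s a).par.Hf 0 0 ((q - 1) * (q⁻¹ - a))
      (z⁻¹ + s * q * z) ((z * q)⁻¹ + s * q * (z * q))
    = -z * (1 - a * q * z) * (1 - s * q * z) * ((q⁻¹ - q) / z) * ((q⁻¹ - 1) / z) := by
  simp only [littleqJacobi, qk, kls, Par.Hf, Par.G, Lf]
  field_simp
  ring

theorem lqj_kls {q : K} (s a : K) (hq : q ≠ 0) (hq2 : q ^ 2 ≠ 1) :
    (littleqJacobi q s a).IsKls 0 0 ((q - 1) * (q⁻¹ - a)) := by
  have hH := fun z hz => lqj_H q s a z hq hz
  simp only [littleqJacobi, qk, kls] at hH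
  unfold littleqJacobi
  refine alg_q hq (fun z hz => ?_) ?_ ?_ ?_ (fun h1 h2 => ?_) ?_ ?_ (fun h => ?_)
    (fun z hz h1 h2 => ?_) (fun z hz h1 h2 => ?_) (fun z hz h => ⟨?_, ?_⟩)
    (fun z hz h h1 h2 => ?_)
  · dsimp only; field_simp; ring
  · simp only [Par.Q]; field_simp; ring
  · simp only [Par.Qd]; ring
  · simp only [Par.Kd]; ring
  · exact np_q (e := s * q) hq hq2 (by linear_combination h1) (by linear_combination h2)
  · simp
  · simp only [Par.Hf, Par.G, Lf]; field_simp; ring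
  · have f : q⁻¹ + s * q * q - (1⁻¹ + s * q * 1) = (q⁻¹ - 1) * (1 - s * q ^ 2 * 1 ^ 2) := by
      field_simp; ring
    refine dm1' (by ring) (ne_of_fac h f) f ?_
    simp only [Lf]; field_simp; ring
  · have f1 : (z * q)⁻¹ + s * q * (z * q) - ((z / q)⁻¹ + s * q * (z / q))
        = (q⁻¹ - q) / z * (1 - s * q * z ^ 2) := by field_simp; ring
    have f2 : (z * q)⁻¹ + s * q * (z * q) - (z⁻¹ + s * q * z)
        = (q⁻¹ - 1) / z * (1 - s * q ^ 2 * z ^ 2) := by field_simp; ring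
    exact dm2' (ne_of_fac h1 f1) (ne_of_fac h2 f2) f1 f2 (hH z hz).symm
  · have f1 : (z / q)⁻¹ + s * q * (z / q) - ((z * q)⁻¹ + s * q * (z * q))
        = (q - q⁻¹) / z * (1 - s * q * z ^ 2) := by field_simp; ring
    have f2 : (z / q)⁻¹ + s * q * (z / q) - (z⁻¹ + s * q * z)
        = (q - 1) / z * (1 - s * z ^ 2) := by field_simp; ring
    refine dm2 (ne_of_fac h1.symm f1) (ne_of_fac h2 f2) hq f1 f2 ?_
    simp only [Par.Hf, Par.G, Lf]; field_simp; ring
  · simp only [h]; simp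
  · rw [hH z hz, h]; simp
  · have f2 : (z / q)⁻¹ + s * q * (z / q) - (z⁻¹ + s * q * z)
        = (q - 1) / z * (1 - s * z ^ 2) := by field_simp; ring
    have hd : a = (q * z)⁻¹ := by field_simp; linear_combination -h
    refine dm1 ?_ (ne_of_fac h2 f2) hq f2 ?_
    · rw [hd]; field_simp
    · rw [hd]; simp only [Lf]; field_simp; ring

theorem np_z {q : K} (hq2 : q ^ 2 ≠ 1) (h2 : q ^ 2 = 1) : False := hq2 h2

theorem sing_z {q z : K} (hq : q ≠ 0) (hq2 : q ^ 2 ≠ 1) (hz : z ≠ 0) (h : z * q = z / q) :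
    False := by
  field_simp at h
  exact hq2 h

theorem qm_H (q c e z : K) (hq : q ≠ 0) (hz : z ≠ 0) :
    (qMeixner q c e).par.Hf 1 q⁻¹ ((q - 1) * ((1 - c) / q - e)) z (z * q)
    = -(c + e * q * z) * (q - q⁻¹) * (q - 1) / q := by
  simp only [qMeixner, qk, kls, Par.Hf, Par.G, Lf]
  field_simp
  ring

theorem qm_kls {q : K} (c e : K) (hq : q ≠ 0) (hq2 : q ^ 2 ≠ 1) :
    (qMeixner q c e).IsKls 1 q⁻¹ ((q - 1) * ((1 - c) / q - e)) := by
  have hH := fun z hz => qm_H q c e z hq hz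
  simp only [qMeixner, qk, kls] at hH
  unfold qMeixner
  refine alg_q hq (fun z hz => ?_) ?_ ?_ ?_ (fun h1 h2 => hq2 h2) ?_ ?_ (fun h => ?_)
    (fun z hz h1 h2 => ?_) (fun z hz h1 h2 => ?_) (fun z hz h => ⟨?_, ?_⟩)
    (fun z hz h h1 h2 => (sing_z hq hq2 hz h1).elim)
  · dsimp only; field_simp; ring
  · simp only [Par.Q]; field_simp; ring
  · simp only [Par.Qd]; field_simp; ring
  · simp only [Par.Kd]; field_simp; ring
  · simp
  · simp only [Par.Hf, Par.G, Lf]; field_simp; ring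
  · simp only [Lf]; field_simp; ring
  · rw [hH z hz]; field_simp
  · simp only [Par.Hf, Par.G, Lf]; field_simp; ring
  · simp only [h]; simp
  · rw [hH z hz, h]; simp

theorem ql_H (q a z : K) (hq : q ≠ 0) (hz : z ≠ 0) :
    (qLaguerre q a).par.Hf 0 0 ((q - 1) * (a - q⁻¹)) z (z * q)
    = -(1 - a * q * z) * (q - q⁻¹) * (q - 1) / q := by
  simp only [qLaguerre, qk, kls, Par.Hf, Par.G, Lf]
  field_simp
  ring

theorem ql_kls {q : K} (a : K) (hq : q ≠ 0) (hq2 : q ^ 2 ≠ 1) :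
    (qLaguerre q a).IsKls 0 0 ((q - 1) * (a - q⁻¹)) := by
  have hH := fun z hz => ql_H q a z hq hz
  simp only [qLaguerre, qk, kls] at hH
  unfold qLaguerre
  refine alg_q hq (fun z hz => ?_) ?_ ?_ ?_ (fun h1 h2 => hq2 h2) ?_ ?_ (fun h => ?_)
    (fun z hz h1 h2 => ?_) (fun z hz h1 h2 => ?_) (fun z hz h => ⟨?_, ?_⟩)
    (fun z hz h h1 h2 => (sing_z hq hq2 hz h1).elim)
  · dsimp only; field_simp; ring
  · simp only [Par.Q]; field_simp; ring
  · simp only [Par.Qd]; ring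
  · simp only [Par.Kd]; ring
  · simp
  · simp only [Par.Hf, Par.G, Lf]; field_simp; ring
  · simp only [Lf]; field_simp; ring
  · rw [hH z hz]; field_simp
  · simp only [Par.Hf, Par.G, Lf]; field_simp; ring
  · simp only [h]; simp
  · rw [hH z hz, h]; simp

end Pool.Agent.P.MP_af5c07_al
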