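import Mathlib
import Pool.Agent.P.MP_af5c07_al.AskAlgQ

/-!
The local identities for the families with `β = 2`.
-/

set_option linter.unusedSectionVars false
set_option linter.unusedVariables false

namespace Pool.Agent.P.MP_af5c07_al

variable {K : Type*} [Field K]

theorem alg_n {p : Par K} {θ θ1 κ : K} {adm : Prop} {t A C cut : K → K}
    (hrec : ∀ n, t (n + 1) + t (n - 1) = p.β * t n + p.γs)
    (con : p.Q (t 0) (t 1) = 0) (dual : p.Qd θ θ1 = 0) (kap : p.Kd θ θ1 κ = 0)
    (np : t (-1) = t 1 → t 2 = t 0 → False) (C0 : C 0 = 0)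
    (H0 : p.Hf θ θ1 κ (t 0) (t (-1)) = 0) (A0 : t 1 ≠ t 0 → A 0 * (t 1 - t 0) = Lf θ θ1 κ (t 0))
    (hA : ∀ n, t (n + 1) ≠ t (n - 1) → t (n + 1) ≠ t n →
      A n * (t (n + 1) - t (n - 1)) * (t (n + 1) - t n) = p.Hf θ θ1 κ (t n) (t (n + 1)))
    (hC : ∀ n, t (n + 1) ≠ t (n - 1) → t (n - 1) ≠ t n →
      C n * (t (n - 1) - t (n + 1)) * (t (n - 1) - t n) = p.Hf θ θ1 κ (t n) (t (n - 1)))
    (cA : ∀ n, cut n = 0 → A n = 0 ∧ p.Hf θ θ1 κ (t n) (t (n + 1)) = 0)
    (cC : ∀ n, cut n = 0 → t (n + 1) = t (n - 1) → t (n - 1) ≠ t n →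
      C n * (t (n - 1) - t n) = Lf θ θ1 κ (t n)) :
    (nk p θ t A C cut adm).IsKls θ θ1 κ := by
  apply Alg.isKls
  refine ⟨fun n => ?_, by simpa using con, dual, kap, fun h => np ?_ ?_, by simpa using C0,
    by simpa using H0, by simpa using A0, fun n => ?_, fun n => ?_, fun n => ?_, fun n => ?_⟩
  · push_cast; exact hrec _
  · simpa using h.1
  · simpa using h.2
  · push_cast; exact hA _
  · push_cast; exact hC _
  · push_cast; exact cA _
  · push_cast; exact cC _

theorem np_quad {s : K} (h2 : (2 : K) ≠ 0) (h : -1 * (-1 + s) = 1 * (1 + s))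
    (h' : 2 * (2 + s) = 0 * (0 + s)) : False := by
  have h4 : (2 : K) * 2 ≠ 0 := mul_ne_zero h2 h2
  exact h4 (by linear_combination h' + h)

theorem sing_n {n : K} (h2 : (2 : K) ≠ 0) (h : n + 1 = n - 1) : False :=
  h2 (by linear_combination h)

theorem wil_H (a b c d n : K) :
    (wilson a b c d).par.Hf (a ^ 2) ((a + 1) ^ 2) ((a + b) * (a + c) * (a + d))
      (n * (n + a + b + c + d - 1)) ((n + 1) * (n + 1 + a + b + c + d - 1))
    = (n + a + b) * (n + a + c) * (n + a + d) * (n + a + b + c + d - 1) * 2 * 1 := by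
  simp only [wilson, nk, kls, Par.Hf, Par.G, Lf]
  ring

theorem wil_kls (a b c d : K) (h2 : (2 : K) ≠ 0) :
    (wilson a b c d).IsKls (a ^ 2) ((a + 1) ^ 2) ((a + b) * (a + c) * (a + d)) := by
  have hH := fun n => wil_H a b c d n
  simp only [wilson, nk, kls] at hH
  unfold wilson
  refine alg_n (fun n => ?_) ?_ ?_ ?_ (fun h1 h3 => ?_) ?_ ?_ (fun h => ?_)
    (fun n h1 h3 => ?_) (fun n h1 h3 => ?_) (fun n h => ⟨?_, ?_⟩) (fun n h h1 h3 => ?_)
  · dsimp only; ring
  · simp only [Par.Q]; ring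
  · simp only [Par.Qd]; ring
  · simp only [Par.Kd]; ring
  · exact np_quad (s := a + b + c + d - 1) h2 (by linear_combination h1) (by linear_combination h3)
  · simp
  · simp only [Par.Hf, Par.G, Lf]; ring
  · have f : 1 * (1 + a + b + c + d - 1) - 0 * (0 + a + b + c + d - 1) = 1 * (2 * 0 + a + b + c + d) := by ring
    refine dm1' (by ring) (ne_of_fac h f) f ?_
    simp only [Lf]; ring
  · have f1 : (n + 1) * (n + 1 + a + b + c + d - 1) - (n - 1) * (n - 1 + a + b + c + d - 1) = 2 * (2 * n + a + b + c + d - 1) := by ring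
    have f2 : (n + 1) * (n + 1 + a + b + c + d - 1) - n * (n + a + b + c + d - 1) = 1 * (2 * n + a + b + c + d) := by ring
    exact dm2' (ne_of_fac h1 f1) (ne_of_fac h3 f2) f1 f2 (hH n).symm
  · have f1 : (n - 1) * (n - 1 + a + b + c + d - 1) - (n + 1) * (n + 1 + a + b + c + d - 1) = -2 * (2 * n + a + b + c + d - 1) := by ring
    have f2 : (n - 1) * (n - 1 + a + b + c + d - 1) - n * (n + a + b + c + d - 1) = -1 * (2 * n + a + b + c + d - 2) := by ring
    refine dm2' (ne_of_fac h1.symm f1) (ne_of_fac h3 f2) f1 f2 ?_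
    simp only [Par.Hf, Par.G, Lf]; ring
  · simp only [h]; simp
  · rw [hH n, h]; simp
  · have f2 : (n - 1) * (n - 1 + a + b + c + d - 1) - n * (n + a + b + c + d - 1) = -1 * (2 * n + a + b + c + d - 2) := by ring
    have hd : d = -n - a := by linear_combination h
    refine dm1' ?_ (ne_of_fac h3 f2) f2 ?_
    · rw [hd]; ring
    · rw [hd]; simp only [Lf]; ring

theorem ch_H (a b c d n : K) :
    (contHahn a b c d).par.Hf (-a) (-a - 1) (-(a + c) * (a + d))
      (n * (n + a + b + c + d - 1)) ((n + 1) * (n + 1 + a + b + c + d - 1))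
    = -(n + a + c) * (n + a + d) * (n + a + b + c + d - 1) * 2 * 1 := by
  simp only [contHahn, nk, kls, Par.Hf, Par.G, Lf]
  ring

theorem ch_kls (a b c d : K) (h2 : (2 : K) ≠ 0) :
    (contHahn a b c d).IsKls (-a) (-a - 1) (-(a + c) * (a + d)) := by
  have hH := fun n => ch_H a b c d n
  simp only [contHahn, nk, kls] at hH
  unfold contHahn
  refine alg_n (fun n => ?_) ?_ ?_ ?_ (fun h1 h3 => ?_) ?_ ?_ (fun h => ?_)
    (fun n h1 h3 => ?_) (fun n h1 h3 => ?_) (fun n h => ⟨?_, ?_⟩) (fun n h h1 h3 => ?_)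
  · dsimp only; ring
  · simp only [Par.Q]; ring
  · simp only [Par.Qd]; ring
  · simp only [Par.Kd]; ring
  · exact np_quad (s := a + b + c + d - 1) h2 (by linear_combination h1) (by linear_combination h3)
  · simp
  · simp only [Par.Hf, Par.G, Lf]; ring
  · have f : 1 * (1 + a + b + c + d - 1) - 0 * (0 + a + b + c + d - 1) = 1 * (2 * 0 + a + b + c + d) := by ring
    refine dm1' (by ring) (ne_of_fac h f) f ?_
    simp only [Lf]; ring
  · have f1 : (n + 1) * (n + 1 + a + b + c + d - 1) - (n - 1) * (n - 1 + a + b + c + d - 1) = 2 * (2 * n + a + b + c + d - 1) := by ring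
    have f2 : (n + 1) * (n + 1 + a + b + c + d - 1) - n * (n + a + b + c + d - 1) = 1 * (2 * n + a + b + c + d) := by ring
    exact dm2' (ne_of_fac h1 f1) (ne_of_fac h3 f2) f1 f2 (hH n).symm
  · have f1 : (n - 1) * (n - 1 + a + b + c + d - 1) - (n + 1) * (n + 1 + a + b + c + d - 1) = -2 * (2 * n + a + b + c + d - 1) := by ring
    have f2 : (n - 1) * (n - 1 + a + b + c + d - 1) - n * (n + a + b + c + d - 1) = -1 * (2 * n + a + b + c + d - 2) := by ring
    refine dm2' (ne_of_fac h1.symm f1) (ne_of_fac h3 f2) f1 f2 ?_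
    simp only [Par.Hf, Par.G, Lf]; ring
  · simp only [h]; simp
  · rw [hH n, h]; simp
  · have f2 : (n - 1) * (n - 1 + a + b + c + d - 1) - n * (n + a + b + c + d - 1) = -1 * (2 * n + a + b + c + d - 2) := by ring
    have hd : d = -n - a := by linear_combination h
    refine dm1' ?_ (ne_of_fac h3 f2) f2 ?_
    · rw [hd]; ring
    · rw [hd]; simp only [Lf]; ring

theorem jac_H (a b n : K) :
    (jacobi a b).par.Hf (1) (1) (2 * (a + 1))
      (n * (n + a + b + 1)) ((n + 1) * (n + 1 + a + b + 1))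
    = 2 * (n + a + 1) * (n + a + b + 1) * 2 * 1 := by
  simp only [jacobi, nk, kls, Par.Hf, Par.G, Lf]
  ring

theorem jac_kls (a b : K) (h2 : (2 : K) ≠ 0) :
    (jacobi a b).IsKls (1) (1) (2 * (a + 1)) := by
  have hH := fun n => jac_H a b n
  simp only [jacobi, nk, kls] at hH
  unfold jacobi
  refine alg_n (fun n => ?_) ?_ ?_ ?_ (fun h1 h3 => ?_) ?_ ?_ (fun h => ?_)
    (fun n h1 h3 => ?_) (fun n h1 h3 => ?_) (fun n h => ⟨?_, ?_⟩) (fun n h h1 h3 => ?_)
  · dsimp only; ring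
  · simp only [Par.Q]; ring
  · simp only [Par.Qd]; ring
  · simp only [Par.Kd]; ring
  · exact np_quad (s := a + b + 1) h2 (by linear_combination h1) (by linear_combination h3)
  · simp
  · simp only [Par.Hf, Par.G, Lf]; ring
  · have f : 1 * (1 + a + b + 1) - 0 * (0 + a + b + 1) = 1 * (2 * 0 + a + b + 2) := by ring
    refine dm1' (by ring) (ne_of_fac h f) f ?_
    simp only [Lf]; ring
  · have f1 : (n + 1) * (n + 1 + a + b + 1) - (n - 1) * (n - 1 + a + b + 1) = 2 * (2 * n + a + b + 1) := by ring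
    have f2 : (n + 1) * (n + 1 + a + b + 1) - n * (n + a + b + 1) = 1 * (2 * n + a + b + 2) := by ring
    exact dm2' (ne_of_fac h1 f1) (ne_of_fac h3 f2) f1 f2 (hH n).symm
  · have f1 : (n - 1) * (n - 1 + a + b + 1) - (n + 1) * (n + 1 + a + b + 1) = -2 * (2 * n + a + b + 1) := by ring
    have f2 : (n - 1) * (n - 1 + a + b + 1) - n * (n + a + b + 1) = -1 * (2 * n + a + b) := by ring
    refine dm2' (ne_of_fac h1.symm f1) (ne_of_fac h3 f2) f1 f2 ?_
    simp only [Par.Hf, Par.G, Lf]; ring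
  · simp only [h]; simp
  · rw [hH n, h]; simp
  · have f2 : (n - 1) * (n - 1 + a + b + 1) - n * (n + a + b + 1) = -1 * (2 * n + a + b) := by ring
    have hd : a = -n - 1 := by linear_combination h
    refine dm1' ?_ (ne_of_fac h3 f2) f2 ?_
    · rw [hd]; ring
    · rw [hd]; simp only [Lf]; ring

theorem bes_H (a n : K) :
    (bessel a).par.Hf (0) (0) (2)
      (n * (n + a + 1)) ((n + 1) * (n + 1 + a + 1))
    = 2 * (n + a + 1) * 2 * 1 := by
  simp only [bessel, nk, kls, Par.Hf, Par.G, Lf]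
  ring

theorem bes_kls (a : K) (h2 : (2 : K) ≠ 0) :
    (bessel a).IsKls (0) (0) (2) := by
  have hH := fun n => bes_H a n
  simp only [bessel, nk, kls] at hH
  unfold bessel
  refine alg_n (fun n => ?_) ?_ ?_ ?_ (fun h1 h3 => ?_) ?_ ?_ (fun h => ?_)
    (fun n h1 h3 => ?_) (fun n h1 h3 => ?_) (fun n h => (one_ne_zero h).elim) (fun n h h1 h3 => (one_ne_zero h).elim)
  · dsimp only; ring
  · simp only [Par.Q]; ring
  · simp only [Par.Qd]; ring
  · simp only [Par.Kd]; ring
  · exact np_quad (s := a + 1) h2 (by linear_combination h1) (by linear_combination h3)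
  · simp
  · simp only [Par.Hf, Par.G, Lf]; ring
  · have f : 1 * (1 + a + 1) - 0 * (0 + a + 1) = 1 * (2 * 0 + a + 2) := by ring
    refine dm1' (by ring) (ne_of_fac h f) f ?_
    simp only [Lf]; ring
  · have f1 : (n + 1) * (n + 1 + a + 1) - (n - 1) * (n - 1 + a + 1) = 2 * (2 * n + a + 1) := by ring
    have f2 : (n + 1) * (n + 1 + a + 1) - n * (n + a + 1) = 1 * (2 * n + a + 2) := by ring
    exact dm2' (ne_of_fac h1 f1) (ne_of_fac h3 f2) f1 f2 (hH n).symm
  · have f1 : (n - 1) * (n - 1 + a + 1) - (n + 1) * (n + 1 + a + 1) = -2 * (2 * n + a + 1) := by ring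
    have f2 : (n - 1) * (n - 1 + a + 1) - n * (n + a + 1) = -1 * (2 * n + a) := by ring
    have g1 := ne_of_fac h1.symm f1
    have g2 := ne_of_fac h3 f2
    have g3 : -2 * n / ((2 * n + a) * (2 * n + a + 1)) * (-2 * (2 * n + a + 1)) * (-1 * (2 * n + a))
        = -4 * n := by
      generalize 2 * n + a + 1 = y at *
      generalize 2 * n + a = x at *
      field_simp; ring
    rw [f1, f2, g3]
    simp only [Par.Hf, Par.G, Lf]; ring

theorem cdh_H (a b c n : K) :
    (contDualHahn a b c).par.Hf (a ^ 2) ((a + 1) ^ 2) ((a + b) * (a + c)) n (n + 1) = (n + a + b) * (n + a + c) * 2 := by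
  simp only [contDualHahn, nk, kls, Par.Hf, Par.G, Lf]
  ring

theorem cdh_kls (a b c : K) (h2 : (2 : K) ≠ 0) :
    (contDualHahn a b c).IsKls (a ^ 2) ((a + 1) ^ 2) ((a + b) * (a + c)) := by
  have hH := fun n => cdh_H a b c n
  simp only [contDualHahn, nk, kls] at hH
  unfold contDualHahn
  refine alg_n (fun n => ?_) ?_ ?_ ?_ (fun h1 h3 => h2 h3) ?_ ?_ (fun h => ?_)
    (fun n h1 h3 => ?_) (fun n h1 h3 => ?_) (fun n h => ⟨?_, ?_⟩)
    (fun n h h1 h3 => (sing_n h2 h1).elim)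
  · dsimp only; ring
  · simp only [Par.Q]; ring
  · simp only [Par.Qd]; ring
  · simp only [Par.Kd]; ring
  · simp
  · simp only [Par.Hf, Par.G, Lf]; ring
  · simp only [Lf]; ring
  · rw [hH n]; ring
  · simp only [Par.Hf, Par.G, Lf]; ring
  · simp only [h]; simp
  · rw [hH n, h]; simp

theorem mei_H (b c n : K) (hc : c - 1 ≠ 0) :
    (meixner b c).par.Hf (0) (1) (b * c / (c - 1)) n (n + 1) = c * (n + b) / (c - 1) * 2 := by
  simp only [meixner, nk, kls, Par.Hf, Par.G, Lf]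
  field_simp; ring

theorem mei_kls (b c : K) (h2 : (2 : K) ≠ 0) (hc : c - 1 ≠ 0) :
    (meixner b c).IsKls (0) (1) (b * c / (c - 1)) := by
  have hH := fun n => mei_H b c n hc
  simp only [meixner, nk, kls] at hH
  unfold meixner
  refine alg_n (fun n => ?_) ?_ ?_ ?_ (fun h1 h3 => h2 h3) ?_ ?_ (fun h => ?_)
    (fun n h1 h3 => ?_) (fun n h1 h3 => ?_) (fun n h => ⟨?_, ?_⟩)
    (fun n h h1 h3 => (sing_n h2 h1).elim)
  · dsimp only; ring
  · simp only [Par.Q]; ring
  · simp only [Par.Qd]; ring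
  · simp only [Par.Kd]; ring
  · simp
  · simp only [Par.Hf, Par.G, Lf]; ring
  · simp only [Lf]; ring
  · rw [hH n]; ring
  · simp only [Par.Hf, Par.G, Lf]; field_simp; ring
  · simp only [h]; simp
  · rw [hH n, h]; simp

theorem cha_H (a n : K) :
    (charlier a).par.Hf (0) (1) (-a) n (n + 1) = -a * 2 := by
  simp only [charlier, nk, kls, Par.Hf, Par.G, Lf]
  ring

theorem cha_kls (a : K) (h2 : (2 : K) ≠ 0) :
    (charlier a).IsKls (0) (1) (-a) := by
  have hH := fun n => cha_H a n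
  simp only [charlier, nk, kls] at hH
  unfold charlier
  refine alg_n (fun n => ?_) ?_ ?_ ?_ (fun h1 h3 => h2 h3) ?_ ?_ (fun h => ?_)
    (fun n h1 h3 => ?_) (fun n h1 h3 => ?_) (fun n h => (one_ne_zero h).elim)
    (fun n h h1 h3 => (sing_n h2 h1).elim)
  · dsimp only; ring
  · simp only [Par.Q]; ring
  · simp only [Par.Qd]; ring
  · simp only [Par.Kd]; ring
  · simp
  · simp only [Par.Hf, Par.G, Lf]; ring
  · simp only [Lf]; ring
  · rw [hH n]; ring
  · simp only [Par.Hf, Par.G, Lf]; ring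

theorem lag_H (a n : K) :
    (laguerre a).par.Hf (0) (0) (-(a + 1)) n (n + 1) = -(n + a + 1) * 2 := by
  simp only [laguerre, nk, kls, Par.Hf, Par.G, Lf]
  ring

theorem lag_kls (a : K) (h2 : (2 : K) ≠ 0) :
    (laguerre a).IsKls (0) (0) (-(a + 1)) := by
  have hH := fun n => lag_H a n
  simp only [laguerre, nk, kls] at hH
  unfold laguerre
  refine alg_n (fun n => ?_) ?_ ?_ ?_ (fun h1 h3 => h2 h3) ?_ ?_ (fun h => ?_)
    (fun n h1 h3 => ?_) (fun n h1 h3 => ?_) (fun n h => ⟨?_, ?_⟩)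
    (fun n h h1 h3 => (sing_n h2 h1).elim)
  · dsimp only; ring
  · simp only [Par.Q]; ring
  · simp only [Par.Qd]; ring
  · simp only [Par.Kd]; ring
  · simp
  · simp only [Par.Hf, Par.G, Lf]; ring
  · simp only [Lf]; ring
  · rw [hH n]; ring
  · simp only [Par.Hf, Par.G, Lf]; ring
  · simp only [h]; simp
  · rw [hH n, h]; simp

end Pool.Agent.P.MP_af5c07_al
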