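import Mathlib
import Pool.Agent.P.MP_af5c07_al.AskAlgN

/-!
The local identities for the families with `β = -2`.
-/

set_option linter.unusedSectionVars false
set_option linter.unusedVariables false

namespace Pool.Agent.P.MP_af5c07_al

variable {K : Type*} [Field K]

theorem eo_even (f g : K → K) {n : ℤ} (h : Even n) : eo f g n = f n := if_pos h

theorem eo_odd (f g : K → K) {n : ℤ} (h : ¬ Even n) : eo f g n = g n := if_neg h

theorem eo_three (f g : K → K) (n : ℤ) :
    (Even n ∧ eo f g (n + 1) = g (n + 1) ∧ eo f g (n - 1) = g (n - 1)) ∨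
    (¬ Even n ∧ eo f g (n + 1) = f (n + 1) ∧ eo f g (n - 1) = f (n - 1)) := by
  by_cases h : Even n
  · refine Or.inl ⟨h, ?_, ?_⟩
    · rw [eo_odd f g (by simpa [Int.even_add_one] using h)]; push_cast; rfl
    · rw [eo_odd f g (by simpa [Int.even_sub_one] using h)]; push_cast; rfl
  · refine Or.inr ⟨h, ?_, ?_⟩
    · rw [eo_even f g (by simpa [Int.even_add_one] using h)]; push_cast; rfl
    · rw [eo_even f g (by simpa [Int.even_sub_one] using h)]; push_cast; rfl

theorem dm0 {P D c1 c2 y E1 E2 H : K} (h : D ≠ 0) (hy : y ≠ 0) (e1 : E1 = c1) (e2 : E2 = c2 * D)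
    (hH : P * c1 * c2 / y = H) : P / (y * D) * E1 * E2 = H := by
  rw [e1, e2, ← hH]; field_simp

/-- Eigenvalues `(-1) ^ n (n + g + 1/2)`. -/
theorem alg_eo {p : Par K} {θ θ1 κ g y : K} {adm : Prop} {A0 A1 C0 C1 c0 c1 : K → K}
    (h2 : (2 : K) ≠ 0) (hy : y ≠ 0) (hβ : p.β = -2) (hγ : p.γs = 0) (hρ : p.ρs = 1)
    (dual : p.Qd θ θ1 = 0) (kap : p.Kd θ θ1 κ = 0) (hC0 : C0 0 = 0)
    (hA0 : A0 0 * (-2) / y = Lf θ θ1 κ (g + 1 / 2))
    (e1 : ∀ n, A0 n * (-2) * (-2) / y
      = p.Hf θ θ1 κ (n + g + 1 / 2) (-(n + 1 + g + 1 / 2)))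
    (e2 : ∀ n, A1 n * 2 * 2 / y = p.Hf θ θ1 κ (-(n + g + 1 / 2)) (n + 1 + g + 1 / 2))
    (e3 : ∀ n, C0 n * 2 * (-2) / y = p.Hf θ θ1 κ (n + g + 1 / 2) (-(n - 1 + g + 1 / 2)))
    (e4 : ∀ n, C1 n * (-2) * 2 / y = p.Hf θ θ1 κ (-(n + g + 1 / 2)) (n - 1 + g + 1 / 2))
    (k0 : ∀ n, c0 n = 0 → A0 n = 0) (k1 : ∀ n, c1 n = 0 → A1 n = 0) :
    (kls p θ (eo (fun n => n + g + 1 / 2) (fun n => -(n + g + 1 / 2)))
      (eo (fun n => A0 n / (y * (n + g + 1))) (fun n => A1 n / (y * (n + g + 1))))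
      (eo (fun n => C0 n / (y * (n + g))) (fun n => C1 n / (y * (n + g)))) (eo c0 c1) adm).IsKls
      θ θ1 κ := by
  apply Alg.isKls
  have hh : (2 : K) * (1 / 2) = 1 := by field_simp
  have t0 : eo (fun n : K => n + g + 1 / 2) (fun n => -(n + g + 1 / 2)) 0 = g + 1 / 2 := by
    rw [eo_even _ _ (by decide)]; simp
  have t1 : eo (fun n : K => n + g + 1 / 2) (fun n => -(n + g + 1 / 2)) 1 = -(1 + g + 1 / 2) := by
    rw [eo_odd _ _ (by decide)]; simp
  have t2 : eo (fun n : K => n + g + 1 / 2) (fun n => -(n + g + 1 / 2)) 2 = 2 + g + 1 / 2 := by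
    rw [eo_even _ _ (by decide)]; simp
  have tm : eo (fun n : K => n + g + 1 / 2) (fun n => -(n + g + 1 / 2)) (-1)
      = -(0 - 1 + g + 1 / 2) := by
    rw [eo_odd _ _ (by decide)]; simp
  refine ⟨fun n => ?_, ?_, dual, kap, fun h => ?_, ?_, ?_, fun h => ?_, fun n => ?_, fun n => ?_,
    fun n => ?_, fun n => ?_⟩
  · rcases eo_three (fun n : K => n + g + 1 / 2) (fun n => -(n + g + 1 / 2)) n with
      ⟨h, a1, a2⟩ | ⟨h, a1, a2⟩
    · rw [a1, a2, eo_even _ _ h, hβ, hγ]; ring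
    · rw [a1, a2, eo_odd _ _ h, hβ, hγ]; ring
  · rw [t0, t1]; simp only [Par.Q, hβ, hγ, hρ]; ring
  · rw [t2, t0] at h
    exact h2 (by linear_combination h.2)
  · rw [eo_even _ _ (by decide)]; simp [hC0]
  · have := e3 0
    rw [hC0, zero_add] at this
    rw [t0, tm, ← this]; simp
  · rw [t0, t1] at h ⊢
    rw [eo_even _ _ (by decide), ← hA0]
    have f : -(1 + g + 1 / 2) - (g + 1 / 2) = -2 * (g + 1) := by linear_combination -hh
    have := ne_of_fac h f
    rw [f]
    simp only [Int.cast_zero, zero_add]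
    field_simp
  · rcases eo_three (fun n : K => n + g + 1 / 2) (fun n => -(n + g + 1 / 2)) n with
      ⟨h, a1, a2⟩ | ⟨h, a1, a2⟩
    · rw [a1, a2, eo_even _ _ h, eo_even _ _ h]
      intro h1 h3
      have f : -((n : K) + 1 + g + 1 / 2) - (n + g + 1 / 2) = -2 * (n + g + 1) := by
        linear_combination -hh
      exact dm0 (ne_of_fac h3 f) hy (by ring) f (e1 n)
    · rw [a1, a2, eo_odd _ _ h, eo_odd _ _ h]
      intro h1 h3
      have f : (n : K) + 1 + g + 1 / 2 - -(n + g + 1 / 2) = 2 * (n + g + 1) := by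
        linear_combination hh
      exact dm0 (ne_of_fac h3 f) hy (by ring) f (e2 n)
  · rcases eo_three (fun n : K => n + g + 1 / 2) (fun n => -(n + g + 1 / 2)) n with
      ⟨h, a1, a2⟩ | ⟨h, a1, a2⟩
    · rw [a1, a2, eo_even _ _ h, eo_even _ _ h]
      intro h1 h3
      have f : -((n : K) - 1 + g + 1 / 2) - (n + g + 1 / 2) = -2 * (n + g) := by
        linear_combination -hh
      exact dm0 (ne_of_fac h3 f) hy (by ring) f (e3 n)
    · rw [a1, a2, eo_odd _ _ h, eo_odd _ _ h]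
      intro h1 h3
      have f : (n : K) - 1 + g + 1 / 2 - -(n + g + 1 / 2) = 2 * (n + g) := by
        linear_combination hh
      exact dm0 (ne_of_fac h3 f) hy (by ring) f (e4 n)
  · rcases eo_three (fun n : K => n + g + 1 / 2) (fun n => -(n + g + 1 / 2)) n with
      ⟨h, a1, a2⟩ | ⟨h, a1, a2⟩
    · rw [a1, eo_even _ _ h, eo_even _ _ h, eo_even _ _ h, ← e1]
      intro hc
      simp [k0 _ hc]
    · rw [a1, eo_odd _ _ h, eo_odd _ _ h, eo_odd _ _ h, ← e2]
      intro hc
      simp [k1 _ hc]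
  · rcases eo_three (fun n : K => n + g + 1 / 2) (fun n => -(n + g + 1 / 2)) n with
      ⟨h, a1, a2⟩ | ⟨h, a1, a2⟩
    · rw [a1, a2]
      intro _ h1
      exact (h2 (by linear_combination -h1)).elim
    · rw [a1, a2]
      intro _ h1
      exact (h2 (by linear_combination h1)).elim

theorem four_ne (h2 : (2 : K) ≠ 0) : (4 : K) ≠ 0 := by
  have := mul_ne_zero h2 h2
  norm_num at this ⊢
  exact this

theorem bi_H0 (a b c d n : K) (h2 : (2 : K) ≠ 0) :
    (n + 2 * a + 2 * c + 1) * (n + 2 * a + 2 * d + 1) * (-2) * (-2) / 4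
      = (bannaiIto a b c d).par.Hf a (-a - 1) (2 * a * b + b - 2 * c * d)
        (n + (a + b + c + d) + 1 / 2) (-(n + 1 + (a + b + c + d) + 1 / 2)) := by
  have h4 := four_ne h2
  simp only [bannaiIto, kls, Par.Hf, Par.G, Lf]; field_simp; ring

theorem bi_H1 (a b c d n : K) (h2 : (2 : K) ≠ 0) :
    (n + 2 * (a + b + c + d) + 1) * (n + 2 * a + 2 * b + 1) * 2 * 2 / 4
      = (bannaiIto a b c d).par.Hf a (-a - 1) (2 * a * b + b - 2 * c * d)
        (-(n + (a + b + c + d) + 1 / 2)) (n + 1 + (a + b + c + d) + 1 / 2) := by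
  have h4 := four_ne h2
  simp only [bannaiIto, kls, Par.Hf, Par.G, Lf]; field_simp; ring

theorem bi_kls (a b c d : K) (h2 : (2 : K) ≠ 0) :
    (bannaiIto a b c d).IsKls a (-a - 1) (2 * a * b + b - 2 * c * d) := by
  have h4 := four_ne h2
  refine alg_eo (A0 := fun n => (n + 2 * a + 2 * c + 1) * (n + 2 * a + 2 * d + 1))
    (A1 := fun n => (n + 2 * (a + b + c + d) + 1) * (n + 2 * a + 2 * b + 1))
    (C0 := fun n => -n * (n + 2 * c + 2 * d))
    (C1 := fun n => -(n + 2 * b + 2 * c) * (n + 2 * b + 2 * d)) h2 h4 rfl rfl rfl ?_ ?_ ?_ ?_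
    (fun n => bi_H0 a b c d n h2) (fun n => bi_H1 a b c d n h2) (fun n => ?_) (fun n => ?_)
    (fun n h => ?_) (fun n h => ?_)
  · simp only [Par.Qd]; ring
  · simp only [Par.Kd]; ring
  · simp
  · simp only [Lf]; field_simp; ring
  · simp only [Par.Hf, Par.G, Lf]; field_simp; ring
  · simp only [Par.Hf, Par.G, Lf]; field_simp; ring
  · simp only [h, mul_zero]
  · simp only [h, mul_zero]

theorem mj_H0 (g e f r n : K) (h2 : (2 : K) ≠ 0) :
    (e * (n + g + 1) + r) * (-2) * (-2) / 2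
      = (minusOneJacobi g e f r).par.Hf ((e + f) / 2) (-((e + f) / 2)) ((f - e) / 2 + f * g - r)
        (n + g + 1 / 2) (-(n + 1 + g + 1 / 2)) := by
  simp only [minusOneJacobi, kls, Par.Hf, Par.G, Lf]; field_simp; ring

theorem mj_H1 (g e f r n : K) (h2 : (2 : K) ≠ 0) :
    f * (n + 2 * g + 1) * 2 * 2 / 2
      = (minusOneJacobi g e f r).par.Hf ((e + f) / 2) (-((e + f) / 2)) ((f - e) / 2 + f * g - r)
        (-(n + g + 1 / 2)) (n + 1 + g + 1 / 2) := by
  simp only [minusOneJacobi, kls, Par.Hf, Par.G, Lf]; field_simp; ring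

theorem mj_kls (g e f r : K) (h2 : (2 : K) ≠ 0) :
    (minusOneJacobi g e f r).IsKls ((e + f) / 2) (-((e + f) / 2)) ((f - e) / 2 + f * g - r) := by
  refine alg_eo (A0 := fun n => e * (n + g + 1) + r) (A1 := fun n => f * (n + 2 * g + 1))
    (C0 := fun n => f * n) (C1 := fun n => e * (n + g) - r) h2 h2 rfl rfl rfl ?_ ?_ ?_ ?_
    (fun n => mj_H0 g e f r n h2) (fun n => mj_H1 g e f r n h2) (fun n => ?_) (fun n => ?_)
    (fun n h => ?_) (fun n h => ?_)
  · simp only [Par.Qd]; ring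
  · simp only [Par.Kd]; field_simp; ring
  · simp
  · simp only [Lf]; field_simp; ring
  · simp only [Par.Hf, Par.G, Lf]; field_simp; ring
  · simp only [Par.Hf, Par.G, Lf]; field_simp; ring
  · exact h
  · simp only [h, zero_mul]

theorem eoh_even (f g : K → K) (m : ℤ) : eoh f g (2 * m) = f m := by
  unfold eoh
  rw [if_pos (even_two_mul m), show 2 * m / 2 = m by omega]

theorem eoh_odd (f g : K → K) (m : ℤ) : eoh f g (2 * m + 1) = g m := by
  unfold eoh
  rw [if_neg (by simp), show (2 * m + 1) / 2 = m by omega]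

theorem eoh_cases (n : ℤ) : ∃ m : ℤ,
    (∀ f g : K → K, eoh f g n = f m ∧ eoh f g (n + 1) = g m ∧ eoh f g (n - 1) = g (m - 1)) ∨
    (∀ f g : K → K, eoh f g n = g m ∧ eoh f g (n + 1) = f (m + 1) ∧ eoh f g (n - 1) = f m) := by
  obtain ⟨m, rfl | rfl⟩ := Int.even_or_odd' n
  · refine ⟨m, Or.inl fun f g => ⟨eoh_even f g m, eoh_odd f g m, ?_⟩⟩
    rw [show 2 * m - 1 = 2 * (m - 1) + 1 by ring, eoh_odd]; push_cast; rfl
  · refine ⟨m, Or.inr fun f g => ⟨eoh_odd f g m, ?_, ?_⟩⟩
    · rw [show 2 * m + 1 + 1 = 2 * (m + 1) by ring, eoh_even]; push_cast; rfl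
    · rw [show 2 * m + 1 - 1 = 2 * m by ring, eoh_even]

theorem cast_two (h2 : (2 : K) = 0) (m : ℤ) : (m : K) = 0 ∨ (m : K) = 1 := by
  obtain ⟨k, rfl | rfl⟩ := Int.even_or_odd' m
  · left; push_cast; rw [h2]; ring
  · right; push_cast; rw [h2]; ring

theorem or_H0 (s g r k w m : K) (h2 : (2 : K) = 0) (hm : m = 0 ∨ m = 1) :
    (orphan s g r k w).par.Hf 0 r k m (m + s) = k + m * (w + r + g * (1 + s)) := by
  simp only [orphan, kls, Par.Hf, Par.G, Lf]
  rcases hm with rfl | rfl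
  · linear_combination (k * s) * h2
  · linear_combination (k * s + r * s) * h2

theorem or_H1 (s g r k w m : K) (h2 : (2 : K) = 0) (hm : m = 0 ∨ m = 1) :
    (orphan s g r k w).par.Hf 0 r k (m + s) (m + 1) = (m + s) * (w + g * m) := by
  simp only [orphan, kls, Par.Hf, Par.G, Lf]
  rcases hm with rfl | rfl
  · linear_combination (k + r * s + g * s ^ 2) * h2
  · linear_combination (k + r + r * s + g * s + g * s ^ 2) * h2

theorem or_H2 (s g r k w m : K) (h2 : (2 : K) = 0) (hm : m = 0 ∨ m = 1) :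
    (orphan s g r k w).par.Hf 0 r k m (m - 1 + s) = m * (w + g * (1 + s)) := by
  simp only [orphan, kls, Par.Hf, Par.G, Lf]
  rcases hm with rfl | rfl
  · linear_combination (k * s) * h2
  · linear_combination (k * s + r * s) * h2

theorem or_H3 (s g r k w m : K) (h2 : (2 : K) = 0) (hm : m = 0 ∨ m = 1) :
    (orphan s g r k w).par.Hf 0 r k (m + s) m = k + (m + s) * (w + r + g * m) := by
  simp only [orphan, kls, Par.Hf, Par.G, Lf]
  rcases hm with rfl | rfl
  · linear_combination (g * s ^ 2) * h2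
  · linear_combination (g * s + g * s ^ 2) * h2

theorem or_kls (s g r k w : K) (h2 : (2 : K) = 0) : (orphan s g r k w).IsKls 0 r k := by
  have H0 := fun m hm => or_H0 s g r k w m h2 hm
  have H1 := fun m hm => or_H1 s g r k w m h2 hm
  have H2 := fun m hm => or_H2 s g r k w m h2 hm
  have H3 := fun m hm => or_H3 s g r k w m h2 hm
  simp only [orphan, kls] at H0 H1 H2 H3
  unfold orphan
  apply Alg.isKls
  have t0 : ∀ f g : K → K, eoh f g 0 = f 0 := fun f g => by simpa using eoh_even f g 0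
  have t1 : ∀ f g : K → K, eoh f g 1 = g 0 := fun f g => by simpa using eoh_odd f g 0
  have t2 : ∀ f g : K → K, eoh f g 2 = f 1 := fun f g => by simpa using eoh_even f g 1
  have tm : ∀ f g : K → K, eoh f g (-1) = g (0 - 1) := fun f g => by
    simpa using eoh_odd f g (-1)
  refine ⟨fun n => ?_, ?_, ?_, ?_, fun h => ?_, ?_, ?_, fun h => ?_, fun n => ?_, fun n => ?_,
    fun n => ?_, fun n => ?_⟩
  · obtain ⟨m, h | h⟩ := eoh_cases (K := K) n
    · rw [(h _ _).2.1, (h _ _).2.2]; dsimp only; linear_combination (m + s - 1) * h2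
    · rw [(h _ _).2.1, (h _ _).2.2]; dsimp only; linear_combination (m : K) * h2
  · rw [t0, t1]; simp only [Par.Q]; linear_combination -s * h2
  · simp only [Par.Qd]; linear_combination -g * r * h2
  · simp only [Par.Kd]; linear_combination -k * g * h2
  · have := h.2
    rw [t2, t0] at this
    exact one_ne_zero this
  · rw [t0]; simp
  · rw [t0, tm, H2 0 (Or.inl rfl)]; simp
  · rw [t0, t1] at h
    rw [t0, t0, t1]
    have hs : s ≠ 0 := by simpa using h
    simp only [Lf]; field_simp; ring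
  · obtain ⟨m, h | h⟩ := eoh_cases (K := K) n
    · rw [(h _ _).2.1, (h _ _).2.2, (h _ _).1, (h _ _).1, H0 _ (cast_two h2 m)]
      intro _ h3
      have hs : s ≠ 0 := by simpa using h3
      field_simp; ring
    · rw [(h _ _).2.1, (h _ _).2.2, (h _ _).1, (h _ _).1, H1 _ (cast_two h2 m)]
      intro _ h3
      have f : (m : K) + 1 - (m + s) = 1 * (1 + s) := by linear_combination -s * h2
      have hs := ne_of_fac h3 f
      rw [f]
      field_simp; ring
  · obtain ⟨m, h | h⟩ := eoh_cases (K := K) n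
    · rw [(h _ _).2.1, (h _ _).2.2, (h _ _).1, (h _ _).1, H2 _ (cast_two h2 m)]
      intro _ h3
      have f : (m : K) - 1 + s - m = 1 * (1 + s) := by linear_combination -h2
      have f' : (m : K) - 1 + s - (m + s) = 1 := by linear_combination -h2
      have hs := ne_of_fac h3 f
      rw [f, f']
      field_simp
    · rw [(h _ _).2.1, (h _ _).2.2, (h _ _).1, (h _ _).1, H3 _ (cast_two h2 m)]
      intro _ h3
      have hs : s ≠ 0 := by simpa using h3
      field_simp; ring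
  · obtain ⟨m, h | h⟩ := eoh_cases (K := K) n
    · rw [(h _ _).2.1, (h _ _).1, (h _ _).1, (h _ _).1, H0 _ (cast_two h2 m)]
      intro hc
      simp [hc]
    · rw [(h _ _).2.1, (h _ _).1, (h _ _).1, (h _ _).1, H1 _ (cast_two h2 m)]
      intro hc
      simp [hc]
  · obtain ⟨m, h | h⟩ := eoh_cases (K := K) n
    · rw [(h _ _).2.1, (h _ _).2.2]
      intro _ h1
      exact (one_ne_zero (α := K) (by linear_combination h1)).elim
    · rw [(h _ _).2.1, (h _ _).2.2]
      intro _ h1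
      exact (one_ne_zero (α := K) (by linear_combination h1)).elim

end Pool.Agent.P.MP_af5c07_al
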