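import Mathlib
import Pool.Agent.P.MP_af5c07_al.AskAlgM

/-!
Affine changes, field extensions, soundness of the families and the final matching step.
-/

set_option linter.unusedSectionVars false
set_option linter.unusedVariables false

namespace Pool.Agent.P.MP_af5c07_al

variable {K : Type*} [Field K] {L : Type*} [Field L]

def Data.aff (D : Data K) (u v u' v' : K) : Data K :=
  ⟨D.N, fun n => u' * D.t n + v', fun n => u * D.a n + v, fun n => u ^ 2 * D.x n⟩

def Data.map (f : K →+* L) (D : Data K) : Data L :=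
  ⟨D.N, fun n => f (D.t n), fun n => f (D.a n), fun n => f (D.x n)⟩

theorem Eqs.aff {p : Par K} {D : Data K} (h : Eqs p D) (u v u' v' : K) :
    Eqs (p.aff u v u' v') (D.aff u v u' v') := by
  refine ⟨fun i => ?_, ?_, fun i hi => ?_, fun i hi hi1 => ?_, fun i hi => ?_, fun i hi => ?_⟩
  · simp only [Par.aff, Data.aff]
    linear_combination u' * h.rec' i
  · have := h.con
    simp only [Par.aff, Data.aff, Par.Q] at this ⊢
    linear_combination u' ^ 2 * this
  · have h1 := h.e2 i hi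
    have h2 := Q_split h.rec' (con_all h.rec' h.con) i (D.t i)
    simp only [Par.aff, Data.aff, Par.G, Par.Q] at h1 h2 ⊢
    linear_combination u * u' ^ 2 * h1 - v * u' ^ 2 * h2
  · have h1 := h.e3 i hi hi1
    simp only [Par.aff, Data.aff] at h1 ⊢
    linear_combination u * u' * h1 - v * u' * h.rec' i - v * u' * rec_succ h.rec' i
  · have h1 := h.e4 i hi
    simp only [Par.aff, Data.aff, Par.R] at h1 ⊢
    linear_combination u ^ 2 * u' * h1
  · have h1 := h.xz i hi
    simp only [Data.aff, h1, mul_zero]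

theorem Eqs.map {p : Par K} {D : Data K} (h : Eqs p D) (f : K →+* L) :
    Eqs (p.map f) (D.map f) := by
  refine ⟨fun i => ?_, ?_, fun i hi => ?_, fun i hi hi1 => ?_, fun i hi => ?_, fun i hi => ?_⟩
  · simpa [Par.map, Data.map] using congrArg f (h.rec' i)
  · simpa [Par.map, Data.map, Par.Q] using congrArg f h.con
  · simpa [Par.map, Data.map, Par.G] using congrArg f (h.e2 i hi)
  · simpa [Par.map, Data.map] using congrArg f (h.e3 i hi hi1)
  · simpa [Par.map, Data.map, Par.R, map_ofNat] using congrArg f (h.e4 i hi)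
  · simp [Data.map, h.xz i hi]

theorem Eqs.of_map {p : Par K} {D : Data K} {f : K →+* L} (h : Eqs (p.map f) (D.map f)) :
    Eqs p D := by
  refine ⟨fun i => f.injective ?_, f.injective ?_, fun i hi => f.injective ?_,
    fun i hi hi1 => f.injective ?_, fun i hi => f.injective ?_, fun i hi => f.injective ?_⟩
  · simpa [Par.map, Data.map] using h.rec' i
  · simpa [Par.map, Data.map, Par.Q] using h.con
  · simpa [Par.map, Data.map, Par.G] using h.e2 i hi
  · simpa [Par.map, Data.map] using h.e3 i hi hi1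
  · simpa [Par.map, Data.map, Par.R, map_ofNat] using h.e4 i hi
  · simpa [Data.map] using h.xz i hi

theorem Eqs.congr {p : Par K} {D E : Data K} (h : Eqs p E) (hN : D.N = E.N) (ht : D.t = E.t)
    (ha : ∀ i, D.In i → D.a i = E.a i) (hx : D.x = E.x) : Eqs p D := by
  have hI : ∀ i, D.In i ↔ E.In i := fun i => by unfold Data.In; rw [hN]
  refine ⟨by rw [ht]; exact h.rec', by rw [ht]; exact h.con, fun i hi => ?_, fun i hi hi1 => ?_,
    fun i hi => ?_, fun i hi => ?_⟩
  · rw [ht, ha i hi]; exact h.e2 i ((hI i).1 hi)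
  · rw [ht, ha i hi, ha _ hi1]; exact h.e3 i ((hI i).1 hi) ((hI _).1 hi1)
  · rw [ht, ha i hi, hx]; exact h.e4 i ((hI i).1 hi)
  · rw [hx]; exact h.xz i (by rwa [← hI, ← hI])

theorem Scheme.data_x1 (S : Scheme K) {N : ℕ∞} {n : ℤ} (h1 : (S.data N).In (n - 1))
    (h2 : (S.data N).In n) : (S.data N).x n = S.x n := by
  simp only [Scheme.data]
  exact if_pos ⟨h1, h2⟩

theorem Scheme.data_x0 (S : Scheme K) {N : ℕ∞} {n : ℤ}
    (h : ¬ ((S.data N).In (n - 1) ∧ (S.data N).In n)) : (S.data N).x n = 0 := by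
  simp only [Scheme.data]
  exact if_neg h

def Scheme.Sound (S : Scheme K) : Prop :=
  NP S.t ∧ ∀ N, (S.data N).In 1 → (S.data N).Inj →
    (N = ⊤ ∨ S.cut (S.data N).d = 0 ∨ ∀ n, S.t (n + ((S.data N).d + 1)) = S.t n) →
    Eqs S.par (S.data N)

theorem Scheme.IsKls.sound {S : Scheme K} {θ θ1 κ : K} (h : S.IsKls θ θ1 κ) : S.Sound := by
  obtain ⟨A, C, e, h⟩ := h
  refine ⟨h.np, fun N h1 h2 h3 => ?_⟩
  have := h.eqs (adm := S.adm) (N := N) (by rwa [← e]) (by rwa [← e]) (by rwa [← e])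
  rwa [← e] at this

/-- Soundness for the two families with `a = 0`. -/
theorem sound_zero {S : Scheme K} (hnp : NP S.t)
    (hrec : ∀ i, S.t (i + 1) + S.t (i - 1) = S.par.β * S.t i + S.par.γs)
    (con : S.par.Q (S.t 0) (S.t 1) = 0) (ha : ∀ n, S.a n = 0) (hγ : S.par.γ = 0) (hω : S.par.ω = 0)
    (hη : S.par.ηs = 0) (hc : ∀ n, S.cut n = 1) (x0 : S.x 0 = 0)
    (hx : ∀ m, S.t m = S.t 0 → S.x m = 0)
    (e4 : ∀ i, S.x (i + 1) * (S.t i - S.t (i + 2)) + S.x i * (S.t i - S.t (i - 2))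
      = S.par.η + S.par.ρ * S.t i) : S.Sound := by
  refine ⟨hnp, fun N h1 hI hs => ⟨hrec, con, fun i hi => ?_, fun i hi hi1 => ?_, fun i hi => ?_,
    fun i hi => S.data_x0 hi⟩⟩
  · change S.a i * _ * _ = _
    rw [ha]; simp [Par.G, hγ, hω, hη]
  · change S.a i * _ + S.a (i + 1) * _ = _
    rw [ha, ha]; simp [hγ, hω]
  · have a1 : (S.data N).x i = S.x i := by
      by_cases hi0 : i = 0
      · subst hi0
        rw [x0]; exact S.data_x0 (fun h => by have := h.1.nonneg; omega)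
      · have := hi.nonneg
        exact S.data_x1 (hi.down (by omega) (by omega)) hi
    have a2 : (S.data N).x (i + 1) = S.x (i + 1) := by
      by_cases hp : (S.data N).In (i + 1)
      · exact S.data_x1 (by simpa using hi) hp
      · rw [S.data_x0 (fun h => hp h.2)]
        obtain ⟨hN, hd⟩ := Data.last_of hi hp
        rcases hs with hs | hs | hs
        · exact absurd hs hN
        · rw [hc] at hs; exact absurd hs one_ne_zero
        · rw [hd] at hs
          exact (hx _ (by simpa using hs 0)).symm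
    rw [a1, a2]
    change _ = S.par.R (S.t i) (S.a i)
    rw [ha]
    simp only [Par.R]
    change S.x (i + 1) * (S.t i - S.t (i + 2)) + S.x i * (S.t i - S.t (i - 2)) = _
    linear_combination e4 i

theorem qh_sound {q : K} (hq : q ≠ 0) (hq2 : q ^ 2 ≠ 1) : (contqHermite q).Sound := by
  have z0 : ∀ n : ℤ, q ^ n ≠ 0 := fun n => zpow_ne_zero n hq
  refine sound_zero (fun h => ?_) (fun i => ?_) ?_ (fun _ => rfl) rfl rfl rfl (fun _ => rfl) ?_
    (fun m h => ?_) (fun i => ?_)
  · have := h.2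
    simp only [contqHermite, zpow_zero, inv_one, inv_eq_one] at this
    exact hq2 (by rwa [show q ^ (2 : ℤ) = q ^ 2 from zpow_natCast q 2] at this)
  · have := z0 i
    simp only [contqHermite, zpow_add_one₀ hq, zpow_sub_one₀ hq]; field_simp; ring
  · simp only [contqHermite, Par.Q, zpow_zero, zpow_one]; field_simp; ring
  · simp [contqHermite]
  · simp only [contqHermite, zpow_zero, inv_one, inv_eq_one] at h ⊢
    rw [h, sub_self]
  · have := z0 i
    simp only [contqHermite, zpow_add₀ hq, zpow_sub₀ hq, zpow_one,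
      show q ^ (2 : ℤ) = q ^ 2 from zpow_natCast q 2]
    field_simp; ring

theorem her_sound (h2 : (2 : K) ≠ 0) : (hermite : Scheme K).Sound := by
  refine sound_zero (fun h => ?_) (fun i => ?_) ?_ (fun _ => rfl) rfl rfl rfl (fun _ => rfl) ?_
    (fun m h => ?_) (fun i => ?_)
  · exact h2 (by simpa [hermite] using h.2)
  · simp only [hermite]; push_cast; ring
  · simp [hermite, Par.Q]
  · simp [hermite]
  · simp only [hermite, Int.cast_zero] at h ⊢
    rw [h, zero_div]
  · simp only [hermite]; push_cast; field_simp; ring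

theorem IsFamily.sound {S : Scheme K} (h : IsFamily S) (ha : S.adm) : S.Sound := by
  rcases h with ⟨q, a, b, c, d, rfl⟩ | ⟨q, rfl⟩ | ⟨q, s, a, c, rfl⟩ | ⟨q, s, a, rfl⟩ |
    ⟨q, c, e, rfl⟩ | ⟨q, a, rfl⟩ | ⟨a, b, c, d, rfl⟩ | ⟨a, b, c, rfl⟩ | ⟨a, b, c, d, rfl⟩ |
    ⟨b, c, rfl⟩ | ⟨a, rfl⟩ | ⟨a, b, rfl⟩ | ⟨a, rfl⟩ | ⟨a, rfl⟩ | rfl | ⟨a, b, c, d, rfl⟩ |
    ⟨g, e, f, r, rfl⟩ | ⟨s, g, r, k, w, rfl⟩
  · exact (aw_kls b c d ha.1 ha.2.1 ha.2.2).sound
  · exact qh_sound ha.1 ha.2
  · exact (bqj_kls s a c ha.1 ha.2.1).sound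
  · exact (lqj_kls s a ha.1 ha.2.1).sound
  · exact (qm_kls c e ha.1 ha.2.1).sound
  · exact (ql_kls a ha.1 ha.2.1).sound
  · exact (wil_kls a b c d ha.1).sound
  · exact (cdh_kls a b c ha.1).sound
  · exact (ch_kls a b c d ha.1).sound
  · exact (mei_kls b c ha.1 (sub_ne_zero.2 ha.2)).sound
  · exact (cha_kls a ha.1).sound
  · exact (jac_kls a b ha.1).sound
  · exact (bes_kls a ha.1).sound
  · exact (lag_kls a ha.1).sound
  · exact her_sound ha
  · exact (bi_kls a b c d ha).sound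
  · exact (mj_kls g e f r ha).sound
  · exact (or_kls s g r k w ha).sound

/-- Sufficiency. -/
theorem AskeyVia.nice {f : K →+* L} {p : Par K} {D : Data K} (h : AskeyVia f p D) :
    Nice p D ∧ D.Inj ∧ NP D.t := by
  obtain ⟨S, u, v, u', v', hF, ⟨ha, h1, hI, hx, hs⟩, hu, hu', hp, et, ea, ex, ez⟩ := h
  obtain ⟨hnp, hS⟩ := hF.sound ha
  have E := (hS D.N h1 hI hs).aff u v u' v'
  rw [← hp] at E
  have tt : ∀ i j, D.t i = D.t j → S.t i = S.t j := fun i j e => by
    have := et i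
    rw [e, et j] at this
    exact (mul_left_cancel₀ hu' (add_right_cancel this)).symm
  refine ⟨(Eqs.of_map (f := f) (E.congr rfl (funext et) ea (funext fun n => ?_))).nice h1
    (fun n a1 a2 e => ?_), fun i hi j hj e => hI hi hj (tt _ _ e),
    fun h => hnp ⟨tt _ _ h.1, tt _ _ h.2⟩⟩
  · change f (D.x n) = u ^ 2 * (S.data D.N).x n
    by_cases hn : D.In (n - 1) ∧ D.In n
    · rw [S.data_x1 hn.1 hn.2, ex n hn.1 hn.2]
    · rw [S.data_x0 hn, ez n hn]; simp
  · have := ex n a1 a2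
    rw [e, map_zero] at this
    exact mul_ne_zero (pow_ne_zero 2 hu) (hx n a1 a2) this.symm

/-- The statement over one field. -/
def AskL (p : Par K) (D : Data K) : Prop := AskeyVia (RingHom.id K) p D

theorem Par.map_id (p : Par K) : p.map (RingHom.id K) = p := rfl

theorem AskL.via {f : K →+* L} {p : Par K} {D : Data K} (h : AskL (p.map f) (D.map f)) :
    AskeyVia f p D := by
  obtain ⟨S, u, v, u', v', hF, hO, hu, hu', hp, et, ea, ex, ez⟩ := h
  exact ⟨S, u, v, u', v', hF, hO, hu, hu', hp, et, ea, ex,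
    fun n hn => f.injective (by simpa [Data.map] using ez n hn)⟩

theorem Par.aff_aff (p : Par K) (u v u' v' w y w' y' : K) :
    (p.aff u v u' v').aff w y w' y' = p.aff (u * w) (v * w + y) (u' * w') (v' * w' + y') := by
  simp only [Par.aff, Par.mk.injEq]
  refine ⟨trivial, ?_, ?_, ?_, ?_, ?_, ?_, ?_⟩ <;> ring

theorem Par.aff_one (p : Par K) : p.aff 1 0 1 0 = p := by
  cases p
  simp [Par.aff]

theorem AskL.of_aff {p : Par K} {D : Data K} {u v u' v' : K} (hu : u ≠ 0) (hu' : u' ≠ 0)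
    (h : AskL (p.aff u v u' v') (D.aff u v u' v')) : AskL p D := by
  obtain ⟨S, w, y, w', y', hF, hO, hw, hw', hp, et, ea, ex, ez⟩ := h
  simp only [Par.map_id, RingHom.id_apply, Data.aff] at hp et ea ex ez
  refine ⟨S, w * u⁻¹, y * u⁻¹ + -v / u, w' * u'⁻¹, y' * u'⁻¹ + -v' / u', hF, hO,
    mul_ne_zero hw (inv_ne_zero hu), mul_ne_zero hw' (inv_ne_zero hu'), ?_, fun n => ?_,
    fun n hn => ?_, fun n a1 a2 => ?_, fun n hn => ?_⟩
  · rw [Par.map_id, ← Par.aff_aff, ← hp, Par.aff_aff, mul_inv_cancel₀ hu, mul_inv_cancel₀ hu',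
      show v * u⁻¹ + -v / u = 0 by ring, show v' * u'⁻¹ + -v' / u' = 0 by ring, Par.aff_one]
  · have := et n
    simp only [RingHom.id_apply]
    field_simp
    linear_combination this
  · have := ea n hn
    simp only [RingHom.id_apply]
    field_simp
    linear_combination this
  · have := ex n a1 a2
    simp only [RingHom.id_apply]
    field_simp
    linear_combination this
  · exact (mul_eq_zero.1 (ez n hn)).resolve_left (pow_ne_zero 2 hu)

/-- The standing hypotheses on the data. -/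
structure Base (p : Par K) (D : Data K) : Prop where
  nice : Nice p D
  inj : D.Inj
  np : NP D.t

def Data.Cyc (D : Data K) : Prop := D.N = ⊤ ∨ ∀ n, D.t (n + (D.d + 1)) = D.t n

theorem Base.aff {p : Par K} {D : Data K} (h : Base p D) {u u' : K} (v v' : K) (hu : u ≠ 0)
    (hu' : u' ≠ 0) : Base (p.aff u v u' v') (D.aff u v u' v') := by
  have tt : ∀ i j, (D.aff u v u' v').t i = (D.aff u v u' v').t j → D.t i = D.t j := fun i j e =>
    mul_left_cancel₀ hu' (add_right_cancel e)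
  exact ⟨(h.nice.eqs.aff u v u' v').nice h.nice.in1 fun i a1 a2 =>
    mul_ne_zero (pow_ne_zero 2 hu) ((h.nice.hx i).2 ⟨a1, a2⟩),
    fun i hi j hj e => h.inj hi hj (tt _ _ e), fun e => h.np ⟨tt _ _ e.1, tt _ _ e.2⟩⟩

theorem Base.map {p : Par K} {D : Data K} (h : Base p D) (f : K →+* L) :
    Base (p.map f) (D.map f) :=
  ⟨(h.nice.eqs.map f).nice h.nice.in1 fun i a1 a2 =>
    (map_ne_zero f).2 ((h.nice.hx i).2 ⟨a1, a2⟩),
    fun i hi j hj e => h.inj hi hj (f.injective e),
    fun e => h.np ⟨f.injective e.1, f.injective e.2⟩⟩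

theorem Data.Cyc.aff {D : Data K} (h : D.Cyc) (u v u' v' : K) : (D.aff u v u' v').Cyc :=
  h.imp id fun h n => congrArg (fun s => u' * s + v') (h n)

theorem Base.ne01 {p : Par K} {D : Data K} (h : Base p D) : D.t 0 - D.t 1 ≠ 0 :=
  h.inj.ne h.nice.in0 h.nice.in1 (by norm_num)

/-- Matching with a sound family member. -/
theorem Base.fin {p : Par K} {D : Data K} (h : Base p D) {S : Scheme K} (hF : IsFamily S)
    (ha : S.adm) (hp : p = S.par) (ht : D.t = S.t) (e0 : D.a 0 = S.a 0)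
    (hs : D.Cyc ∨ (S.cut D.d = 0 ∧ D.a D.d = S.a D.d)) : AskL p D := by
  obtain ⟨N, t, a, x⟩ := D
  simp only at ht e0
  subst ht hp
  have hs' : N = ⊤ ∨ S.cut (S.data N).d = 0 ∨ ∀ n, S.t (n + ((S.data N).d + 1)) = S.t n := by
    rcases hs with (hs | hs) | hs
    · exact Or.inl hs
    · exact Or.inr (Or.inr hs)
    · exact Or.inr (Or.inl hs.1)
  have E := (hF.sound ha).2 N h.nice.in1 h.inj hs'
  obtain ⟨ea, ex⟩ := Eqs.uniq h.nice.eqs E h.nice.in1 h.inj h.np e0 (fun d hd hd1 e => by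
    obtain ⟨hN, hdd⟩ := Data.last_of hd hd1
    rcases hs with (hs | hs) | hs
    · exact absurd hs hN
    · rw [hdd] at hs
      have e1 : S.t (d + 1) = S.t 0 := by simpa using hs 0
      have : d = 0 := h.inj hd h.nice.in0 (e.trans e1)
      subst this
      exact absurd h.nice.in1 (by simpa using hd1)
    · rw [hdd] at hs; exact hs.2)
  have ex' : ∀ n, (S.data N).In (n - 1) → (S.data N).In n → x n = S.x n := fun n a1 a2 =>
    (ex n).trans (S.data_x1 a1 a2)
  refine ⟨S, 1, 0, 1, 0, hF, ⟨ha, h.nice.in1, h.inj, fun n a1 a2 => ?_, hs'⟩, one_ne_zero,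
    one_ne_zero, (Par.aff_one _).symm, fun n => by simp, fun n hn => by simpa using ea n hn,
    fun n a1 a2 => by simpa using ex' n a1 a2, h.nice.eqs.xz⟩
  rw [← ex' n a1 a2]
  exact (h.nice.hx n).2 ⟨a1, a2⟩

/-- Data with a dual start. -/
structure Split (p : Par K) (D : Data K) (θ θ1 κ : K) : Prop extends Base p D where
  dual : p.Qd θ θ1 = 0
  kap : p.Kd θ θ1 κ = 0
  st : D.a 0 * (D.t 0 - D.t 1) = θ * (D.t 0 - D.t 1) + Lf θ θ1 κ (D.t 0)
  en : D.Cyc ∨ (D.N ≠ ⊤ ∧ D.a D.d * (D.t D.d - D.t (D.d - 1))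
    = θ * (D.t D.d - D.t (D.d - 1)) + Lf θ θ1 κ (D.t D.d))

theorem Split.aff {p : Par K} {D : Data K} {θ θ1 κ : K} (h : Split p D θ θ1 κ) {u u' : K}
    (v v' : K) (hu : u ≠ 0) (hu' : u' ≠ 0) :
    Split (p.aff u v u' v') (D.aff u v u' v') (u * θ + v) (u * θ1 + v)
      (u * u' * κ - u * v' * (θ1 - θ)) := by
  refine ⟨h.toBase.aff v v' hu hu', ?_, ?_, ?_, h.en.imp (fun e => e.aff u v u' v') fun e =>
    ⟨e.1, ?_⟩⟩
  · have := h.dual
    simp only [Par.Qd, Par.aff] at this ⊢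
    linear_combination u ^ 2 * this
  · have h1 := h.dual
    have h2 := h.kap
    simp only [Par.Qd, Par.Kd, Par.aff] at h1 h2 ⊢
    linear_combination u ^ 2 * u' * h2 - u ^ 2 * v' * h1
  · have := h.st
    simp only [Data.aff, Lf] at this ⊢
    linear_combination u * u' * this
  · have := e.2
    change (u * D.a D.d + v) * (u' * D.t D.d + v' - (u' * D.t (D.d - 1) + v')) = (u * θ + v)
      * (u' * D.t D.d + v' - (u' * D.t (D.d - 1) + v')) + Lf _ _ _ (u' * D.t D.d + v')
    simp only [Lf] at this ⊢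
    linear_combination u * u' * this

theorem Hf_zero {p : Par K} {θ θ1 κ s u w a : K} (h : w + u = p.β * s + p.γs)
    (hG : a * (s - u) * (s - w) = p.G s) (hs : a * (s - u) = θ * (s - u) + Lf θ θ1 κ s) :
    p.Hf θ θ1 κ s w = 0 := by
  unfold Par.Hf
  linear_combination -hG + (s - w) * hs + θ * (w - s) * h

namespace Split

variable {p : Par K} {D : Data K} {θ θ1 κ : K} (h : Split p D θ θ1 κ)
include h

theorem H0 : p.Hf θ θ1 κ (D.t 0) (D.t (-1)) = 0 := by
  have a1 := h.nice.rec' 0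
  have a2 := h.nice.e2 0 h.nice.in0
  simp only [zero_add, zero_sub] at a1 a2
  exact Hf_zero (by linear_combination a1) (by linear_combination a2) h.st

theorem In_d (hN : D.N ≠ ⊤) : D.In D.d ∧ 1 ≤ D.d := by
  have := (Data.In_fin hN 1).1 h.nice.in1
  exact ⟨(Data.In_fin hN _).2 (by omega), this.2⟩

/-- The first coefficient of the split form does not vanish. -/
theorem L0 : Lf θ θ1 κ (D.t 0) ≠ 0 := by
  intro hL
  have r0 := h.nice.rec' 0
  have r1 := h.nice.rec' 1
  have x1 : D.x 1 ≠ 0 := h.nice.hx.ne h.nice.in1 le_rfl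
  have x0 : D.x 0 = 0 := h.nice.hx.zero_of_le le_rfl
  have a0 : D.a 0 = θ := by
    apply mul_right_cancel₀ h.ne01
    linear_combination h.st + hL
  have m0 := e4_of_loc p h.dual h.kap (b := 0) (c := 0) r0 (by rw [hL]; ring)
  have b0 := h.nice.e4 0 h.nice.in0
  simp only [zero_add, zero_sub, zero_mul, sub_zero] at m0 b0 r0
  rw [x0, a0, ← m0, zero_mul, add_zero] at b0
  have t2 : D.t 0 = D.t 2 := sub_eq_zero.1 ((mul_eq_zero.1 b0).resolve_left x1)
  have n2 : ¬ D.In 2 := fun h2 => by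
    have := h.inj h.nice.in0 h2 t2
    omega
  obtain ⟨hN, hd⟩ := Data.last_of h.nice.in1 n2
  rcases h.en with (e | e) | e
  · exact hN e
  · rw [hd] at e
    have := e (-1)
    norm_num at this
    exact h.np ⟨this.symm, t2.symm⟩
  · have e1 := e.2
    rw [hd] at e1
    have m1 := e4_of_loc p h.dual h.kap (b := 0) (c := θ - D.a 1) r1 (by linear_combination e1)
    have b1 := h.nice.e4 1 h.nice.in1
    have c1 := h.nice.e3 0 h.nice.in0 h.nice.in1
    have x2 : D.x (1 + 1) = 0 := h.nice.hx.zero_of n2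
    norm_num at m1 b1 c1 x2
    rw [x2, ← m1, hL] at b1
    rw [a0] at c1
    have : D.x 1 * (D.t 1 - D.t (-1)) = 0 := by
      linear_combination b1 + (θ - D.a 1) * c1 + (θ - D.a 1) * θ * r0
    exact h.np ⟨(sub_eq_zero.1 ((mul_eq_zero.1 this).resolve_left x1)).symm, t2.symm⟩

theorem H10 (h02 : D.t 0 ≠ D.t 2) : p.Hf θ θ1 κ (D.t 1) (D.t 0) ≠ 0 := by
  intro hH
  have r0 := h.nice.rec' 0
  have x1 : D.x 1 ≠ 0 := h.nice.hx.ne h.nice.in1 le_rfl
  have x0 : D.x 0 = 0 := h.nice.hx.zero_of_le le_rfl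
  have m0 := e4_of_loc p h.dual h.kap (b := θ - D.a 0) (c := 0) r0
    (by simp only [zero_add]; linear_combination h.st)
  have g0 := X_mul p θ θ1 κ r0 (h.nice.e2 0 h.nice.in0)
  have b0 := h.nice.e4 0 h.nice.in0
  simp only [zero_add, zero_sub, zero_mul, sub_zero, add_zero, sub_sub_cancel] at m0 b0 g0
  rw [hH] at g0
  rw [(mul_eq_zero.1 g0).resolve_right h.ne01, mul_zero] at m0
  rw [x0, ← m0, zero_mul, add_zero] at b0
  exact mul_ne_zero x1 (sub_ne_zero.2 h02) b0

/-- Matching with a family member in KLS form. -/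
theorem fin {S : Scheme K} (hF : IsFamily S) (ha : S.adm) (hk : S.IsKls θ θ1 κ)
    (e1 : p.β = S.par.β) (e2 : p.γ = S.par.γ) (e3 : p.γs = S.par.γs) (e4 : p.ω = S.par.ω)
    (t0 : D.t 0 = S.t 0) (t1 : D.t 1 = S.t 1)
    (hc : S.par.Hf θ θ1 κ (S.t D.d) (S.t (D.d + 1)) = 0 → S.t D.d ≠ S.t 0 → S.cut D.d = 0) :
    AskL p D := by
  obtain ⟨A, C, eS, hA⟩ := hk
  have ht : D.t = S.t := funext (rec_unique h.nice.rec' (by rw [e1, e3]; exact hA.rec') t0 t1)
  have hp : p = S.par := by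
    have a1 := h.nice.con 0
    have a2 := hA.con
    have b1 := h.dual
    have b2 := hA.dual
    have c1 := h.kap
    have c2 := hA.kap
    have d1 := h.H0
    have d2 := hA.H0
    rw [ht] at a1 d1
    generalize S.par = p' at *
    obtain ⟨β, γ, γs, ρ, ρs, ω, η, ηs⟩ := p
    obtain ⟨β', γ', γs', ρ', ρs', ω', η', ηs'⟩ := p'
    simp only [Par.Q, Par.Qd, Par.Kd, Par.Hf, Par.G, zero_add] at *
    subst e1 e2 e3 e4
    simp only [Par.mk.injEq, true_and]
    exact ⟨by linear_combination b2 - b1, by linear_combination a2 - a1,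
      by linear_combination c2 - c1, by linear_combination d1 - d2⟩
  have Sa : ∀ n, S.a n = θ - A n - C n := fun n => by rw [eS]; rfl
  have n01 := h.ne01
  refine h.toBase.fin hF ha hp ht ?_ (h.en.imp id fun e => ?_)
  · have a1 := h.st
    rw [ht] at a1 n01
    have a2 := hA.A0 (sub_ne_zero.1 n01).symm
    rw [Sa, hA.C0]
    apply mul_right_cancel₀ n01
    linear_combination a1 - a2
  · obtain ⟨hd, hd1⟩ := h.In_d e.1
    have a1 := Hf_zero (h.nice.rec' D.d) (h.nice.e2 _ hd) e.2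
    have n1 := h.inj.ne hd h.nice.in0 (by omega)
    have n2 := h.inj.ne hd (hd.down (i := D.d - 1) (by omega) (by omega)) (by omega)
    have a2 := e.2
    rw [ht] at a1 n1 n2 a2
    rw [hp] at a1
    have hcut := hc a1 (sub_ne_zero.1 n1)
    refine ⟨hcut, ?_⟩
    have a3 := hA.cutC hcut (sub_ne_zero.1 n2).symm
    rw [Sa, (hA.cA _ hcut).1]
    apply mul_right_cancel₀ n2
    linear_combination a2 - a3

end Split

end Pool.Agent.P.MP_af5c07_al
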