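import Mathlib
import Pool.Agent.P.MP_af5c07_al.AskAff

/-!
Existence of a dual start over an algebraically closed field.
-/

set_option linter.unusedSectionVars false
set_option linter.unusedVariables false

namespace Pool.Agent.P.MP_af5c07_al

open Polynomial

variable {K : Type*} [Field K] [IsAlgClosed K]

theorem root4 (c4 c3 c2 c1 c0 : K) (h : c4 ≠ 0 ∨ c3 ≠ 0 ∨ c2 ≠ 0 ∨ c1 ≠ 0) :
    ∃ x : K, c4 * x ^ 4 + c3 * x ^ 3 + c2 * x ^ 2 + c1 * x + c0 = 0 := by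
  set f : K[X] := C c4 * X ^ 4 + C c3 * X ^ 3 + C c2 * X ^ 2 + C c1 * X + C c0 with hf
  have hd : f.degree ≠ 0 := by
    intro hd
    have e := eq_C_of_degree_eq_zero hd
    have e4 := congrArg (fun g => coeff g 4) e
    have e3 := congrArg (fun g => coeff g 3) e
    have e2 := congrArg (fun g => coeff g 2) e
    have e1 := congrArg (fun g => coeff g 1) e
    simp [hf, coeff_X, coeff_C, coeff_X_pow] at e4 e3 e2 e1
    tauto
  obtain ⟨x, hx⟩ := IsAlgClosed.exists_root f hd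
  exact ⟨x, by simpa [hf] using hx⟩

theorem root2 (c2 c1 c0 : K) (h : c2 ≠ 0 ∨ c1 ≠ 0) : ∃ x : K, c2 * x ^ 2 + c1 * x + c0 = 0 := by
  obtain ⟨x, hx⟩ := root4 0 0 c2 c1 c0 (Or.inr (Or.inr h))
  exact ⟨x, by linear_combination hx⟩

theorem two_roots (s r : K) : ∃ x y : K, x + y = s ∧ x * y = r := by
  obtain ⟨x, hx⟩ := root2 1 (-s) r (Or.inl one_ne_zero)
  exact ⟨x, s - x, by ring, by linear_combination -hx⟩

theorem three_roots (f1 f2 f3 : K) :
    ∃ x y z : K, x + y + z = f1 ∧ x * y + x * z + y * z = f2 ∧ x * y * z = f3 := by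
  obtain ⟨x, hx⟩ := root4 0 1 (-f1) f2 (-f3) (Or.inr (Or.inl one_ne_zero))
  obtain ⟨y, z, h1, h2⟩ := two_roots (f1 - x) (f2 - x * (f1 - x))
  exact ⟨x, y, z, by linear_combination h1, by linear_combination h2 + x * h1,
    by linear_combination hx + x * h2⟩

theorem sqrt_ex (r : K) : ∃ x : K, x ^ 2 = r := by
  obtain ⟨x, hx⟩ := root2 1 0 (-r) (Or.inl one_ne_zero)
  exact ⟨x, by linear_combination hx⟩

theorem root4_ne (c4 c3 c2 c1 c0 : K) (h4 : c4 ≠ 0) :
    (c3 = 0 ∧ c2 = 0 ∧ c1 = 0 ∧ c0 = 0) ∨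
    ∃ x : K, x ≠ 0 ∧ c4 * x ^ 4 + c3 * x ^ 3 + c2 * x ^ 2 + c1 * x + c0 = 0 := by
  by_cases h0 : c0 = 0
  swap
  · obtain ⟨x, hx⟩ := root4 c4 c3 c2 c1 c0 (Or.inl h4)
    exact Or.inr ⟨x, by rintro rfl; exact h0 (by simpa using hx), hx⟩
  by_cases h1 : c1 = 0
  swap
  · obtain ⟨x, hx⟩ := root4 0 c4 c3 c2 c1 (Or.inr (Or.inl h4))
    exact Or.inr ⟨x, by rintro rfl; exact h1 (by simpa using hx),
      by linear_combination x * hx + h0⟩
  by_cases h2 : c2 = 0
  swap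
  · obtain ⟨x, hx⟩ := root2 c4 c3 c2 (Or.inl h4)
    exact Or.inr ⟨x, by rintro rfl; exact h2 (by simpa using hx),
      by linear_combination x ^ 2 * hx + x * h1 + h0⟩
  by_cases h3 : c3 = 0
  · exact Or.inl ⟨h3, h2, h1, h0⟩
  · obtain ⟨x, hx⟩ := root2 0 c4 c3 (Or.inr h4)
    exact Or.inr ⟨x, by rintro rfl; exact h3 (by simpa using hx),
      by linear_combination x ^ 3 * hx + x ^ 2 * h2 + x * h1 + h0⟩

/-- The value of `κ` forced by the start. -/
def Data.kap (D : Data K) (θ θ1 : K) : K := D.a 0 * (D.t 0 - D.t 1) - θ1 * D.t 0 + θ * D.t 1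

variable {p : Par K} {D : Data K}

theorem Base.split (h : Base p D) {θ θ1 : K} (hQ : p.Qd θ θ1 = 0)
    (hK : p.Kd θ θ1 (D.kap θ θ1) = 0) (hc : D.Cyc) : Split p D θ θ1 (D.kap θ θ1) :=
  ⟨h, hQ, hK, by simp only [Data.kap, Lf]; ring, Or.inl hc⟩

theorem Base.ne02 (h : Base p D) (hβ : p.β = -2) : D.t 0 - D.t 2 ≠ 0 := by
  intro e
  have r0 := h.nice.rec' 0
  have r1 := h.nice.rec' 1
  norm_num at r0 r1
  rw [hβ] at r0 r1
  exact h.np ⟨by linear_combination r0 - r1 - e, by linear_combination -e⟩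

theorem Base.line (h : Base p D) (hβ : p.β = -2) (δ : K) :
    ∃ θ, p.Kd θ (δ - θ) (D.kap θ (δ - θ)) = 0 := by
  have r1 := h.nice.rec' 1
  norm_num at r1
  obtain ⟨θ, hθ⟩ := root2 (D.t 0 - D.t 2)
    (2 * (D.a 0 * (D.t 0 - D.t 1) - δ * D.t 0) + (D.t 0 + D.t 1) * (δ - p.γ) - p.ω)
    ((D.a 0 * (D.t 0 - D.t 1) - δ * D.t 0) * (δ - p.γ) - p.η) (Or.inl (h.ne02 hβ))
  refine ⟨θ, ?_⟩
  simp only [Par.Kd, Data.kap]
  rw [hβ] at r1 ⊢
  linear_combination hθ + θ ^ 2 * r1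

theorem Base.split_m2 (h : Base p D) (hβ : p.β = -2) (hc : D.Cyc) :
    ∃ θ θ1 κ, Split p D θ θ1 κ := by
  obtain ⟨δ, hδ⟩ := root2 1 (-p.γ) (-p.ρ) (Or.inl one_ne_zero)
  obtain ⟨θ, hθ⟩ := h.line hβ δ
  exact ⟨_, _, _, h.split (by simp only [Par.Qd, hβ]; linear_combination hδ) hθ hc⟩

theorem Z_eq (p : Par K) (θ θ1 κ : K) {s u w : K} (h : w + u = p.β * s + p.γs) :
    p.Z s u (θ * (s - w) + Lf θ θ1 κ s)
      = (κ - p.γs * θ) * (κ - p.γs * θ - p.ω) - p.ηs * (θ + (p.β * θ + p.γ - θ1))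
        - p.ρs * θ * (p.β * θ + p.γ - θ1)
        + (θ + (p.β * θ + p.γ - θ1)) * p.Hf θ θ1 κ s u - θ * (p.β * θ + p.γ - θ1) * p.Q s u
        + p.Qd θ θ1 * (s * u) + p.Kd θ θ1 κ * (s + u) := by
  have hw : w = p.β * s + p.γs - u := by linear_combination h
  subst hw
  simp only [Par.Z, Par.Hf, Par.Q, Par.Qd, Par.Kd, Par.G, Lf]
  ring

theorem Base.split_fin (h : Base p D) (hc : ¬ D.Cyc) : ∃ θ θ1 κ, Split p D θ θ1 κ := by
  have hN : D.N ≠ ⊤ := fun e => hc (Or.inl e)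
  have hd1 : 1 ≤ D.d := ((Data.In_fin hN 1).1 h.nice.in1).2
  have hIn : ∀ i, 0 ≤ i → i ≤ D.d → D.In i := fun i a b => (Data.In_fin hN i).2 ⟨a, b⟩
  have hd : D.In D.d := hIn _ (by omega) le_rfl
  have hX : D.t 0 - D.t D.d ≠ 0 := h.inj.ne h.nice.in0 hd (by omega)
  have r0 := h.nice.rec' 0
  have rd := h.nice.rec' D.d
  have q0 := h.nice.con (-1)
  have qd := h.nice.con D.d
  have g0 := h.nice.e2 0 h.nice.in0
  have gd := h.nice.e2 _ hd
  have ud := h.nice.up _ hd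
  rw [h.nice.hx.zero_of (i := D.d + 1) (by rw [Data.In_fin hN]; omega)] at ud
  norm_num at r0 q0 g0
  have key : ∀ θ θ1, θ1 * (D.t 0 - D.t D.d) - θ * (D.t 1 - D.t (D.d - 1))
      = D.a 0 * (D.t 0 - D.t 1) - D.a D.d * (D.t D.d - D.t (D.d - 1)) →
      (p.Qd θ θ1 * (D.t 0 * D.t (-1) - D.t D.d * D.t (D.d + 1))
        + p.Kd θ θ1 (D.kap θ θ1) * (D.t 0 + D.t (-1) - D.t D.d - D.t (D.d + 1)) = 0) ∧
      (p.Qd θ θ1 = 0 → p.Kd θ θ1 (D.kap θ θ1) = 0 → Split p D θ θ1 (D.kap θ θ1)) := by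
    intro θ θ1 hl
    have s0 : D.a 0 * (D.t 0 - D.t 1) = θ * (D.t 0 - D.t 1) + Lf θ θ1 (D.kap θ θ1) (D.t 0) := by
      simp only [Data.kap, Lf]; ring
    have sd : D.a D.d * (D.t D.d - D.t (D.d - 1))
        = θ * (D.t D.d - D.t (D.d - 1)) + Lf θ θ1 (D.kap θ θ1) (D.t D.d) := by
      simp only [Data.kap, Lf]; linear_combination hl
    refine ⟨?_, fun a1 a2 => ⟨h, a1, a2, s0, Or.inr ⟨hN, sd⟩⟩⟩
    have z0 := Z_eq p θ θ1 (D.kap θ θ1) r0
    have zd := Z_eq p θ θ1 (D.kap θ θ1) (s := D.t D.d) (u := D.t (D.d + 1)) (w := D.t (D.d - 1))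
      (by linear_combination rd)
    have h0 : p.Hf θ θ1 (D.kap θ θ1) (D.t 0) (D.t (-1)) = 0 :=
      Hf_zero (by linear_combination r0) (by linear_combination g0) s0
    have q0' : p.Q (D.t 0) (D.t (-1)) = 0 := by
      unfold Par.Q at q0 ⊢; linear_combination q0
    rw [← s0, h0, q0'] at z0
    rw [← sd, Hf_zero rd gd sd, qd] at zd
    unfold zeta at ud
    linear_combination zd - z0 + ud
  by_cases hS : D.t 0 + D.t (-1) - D.t D.d - D.t (D.d + 1) = 0
  · have hP : D.t 0 * D.t (-1) - D.t D.d * D.t (D.d + 1) ≠ 0 := by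
      intro e
      have a1 : (D.t 0 - D.t D.d) * (D.t 0 - D.t (D.d + 1)) = 0 := by
        linear_combination D.t 0 * hS - e
      have a2 : D.t (D.d + 1) = D.t 0 :=
        (sub_eq_zero.1 ((mul_eq_zero.1 a1).resolve_left hX)).symm
      have a3 : D.t D.d = D.t (-1) := by linear_combination -hS - a2
      have := h.nice.per_of a3 (by simpa using a2)
      exact hc (Or.inr fun n => by simpa using this n)
    have hβ : p.β = -2 := by
      have : (p.β + 2) * (D.t 0 * D.t (-1) - D.t D.d * D.t (D.d + 1)) = 0 := by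
        unfold Par.Q at q0 qd
        linear_combination qd - q0
          + (D.t 0 + D.t (-1) + D.t D.d + D.t (D.d + 1) - p.γs) * hS
      linear_combination (mul_eq_zero.1 this).resolve_right hP
    obtain ⟨θ, hθ⟩ := h.line hβ ((D.a 0 * (D.t 0 - D.t 1)
      - D.a D.d * (D.t D.d - D.t (D.d - 1))) / (D.t 0 - D.t D.d))
    obtain ⟨k1, k2⟩ := key θ ((D.a 0 * (D.t 0 - D.t 1)
      - D.a D.d * (D.t D.d - D.t (D.d - 1))) / (D.t 0 - D.t D.d) - θ) (by
      rw [hβ] at r0 rd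
      rw [sub_mul, div_mul_cancel₀ _ hX]
      linear_combination θ * (rd - r0 + hS))
    rw [hS, mul_zero, add_zero] at k1
    exact ⟨_, _, _, k2 ((mul_eq_zero.1 k1).resolve_right hP) hθ⟩
  · obtain ⟨X, hXk⟩ : ∃ X : ℤ → K, ∀ k, X k = D.t k - D.t (D.d - k) := ⟨_, fun _ => rfl⟩
    have hrec : ∀ i, X (i + 1) + X (i - 1) = p.β * X i + 0 := by
      intro i
      rw [hXk, hXk, hXk, show D.d - (i + 1) = D.d - i - 1 by ring,
        show D.d - (i - 1) = D.d - i + 1 by ring]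
      linear_combination h.nice.rec' i - h.nice.rec' (D.d - i)
    have inv := con_all (p := ⟨p.β, 0, 0, 0, X 0 ^ 2 - p.β * X 0 * X 1 + X 1 ^ 2, 0, 0, 0⟩) hrec
      (by simp [Par.Q])
    simp only [Par.Q] at inv
    have hc0 : X 0 ^ 2 - p.β * X 0 * X 1 + X 1 ^ 2 ≠ 0 := by
      intro e
      obtain ⟨m, hm | hm⟩ := Int.even_or_odd' D.d
      · have a1 := inv m
        have a2 : X m = 0 := by rw [hXk, show D.d - m = m by omega, sub_self]
        have a3 : X (m + 1) ≠ 0 := by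
          rw [hXk]
          exact h.inj.ne (hIn _ (by omega) (by omega)) (hIn _ (by omega) (by omega)) (by omega)
        rw [a2, e] at a1
        exact pow_ne_zero 2 a3 (by linear_combination a1)
      · have a1 := inv m
        have a2 : X (m + 1) = -X m := by
          rw [hXk, hXk, show D.d - m = m + 1 by omega, show D.d - (m + 1) = m by omega]; ring
        have a3 : X m ≠ 0 := by
          rw [hXk]
          exact h.inj.ne (hIn _ (by omega) (by omega)) (hIn _ (by omega) (by omega)) (by omega)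
        rw [a2, e] at a1
        have a4 : p.β + 2 = 0 := by
          apply mul_right_cancel₀ (pow_ne_zero 2 a3)
          linear_combination a1
        have a5 := inv (-1)
        rw [e] at a5
        have a6 : (X (-1) + X 0) ^ 2 = 0 := by
          norm_num at a5
          linear_combination a5 + X (-1) * X 0 * a4
        apply hS
        have a7 := pow_eq_zero_iff (two_ne_zero) |>.1 a6
        rw [hXk, hXk] at a7
        norm_num at a7
        linear_combination a7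
    have X0 : X 0 = D.t 0 - D.t D.d := by rw [hXk, sub_zero]
    have X1 : X 1 = D.t 1 - D.t (D.d - 1) := hXk 1
    rw [← X0] at hX
    rw [← X0, ← X1] at key
    generalize D.a 0 * (D.t 0 - D.t 1) - D.a D.d * (D.t D.d - D.t (D.d - 1)) = M at key
    obtain ⟨θ, hθ⟩ := root2 (X 0 ^ 2 - p.β * X 0 * X 1 + X 1 ^ 2)
      (-p.β * X 0 * M + 2 * M * X 1 - p.γ * X 0 * (X 0 + X 1))
      (M ^ 2 - p.γ * X 0 * M - p.ρ * X 0 ^ 2) (Or.inl hc0)
    obtain ⟨k1, k2⟩ := key θ ((M + θ * X 1) / X 0) (by field_simp; ring)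
    have hQ : p.Qd θ ((M + θ * X 1) / X 0) = 0 := by
      simp only [Par.Qd]
      field_simp
      linear_combination hθ
    rw [hQ, zero_mul, zero_add] at k1
    exact ⟨_, _, _, k2 hQ ((mul_eq_zero.1 k1).resolve_right hS)⟩

end Pool.Agent.P.MP_af5c07_al
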