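import Mathlib
import Pool.Agent.P.MP_af5c07_al.AskSplit

/-!
Sorting into families for `β ≠ ±2`.
-/

set_option linter.unusedSectionVars false
set_option linter.unusedVariables false

namespace Pool.Agent.P.MP_af5c07_al

variable {K : Type*} [Field K] [IsAlgClosed K] {p : Par K} {D : Data K}

theorem q_ne {q : K} (hq : q ≠ 0) (hq2 : q ^ 2 ≠ 1) :
    1 - q ≠ 0 ∧ 1 + q ≠ 0 ∧ q⁻¹ - q ≠ 0 ∧ q⁻¹ - 1 ≠ 0 := by
  refine ⟨fun h => hq2 ?_, fun h => hq2 ?_, fun h => hq2 ?_, fun h => hq2 ?_⟩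
  · linear_combination -(1 + q) * h
  · linear_combination (q - 1) * h
  · field_simp at h; linear_combination -h
  · field_simp at h; linear_combination -(1 + q) * h

theorem q_inv {q : K} (hq : q ≠ 0) (hq2 : q ^ 2 ≠ 1) : q⁻¹ ≠ 0 ∧ q⁻¹ ^ 2 ≠ 1 :=
  ⟨inv_ne_zero hq, by rwa [inv_pow, Ne, inv_eq_one]⟩

theorem aw2 {q a b c d σ : K} (hq : q ≠ 0) (hq2 : q ^ 2 ≠ 1) (ha : a ≠ 0) {κ : K}
    (h : Split p D (a + a⁻¹) (a * q + (a * q)⁻¹) κ) (hβ : p.β = q + q⁻¹) (hγ : p.γ = 0)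
    (hγs : p.γs = 0) (t0 : D.t 0 = 1 + σ) (t1 : D.t 1 = q⁻¹ + σ * q) (he : a * (b * c * d) = σ * q)
    (hκ : κ = (1 - q) * (a - (b + c + d) / q + a * (b * c + b * d + c * d) / q - b * c * d / q ^ 2))
    (hω : p.ω = -(1 - q) ^ 2 * (q * (a + (b + c + d)) + (a * (b * c + b * d + c * d) + b * c * d))
      / q ^ 2) (hb : 1 - a * d * q ^ D.d ≠ 0 → 1 - a * b * q ^ D.d ≠ 0 ∧ 1 - a * c * q ^ D.d ≠ 0) :
    AskL p D := by
  subst hκ
  obtain ⟨n1, n2, n3, n4⟩ := q_ne hq hq2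
  have hz := zpow_ne_zero D.d hq
  refine h.fin (Or.inl ⟨q, a, b, c, d, rfl⟩) ⟨hq, hq2, ha⟩ (aw_kls b c d hq hq2 ha) hβ hγ hγs
    ?_ ?_ ?_ fun hH hne => ?_
  · rw [hω]; simp only [askeyWilson, qk, kls]; ring
  · rw [t0]; simp only [askeyWilson, qk, kls, zpow_zero]; field_simp; linear_combination -he
  · rw [t1]; simp only [askeyWilson, qk, kls, zpow_one]; field_simp; linear_combination -q * he
  · have hH' := aw_H q a b c d (q ^ D.d) hq ha hz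
    simp only [askeyWilson, qk, kls, zpow_add_one₀ hq, zpow_zero] at hH hH' hne ⊢
    rw [hH'] at hH
    have f : (q ^ D.d)⁻¹ + a * b * c * d * q ^ D.d / q - (1⁻¹ + a * b * c * d * 1 / q)
        = ((q ^ D.d)⁻¹ - 1) * (1 - a * b * c * d * q ^ D.d / q) := by field_simp; ring
    have g := ne_of_fac hne f
    by_contra hd
    obtain ⟨g1, g2⟩ := hb hd
    exact div_ne_zero (mul_ne_zero (mul_ne_zero (mul_ne_zero (mul_ne_zero (mul_ne_zero g1 g2) hd) g)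
      (div_ne_zero n3 hz)) (div_ne_zero n4 hz)) ha hH

theorem aw1 {q a σ : K} (hq : q ≠ 0) (hq2 : q ^ 2 ≠ 1) (ha : a ≠ 0) {κ : K}
    (h : Split p D (a + a⁻¹) (a * q + (a * q)⁻¹) κ) (hβ : p.β = q + q⁻¹) (hγ : p.γ = 0)
    (hγs : p.γs = 0) (t0 : D.t 0 = 1 + σ) (t1 : D.t 1 = q⁻¹ + σ * q) : AskL p D := by
  obtain ⟨n1, n2, n3, n4⟩ := q_ne hq hq2
  obtain ⟨k, hk⟩ : ∃ k, κ = (1 - q) * k := ⟨κ / (1 - q), by field_simp⟩
  obtain ⟨w, hw⟩ : ∃ w, p.ω = -(1 - q) ^ 2 * w / q ^ 2 :=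
    ⟨-p.ω * q ^ 2 / (1 - q) ^ 2, by field_simp⟩
  obtain ⟨f3, h3⟩ : ∃ f3, a * f3 = σ * q := ⟨σ * q / a, by field_simp⟩
  obtain ⟨f1, h1⟩ : ∃ f1, (1 + q) * f1 = w - f3 - q * k - f3 / q :=
    ⟨(w - f3 - q * k - f3 / q) / (1 + q), by field_simp⟩
  obtain ⟨f2, h2⟩ : ∃ f2, a * f2 = q * k - q * a + f3 / q + f1 :=
    ⟨(q * k - q * a + f3 / q + f1) / a, by field_simp⟩
  have eκ : κ = (1 - q) * (a - f1 / q + a * f2 / q - f3 / q ^ 2) := by
    rw [hk, h2]; field_simp; ring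
  have eω : p.ω = -(1 - q) ^ 2 * (q * (a + f1) + (a * f2 + f3)) / q ^ 2 := by
    rw [hw, h2]; congr 2; linear_combination -h1
  obtain ⟨b, c, d, rfl, rfl, rfl⟩ := three_roots f1 f2 f3
  by_cases hb : 1 - a * b * q ^ D.d = 0
  · exact aw2 (b := d) (c := c) (d := b) hq hq2 ha h hβ hγ hγs t0 t1 (by linear_combination h3)
      (by rw [eκ]; ring) (by rw [eω]; ring) fun e => absurd hb e
  by_cases hc : 1 - a * c * q ^ D.d = 0
  · exact aw2 (b := b) (c := d) (d := c) hq hq2 ha h hβ hγ hγs t0 t1 (by linear_combination h3)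
      (by rw [eκ]; ring) (by rw [eω]; ring) fun e => absurd hc e
  · exact aw2 hq hq2 ha h hβ hγ hγs t0 t1 h3 eκ eω fun _ => ⟨hb, hc⟩

theorem bqj2 {q a c s : K} (hq : q ≠ 0) (hq2 : q ^ 2 ≠ 1) {κ : K}
    (h : Split p D 1 q⁻¹ κ) (hβ : p.β = q + q⁻¹) (hγ : p.γ = 0)
    (hγs : p.γs = 0) (t0 : D.t 0 = 1 + s * q) (t1 : D.t 1 = q⁻¹ + s * q * q)
    (hκ : κ = (q - 1) * (a + c + s - a * c * q)) (hω : p.ω = -(1 - q) ^ 2 * (a + c + s + a * c))
    (hb : 1 - c * q * q ^ D.d ≠ 0 → 1 - a * q * q ^ D.d ≠ 0) : AskL p D := by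
  subst hκ
  obtain ⟨n1, n2, n3, n4⟩ := q_ne hq hq2
  have hz := zpow_ne_zero D.d hq
  refine h.fin (Or.inr (Or.inr (Or.inl ⟨q, s, a, c, rfl⟩))) ⟨hq, hq2, trivial⟩
    (bqj_kls s a c hq hq2) hβ hγ hγs hω ?_ ?_ fun hH hne => ?_
  · rw [t0]; simp [bigqJacobi, qk, kls]
  · rw [t1]; simp [bigqJacobi, qk, kls]
  · have hH' := bqj_H q s a c (q ^ D.d) hq hz
    simp only [bigqJacobi, qk, kls, zpow_add_one₀ hq, zpow_zero] at hH hH' hne ⊢
    rw [hH'] at hH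
    have f : (q ^ D.d)⁻¹ + s * q * q ^ D.d - (1⁻¹ + s * q * 1)
        = ((q ^ D.d)⁻¹ - 1) * (1 - s * q * q ^ D.d) := by field_simp; ring
    have g := ne_of_fac hne f
    by_contra hd
    exact mul_ne_zero (mul_ne_zero (mul_ne_zero (mul_ne_zero (hb hd) hd) g)
      (div_ne_zero n3 hz)) (div_ne_zero n4 hz) hH

theorem bqj1 {q s : K} (hq : q ≠ 0) (hq2 : q ^ 2 ≠ 1) {κ : K}
    (h : Split p D 1 q⁻¹ κ) (hβ : p.β = q + q⁻¹) (hγ : p.γ = 0)
    (hγs : p.γs = 0) (t0 : D.t 0 = 1 + s * q) (t1 : D.t 1 = q⁻¹ + s * q * q) : AskL p D := by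
  obtain ⟨n1, n2, n3, n4⟩ := q_ne hq hq2
  obtain ⟨k, hk⟩ : ∃ k, κ = (1 - q) * k := ⟨κ / (1 - q), by field_simp⟩
  obtain ⟨w, hw⟩ : ∃ w, p.ω = -(1 - q) ^ 2 * w := ⟨-p.ω / (1 - q) ^ 2, by field_simp⟩
  obtain ⟨y, hy⟩ : ∃ y, (1 + q) * y = w + k := ⟨(w + k) / (1 + q), by field_simp⟩
  obtain ⟨a, c, h1, rfl⟩ := two_roots (w - y - s) y
  have eκ : κ = (q - 1) * (a + c + s - a * c * q) := by
    rw [hk]; linear_combination (q - 1) * (hy - h1)
  have eω : p.ω = -(1 - q) ^ 2 * (a + c + s + a * c) := by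
    rw [hw]; linear_combination (1 - q) ^ 2 * h1
  by_cases hb : 1 - a * q * q ^ D.d = 0
  · exact bqj2 (a := c) (c := a) hq hq2 h hβ hγ hγs t0 t1 (by rw [eκ]; ring) (by rw [eω]; ring)
      fun e => absurd hb e
  · exact bqj2 hq hq2 h hβ hγ hγs t0 t1 eκ eω fun _ => hb

theorem lqj1 {q s a : K} (hq : q ≠ 0) (hq2 : q ^ 2 ≠ 1) {κ : K}
    (h : Split p D 0 0 κ) (hβ : p.β = q + q⁻¹) (hγ : p.γ = 0)
    (hγs : p.γs = 0) (t0 : D.t 0 = 1 + s * q) (t1 : D.t 1 = q⁻¹ + s * q * q)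
    (hκ : κ = (q - 1) * (q⁻¹ - a)) (hω : p.ω = -(1 - q) ^ 2 * (1 + a) / q) : AskL p D := by
  subst hκ
  obtain ⟨n1, n2, n3, n4⟩ := q_ne hq hq2
  have hz := zpow_ne_zero D.d hq
  refine h.fin (Or.inr (Or.inr (Or.inr (Or.inl ⟨q, s, a, rfl⟩)))) ⟨hq, hq2, trivial⟩
    (lqj_kls s a hq hq2) hβ hγ hγs hω ?_ ?_ fun hH hne => ?_
  · rw [t0]; simp [littleqJacobi, qk, kls]
  · rw [t1]; simp [littleqJacobi, qk, kls]
  · have hH' := lqj_H q s a (q ^ D.d) hq hz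
    simp only [littleqJacobi, qk, kls, zpow_add_one₀ hq, zpow_zero] at hH hH' hne ⊢
    rw [hH'] at hH
    have f : (q ^ D.d)⁻¹ + s * q * q ^ D.d - (1⁻¹ + s * q * 1)
        = ((q ^ D.d)⁻¹ - 1) * (1 - s * q * q ^ D.d) := by field_simp; ring
    have g := ne_of_fac hne f
    by_contra hd
    exact mul_ne_zero (mul_ne_zero (mul_ne_zero (mul_ne_zero (neg_ne_zero.2 hz) hd) g)
      (div_ne_zero n3 hz)) (div_ne_zero n4 hz) hH

theorem qm1 {q : K} (hq : q ≠ 0) (hq2 : q ^ 2 ≠ 1) {κ : K}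
    (h : Split p D 1 q⁻¹ κ) (hβ : p.β = q + q⁻¹) (hγ : p.γ = 0)
    (hγs : p.γs = 0) (t0 : D.t 0 = 1) (t1 : D.t 1 = q) : AskL p D := by
  obtain ⟨n1, n2, n3, n4⟩ := q_ne hq hq2
  have hz := zpow_ne_zero D.d hq
  obtain ⟨k, hk⟩ : ∃ k, κ = (1 - q) * k / q := ⟨κ * q / (1 - q), by field_simp⟩
  obtain ⟨w, hw⟩ : ∃ w, p.ω = (1 - q) ^ 2 * w / q := ⟨p.ω * q / (1 - q) ^ 2, by field_simp⟩
  obtain ⟨e, he⟩ : ∃ e, (1 + q) * e = k - w := ⟨(k - w) / (1 + q), by field_simp⟩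
  obtain ⟨c, hc⟩ : ∃ c, c = w + e + 1 := ⟨_, rfl⟩
  have eκ : κ = (q - 1) * ((1 - c) / q - e) := by
    rw [hk, hc]; field_simp; linear_combination (q - 1) * he
  subst eκ
  refine h.fin (Or.inr (Or.inr (Or.inr (Or.inr (Or.inl ⟨q, c, e, rfl⟩))))) ⟨hq, hq2, trivial⟩
    (qm_kls c e hq hq2) hβ hγ hγs ?_ ?_ ?_ fun hH hne => ?_
  · rw [hw, hc]; simp only [qMeixner, qk, kls]; ring
  · rw [t0]; simp [qMeixner, qk, kls]
  · rw [t1]; simp [qMeixner, qk, kls]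
  · have hH' := qm_H q c e (q ^ D.d) hq hz
    simp only [qMeixner, qk, kls, zpow_add_one₀ hq, zpow_zero] at hH hH' hne ⊢
    rw [hH'] at hH
    by_contra hd
    exact div_ne_zero (mul_ne_zero (mul_ne_zero (neg_ne_zero.2 hd)
      (fun e => n3 (by linear_combination -e))) (fun e => n1 (by linear_combination -e))) hq hH

theorem ql1 {q a : K} (hq : q ≠ 0) (hq2 : q ^ 2 ≠ 1) {κ : K}
    (h : Split p D 0 0 κ) (hβ : p.β = q + q⁻¹) (hγ : p.γ = 0)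
    (hγs : p.γs = 0) (t0 : D.t 0 = 1) (t1 : D.t 1 = q)
    (hκ : κ = (q - 1) * (a - q⁻¹)) (hω : p.ω = (1 - q) ^ 2 * (1 + a) / q) : AskL p D := by
  subst hκ
  obtain ⟨n1, n2, n3, n4⟩ := q_ne hq hq2
  have hz := zpow_ne_zero D.d hq
  refine h.fin (Or.inr (Or.inr (Or.inr (Or.inr (Or.inr (Or.inl ⟨q, a, rfl⟩))))))
    ⟨hq, hq2, trivial⟩ (ql_kls a hq hq2) hβ hγ hγs hω ?_ ?_ fun hH hne => ?_
  · rw [t0]; simp [qLaguerre, qk, kls]
  · rw [t1]; simp [qLaguerre, qk, kls]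
  · have hH' := ql_H q a (q ^ D.d) hq hz
    simp only [qLaguerre, qk, kls, zpow_add_one₀ hq, zpow_zero] at hH hH' hne ⊢
    rw [hH'] at hH
    by_contra hd
    exact div_ne_zero (mul_ne_zero (mul_ne_zero (neg_ne_zero.2 hd)
      (fun e => n3 (by linear_combination -e))) (fun e => n1 (by linear_combination -e))) hq hH

/-- The centred situation with the exponential components of `t` named. -/
structure QForm (p : Par K) (D : Data K) (q h s : K) : Prop where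
  hq : q ≠ 0
  hq2 : q ^ 2 ≠ 1
  hβ : p.β = q + q⁻¹
  hγ : p.γ = 0
  hγs : p.γs = 0
  t0 : D.t 0 = h + s
  t1 : D.t 1 = h * q⁻¹ + s * q

theorem QForm.swap {q h s : K} (F : QForm p D q h s) : QForm p D q⁻¹ s h :=
  ⟨(q_inv F.hq F.hq2).1, (q_inv F.hq F.hq2).2, by rw [F.hβ, inv_inv, add_comm], F.hγ, F.hγs,
    by rw [F.t0, add_comm], by rw [F.t1, inv_inv, add_comm]⟩

theorem QForm.scale {q h s : K} (F : QForm p D q h s) (u u' : K) :
    QForm (p.aff u 0 u' 0) (D.aff u 0 u' 0) q (u' * h) (u' * s) :=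
  ⟨F.hq, F.hq2, F.hβ, by simp [Par.aff, F.hγ], by simp [Par.aff, F.hγs],
    by simp only [Data.aff, F.t0]; ring, by simp only [Data.aff, F.t1]; ring⟩

theorem QForm.ne {q s : K} (F : QForm p D q 0 s) (hB : Base p D) : s ≠ 0 := by
  rintro rfl
  exact hB.ne01 (by rw [F.t0, F.t1]; ring)

theorem Split.cast {θ θ1 κ θ' θ1' : K} (h : Split p D θ θ1 κ) (e : θ = θ') (e1 : θ1 = θ1') :
    Split p D θ' θ1' κ := e ▸ e1 ▸ h

theorem QForm.two {q h s U W κ : K} (F : QForm p D q h s) (hh : h ≠ 0) (hU : U ≠ 0) (hW : W ≠ 0)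
    (H : Split p D (U + W) (U * q⁻¹ + W * q) κ) : AskL p D := by
  obtain ⟨a, ha⟩ := sqrt_ex (W / U)
  have hq := F.hq
  have ha0 : a ≠ 0 := by
    rintro rfl
    exact div_ne_zero hW hU (by simpa using ha.symm)
  have hW' : W = U * a ^ 2 := by rw [ha]; field_simp
  have hu : (U * a)⁻¹ ≠ 0 := inv_ne_zero (mul_ne_zero hU ha0)
  have G := F.scale (U * a)⁻¹ h⁻¹
  refine AskL.of_aff hu (inv_ne_zero hh) (aw1 (σ := h⁻¹ * s) hq F.hq2 ha0
    ((H.aff 0 0 hu (inv_ne_zero hh)).cast ?_ ?_) G.hβ G.hγ G.hγs ?_ ?_)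
  · rw [hW']; field_simp; ring
  · rw [hW']; field_simp; ring
  · rw [G.t0, inv_mul_cancel₀ hh]
  · rw [G.t1, inv_mul_cancel₀ hh, one_mul]

theorem QForm.one {q h s U κ : K} (F : QForm p D q h s) (hU : U ≠ 0)
    (H : Split p D U (U * q⁻¹) κ) : AskL p D := by
  have hq := F.hq
  have hu := inv_ne_zero hU
  by_cases hh : h = 0
  · subst hh
    have hs := F.ne H.toBase
    have G := F.scale U⁻¹ s⁻¹
    refine AskL.of_aff hu (inv_ne_zero hs) (qm1 hq F.hq2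
      ((H.aff 0 0 hu (inv_ne_zero hs)).cast ?_ ?_) G.hβ G.hγ G.hγs ?_ ?_)
    · field_simp; ring
    · field_simp; ring
    · rw [G.t0]; field_simp; ring
    · rw [G.t1]; field_simp; ring
  · have G := F.scale U⁻¹ h⁻¹
    refine AskL.of_aff hu (inv_ne_zero hh) (bqj1 (s := h⁻¹ * s / q) hq F.hq2
      ((H.aff 0 0 hu (inv_ne_zero hh)).cast ?_ ?_) G.hβ G.hγ G.hγs ?_ ?_)
    · field_simp; ring
    · field_simp; ring
    · rw [G.t0]; field_simp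
    · rw [G.t1]; field_simp

theorem QForm.zero {q h s E E' κ : K} (F : QForm p D q h s) (hE : E ≠ 0) (H : Split p D 0 0 κ)
    (hκ : κ = E * (q⁻¹ - 1) + E' * (q - 1)) (hω : p.ω = (q + q⁻¹ - 2) * (E + E')) :
    AskL p D := by
  have hq := F.hq
  by_cases hh : h = 0
  · subst hh
    have hs := F.ne H.toBase
    have hu : s / E ≠ 0 := div_ne_zero hs hE
    have G := F.scale (s / E) s⁻¹
    refine AskL.of_aff hu (inv_ne_zero hs) (ql1 (a := E' / E) hq F.hq2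
      ((H.aff 0 0 hu (inv_ne_zero hs)).cast ?_ ?_) G.hβ G.hγ G.hγs ?_ ?_ ?_ ?_)
    · ring
    · ring
    · rw [G.t0]; field_simp; ring
    · rw [G.t1]; field_simp; ring
    · rw [hκ]; field_simp; ring
    · simp only [Par.aff, hω]; field_simp; ring
  · have hu : -h / E ≠ 0 := div_ne_zero (neg_ne_zero.2 hh) hE
    have G := F.scale (-h / E) h⁻¹
    refine AskL.of_aff hu (inv_ne_zero hh) (lqj1 (s := h⁻¹ * s / q) (a := E' / E) hq F.hq2
      ((H.aff 0 0 hu (inv_ne_zero hh)).cast ?_ ?_) G.hβ G.hγ G.hγs ?_ ?_ ?_ ?_)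
    · ring
    · ring
    · rw [G.t0]; field_simp
    · rw [G.t1]; field_simp
    · rw [hκ]; field_simp; ring
    · simp only [Par.aff, hω]; field_simp; ring

theorem exp_parts {q : K} (hq : q ≠ 0) (hq2 : q ^ 2 ≠ 1) (x y : K) :
    ∃ U W, x = U + W ∧ y = U * q⁻¹ + W * q := by
  obtain ⟨-, -, n3, -⟩ := q_ne hq hq2
  obtain ⟨U, hU⟩ : ∃ U, U * (q⁻¹ - q) = y - x * q := ⟨(y - x * q) / (q⁻¹ - q), by field_simp⟩
  exact ⟨U, x - U, by ring, by linear_combination -hU⟩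

theorem QForm.ask {q h s θ θ1 κ : K} (F : QForm p D q h s) (H : Split p D θ θ1 κ) : AskL p D := by
  obtain ⟨U, W, rfl, rfl⟩ := exp_parts F.hq F.hq2 θ θ1
  by_cases hU : U = 0 <;> by_cases hW : W = 0
  · subst hU hW
    have H' := H.cast (θ' := 0) (θ1' := 0) (by ring) (by ring)
    obtain ⟨n1, n2, n3, n4⟩ := q_ne F.hq F.hq2
    have hq := F.hq
    obtain ⟨w, hw⟩ : ∃ w, p.ω = (q + q⁻¹ - 2) * w := ⟨p.ω * q / (1 - q) ^ 2, by field_simp; ring⟩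
    obtain ⟨E, E', rfl, h2⟩ := exp_parts F.hq F.hq2 w (κ + w)
    by_cases hE : E = 0
    · refine F.swap.zero (E := E') (E' := E) ?_ H' (by rw [inv_inv]; linear_combination h2)
        (by rw [inv_inv, hw]; ring)
      rintro rfl
      exact H'.L0 (by simp only [Lf]; linear_combination h2 + (q⁻¹ - 1) * hE)
    · exact F.zero hE H' (by linear_combination h2) hw
  · subst hU
    exact F.swap.one hW (H.cast (by ring) (by rw [inv_inv]; ring))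
  · subst hW
    exact F.one hU (H.cast (by ring) (by ring))
  · by_cases hh : h = 0
    · subst hh
      exact F.swap.two (F.ne H.toBase) hW hU (H.cast (by ring) (by rw [inv_inv]; ring))
    · exact F.two hh hU hW H

theorem QForm.cyc1 {q s : K} (F : QForm p D q 1 s) (H : Base p D) (hc : D.Cyc)
    (hρ : p.ρ = -(q - q⁻¹) ^ 2) : AskL p D := by
  have hq := F.hq
  obtain ⟨n1, n2, n3, n4⟩ := q_ne hq F.hq2
  rcases root4_ne ((q⁻¹ - q) * -(q⁻¹ - 1)) (D.a 0 * (D.t 0 - D.t 1) * (1 - q⁻¹) - p.ω)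
    ((q⁻¹ - q) * (1 - q) + s * (q - q⁻¹) * (1 - q⁻¹) - p.η)
    (D.a 0 * (D.t 0 - D.t 1) * (1 - q) - p.ω) (s * -(q⁻¹ - q) * (1 - q))
    (mul_ne_zero n3 (neg_ne_zero.2 n4)) with ⟨c3, c2, c1, c0⟩ | ⟨a, ha, hr⟩
  · have hs : s = 0 := by
      by_contra hs
      exact mul_ne_zero (mul_ne_zero hs (neg_ne_zero.2 n3)) n1 c0
    subst hs
    have a0 : D.a 0 = 0 := by
      apply mul_right_cancel₀ (mul_ne_zero H.ne01 n3)
      linear_combination c1 - c3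
    have hω : p.ω = 0 := by rw [a0] at c1; linear_combination -c1
    have t0 : D.t 0 = 1 := by rw [F.t0]; ring
    have t1 : D.t 1 = q⁻¹ := by rw [F.t1]; ring
    have hp : p = (contqHermite q).par := by
      have g0 := H.nice.e2 0 H.nice.in0
      have q0 := H.nice.con 0
      have b1 := F.hβ
      have b2 := F.hγ
      have b3 := F.hγs
      rw [a0] at g0
      rw [zero_add, t0, t1] at q0
      obtain ⟨β, γ, γs, ρ, ρs, ω, η, ηs⟩ := p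
      simp only [Par.Q, Par.G] at *
      subst b1 b2 b3 hω hρ
      simp only [contqHermite, Par.mk.injEq, true_and]
      refine ⟨?_, ?_, ?_⟩
      · linear_combination -q0 - mul_inv_cancel₀ hq
      · rw [← sub_eq_zero, ← neg_eq_zero, ← c2]; field_simp; ring
      · linear_combination -g0
    refine H.fin (Or.inr (Or.inl ⟨q, rfl⟩)) ⟨hq, F.hq2⟩ hp (funext (rec_unique H.nice.rec'
      (fun i => ?_) ?_ ?_)) a0 (Or.inl hc)
    · have := zpow_ne_zero i hq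
      simp only [contqHermite, zpow_add_one₀ hq, zpow_sub_one₀ hq, F.hβ, F.hγs]; field_simp; ring
    · simp [contqHermite, t0]
    · simp [contqHermite, t1]
  · refine F.ask (H.split (θ := a + a⁻¹) (θ1 := a * q + (a * q)⁻¹) ?_ ?_ hc)
    · simp only [Par.Qd, F.hβ, F.hγ, hρ]; field_simp; ring
    · apply mul_left_cancel₀ (pow_ne_zero 2 ha)
      rw [mul_zero, ← hr]
      simp only [Par.Kd, Data.kap, F.hβ, F.hγ, F.hγs]
      generalize D.a 0 * (D.t 0 - D.t 1) = m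
      rw [F.t0, F.t1]
      field_simp; ring

theorem QForm.cyc {q h s : K} (F : QForm p D q h s) (hh : h ≠ 0) (H : Base p D) (hc : D.Cyc) :
    AskL p D := by
  have hq := F.hq
  obtain ⟨n1, n2, n3, n4⟩ := q_ne hq F.hq2
  by_cases hρ : p.ρ = 0
  · obtain ⟨θ, hθ⟩ := root2 (h * (q⁻¹ - q) * -(q⁻¹ - 1))
      (D.a 0 * (D.t 0 - D.t 1) * (1 - q⁻¹) - p.ω) (-p.η)
      (Or.inl (mul_ne_zero (mul_ne_zero hh n3) (neg_ne_zero.2 n4)))
    refine F.ask (H.split (θ := θ) (θ1 := θ * q) ?_ ?_ hc)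
    · simp only [Par.Qd, F.hβ, F.hγ, hρ]; field_simp; ring
    · rw [← hθ]
      simp only [Par.Kd, Data.kap, F.hβ, F.hγ, F.hγs]
      generalize D.a 0 * (D.t 0 - D.t 1) = m
      rw [F.t0, F.t1]
      field_simp; ring
  · obtain ⟨u, hu⟩ := sqrt_ex (-(q - q⁻¹) ^ 2 / p.ρ)
    have hu0 : u ≠ 0 := by
      rintro rfl
      refine div_ne_zero (neg_ne_zero.2 (pow_ne_zero 2 ?_)) hρ (by simpa using hu.symm)
      exact fun e => n3 (by linear_combination -e)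
    have G := F.scale u h⁻¹
    rw [inv_mul_cancel₀ hh] at G
    refine AskL.of_aff hu0 (inv_ne_zero hh) (G.cyc1 (H.aff 0 0 hu0 (inv_ne_zero hh))
      (hc.aff _ _ _ _) ?_)
    simp only [Par.aff, hu]; field_simp; ring

theorem Base.ask_q (H : Base p D) (h2 : p.β ≠ 2) (h2' : p.β ≠ -2) : AskL p D := by
  obtain ⟨q, hq⟩ := root2 1 (-p.β) 1 (Or.inl one_ne_zero)
  have hq0 : q ≠ 0 := by rintro rfl; simp at hq
  have hβ : p.β = q + q⁻¹ := by field_simp; linear_combination -hq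
  have hq2 : q ^ 2 ≠ 1 := by
    intro e
    rcases sq_eq_one_iff.1 e with e' | e'
    · exact h2 (by rw [hβ, e']; norm_num)
    · exact h2' (by rw [hβ, e']; norm_num)
  have n2 : 2 - p.β ≠ 0 := sub_ne_zero.2 h2.symm
  have H' := H.aff (u := 1) (u' := 1) (-p.γ / (2 - p.β)) (-p.γs / (2 - p.β)) one_ne_zero one_ne_zero
  refine AskL.of_aff one_ne_zero one_ne_zero (v := -p.γ / (2 - p.β)) (v' := -p.γs / (2 - p.β)) ?_
  obtain ⟨h, s, e0, e1⟩ := exp_parts hq0 hq2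
    ((D.aff 1 (-p.γ / (2 - p.β)) 1 (-p.γs / (2 - p.β))).t 0)
    ((D.aff 1 (-p.γ / (2 - p.β)) 1 (-p.γs / (2 - p.β))).t 1)
  have F : QForm (p.aff 1 (-p.γ / (2 - p.β)) 1 (-p.γs / (2 - p.β))) _ q h s :=
    ⟨hq0, hq2, hβ, by simp only [Par.aff]; field_simp; ring,
      by simp only [Par.aff]; field_simp; ring, e0, e1⟩
  by_cases hc : (D.aff 1 (-p.γ / (2 - p.β)) 1 (-p.γs / (2 - p.β))).Cyc
  · by_cases hh : h = 0
    · subst hh
      exact F.swap.cyc (F.ne H') H' hc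
    · exact F.cyc hh H' hc
  · obtain ⟨θ, θ1, κ, S⟩ := H'.split_fin hc
    exact F.ask S

end Pool.Agent.P.MP_af5c07_al
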