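import Mathlib
import Pool.Agent.P.MP_af5c07_al.AskNecQ

/-!
Sorting into families for `β = 2` in characteristic not two.
-/

set_option linter.unusedSectionVars false
set_option linter.unusedVariables false

namespace Pool.Agent.P.MP_af5c07_al

variable {K : Type*} [Field K] [IsAlgClosed K] {p : Par K} {D : Data K}

theorem fam7 {S : Scheme K} (h : (∃ a b c d, S = wilson a b c d) ∨ (∃ a b c, S = contDualHahn a b c) ∨
    (∃ a b c d, S = contHahn a b c d) ∨ (∃ b c, S = meixner b c) ∨ (∃ a, S = charlier a) ∨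
    (∃ a b, S = jacobi a b) ∨ (∃ a, S = bessel a) ∨ (∃ a, S = laguerre a) ∨ S = hermite ∨
    (∃ a b c d, S = bannaiIto a b c d) ∨ (∃ g e f r, S = minusOneJacobi g e f r) ∨
    (∃ s g r k w, S = orphan s g r k w)) : IsFamily S :=
  Or.inr (Or.inr (Or.inr (Or.inr (Or.inr (Or.inr h)))))

/-- Normal form of the eigenvalues for `β = 2`. -/
structure NForm (p : Par K) (D : Data K) (g σ : K) : Prop where
  h2 : (2 : K) ≠ 0
  hβ : p.β = 2
  hγs : p.γs = g
  t0 : D.t 0 = 0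
  t1 : D.t 1 = σ

theorem NForm.aff {g σ : K} (F : NForm p D g σ) (u v : K) :
    NForm (p.aff u v 1 0) (D.aff u v 1 0) g σ :=
  ⟨F.h2, F.hβ, by simp [Par.aff, F.hγs], by simp [Data.aff, F.t0], by simp [Data.aff, F.t1]⟩

theorem wil2 {a b c d σ κ : K} (F : NForm p D 2 σ) (h : Split p D (a ^ 2) ((a + 1) ^ 2) κ)
    (hγ : p.γ = 2) (hσ : σ = a + (b + c + d))
    (hκ : κ = a ^ 3 + a ^ 2 * (b + c + d) + a * (b * c + b * d + c * d) + b * c * d)
    (hω : p.ω = 2 * (a * (b + c + d) + (b * c + b * d + c * d)) - σ)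
    (hb : (D.d : K) + a + d ≠ 0 → (D.d : K) + a + b ≠ 0 ∧ (D.d : K) + a + c ≠ 0) : AskL p D := by
  have eκ : κ = (a + b) * (a + c) * (a + d) := by rw [hκ]; ring
  subst eκ
  refine h.fin (fam7 (Or.inl ⟨a, b, c, d, rfl⟩)) ⟨F.h2, trivial⟩ (wil_kls a b c d F.h2) F.hβ hγ
    F.hγs ?_ ?_ ?_ fun hH hne => ?_
  · rw [hω, hσ]; simp only [wilson, nk, kls]; ring
  · rw [F.t0]; simp [wilson, nk, kls]
  · rw [F.t1, hσ]; simp only [wilson, nk, kls]; push_cast; ring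
  · have hH' := wil_H a b c d D.d
    simp only [wilson, nk, kls] at hH hH' hne ⊢
    push_cast at hH hne
    rw [hH'] at hH
    have g := ne_of_fac (c := (D.d : K)) (D := (D.d : K) + a + b + c + d - 1) hne (by ring)
    by_contra hd
    obtain ⟨g1, g2⟩ := hb hd
    exact mul_ne_zero (mul_ne_zero (mul_ne_zero (mul_ne_zero (mul_ne_zero g1 g2) hd) g) F.h2)
      one_ne_zero hH

theorem wil1 {a σ κ : K} (F : NForm p D 2 σ) (h : Split p D (a ^ 2) ((a + 1) ^ 2) κ)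
    (hγ : p.γ = 2) : AskL p D := by
  have h2 := F.h2
  obtain ⟨f2, e2⟩ : ∃ f2, p.ω = 2 * (a * (σ - a) + f2) - σ :=
    ⟨(p.ω + σ) / 2 - a * (σ - a), by field_simp; ring⟩
  obtain ⟨b, c, d, e1, rfl, e3⟩ := three_roots (σ - a) f2 (κ - a ^ 3 - a ^ 2 * (σ - a) - a * f2)
  rw [← e1] at e2 e3
  by_cases hb : (D.d : K) + a + b = 0
  · exact wil2 (b := d) (c := c) (d := b) F h hγ (by linear_combination -e1)
      (by linear_combination -e3) (by linear_combination e2) fun e => absurd hb e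
  by_cases hc : (D.d : K) + a + c = 0
  · exact wil2 (b := b) (c := d) (d := c) F h hγ (by linear_combination -e1)
      (by linear_combination -e3) (by linear_combination e2) fun e => absurd hc e
  · exact wil2 F h hγ (by linear_combination -e1) (by linear_combination -e3) e2 fun _ => ⟨hb, hc⟩

theorem cdh2 {a b c κ : K} (F : NForm p D 0 1) (h : Split p D (a ^ 2) ((a + 1) ^ 2) κ)
    (hγ : p.γ = 2) (hκ : κ = (a + b) * (a + c)) (hω : p.ω = 2 * (a + b + c) - 1)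
    (hb : (D.d : K) + a + c ≠ 0 → (D.d : K) + a + b ≠ 0) : AskL p D := by
  subst hκ
  refine h.fin (fam7 (Or.inr (Or.inl ⟨a, b, c, rfl⟩))) ⟨F.h2, trivial⟩ (cdh_kls a b c F.h2) F.hβ hγ
    F.hγs hω ?_ ?_ fun hH hne => ?_
  · rw [F.t0]; simp [contDualHahn, nk, kls]
  · rw [F.t1]; simp [contDualHahn, nk, kls]
  · have hH' := cdh_H a b c D.d
    simp only [contDualHahn, nk, kls] at hH hH' hne ⊢
    push_cast at hH hne
    rw [hH'] at hH
    by_contra hd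
    exact mul_ne_zero (mul_ne_zero (hb hd) hd) F.h2 hH

theorem cdh1 {a κ : K} (F : NForm p D 0 1) (h : Split p D (a ^ 2) ((a + 1) ^ 2) κ)
    (hγ : p.γ = 2) : AskL p D := by
  have h2 := F.h2
  obtain ⟨f1, e1⟩ : ∃ f1, p.ω = 2 * (a + f1) - 1 := ⟨(p.ω + 1) / 2 - a, by field_simp; ring⟩
  obtain ⟨b, c, rfl, e2⟩ := two_roots f1 (κ - a ^ 2 - a * f1)
  by_cases hb : (D.d : K) + a + b = 0
  · exact cdh2 (b := c) (c := b) F h hγ (by linear_combination -e2) (by linear_combination e1)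
      fun e => absurd hb e
  · exact cdh2 (b := b) (c := c) F h hγ (by linear_combination -e2) (by linear_combination e1)
      fun _ => hb

theorem ch2 {b c d σ κ : K} (F : NForm p D 2 σ) (h : Split p D (-0) (-0 - 1) κ)
    (hγ : p.γ = 0) (hσ : σ = b + c + d) (hκ : κ = -(0 + c) * (0 + d)) (hω : p.ω = 0 + b - c - d)
    (hb : (D.d : K) + 0 + d ≠ 0 → (D.d : K) + 0 + c ≠ 0) : AskL p D := by
  subst hκ
  refine h.fin (fam7 (Or.inr (Or.inr (Or.inl ⟨0, b, c, d, rfl⟩)))) ⟨F.h2, trivial⟩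
    (ch_kls 0 b c d F.h2) F.hβ hγ F.hγs hω ?_ ?_ fun hH hne => ?_
  · rw [F.t0]; simp [contHahn, nk, kls]
  · rw [F.t1, hσ]; simp only [contHahn, nk, kls]; push_cast; ring
  · have hH' := ch_H 0 b c d (D.d : K)
    simp only [contHahn, nk, kls] at hH hH' hne ⊢
    push_cast at hH hne
    rw [hH'] at hH
    have g := ne_of_fac (c := (D.d : K)) (D := (D.d : K) + 0 + b + c + d - 1) hne (by ring)
    by_contra hd
    exact mul_ne_zero (mul_ne_zero (mul_ne_zero (mul_ne_zero (neg_ne_zero.2 (hb hd)) hd) g) F.h2)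
      one_ne_zero hH

theorem ch1 {σ κ : K} (F : NForm p D 2 σ) (h : Split p D (-0) (-0 - 1) κ) (hγ : p.γ = 0) :
    AskL p D := by
  have h2 := F.h2
  obtain ⟨f1, e1⟩ : ∃ f1, p.ω = σ - 2 * f1 := ⟨(σ - p.ω) / 2, by field_simp; ring⟩
  obtain ⟨c, d, rfl, e2⟩ := two_roots f1 (-κ)
  by_cases hb : (D.d : K) + 0 + c = 0
  · exact ch2 (b := σ - c - d) (c := d) (d := c) F h hγ (by ring) (by linear_combination e2)
      (by linear_combination e1) fun e => absurd hb e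
  · exact ch2 (b := σ - c - d) (c := c) (d := d) F h hγ (by ring) (by linear_combination e2)
      (by linear_combination e1) fun _ => hb

theorem NForm.lin {θ θ1 κ : K} (F : NForm p D 0 1) (h : Split p D θ θ1 κ) (hγ : p.γ = 0) :
    p.ω ≠ θ1 - θ := by
  have r0 := h.nice.rec' 0
  have r1 := h.nice.rec' 1
  norm_num [F.hβ, F.hγs, F.t0, F.t1] at r0 r1
  have a0 := h.H0
  have a1 := h.H10 (by rw [F.t0, r1]; exact F.h2.symm)
  have tm : D.t (-1) = -1 := by linear_combination r0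
  simp only [Par.Hf, Par.G, Lf, F.hβ, F.hγs, F.t0, F.t1, tm, hγ] at a0 a1
  exact fun e => a1 (by linear_combination a0 + e)

theorem mei1 {κ : K} (F : NForm p D 0 1) (h : Split p D 0 1 κ) (hγ : p.γ = 0) : AskL p D := by
  have h2 := F.h2
  have hω : p.ω - 1 ≠ 0 := sub_ne_zero.2 (by simpa using F.lin h hγ)
  by_cases hc : p.ω + 1 = 0
  · have L0 := h.L0
    have hk := cha_kls (-κ) h2
    rw [neg_neg] at hk
    refine h.fin (fam7 (Or.inr (Or.inr (Or.inr (Or.inr (Or.inl ⟨-κ, rfl⟩)))))) ⟨h2, trivial⟩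
      hk F.hβ hγ F.hγs (by simp only [charlier, nk, kls]; linear_combination hc) ?_ ?_
      fun hH hne => ?_
    · rw [F.t0]; simp [charlier, nk, kls]
    · rw [F.t1]; simp [charlier, nk, kls]
    · have hH' := cha_H (-κ) (D.d : K)
      simp only [charlier, nk, kls, neg_neg] at hH hH'
      push_cast at hH
      rw [hH'] at hH
      rw [F.t0] at L0
      exact absurd hH (mul_ne_zero (by simpa [Lf] using L0) h2)
  · obtain ⟨c, ec⟩ : ∃ c, c = (p.ω + 1) / (p.ω - 1) := ⟨_, rfl⟩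
    have c1 : c - 1 = 2 / (p.ω - 1) := by rw [ec]; field_simp; ring
    have c0 : c ≠ 0 := by rw [ec]; exact div_ne_zero hc hω
    have c2 : c - 1 ≠ 0 := by rw [c1]; exact div_ne_zero h2 hω
    obtain ⟨b, eb⟩ : ∃ b, κ = b * c / (c - 1) := ⟨κ * (c - 1) / c, by field_simp⟩
    subst eb
    refine h.fin (fam7 (Or.inr (Or.inr (Or.inr (Or.inl ⟨b, c, rfl⟩))))) ⟨h2, sub_ne_zero.1 c2⟩
      (mei_kls b c h2 c2) F.hβ hγ F.hγs ?_ ?_ ?_ fun hH hne => ?_
    · simp only [meixner, nk, kls]; rw [c1, ec]; field_simp; ring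
    · rw [F.t0]; simp [meixner, nk, kls]
    · rw [F.t1]; simp [meixner, nk, kls]
    · have hH' := mei_H b c (D.d : K) c2
      simp only [meixner, nk, kls] at hH hH' ⊢
      push_cast at hH
      rw [hH'] at hH
      by_contra hd
      exact mul_ne_zero (div_ne_zero (mul_ne_zero c0 hd) c2) h2 hH

theorem jac1 {σ κ : K} (F : NForm p D 2 σ) (h : Split p D 1 1 κ) (hγ : p.γ = 0) (hω : p.ω = 0) :
    AskL p D := by
  have h2 := F.h2
  obtain ⟨a, rfl⟩ : ∃ a, κ = 2 * (a + 1) := ⟨κ / 2 - 1, by field_simp; ring⟩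
  obtain ⟨b, rfl⟩ : ∃ b, σ = a + b + 2 := ⟨σ - a - 2, by ring⟩
  refine h.fin (fam7 (Or.inr (Or.inr (Or.inr (Or.inr (Or.inr (Or.inl ⟨a, b, rfl⟩)))))))
    ⟨h2, trivial⟩ (jac_kls a b h2) F.hβ hγ F.hγs hω ?_ ?_ fun hH hne => ?_
  · rw [F.t0]; simp [jacobi, nk, kls]
  · rw [F.t1]; simp only [jacobi, nk, kls]; push_cast; ring
  · have hH' := jac_H a b (D.d : K)
    simp only [jacobi, nk, kls] at hH hH' hne ⊢
    push_cast at hH hne
    rw [hH'] at hH
    have g := ne_of_fac (c := (D.d : K)) (D := (D.d : K) + a + b + 1) hne (by ring)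
    by_contra hd
    exact mul_ne_zero (mul_ne_zero (mul_ne_zero (mul_ne_zero h2 hd) g) h2) one_ne_zero hH

theorem bes1 {σ : K} (F : NForm p D 2 σ) (h : Split p D 0 0 2) (hγ : p.γ = 0) (hω : p.ω = 0) :
    AskL p D := by
  have h2 := F.h2
  obtain ⟨a, rfl⟩ : ∃ a, σ = a + 2 := ⟨σ - 2, by ring⟩
  refine h.fin (fam7 (Or.inr (Or.inr (Or.inr (Or.inr (Or.inr (Or.inr (Or.inl ⟨a, rfl⟩))))))))
    ⟨h2, trivial⟩ (bes_kls a h2) F.hβ hγ F.hγs hω ?_ ?_ fun hH hne => ?_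
  · rw [F.t0]; simp [bessel, nk, kls]
  · rw [F.t1]; simp only [bessel, nk, kls]; push_cast; ring
  · have hH' := bes_H a (D.d : K)
    simp only [bessel, nk, kls] at hH hH' hne ⊢
    push_cast at hH hne
    rw [hH'] at hH
    have g := ne_of_fac (c := (D.d : K)) (D := (D.d : K) + a + 1) hne (by ring)
    exact absurd hH (mul_ne_zero (mul_ne_zero (mul_ne_zero h2 g) h2) one_ne_zero)

theorem lag1 {κ : K} (F : NForm p D 0 1) (h : Split p D 0 0 κ) (hγ : p.γ = 0) (hω : p.ω = -2) :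
    AskL p D := by
  have h2 := F.h2
  obtain ⟨a, rfl⟩ : ∃ a, κ = -(a + 1) := ⟨-κ - 1, by ring⟩
  refine h.fin (fam7 (Or.inr (Or.inr (Or.inr (Or.inr (Or.inr (Or.inr (Or.inr
    (Or.inl ⟨a, rfl⟩))))))))) ⟨h2, trivial⟩ (lag_kls a h2) F.hβ hγ F.hγs hω ?_ ?_ fun hH hne => ?_
  · rw [F.t0]; simp [laguerre, nk, kls]
  · rw [F.t1]; simp [laguerre, nk, kls]
  · have hH' := lag_H a (D.d : K)
    simp only [laguerre, nk, kls] at hH hH' hne ⊢
    push_cast at hH hne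
    rw [hH'] at hH
    by_contra hd
    exact mul_ne_zero (neg_ne_zero.2 hd) h2 hH

theorem Split.cast' {θ θ1 κ κ' : K} (h : Split p D θ θ1 κ) (e : κ = κ') : Split p D θ θ1 κ' :=
  e ▸ h

theorem NForm.ask {g σ θ θ1 κ : K} (F : NForm p D g σ) (hg : g = 2 ∨ (g = 0 ∧ σ = 1))
    (H : Split p D θ θ1 κ) : AskL p D := by
  have h2 := F.h2
  have h4 := four_ne h2
  by_cases hγ : p.γ = 0
  swap
  · have hu : 2 / p.γ ≠ 0 := div_ne_zero h2 hγ
    obtain ⟨a, ha⟩ : ∃ a, 2 / p.γ * (θ1 - θ) = 2 * a + 1 :=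
      ⟨(2 / p.γ * (θ1 - θ) - 1) / 2, by field_simp; ring⟩
    have H' := (H.aff (a ^ 2 - 2 / p.γ * θ) 0 hu one_ne_zero).cast (θ' := a ^ 2)
      (θ1' := (a + 1) ^ 2) (by ring) (by linear_combination ha)
    have e : (p.aff (2 / p.γ) (a ^ 2 - 2 / p.γ * θ) 1 0).γ = 2 := by
      simp only [Par.aff, F.hβ]; field_simp; ring
    refine AskL.of_aff hu one_ne_zero (v := a ^ 2 - 2 / p.γ * θ) (v' := 0) ?_
    rcases hg with rfl | ⟨rfl, rfl⟩
    · exact wil1 (F.aff _ _) H' e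
    · exact cdh1 (F.aff _ _) H' e
  have e : ∀ u v, (p.aff u v 1 0).γ = 0 := fun u v => by simp [Par.aff, F.hβ, hγ]
  by_cases hθ : θ1 - θ = 0
  swap
  · rcases hg with rfl | ⟨rfl, rfl⟩
    · have hu : -(θ1 - θ)⁻¹ ≠ 0 := neg_ne_zero.2 (inv_ne_zero hθ)
      exact AskL.of_aff hu one_ne_zero (ch1 (F.aff _ _)
        ((H.aff ((θ1 - θ)⁻¹ * θ) 0 hu one_ne_zero).cast (by ring) (by field_simp; ring)) (e _ _))
    · have hu : (θ1 - θ)⁻¹ ≠ 0 := inv_ne_zero hθ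
      exact AskL.of_aff hu one_ne_zero (mei1 (F.aff _ _)
        ((H.aff (-(θ1 - θ)⁻¹ * θ) 0 hu one_ne_zero).cast (by ring) (by field_simp; ring)) (e _ _))
  obtain rfl : θ1 = θ := sub_eq_zero.1 hθ
  rcases hg with rfl | ⟨rfl, rfl⟩
  · by_cases hω : p.ω + 4 * θ1 = 0
    · have hκ : κ ≠ 0 := by simpa [Lf] using H.L0
      have hu : 2 / κ ≠ 0 := div_ne_zero h2 hκ
      refine AskL.of_aff hu one_ne_zero (bes1 (F.aff _ _)
        (((H.aff (-(2 / κ) * θ1) 0 hu one_ne_zero).cast (by ring) (by ring)).cast'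
          (by field_simp; ring)) (e _ _) ?_)
      simp only [Par.aff, F.hγs, F.hβ]; linear_combination 2 / κ * hω
    · have hu : 4 / (p.ω + 4 * θ1) ≠ 0 := div_ne_zero h4 hω
      refine AskL.of_aff hu one_ne_zero (jac1 (F.aff _ _)
        ((H.aff (p.ω / (p.ω + 4 * θ1)) 0 hu one_ne_zero).cast (by field_simp; ring)
          (by field_simp; ring)) (e _ _) ?_)
      simp only [Par.aff, F.hγs, F.hβ]; ring
  · have hω : p.ω ≠ 0 := by simpa using F.lin H hγ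
    have hu : -2 / p.ω ≠ 0 := div_ne_zero (neg_ne_zero.2 h2) hω
    refine AskL.of_aff hu one_ne_zero (lag1 (F.aff _ _)
      ((H.aff (2 / p.ω * θ1) 0 hu one_ne_zero).cast (by ring) (by ring)) (e _ _) ?_)
    simp only [Par.aff, F.hγs, F.hβ]; field_simp; ring

theorem her1 (F : NForm p D 0 1) (H : Base p D) (hc : D.Cyc) (hγ : p.γ = 0) (hρ : p.ρ = 0)
    (hω : p.ω = 0) (hη : p.η = -1) (a0 : D.a 0 = 0) : AskL p D := by
  have hp : p = (hermite : Scheme K).par := by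
    have g0 := H.nice.e2 0 H.nice.in0
    have q0 := H.nice.con 0
    have b1 := F.hβ
    have b3 := F.hγs
    rw [a0] at g0
    rw [zero_add, F.t0, F.t1] at q0
    obtain ⟨β, γ, γs, ρ, ρs, ω, η, ηs⟩ := p
    simp only [Par.Q, Par.G] at *
    subst b1 b3 hω hρ hγ hη
    simp only [hermite, Par.mk.injEq, true_and]
    exact ⟨by linear_combination -q0, by linear_combination -g0⟩
  refine H.fin (fam7 (Or.inr (Or.inr (Or.inr (Or.inr (Or.inr (Or.inr (Or.inr (Or.inr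
    (Or.inl rfl)))))))))) F.h2 hp (funext (rec_unique H.nice.rec' (fun i => ?_) ?_ ?_)) a0
    (Or.inl hc)
  · simp only [hermite, F.hβ, F.hγs]; push_cast; ring
  · simp [hermite, F.t0]
  · simp [hermite, F.t1]

theorem NForm.cyc {g σ : K} (F : NForm p D g σ) (hg : g = 2 ∨ (g = 0 ∧ σ = 1)) (H : Base p D)
    (hc : D.Cyc) : AskL p D := by
  have h2 := F.h2
  have h4 := four_ne h2
  by_cases hγ : p.γ = 0
  swap
  · have hu : 2 / p.γ ≠ 0 := div_ne_zero h2 hγ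
    refine AskL.of_aff hu one_ne_zero (v := (p.ρ * (2 / p.γ) ^ 2 + 1) / 4) (v' := 0) ?_
    have F' := F.aff (2 / p.γ) ((p.ρ * (2 / p.γ) ^ 2 + 1) / 4)
    have H' := H.aff ((p.ρ * (2 / p.γ) ^ 2 + 1) / 4) 0 hu one_ne_zero
    have hc' := hc.aff (2 / p.γ) ((p.ρ * (2 / p.γ) ^ 2 + 1) / 4) 1 0
    have e1 : (p.aff (2 / p.γ) ((p.ρ * (2 / p.γ) ^ 2 + 1) / 4) 1 0).γ = 2 := by
      simp only [Par.aff, F.hβ]; field_simp; ring
    have e2 : (p.aff (2 / p.γ) ((p.ρ * (2 / p.γ) ^ 2 + 1) / 4) 1 0).ρ = -1 := by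
      simp only [Par.aff, F.hβ]; field_simp; ring
    generalize p.aff (2 / p.γ) ((p.ρ * (2 / p.γ) ^ 2 + 1) / 4) 1 0 = p' at *
    generalize D.aff (2 / p.γ) ((p.ρ * (2 / p.γ) ^ 2 + 1) / 4) 1 0 = D' at *
    obtain ⟨a, ha⟩ := root4 (-g) (2 * σ) (-σ - p'.ω) (2 * (D'.a 0 * (D'.t 0 - D'.t 1)))
      (-(D'.a 0 * (D'.t 0 - D'.t 1)) - p'.η) (by
        rcases hg with rfl | ⟨-, rfl⟩
        · exact Or.inl (neg_ne_zero.2 h2)
        · exact Or.inr (Or.inl (by simpa using h2)))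
    refine F'.ask hg (H'.split (θ := a ^ 2) (θ1 := (a + 1) ^ 2) ?_ ?_ hc')
    · simp only [Par.Qd, F'.hβ, e1, e2]; ring
    · rw [← ha]
      simp only [Par.Kd, Data.kap, F'.hβ, e1, F'.hγs]
      generalize D'.a 0 * (D'.t 0 - D'.t 1) = m
      rw [F'.t0, F'.t1]; ring
  have key : ∀ r, r ^ 2 = p.ρ → (∃ θ, -g * θ ^ 2 + (σ * r - p.ω) * θ
      + (D.a 0 * (D.t 0 - D.t 1) * r - p.η) = 0) → AskL p D := by
    rintro r hr ⟨θ, hθ⟩
    refine F.ask hg (H.split (θ := θ) (θ1 := θ + r) ?_ ?_ hc)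
    · simp only [Par.Qd, F.hβ, hγ]; linear_combination hr
    · rw [← hθ]
      simp only [Par.Kd, Data.kap, F.hβ, hγ, F.hγs]
      generalize D.a 0 * (D.t 0 - D.t 1) = m
      rw [F.t0, F.t1]; ring
  obtain ⟨r, hr⟩ := sqrt_ex p.ρ
  rcases hg with rfl | ⟨rfl, rfl⟩
  · exact key r hr (root2 _ _ _ (Or.inl (neg_ne_zero.2 h2)))
  by_cases h1 : 1 * r - p.ω = 0
  swap
  · exact key r hr (root2 _ _ _ (Or.inr h1))
  by_cases h3 : 1 * -r - p.ω = 0
  swap
  · exact key (-r) (by linear_combination hr) (root2 _ _ _ (Or.inr h3))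
  have r0 : r = 0 := by
    apply mul_left_cancel₀ h2
    linear_combination h1 - h3
  subst r0
  have hω : p.ω = 0 := by linear_combination -h1
  by_cases hη : p.η = 0
  · exact key 0 hr ⟨0, by rw [hη]; ring⟩
  obtain ⟨u, hu⟩ := sqrt_ex (-1 / p.η)
  have hu0 : u ≠ 0 := by
    rintro rfl
    exact div_ne_zero (neg_ne_zero.2 one_ne_zero) hη (by simpa using hu.symm)
  refine AskL.of_aff hu0 one_ne_zero (her1 (F.aff u (-u * D.a 0)) (H.aff _ _ hu0 one_ne_zero)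
    (hc.aff _ _ _ _) ?_ ?_ ?_ ?_ ?_)
  · simp [Par.aff, F.hβ, hγ]
  · simp [Par.aff, F.hβ, hγ, ← hr]
  · simp [Par.aff, F.hγs, hω]
  · simp only [Par.aff, F.hγs, hω, hu]; field_simp; ring
  · simp [Data.aff]

theorem NForm.all {g σ : K} (F : NForm p D g σ) (hg : g = 2 ∨ (g = 0 ∧ σ = 1)) (H : Base p D) :
    AskL p D := by
  by_cases hc : D.Cyc
  · exact F.cyc hg H hc
  · obtain ⟨θ, θ1, κ, S⟩ := H.split_fin hc
    exact F.ask hg S

theorem Base.ask_n (H : Base p D) (hβ : p.β = 2) (h2 : (2 : K) ≠ 0) : AskL p D := by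
  by_cases hg : p.γs = 0
  · have n : D.t 1 - D.t 0 ≠ 0 := fun e => H.ne01 (by linear_combination -e)
    have hu := inv_ne_zero n
    refine AskL.of_aff one_ne_zero hu (NForm.all (g := 0) (σ := 1) ⟨h2, hβ, ?_, ?_, ?_⟩
      (Or.inr ⟨rfl, rfl⟩) (H.aff 0 (-(D.t 1 - D.t 0)⁻¹ * D.t 0) one_ne_zero hu))
    · simp [Par.aff, hβ, hg]
    · simp [Data.aff]
    · simp only [Data.aff]; field_simp; ring
  · have hu : 2 / p.γs ≠ 0 := div_ne_zero h2 hg
    refine AskL.of_aff one_ne_zero hu (NForm.all (g := 2) ⟨h2, hβ, ?_, ?_, rfl⟩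
      (Or.inl rfl) (H.aff 0 (-(2 / p.γs) * D.t 0) one_ne_zero hu))
    · simp only [Par.aff, hβ]; field_simp; ring
    · simp [Data.aff]

end Pool.Agent.P.MP_af5c07_al
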