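import Mathlib
import Pool.Agent.P.MP_af5c07_al.AskNecN

/-!
Sorting into families for `β = -2`, and the sorting theorem.
-/

set_option linter.unusedSectionVars false
set_option linter.unusedVariables false

namespace Pool.Agent.P.MP_af5c07_al

section closed

variable {K : Type*} [Field K] [IsAlgClosed K] {p : Par K} {D : Data K}

theorem fam16 {S : Scheme K} (h : (∃ a b c d, S = bannaiIto a b c d) ∨
    (∃ g e f r, S = minusOneJacobi g e f r) ∨ (∃ s g r k w, S = orphan s g r k w)) : IsFamily S :=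
  fam7 (Or.inr (Or.inr (Or.inr (Or.inr (Or.inr (Or.inr (Or.inr (Or.inr (Or.inr h)))))))))

/-- Normal form of the eigenvalues for `β = -2`. -/
structure MForm (p : Par K) (D : Data K) (g : K) : Prop where
  h2 : (2 : K) ≠ 0
  hβ : p.β = -2
  hγs : p.γs = 0
  t0 : D.t 0 = g + 1 / 2
  t1 : D.t 1 = -(1 + g + 1 / 2)

theorem MForm.aff {g : K} (F : MForm p D g) (u v : K) :
    MForm (p.aff u v 1 0) (D.aff u v 1 0) g :=
  ⟨F.h2, F.hβ, by simp [Par.aff, F.hγs], by simp [Data.aff, F.t0], by simp [Data.aff, F.t1]⟩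

theorem eo_zero (f g : K → K) : eo f g 0 = f 0 := by rw [eo_even _ _ (by decide)]; simp

theorem eo_one (f g : K → K) : eo f g 1 = g 1 := by rw [eo_odd _ _ (by decide)]; simp

theorem bi2 {a b c d κ : K} (F : MForm p D (a + b + c + d)) (h : Split p D a (-a - 1) κ)
    (hγ : p.γ = -1) (hκ : κ = 2 * a * b + b - 2 * c * d) (hω : p.ω = 4 * (a * b - c * d))
    (hb : (D.d : K) + 2 * a + 2 * d + 1 ≠ 0 → (D.d : K) + 2 * a + 2 * c + 1 ≠ 0) : AskL p D := by
  subst hκ
  have h2 := F.h2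
  have h4 := four_ne h2
  refine h.fin (fam16 (Or.inl ⟨a, b, c, d, rfl⟩)) h2 (bi_kls a b c d h2) F.hβ hγ F.hγs hω ?_ ?_
    fun hH hne => ?_
  · rw [F.t0]; simp only [bannaiIto, kls, eo_zero, zero_add]
  · rw [F.t1]; simp only [bannaiIto, kls, eo_one]
  · have H0 := bi_H0 a b c d (D.d : K) h2
    have H1 := bi_H1 a b c d (D.d : K) h2
    simp only [bannaiIto, kls, eo_zero] at hH H0 H1 hne ⊢
    rcases eo_three (fun n : K => n + (a + b + c + d) + 1 / 2)
      (fun n => -(n + (a + b + c + d) + 1 / 2)) D.d with ⟨e, a1, -⟩ | ⟨e, a1, -⟩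
    · rw [a1, eo_even _ _ e, ← H0] at hH
      rw [eo_even _ _ e]
      by_contra hd
      exact div_ne_zero (mul_ne_zero (mul_ne_zero (mul_ne_zero (hb hd) hd) (neg_ne_zero.2 h2))
        (neg_ne_zero.2 h2)) h4 hH
    · rw [a1, eo_odd _ _ e, ← H1] at hH
      rw [eo_odd _ _ e] at hne ⊢
      have g := ne_of_fac (c := (-1 : K)) (D := (D.d : K) + 2 * (a + b + c + d) + 1) hne
        (by field_simp; ring)
      by_contra hd
      exact div_ne_zero (mul_ne_zero (mul_ne_zero (mul_ne_zero g hd) h2) h2) h4 hH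

theorem bi1 {a g κ : K} (F : MForm p D g) (h : Split p D a (-a - 1) κ) (hγ : p.γ = -1) :
    AskL p D := by
  have h2 := F.h2
  have h4 := four_ne h2
  obtain ⟨w, hw⟩ : ∃ w, p.ω = 4 * w := ⟨p.ω / 4, by field_simp⟩
  obtain ⟨b, hb⟩ : ∃ b, κ = b + 2 * w := ⟨κ - 2 * w, by ring⟩
  obtain ⟨c, d, e1, e2⟩ := two_roots (g - a - b) (a * b - w)
  by_cases hc : (D.d : K) + 2 * a + 2 * c + 1 = 0
  · have e : g = a + b + d + c := by linear_combination -e1
    exact bi2 (b := b) (c := d) (d := c) (e ▸ F) h hγ (by linear_combination hb + 2 * e2)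
      (by linear_combination hw + 4 * e2) fun e => absurd hc e
  · have e : g = a + b + c + d := by linear_combination -e1
    exact bi2 (b := b) (c := c) (d := d) (e ▸ F) h hγ (by linear_combination hb + 2 * e2)
      (by linear_combination hw + 4 * e2) fun _ => hc

theorem mj1 {θ g κ : K} (F : MForm p D g) (h : Split p D θ (-θ) κ) (hγ : p.γ = 0) :
    AskL p D := by
  have h2 := F.h2
  obtain ⟨w, hw⟩ : ∃ w, p.ω = 2 * w := ⟨p.ω / 2, by field_simp⟩
  obtain ⟨f, hf⟩ : ∃ f, f = θ + (κ - w) := ⟨_, rfl⟩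
  obtain ⟨e, he⟩ : ∃ e, e = θ - (κ - w) := ⟨_, rfl⟩
  obtain ⟨r, hr⟩ : ∃ r, r = f * g - w := ⟨_, rfl⟩
  have e1 : θ = (e + f) / 2 := by rw [he, hf]; field_simp; ring
  have e2 : κ = (f - e) / 2 + f * g - r := by rw [hr, he, hf]; field_simp; ring
  refine ((h.cast e1 (by rw [e1])).cast' e2).fin (fam16 (Or.inr (Or.inl ⟨g, e, f, r, rfl⟩))) h2
    (mj_kls g e f r h2) F.hβ hγ F.hγs ?_ ?_ ?_ fun hH hne => ?_
  · rw [hw, hr]; simp only [minusOneJacobi, kls]; ring
  · rw [F.t0]; simp only [minusOneJacobi, kls, eo_zero, zero_add]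
  · rw [F.t1]; simp only [minusOneJacobi, kls, eo_one]
  · have H0 := mj_H0 g e f r (D.d : K) h2
    have H1 := mj_H1 g e f r (D.d : K) h2
    simp only [minusOneJacobi, kls, eo_zero] at hH H0 H1 hne ⊢
    rcases eo_three (fun n : K => n + g + 1 / 2) (fun n => -(n + g + 1 / 2)) D.d with
      ⟨e, a1, -⟩ | ⟨e, a1, -⟩
    · rw [a1, eo_even _ _ e, ← H0] at hH
      rw [eo_even _ _ e]
      by_contra hd
      exact div_ne_zero (mul_ne_zero (mul_ne_zero hd (neg_ne_zero.2 h2)) (neg_ne_zero.2 h2)) h2 hH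
    · rw [a1, eo_odd _ _ e, ← H1] at hH
      rw [eo_odd _ _ e] at hne ⊢
      have g := ne_of_fac (c := (-1 : K)) (D := (D.d : K) + 2 * g + 1) hne (by field_simp; ring)
      by_contra hd
      exact div_ne_zero (mul_ne_zero (mul_ne_zero (mul_ne_zero hd g) h2) h2) h2 hH

theorem MForm.ask {g θ θ1 κ : K} (F : MForm p D g) (H : Split p D θ θ1 κ) : AskL p D := by
  have h2 := F.h2
  have h4 := four_ne h2
  have hh : (4 : K) = 2 * 2 := by norm_num
  by_cases hγ : p.γ - 2 * (θ + θ1) = 0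
  · refine AskL.of_aff one_ne_zero one_ne_zero (mj1 (F.aff 1 (-(θ + θ1) / 2))
      ((H.aff (-(θ + θ1) / 2) 0 one_ne_zero one_ne_zero).cast rfl (by field_simp; ring)) ?_)
    simp only [Par.aff, F.hβ]; field_simp; linear_combination hγ
  · have hu := inv_ne_zero hγ
    obtain ⟨u, eu⟩ : ∃ u, u = (p.γ - 2 * (θ + θ1))⁻¹ := ⟨_, rfl⟩
    have e : u * (p.γ - 2 * (θ + θ1)) = 1 := by rw [eu]; field_simp
    rw [← eu] at hu
    refine AskL.of_aff hu one_ne_zero (bi1 (F.aff u ((-1 - u * (θ + θ1)) / 2))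
      ((H.aff ((-1 - u * (θ + θ1)) / 2) 0 hu one_ne_zero).cast rfl (by field_simp; ring)) ?_)
    simp only [Par.aff, F.hβ]; field_simp; linear_combination e

theorem or1 {r κ : K} (h2 : (2 : K) = 0) (h : Split p D 0 r κ) (hβ : p.β = 0) (hγs : p.γs = 1)
    (t0 : D.t 0 = 0) : AskL p D := by
  obtain ⟨w, hw⟩ : ∃ w, p.ω = w + r * (1 + D.t 1) + p.γ * D.t 1 :=
    ⟨p.ω - r * (1 + D.t 1) - p.γ * D.t 1, by ring⟩
  have z0 : ∀ f g : K → K, eoh f g 0 = f 0 := fun f g => by simpa using eoh_even f g 0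
  have z1 : ∀ f g : K → K, eoh f g 1 = g 0 := fun f g => by simpa using eoh_odd f g 0
  refine h.fin (fam16 (Or.inr (Or.inr ⟨D.t 1, p.γ, r, κ, w, rfl⟩))) h2 (or_kls _ _ r κ w h2) hβ rfl
    hγs hw ?_ ?_ fun hH hne => ?_
  · rw [t0]; simp only [orphan, kls, z0]
  · simp only [orphan, kls, z1, zero_add]
  · have H0 := fun m hm => or_H0 (D.t 1) p.γ r κ w m h2 hm
    have H1 := fun m hm => or_H1 (D.t 1) p.γ r κ w m h2 hm
    simp only [orphan, kls, z0] at hH H0 H1 hne ⊢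
    obtain ⟨m, e | e⟩ := eoh_cases (K := K) D.d
    · rw [(e _ _).1, (e _ _).2.1, H0 _ (cast_two h2 m)] at hH
      rw [(e _ _).1]; exact hH
    · rw [(e _ _).1, (e _ _).2.1, H1 _ (cast_two h2 m)] at hH
      rw [(e _ _).1] at hne ⊢
      exact (mul_eq_zero.1 hH).resolve_left hne

theorem Base.ask_m (H : Base p D) (hβ : p.β = -2) : AskL p D := by
  obtain ⟨θ, θ1, κ, S⟩ : ∃ θ θ1 κ, Split p D θ θ1 κ := by
    by_cases hc : D.Cyc
    · exact H.split_m2 hβ hc
    · exact H.split_fin hc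
  have n := H.ne02 hβ
  have r1 := H.nice.rec' 1
  norm_num [hβ] at r1
  by_cases h2 : (2 : K) = 0
  · have e : D.t 0 - D.t 2 = p.γs := by linear_combination r1 - (D.t 1 + D.t 2) * h2
    rw [e] at n
    have hu := inv_ne_zero n
    refine AskL.of_aff one_ne_zero hu (or1 h2 ((S.aff (-θ) (-p.γs⁻¹ * D.t 0) one_ne_zero hu).cast
      (by ring) rfl) ?_ ?_ ?_)
    · simp only [Par.aff, hβ]; linear_combination -h2
    · simp only [Par.aff, hβ]
      linear_combination mul_inv_cancel₀ n - 2 * p.γs⁻¹ * D.t 0 * h2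
    · simp [Data.aff]
  · have h4 := four_ne h2
    obtain ⟨u, eu⟩ : ∃ u, u = -2 / (D.t 0 - D.t 2) := ⟨_, rfl⟩
    have hu : u ≠ 0 := by rw [eu]; exact div_ne_zero (neg_ne_zero.2 h2) n
    have e : u * (D.t 0 - D.t 2) = -2 := by rw [eu]; field_simp
    obtain ⟨v, ev⟩ : ∃ v, 4 * v = -p.γs * u := ⟨-p.γs * u / 4, by field_simp⟩
    refine AskL.of_aff one_ne_zero hu (MForm.ask (g := u * D.t 0 + v - 1 / 2)
      ⟨h2, hβ, ?_, ?_, ?_⟩ (S.aff 0 v one_ne_zero hu))
    · simp only [Par.aff, hβ]; linear_combination ev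
    · simp [Data.aff]
    · simp only [Data.aff]
      apply mul_left_cancel₀ h2
      linear_combination e + ev + u * r1

theorem Base.askL (H : Base p D) : AskL p D := by
  by_cases h1 : p.β = -2
  · exact H.ask_m h1
  by_cases h2 : p.β = 2
  · refine H.ask_n h2 fun e => h1 ?_
    rw [h2]; linear_combination 2 * e
  · exact H.ask_q h2 h1

end closed

variable {K : Type*} [Field K] {p : Par K} {D : Data K}

/-- The sorting theorem. -/
theorem askey_iff : Askey p D ↔ D.In 1 ∧ Sol p D ∧ D.Inj ∧ NP D.t := by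
  constructor
  · intro h
    obtain ⟨h1, h2, h3⟩ := AskeyVia.nice h
    exact ⟨h1.in1, h1.sol, h2, h3⟩
  · rintro ⟨h1, h2, h3, h4⟩
    exact (Base.map ⟨nice_of_sol h2 h1, h3, h4⟩ _).askL.via

theorem listed_iff : Listed p D ↔ Sol p D ∧ D.Good := by
  constructor
  · rintro (h | ⟨h, h1 | h1 | h1⟩)
    · obtain ⟨-, h2, h3, -⟩ := askey_iff.1 h
      exact ⟨h2, Or.inl h3⟩
    · refine ⟨h, Or.inl fun i hi j hj _ => ?_⟩
      have a1 := (Data.In_of_nat (m := 1) (by simpa using h1) i).1 hi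
      have a2 := (Data.In_of_nat (m := 1) (by simpa using h1) j).1 hj
      omega
    · exact ⟨h, Or.inr (Or.inl h1)⟩
    · exact ⟨h, Or.inr (Or.inr h1)⟩
  · rintro ⟨h, h1 | h1 | h1⟩
    · by_cases a1 : D.In 1
      swap
      · exact Or.inr ⟨h, Or.inl (Data.eq_one_of h.in0 a1)⟩
      by_cases a2 : NP D.t
      · exact Or.inl (askey_iff.2 ⟨a1, h, h1, a2⟩)
      obtain ⟨e1, e2⟩ := not_not.1 a2
      have hn := nice_of_sol h a1
      have n2 : ¬ D.In 2 := fun h2 => by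
        have := h1 h2 hn.in0 e2
        omega
      obtain ⟨hN, hd⟩ := Data.last_of a1 n2
      have hN2 : D.N = (2 : ℕ) := by
        rw [Data.N_eq hN]
        unfold Data.d at hd
        congr 1
        omega
      have hp : Function.Periodic D.t (1 - -1) := hn.per_of e1.symm (by simpa using e2)
      refine Or.inr ⟨h, Or.inr (Or.inr ⟨2, 1, by simpa using hN2, ⟨⟨by norm_num, fun i => ?_⟩,
        fun m hm => ?_⟩, Or.inl e1, Or.inl rfl⟩)⟩
      · simpa using hp i
      · by_contra hlt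
        have m1 : m = 1 := by have := hm.1; omega
        subst m1
        have := h1 a1 hn.in0 (by simpa using hm.2 0)
        omega
    · exact Or.inr ⟨h, Or.inr (Or.inl h1)⟩
    · exact Or.inr ⟨h, Or.inr (Or.inr h1)⟩

end Pool.Agent.P.MP_af5c07_al
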